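import Pool.Agent.RS44.Cnt

/-!
# Buchstab's identity over a finite set of moduli, layer by layer
-/

namespace HD44

open Finset RS44

/-- the number of members of `N` in the classes `b p` for `p ∈ e` and outside the classes `b p` for `p ∈ A` -/
def cnt (N : Finset ℕ) (b : ℕ → ℕ) (e A : Finset ℕ) : ℕ :=
  (N.filter fun m => (∀ p ∈ e, m ≡ b p [MOD p]) ∧ ∀ p ∈ A, ¬ m ≡ b p [MOD p]).card

theorem cnt_insert {N : Finset ℕ} {b : ℕ → ℕ} {e A : Finset ℕ} {q : ℕ} :
    cnt N b e A = cnt N b e (insert q A) + cnt N b (insert q e) A := by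
  unfold cnt
  rw [← card_union_of_disjoint]
  · congr 1
    ext m
    simp only [mem_union, mem_filter, mem_insert, forall_eq_or_imp]
    by_cases h : m ≡ b q [MOD q] <;> simp [h]
  · rw [disjoint_left]
    intro m h1 h2
    exact (mem_filter.1 h1).2.2 q (mem_insert_self _ _) ((mem_filter.1 h2).2.1 q (mem_insert_self _ _))

theorem filter_lt_insert_self {s : Finset ℕ} {a : ℕ} (h : ∀ x ∈ s, x < a) :
    (insert a s).filter (fun p => p < a) = s := by
  ext p
  rw [mem_filter, mem_insert]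
  constructor
  · rintro ⟨h1, h2⟩
    rcases h1 with h1 | h1
    · omega
    · exact h1
  · intro h1
    exact ⟨Or.inr h1, h p h1⟩

theorem filter_lt_insert {s : Finset ℕ} {a q : ℕ} (h : ∀ x ∈ s, x < a) (hq : q ∈ s) :
    (insert a s).filter (fun p => p < q) = s.filter fun p => p < q := by
  ext p
  rw [mem_filter, mem_filter, mem_insert]
  have := h q hq
  constructor
  · rintro ⟨h1, h2⟩
    rcases h1 with h1 | h1
    · omega
    · exact ⟨h1, h2⟩
  · rintro ⟨h1, h2⟩
    exact ⟨Or.inr h1, h2⟩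

/-- Buchstab's identity -/
theorem buchstab (N : Finset ℕ) (b : ℕ → ℕ) (e A : Finset ℕ) :
    (cnt N b e A : ℝ) = cnt N b e ∅ -
      ∑ q ∈ A, (cnt N b (insert q e) (A.filter fun p => p < q) : ℝ) := by
  induction A using Finset.induction_on_max with
  | empty => simp
  | insert a s h ih =>
    have ha : a ∉ s := fun h1 => lt_irrefl _ (h a h1)
    rw [sum_insert ha, filter_lt_insert_self h]
    have h1 := cnt_insert (N := N) (b := b) (e := e) (A := s) (q := a)
    have h2 : (cnt N b e s : ℝ) = cnt N b e (insert a s) + cnt N b (insert a e) s := by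
      exact_mod_cast h1
    have h3 : ∑ q ∈ s, (cnt N b (insert q e) ((insert a s).filter fun p => p < q) : ℝ) =
        ∑ q ∈ s, (cnt N b (insert q e) (s.filter fun p => p < q) : ℝ) :=
      sum_congr rfl fun q hq => by rw [filter_lt_insert h hq]
    rw [h3]
    linarith

theorem VV_insert {s : Finset ℕ} {a : ℕ} (ha : a ∉ s) :
    VV (insert a s) = (1 - 1 / (a : ℝ)) * VV s := by
  unfold VV
  rw [prod_insert ha]

/-- the same identity for the densities -/
theorem VV_buch (A : Finset ℕ) :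
    VV A = 1 - ∑ q ∈ A, 1 / (q : ℝ) * VV (A.filter fun p => p < q) := by
  induction A using Finset.induction_on_max with
  | empty => simp [VV]
  | insert a s h ih =>
    have ha : a ∉ s := fun h1 => lt_irrefl _ (h a h1)
    rw [sum_insert ha, filter_lt_insert_self h, VV_insert ha]
    have h3 : ∑ q ∈ s, 1 / (q : ℝ) * VV ((insert a s).filter fun p => p < q) =
        ∑ q ∈ s, 1 / (q : ℝ) * VV (s.filter fun p => p < q) :=
      sum_congr rfl fun q hq => by rw [filter_lt_insert h hq]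
    rw [h3]
    linarith

/-- initial segments -/
theorem VV_segment {A B : Finset ℕ} (hBA : B ⊆ A) (hseg : ∀ q ∈ B, ∀ p ∈ A, p < q → p ∈ B) :
    ∑ q ∈ A.filter (fun q => q ∉ B), 1 / (q : ℝ) * VV (A.filter fun p => p < q) = VV B - VV A := by
  have h1 := VV_buch A
  have h2 := VV_buch B
  have h3 : ∑ q ∈ A, 1 / (q : ℝ) * VV (A.filter fun p => p < q) =
      ∑ q ∈ A.filter (fun q => q ∈ B), 1 / (q : ℝ) * VV (A.filter fun p => p < q) +
      ∑ q ∈ A.filter (fun q => q ∉ B), 1 / (q : ℝ) * VV (A.filter fun p => p < q) :=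
    (sum_filter_add_sum_filter_not A (fun q => q ∈ B) _).symm
  have h4 : A.filter (fun q => q ∈ B) = B := by
    ext q
    rw [mem_filter]
    exact ⟨fun h => h.2, fun h => ⟨hBA h, h⟩⟩
  have h5 : ∑ q ∈ B, 1 / (q : ℝ) * VV (A.filter fun p => p < q) =
      ∑ q ∈ B, 1 / (q : ℝ) * VV (B.filter fun p => p < q) := by
    refine sum_congr rfl fun q hq => ?_
    congr 2
    ext p
    rw [mem_filter, mem_filter]
    constructor
    · rintro ⟨h6, h7⟩
      exact ⟨hseg q hq p h6 h7, h7⟩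
    · rintro ⟨h6, h7⟩
      exact ⟨hBA h6, h7⟩
  rw [h4, h5] at h3
  linarith

/-- Abel summation -/
theorem abel (f a : ℕ → ℝ) {j I : ℕ} (hj : j ≤ I) :
    ∑ k ∈ Icc j I, (f k - f (k + 1)) * a (k + 1) =
      ∑ k ∈ Icc j I, f k * (a (k + 1) - a k) + f j * a j - f (I + 1) * a (I + 1) := by
  induction I, hj using Nat.le_induction with
  | base => rw [Icc_self, sum_singleton, sum_singleton]; ring
  | succ I hI ih =>
    rw [Finset.sum_Icc_succ_top (by omega), ih, Finset.sum_Icc_succ_top (by omega)]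
    ring

theorem telescope (f : ℕ → ℝ) {i I : ℕ} (hi : i ≤ I) :
    ∑ k ∈ Icc i I, (f k - f (k + 1)) = f i - f (I + 1) := by
  induction I, hi using Nat.le_induction with
  | base => rw [Icc_self, sum_singleton]
  | succ I hI ih =>
    rw [Finset.sum_Icc_succ_top (by omega), ih]
    ring

/-- the layer cake bound: the sum over the moduli is bounded by the sum over the levels -/
theorem layers {A : Finset ℕ} {idx : ℕ → ℕ} {j I : ℕ} (hj : 1 ≤ j)
    (hjI : j ≤ I) (h1 : ∀ q ∈ A, j ≤ idx q ∧ idx q ≤ I)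
    (hanti : ∀ q ∈ A, ∀ p ∈ A, p < q → idx q ≤ idx p) {H : ℕ → ℝ} (hH0 : ∀ k, 0 ≤ H k)
    (hH : ∀ k, j ≤ k → k < I → H (k + 1) ≤ H k) {η κ : ℝ}
    (hV : ∀ k, j ≤ k → k ≤ I → VV (A.filter fun q => k < idx q) ≤
      (1 + η) * ((((k : ℝ) + 1) ^ κ) / (j : ℝ) ^ κ) * VV A) :
    ∑ q ∈ A, 1 / (q : ℝ) * VV (A.filter fun p => p < q) * H (idx q) ≤
      VV A * (η * H j + (1 + η) * ∑ i ∈ Icc j I, H i * (((i : ℝ) + 1) ^ κ - (i : ℝ) ^ κ) /
        (j : ℝ) ^ κ) := by
  set f : ℕ → ℝ := fun k => if k ≤ I then H k else 0 with hf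
  set a : ℕ → ℝ := fun k => (1 + η) * ((k : ℝ) ^ κ / (j : ℝ) ^ κ) - 1 with ha
  have hj0 : (0 : ℝ) < j := by exact_mod_cast hj
  have hjk : (0 : ℝ) < (j : ℝ) ^ κ := by positivity
  have hfI : f (I + 1) = 0 := if_neg (by omega)
  have hfH : ∀ k, k ≤ I → f k = H k := fun k hk => if_pos hk
  have hfmono : ∀ k ∈ Icc j I, 0 ≤ f k - f (k + 1) := by
    intro k hk
    obtain ⟨h2, h3⟩ := mem_Icc.1 hk
    rw [hfH k h3]
    rcases Nat.lt_or_ge k I with h4 | h4
    · rw [hfH (k + 1) (by omega)]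
      linarith [hH k h2 h4]
    · have : k = I := by omega
      subst this
      rw [hfI, sub_zero]
      exact hH0 k
  have hW : ∀ k ∈ Icc j I, ∑ q ∈ A.filter (fun q => idx q ≤ k), 1 / (q : ℝ) *
      VV (A.filter fun p => p < q) ≤ VV A * a (k + 1) := by
    intro k hk
    obtain ⟨h2, h3⟩ := mem_Icc.1 hk
    have h4 := VV_segment (A := A) (B := A.filter fun q => k < idx q) (filter_subset _ _) (by
      intro q hq p hp hpq
      obtain ⟨h5, h6⟩ := mem_filter.1 hq
      exact mem_filter.2 ⟨hp, lt_of_lt_of_le h6 (hanti q h5 p hp hpq)⟩)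
    have h5 : A.filter (fun q => q ∉ A.filter fun q => k < idx q) = A.filter fun q => idx q ≤ k := by
      ext q
      simp only [mem_filter]
      constructor
      · rintro ⟨h6, h7⟩
        refine ⟨h6, ?_⟩
        by_contra h8
        exact h7 ⟨h6, not_le.1 h8⟩
      · rintro ⟨h6, h7⟩
        exact ⟨h6, fun h8 => absurd h8.2 (not_lt.2 h7)⟩
    rw [h5] at h4
    rw [h4]
    have h6 := hV k h2 h3
    show _ ≤ VV A * ((1 + η) * ((((k + 1 : ℕ) : ℝ)) ^ κ / (j : ℝ) ^ κ) - 1)
    push_cast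
    linarith
  calc ∑ q ∈ A, 1 / (q : ℝ) * VV (A.filter fun p => p < q) * H (idx q)
      = ∑ q ∈ A, ∑ k ∈ Icc j I, (if idx q ≤ k then
          1 / (q : ℝ) * VV (A.filter fun p => p < q) * (f k - f (k + 1)) else 0) := by
        refine sum_congr rfl fun q hq => ?_
        obtain ⟨h2, h3⟩ := h1 q hq
        rw [← sum_filter]
        have h4 : (Icc j I).filter (fun k => idx q ≤ k) = Icc (idx q) I := by
          ext k
          rw [mem_filter, mem_Icc, mem_Icc]
          omega
        rw [h4, ← mul_sum, telescope f h3, hfI, sub_zero, hfH _ h3]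
    _ = ∑ k ∈ Icc j I, (f k - f (k + 1)) * ∑ q ∈ A.filter (fun q => idx q ≤ k), 1 / (q : ℝ) *
          VV (A.filter fun p => p < q) := by
        rw [sum_comm]
        refine sum_congr rfl fun k _ => ?_
        rw [← sum_filter, mul_sum]
        refine sum_congr rfl fun q _ => by ring
    _ ≤ ∑ k ∈ Icc j I, (f k - f (k + 1)) * (VV A * a (k + 1)) :=
        sum_le_sum fun k hk => mul_le_mul_of_nonneg_left (hW k hk) (hfmono k hk)
    _ = VV A * ∑ k ∈ Icc j I, (f k - f (k + 1)) * a (k + 1) := by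
        rw [mul_sum]
        refine sum_congr rfl fun k _ => by ring
    _ = VV A * (η * H j + (1 + η) * ∑ i ∈ Icc j I, H i * (((i : ℝ) + 1) ^ κ - (i : ℝ) ^ κ) /
        (j : ℝ) ^ κ) := by
        rw [abel f a hjI, hfI, zero_mul, sub_zero, hfH j hjI]
        have h2 : a j = η := by
          show (1 + η) * ((j : ℝ) ^ κ / (j : ℝ) ^ κ) - 1 = η
          rw [div_self hjk.ne']
          ring
        have h3 : ∑ k ∈ Icc j I, f k * (a (k + 1) - a k) =
            (1 + η) * ∑ i ∈ Icc j I, H i * (((i : ℝ) + 1) ^ κ - (i : ℝ) ^ κ) / (j : ℝ) ^ κ := by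
          rw [mul_sum]
          refine sum_congr rfl fun k hk => ?_
          rw [hfH k (mem_Icc.1 hk).2]
          show H k * ((1 + η) * ((((k + 1 : ℕ) : ℝ)) ^ κ / (j : ℝ) ^ κ) - 1 -
            ((1 + η) * ((k : ℝ) ^ κ / (j : ℝ) ^ κ) - 1)) = _
          push_cast
          ring
        rw [h2, h3]
        ring

end HD44
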