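import Pool.Agent.HD44.Gap
import Pool.Agent.HD44.Buch

/-!
# The sieve of dimension below one half, with a one-sided density condition, for a set with a level of distribution
-/

namespace HD44

open Finset RS44

/-- a finite sieve problem: the set `N`, the classes `b p`, the available moduli `Q`, the sifting moduli `P`, the
approximate size `X`, the logarithm `LD` of the level of distribution -/
structure Sys where
  N : Finset ℕ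
  b : ℕ → ℕ
  Q : Finset ℕ
  P : Finset ℕ
  X : ℝ
  LD : ℝ
  lw : ℝ
  δ : ℝ
  η : ℝ
  κ : ℝ
  n : ℕ
  I : ℕ
  Z : ℕ
  hQ : ∀ p ∈ Q, p.Prime ∧ lw < Real.log p
  hP : P ⊆ Q
  hX : 0 < X
  hlw : 0 < lw
  hδ : 0 ≤ δ
  hη : 0 ≤ η
  hκ : 0 ≤ κ
  hn : 1 ≤ n
  hI : n * LD < (I + 1) * lw
  hZ : ∀ p ∈ P, p + 1 < Z
  hZ1 : 1 < Z
  ud : ∀ e ⊆ Q, ∑ p ∈ e, Real.log p ≤ LD →
    |(cnt N b e ∅ : ℝ) - X / ∏ p ∈ e, (p : ℝ)| ≤ δ * (X / ∏ p ∈ e, (p : ℝ))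
  dm : ∀ z : ℕ, ∀ Λ ρ : ℝ, 1 ≤ ρ → (∀ p ∈ P, p < z → Real.log p ≤ Λ) →
    VV (P.filter fun p => p < z ∧ ρ * Real.log p ≤ Λ) ≤ (1 + η) * ρ ^ κ * VV (P.filter fun p => p < z)

namespace Sys

variable (Y : Sys)

/-- sifting moduli below `z` -/
def Pz (z : ℕ) : Finset ℕ := Y.P.filter fun p => p < z

/-- remaining level (logarithm) -/
noncomputable def Lv (e : Finset ℕ) : ℝ := Y.LD - ∑ p ∈ e, Real.log p

/-- expected size -/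
noncomputable def ex (e : Finset ℕ) : ℝ := Y.X / ∏ p ∈ e, (p : ℝ)

open Classical in
/-- nodes of level index at least `k` -/
noncomputable def nodes (k : ℕ) : Finset (Finset ℕ × ℕ) :=
  (Y.Q.powerset ×ˢ range Y.Z).filter fun ν => 0 ≤ Y.Lv ν.1 ∧ (∀ p ∈ Y.P, p < ν.2 → p ∉ ν.1) ∧
    ∀ p ∈ Y.P, p < ν.2 → (k : ℝ) * Real.log p ≤ Y.n * Y.Lv ν.1

/-- normalised sifting function -/
noncomputable def r (ν : Finset ℕ × ℕ) : ℝ :=
  (cnt Y.N Y.b ν.1 (Y.Pz ν.2) : ℝ) / (Y.ex ν.1 * VV (Y.Pz ν.2))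

/-- largest value -/
noncomputable def up (k : ℕ) : ℝ := (insert 1 ((Y.nodes k).image Y.r)).max' (insert_nonempty _ _)

/-- smallest value -/
noncomputable def lo (k : ℕ) : ℝ :=
  if k ≤ Y.n then 0 else (insert 1 ((Y.nodes k).image Y.r)).min' (insert_nonempty _ _)

variable {Y}

theorem mem_nodes {k : ℕ} {e : Finset ℕ} {z : ℕ} : (e, z) ∈ Y.nodes k ↔ e ⊆ Y.Q ∧ z < Y.Z ∧ 0 ≤ Y.Lv e ∧
    (∀ p ∈ Y.P, p < z → p ∉ e) ∧ ∀ p ∈ Y.P, p < z → (k : ℝ) * Real.log p ≤ Y.n * Y.Lv e := by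
  classical
  unfold nodes
  rw [mem_filter, mem_product, mem_powerset, mem_range, and_assoc]

theorem prime_of_mem {p : ℕ} (h : p ∈ Y.Q) : p.Prime := (Y.hQ p h).1

theorem log_pos {p : ℕ} (h : p ∈ Y.Q) : 0 < Real.log p := Y.hlw.trans (Y.hQ p h).2

theorem mem_Pz {z p : ℕ} : p ∈ Y.Pz z ↔ p ∈ Y.P ∧ p < z := mem_filter

theorem VV_Pz_pos (z : ℕ) : 0 < VV (Y.Pz z) :=
  VV_pos fun _ hp => prime_of_mem (Y.hP (mem_Pz.1 hp).1)

theorem prod_pos' {e : Finset ℕ} (he : e ⊆ Y.Q) : (0 : ℝ) < ∏ p ∈ e, (p : ℝ) :=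
  prod_pos fun p hp => by exact_mod_cast (prime_of_mem (he hp)).pos

theorem ex_pos {e : Finset ℕ} (he : e ⊆ Y.Q) : 0 < Y.ex e := div_pos Y.hX (prod_pos' he)

theorem ex_insert {e : Finset ℕ} {q : ℕ} (hq : q ∉ e) : Y.ex (insert q e) = Y.ex e * (1 / (q : ℝ)) := by
  unfold ex
  rw [prod_insert hq]
  rw [mul_comm (q : ℝ), ← div_div, div_eq_mul_one_div (Y.X / ∏ p ∈ e, (p : ℝ))]

theorem Lv_insert {e : Finset ℕ} {q : ℕ} (hq : q ∉ e) : Y.Lv (insert q e) = Y.Lv e - Real.log q := by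
  unfold Lv
  rw [sum_insert hq]
  ring

theorem Lv_le {e : Finset ℕ} (he : e ⊆ Y.Q) : Y.Lv e ≤ Y.LD := by
  unfold Lv
  have : 0 ≤ ∑ p ∈ e, Real.log p := sum_nonneg fun p hp => (log_pos (he hp)).le
  linarith

theorem r_nonneg {k : ℕ} {ν : Finset ℕ × ℕ} (h : ν ∈ Y.nodes k) : 0 ≤ Y.r ν := by
  obtain ⟨e, z⟩ := ν
  have he := (mem_nodes.1 h).1
  have h1 := ex_pos he
  have h2 := VV_Pz_pos (Y := Y) z
  unfold r
  positivity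

theorem cnt_eq {e : Finset ℕ} {z : ℕ} (he : e ⊆ Y.Q) :
    (cnt Y.N Y.b e (Y.Pz z) : ℝ) = Y.r (e, z) * (Y.ex e * VV (Y.Pz z)) := by
  have h1 := ex_pos he
  have h2 := VV_Pz_pos (Y := Y) z
  unfold r
  field_simp

theorem one_le_up (k : ℕ) : 1 ≤ Y.up k := le_max' _ _ (mem_insert_self _ _)

theorem r_le_up {k : ℕ} {ν : Finset ℕ × ℕ} (h : ν ∈ Y.nodes k) : Y.r ν ≤ Y.up k :=
  le_max' _ _ (mem_insert_of_mem (mem_image_of_mem _ h))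

theorem up_cases (k : ℕ) : Y.up k = 1 ∨ ∃ ν ∈ Y.nodes k, Y.r ν = Y.up k := by
  have h := max'_mem (insert 1 ((Y.nodes k).image Y.r)) (insert_nonempty _ _)
  rcases mem_insert.1 h with h | h
  · exact Or.inl h
  · obtain ⟨ν, h1, h2⟩ := mem_image.1 h
    exact Or.inr ⟨ν, h1, h2⟩

theorem lo_le_r {k : ℕ} {ν : Finset ℕ × ℕ} (h : ν ∈ Y.nodes k) : Y.lo k ≤ Y.r ν := by
  unfold lo
  split_ifs
  · exact r_nonneg h
  · exact min'_le _ _ (mem_insert_of_mem (mem_image_of_mem _ h))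

theorem lo_le_one (k : ℕ) : Y.lo k ≤ 1 := by
  unfold lo
  split_ifs
  · exact zero_le_one
  · exact min'_le _ _ (mem_insert_self _ _)

theorem lo_cases {k : ℕ} (hk : Y.n < k) : Y.lo k = 1 ∨ ∃ ν ∈ Y.nodes k, Y.r ν = Y.lo k := by
  unfold lo
  rw [if_neg (by omega)]
  have h := min'_mem (insert 1 ((Y.nodes k).image Y.r)) (insert_nonempty _ _)
  rcases mem_insert.1 h with h | h
  · exact Or.inl h
  · obtain ⟨ν, h1, h2⟩ := mem_image.1 h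
    exact Or.inr ⟨ν, h1, h2⟩

theorem lo_nonneg (k : ℕ) : 0 ≤ Y.lo k := by
  by_cases hk : k ≤ Y.n
  · unfold lo; rw [if_pos hk]
  · rcases lo_cases (Y := Y) (k := k) (by omega) with h | ⟨ν, h1, h2⟩
    · rw [h]; exact zero_le_one
    · rw [← h2]; exact r_nonneg h1

theorem nodes_anti {k l : ℕ} (h : k ≤ l) : Y.nodes l ⊆ Y.nodes k := by
  rintro ⟨e, z⟩ hν
  obtain ⟨h1, h2, h3, h4, h5⟩ := mem_nodes.1 hν
  refine mem_nodes.2 ⟨h1, h2, h3, h4, fun p hp hpz => le_trans ?_ (h5 p hp hpz)⟩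
  have h6 : (k : ℝ) ≤ l := by exact_mod_cast h
  exact mul_le_mul_of_nonneg_right h6 (log_pos (Y.hP hp)).le

theorem up_anti {k l : ℕ} (h : k ≤ l) : Y.up l ≤ Y.up k := by
  rcases up_cases (Y := Y) l with h1 | ⟨ν, h1, h2⟩
  · rw [h1]; exact one_le_up k
  · rw [← h2]; exact r_le_up (nodes_anti h h1)

theorem lo_mono {k l : ℕ} (h : k ≤ l) : Y.lo k ≤ Y.lo l := by
  by_cases hl : l ≤ Y.n
  · unfold lo
    rw [if_pos hl, if_pos (h.trans hl)]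
  · rcases lo_cases (Y := Y) (k := l) (by omega) with h1 | ⟨ν, h1, h2⟩
    · rw [h1]; exact lo_le_one k
    · rw [← h2]; exact lo_le_r (nodes_anti h h1)

/-- level index of a modulus below the node `e` -/
noncomputable def idx (Y : Sys) (e : Finset ℕ) (q : ℕ) : ℕ := ⌊(Y.n : ℝ) * Y.Lv e / Real.log q⌋₊

theorem lt_idx_iff {e : Finset ℕ} (h0 : 0 ≤ Y.Lv e) {q : ℕ} (hq : q ∈ Y.Q) {k : ℕ} :
    k < Y.idx e q ↔ ((k : ℝ) + 1) * Real.log q ≤ Y.n * Y.Lv e := by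
  have hl := log_pos hq
  unfold idx
  rw [← Nat.succ_le_iff, Nat.le_floor_iff (by positivity), le_div_iff₀ hl]
  push_cast
  rfl

theorem child {j : ℕ} {e : Finset ℕ} {z q : ℕ} (h : (e, z) ∈ Y.nodes j) (hj : Y.n + 1 ≤ j)
    (hq : q ∈ Y.Pz z) : q ∉ e ∧ j ≤ Y.idx e q ∧ Y.idx e q ≤ Y.I ∧
      (insert q e, q) ∈ Y.nodes (Y.idx e q - Y.n) := by
  obtain ⟨h1, h2, h3, h4, h5⟩ := mem_nodes.1 h
  obtain ⟨hqP, hqz⟩ := mem_Pz.1 hq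
  have hqQ := Y.hP hqP
  have hl := log_pos hqQ
  have hqe := h4 q hqP hqz
  have h6 := h5 q hqP hqz
  have hnL : 0 ≤ (Y.n : ℝ) * Y.Lv e / Real.log q := by positivity
  have hidx1 : j ≤ Y.idx e q := by
    unfold idx
    refine Nat.le_floor ?_
    rw [le_div_iff₀ hl]
    exact h6
  have hidx2 : Y.idx e q ≤ Y.I := by
    have h7 : Y.idx e q < Y.I + 1 := by
      unfold idx
      rw [Nat.floor_lt hnL, div_lt_iff₀ hl]
      push_cast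
      have h8 : (Y.n : ℝ) * Y.Lv e ≤ Y.n * Y.LD :=
        mul_le_mul_of_nonneg_left (Lv_le h1) (Nat.cast_nonneg _)
      have h9 : ((Y.I : ℝ) + 1) * Y.lw ≤ (Y.I + 1) * Real.log q :=
        mul_le_mul_of_nonneg_left (Y.hQ q hqQ).2.le (by positivity)
      linarith [Y.hI]
    omega
  have hfl : (Y.idx e q : ℝ) * Real.log q ≤ Y.n * Y.Lv e := by
    have h7 : (Y.idx e q : ℝ) ≤ Y.n * Y.Lv e / Real.log q := Nat.floor_le hnL
    rwa [le_div_iff₀ hl] at h7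
  have hnidx : Y.n ≤ Y.idx e q := by omega
  refine ⟨hqe, hidx1, hidx2, mem_nodes.2 ⟨?_, ?_, ?_, ?_, ?_⟩⟩
  · intro p hp
    rcases mem_insert.1 hp with hp | hp
    · rw [hp]; exact hqQ
    · exact h1 hp
  · have := Y.hZ q hqP
    omega
  · rw [Lv_insert hqe]
    have hn1 : (1 : ℝ) ≤ Y.n := by exact_mod_cast Y.hn
    have h7 : ((Y.n : ℝ) + 1) * Real.log q ≤ j * Real.log q := by
      refine mul_le_mul_of_nonneg_right ?_ hl.le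
      exact_mod_cast hj
    have h8 : 0 ≤ (Y.n : ℝ) * (Y.Lv e - Real.log q) := by nlinarith
    by_contra hc
    have h9 := mul_neg_of_pos_of_neg (show (0 : ℝ) < Y.n by linarith) (not_le.1 hc)
    linarith
  · intro p hp hpq hpe
    rcases mem_insert.1 hpe with hpe | hpe
    · omega
    · exact h4 p hp (hpq.trans hqz) hpe
  · intro p hp hpq
    rw [Lv_insert hqe, Nat.cast_sub hnidx]
    have hlp : Real.log p ≤ Real.log q :=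
      Real.log_le_log (by exact_mod_cast (prime_of_mem (Y.hP hp)).pos) (by exact_mod_cast hpq.le)
    have h10 : (0 : ℝ) ≤ (Y.idx e q : ℝ) - Y.n := by
      rw [sub_nonneg]; exact_mod_cast hnidx
    calc ((Y.idx e q : ℝ) - Y.n) * Real.log p ≤ ((Y.idx e q : ℝ) - Y.n) * Real.log q :=
          mul_le_mul_of_nonneg_left hlp h10
      _ = Y.idx e q * Real.log q - Y.n * Real.log q := by ring
      _ ≤ Y.n * Y.Lv e - Y.n * Real.log q := by linarith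
      _ = _ := by ring

theorem Pz_filter {z q : ℕ} (hq : q ∈ Y.Pz z) : (Y.Pz z).filter (fun p => p < q) = Y.Pz q := by
  ext p
  rw [mem_filter, mem_Pz, mem_Pz]
  have := (mem_Pz.1 hq).2
  constructor
  · rintro ⟨⟨h1, h2⟩, h3⟩
    exact ⟨h1, h3⟩
  · rintro ⟨h1, h3⟩
    exact ⟨⟨h1, h3.trans this⟩, h3⟩

/-- the sum over the children, bounded layer by layer -/
theorem child_sum {j : ℕ} {e : Finset ℕ} {z : ℕ} (h : (e, z) ∈ Y.nodes j) (hj : Y.n + 1 ≤ j)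
    (hjI : j ≤ Y.I) {H : ℕ → ℝ} (hH0 : ∀ k, 0 ≤ H k)
    (hH : ∀ k, j ≤ k → k < Y.I → H (k + 1) ≤ H k) :
    ∑ q ∈ Y.Pz z, 1 / (q : ℝ) * VV (Y.Pz q) * H (Y.idx e q) ≤
      VV (Y.Pz z) * (Y.η * H j + (1 + Y.η) * ∑ i ∈ Icc j Y.I, H i *
        (((i : ℝ) + 1) ^ Y.κ - (i : ℝ) ^ Y.κ) / (j : ℝ) ^ Y.κ) := by
  obtain ⟨h1, h2, h3, h4, h5⟩ := mem_nodes.1 h
  have hj0 : (0 : ℝ) < j := by exact_mod_cast (by omega : 0 < j)
  have e1 : ∑ q ∈ Y.Pz z, 1 / (q : ℝ) * VV (Y.Pz q) * H (Y.idx e q) =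
      ∑ q ∈ Y.Pz z, 1 / (q : ℝ) * VV ((Y.Pz z).filter fun p => p < q) * H (Y.idx e q) :=
    sum_congr rfl fun q hq => by rw [Pz_filter hq]
  rw [e1]
  refine layers (idx := Y.idx e) (by omega) hjI (fun q hq => ?_) ?_ hH0 hH ?_
  · exact ⟨(child h hj hq).2.1, (child h hj hq).2.2.1⟩
  · intro q hq p hp hpq
    unfold idx
    have hlq := log_pos (Y.hP (mem_Pz.1 hq).1)
    have hlp := log_pos (Y.hP (mem_Pz.1 hp).1)
    refine Nat.floor_mono (div_le_div_of_nonneg_left (by positivity) hlp ?_)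
    exact Real.log_le_log (by exact_mod_cast (prime_of_mem (Y.hP (mem_Pz.1 hp).1)).pos)
      (by exact_mod_cast hpq.le)
  · intro k hjk hkI
    have hρ : (1 : ℝ) ≤ ((k : ℝ) + 1) / j := by
      rw [le_div_iff₀ hj0]
      have : (j : ℝ) ≤ k := by exact_mod_cast hjk
      linarith
    have h6 := Y.dm z (Y.n * Y.Lv e / j) (((k : ℝ) + 1) / j) hρ (fun p hp hpz => by
      rw [le_div_iff₀ hj0, mul_comm]
      exact h5 p hp hpz)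
    rw [Real.div_rpow (by positivity) hj0.le] at h6
    refine le_trans (le_of_eq ?_) h6
    congr 1
    ext p
    rw [mem_filter, mem_filter, mem_Pz]
    constructor
    · rintro ⟨⟨h7, h8⟩, h9⟩
      refine ⟨h7, h8, ?_⟩
      rw [div_mul_eq_mul_div, div_le_div_iff_of_pos_right hj0]
      exact (lt_idx_iff h3 (Y.hP h7)).1 h9
    · rintro ⟨h7, h8, h9⟩
      refine ⟨⟨h7, h8⟩, ?_⟩
      rw [div_mul_eq_mul_div, div_le_div_iff_of_pos_right hj0] at h9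
      exact (lt_idx_iff h3 (Y.hP h7)).2 h9

/-- the density at a node is not small -/
theorem inv_VV {j : ℕ} {e : Finset ℕ} {z : ℕ} (h : (e, z) ∈ Y.nodes j) (hj : 1 ≤ j) (hjI : j ≤ Y.I) :
    1 ≤ (1 + Y.η) * ((Y.I : ℝ) + 1) ^ Y.κ / (j : ℝ) ^ Y.κ * VV (Y.Pz z) := by
  obtain ⟨h1, h2, h3, h4, h5⟩ := mem_nodes.1 h
  have hj0 : (0 : ℝ) < j := by exact_mod_cast (by omega : 0 < j)
  have hρ : (1 : ℝ) ≤ ((Y.I : ℝ) + 1) / j := by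
    rw [le_div_iff₀ hj0]
    have : (j : ℝ) ≤ Y.I := by exact_mod_cast hjI
    linarith
  have h6 := Y.dm z (Y.n * Y.Lv e / j) (((Y.I : ℝ) + 1) / j) hρ (fun p hp hpz => by
    rw [le_div_iff₀ hj0, mul_comm]
    exact h5 p hp hpz)
  rw [Real.div_rpow (by positivity) hj0.le] at h6
  have h7 : Y.P.filter (fun p => p < z ∧ ((Y.I : ℝ) + 1) / j * Real.log p ≤ Y.n * Y.Lv e / j) = ∅ := by
    rw [filter_eq_empty_iff]
    rintro p hp ⟨h8, h9⟩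
    rw [div_mul_eq_mul_div, div_le_div_iff_of_pos_right hj0] at h9
    have h10 : (Y.n : ℝ) * Y.Lv e ≤ Y.n * Y.LD :=
      mul_le_mul_of_nonneg_left (Lv_le h1) (Nat.cast_nonneg _)
    have h11 : ((Y.I : ℝ) + 1) * Y.lw ≤ (Y.I + 1) * Real.log p :=
      mul_le_mul_of_nonneg_left (Y.hQ p (Y.hP hp)).2.le (by positivity)
    linarith [Y.hI]
  rw [h7] at h6
  have h8 : VV ∅ = 1 := by unfold VV; simp
  rw [h8] at h6
  calc (1 : ℝ) ≤ _ := h6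
    _ = _ := by
        unfold Pz
        ring

theorem ud_node {k : ℕ} {e : Finset ℕ} {z : ℕ} (h : (e, z) ∈ Y.nodes k) :
    (1 - Y.δ) * Y.ex e ≤ cnt Y.N Y.b e ∅ ∧ (cnt Y.N Y.b e ∅ : ℝ) ≤ (1 + Y.δ) * Y.ex e := by
  obtain ⟨h1, h2, h3, h4, h5⟩ := mem_nodes.1 h
  have h6 := Y.ud e h1 (by unfold Lv at h3; linarith)
  rw [abs_le] at h6
  unfold ex
  constructor <;> linarith [h6.1, h6.2]

theorem lower_node {j : ℕ} {ν : Finset ℕ × ℕ} (h : ν ∈ Y.nodes j) (hj : Y.n + 1 ≤ j)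
    (hjI : j ≤ Y.I) :
    1 - Y.r ν ≤ Y.δ * ((1 + Y.η) * ((Y.I : ℝ) + 1) ^ Y.κ / (j : ℝ) ^ Y.κ) +
      (Y.η * (Y.up (j - Y.n) - 1) + (1 + Y.η) * ∑ i ∈ Icc j Y.I, (Y.up (i - Y.n) - 1) *
        (((i : ℝ) + 1) ^ Y.κ - (i : ℝ) ^ Y.κ) / (j : ℝ) ^ Y.κ) := by
  obtain ⟨e, z⟩ := ν
  have he := (mem_nodes.1 h).1
  have hex := ex_pos he
  have hVz := VV_Pz_pos (Y := Y) z
  have hud := (ud_node h).1
  have hb := buchstab Y.N Y.b e (Y.Pz z)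
  have hch : ∑ q ∈ Y.Pz z, (cnt Y.N Y.b (insert q e) ((Y.Pz z).filter fun p => p < q) : ℝ) ≤
      ∑ q ∈ Y.Pz z, Y.ex e * (1 / (q : ℝ) * VV (Y.Pz q) * Y.up (Y.idx e q - Y.n)) := by
    refine sum_le_sum fun q hq => ?_
    obtain ⟨h1, h2, h3, h4⟩ := child h hj hq
    rw [Pz_filter hq, cnt_eq (mem_nodes.1 h4).1, ex_insert h1]
    have h5 := r_le_up h4
    have h6 := VV_Pz_pos (Y := Y) q
    have hq0 : (0 : ℝ) < q := by exact_mod_cast (prime_of_mem (Y.hP (mem_Pz.1 hq).1)).pos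
    calc Y.r (insert q e, q) * (Y.ex e * (1 / (q : ℝ)) * VV (Y.Pz q))
        ≤ Y.up (Y.idx e q - Y.n) * (Y.ex e * (1 / (q : ℝ)) * VV (Y.Pz q)) :=
          mul_le_mul_of_nonneg_right h5 (by positivity)
      _ = _ := by ring
  have hV := VV_buch (Y.Pz z)
  have hV2 : ∑ q ∈ Y.Pz z, 1 / (q : ℝ) * VV ((Y.Pz z).filter fun p => p < q) =
      ∑ q ∈ Y.Pz z, 1 / (q : ℝ) * VV (Y.Pz q) :=
    sum_congr rfl fun q hq => by rw [Pz_filter hq]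
  rw [hV2] at hV
  have hcs := child_sum h hj hjI (H := fun k => Y.up (k - Y.n) - 1)
    (fun k => by have := one_le_up (Y := Y) (k - Y.n); linarith)
    (fun k _ _ => by have := up_anti (Y := Y) (show k - Y.n ≤ k + 1 - Y.n by omega); linarith)
  have e2 : ∑ q ∈ Y.Pz z, Y.ex e * (1 / (q : ℝ) * VV (Y.Pz q) * Y.up (Y.idx e q - Y.n)) =
      Y.ex e * (∑ q ∈ Y.Pz z, 1 / (q : ℝ) * VV (Y.Pz q) +
      ∑ q ∈ Y.Pz z, 1 / (q : ℝ) * VV (Y.Pz q) * (Y.up (Y.idx e q - Y.n) - 1)) := by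
    rw [← mul_sum, ← sum_add_distrib]
    congr 1
    refine sum_congr rfl fun q _ => by ring
  have hinv := inv_VV h (by omega) hjI
  set B : ℝ := Y.η * (Y.up (j - Y.n) - 1) + (1 + Y.η) * ∑ i ∈ Icc j Y.I, (Y.up (i - Y.n) - 1) *
        (((i : ℝ) + 1) ^ Y.κ - (i : ℝ) ^ Y.κ) / (j : ℝ) ^ Y.κ with hB
  set T : ℝ := (1 + Y.η) * ((Y.I : ℝ) + 1) ^ Y.κ / (j : ℝ) ^ Y.κ with hT
  have h10 : Y.ex e * (VV (Y.Pz z) * (1 - Y.δ * T - B)) ≤ Y.r (e, z) * (Y.ex e * VV (Y.Pz z)) := by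
    rw [← cnt_eq he, hb]
    have h11 : Y.δ ≤ Y.δ * (T * VV (Y.Pz z)) := le_mul_of_one_le_right Y.hδ hinv
    have h12 : Y.ex e * (VV (Y.Pz z) * (1 - Y.δ * T - B)) ≤
        Y.ex e * ((1 - Y.δ) - (∑ q ∈ Y.Pz z, 1 / (q : ℝ) * VV (Y.Pz q) +
      ∑ q ∈ Y.Pz z, 1 / (q : ℝ) * VV (Y.Pz q) * (Y.up (Y.idx e q - Y.n) - 1))) := by
      refine mul_le_mul_of_nonneg_left ?_ hex.le
      have h13 : VV (Y.Pz z) * (1 - Y.δ * T - B) =
        VV (Y.Pz z) - Y.δ * (T * VV (Y.Pz z)) - VV (Y.Pz z) * B := by ring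
      rw [h13]
      linarith
    have h14 : Y.ex e * ((1 - Y.δ) - (∑ q ∈ Y.Pz z, 1 / (q : ℝ) * VV (Y.Pz q) +
      ∑ q ∈ Y.Pz z, 1 / (q : ℝ) * VV (Y.Pz q) * (Y.up (Y.idx e q - Y.n) - 1))) =
      (1 - Y.δ) * Y.ex e - Y.ex e * (∑ q ∈ Y.Pz z, 1 / (q : ℝ) * VV (Y.Pz q) +
      ∑ q ∈ Y.Pz z, 1 / (q : ℝ) * VV (Y.Pz q) * (Y.up (Y.idx e q - Y.n) - 1)) := by ring
    rw [← e2] at h14
    linarith
  have h15 : Y.ex e * (VV (Y.Pz z) * (1 - Y.δ * T - B)) =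
      (1 - Y.δ * T - B) * (Y.ex e * VV (Y.Pz z)) := by ring
  rw [h15] at h10
  have h16 := le_of_mul_le_mul_right h10 (mul_pos hex hVz)
  linarith

theorem upper_node {j : ℕ} {ν : Finset ℕ × ℕ} (h : ν ∈ Y.nodes j) (hj : Y.n + 1 ≤ j)
    (hjI : j ≤ Y.I) :
    Y.r ν - 1 ≤ Y.δ * ((1 + Y.η) * ((Y.I : ℝ) + 1) ^ Y.κ / (j : ℝ) ^ Y.κ) +
      (Y.η * (1 - Y.lo (j - Y.n)) + (1 + Y.η) * ∑ i ∈ Icc j Y.I, (1 - Y.lo (i - Y.n)) *
        (((i : ℝ) + 1) ^ Y.κ - (i : ℝ) ^ Y.κ) / (j : ℝ) ^ Y.κ) := by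
  obtain ⟨e, z⟩ := ν
  have he := (mem_nodes.1 h).1
  have hex := ex_pos he
  have hVz := VV_Pz_pos (Y := Y) z
  have hud := (ud_node h).2
  have hb := buchstab Y.N Y.b e (Y.Pz z)
  have hch : ∑ q ∈ Y.Pz z, Y.ex e * (1 / (q : ℝ) * VV (Y.Pz q) * Y.lo (Y.idx e q - Y.n)) ≤
      ∑ q ∈ Y.Pz z, (cnt Y.N Y.b (insert q e) ((Y.Pz z).filter fun p => p < q) : ℝ) := by
    refine sum_le_sum fun q hq => ?_
    obtain ⟨h1, h2, h3, h4⟩ := child h hj hq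
    rw [Pz_filter hq, cnt_eq (mem_nodes.1 h4).1, ex_insert h1]
    have h5 := lo_le_r h4
    have h6 := VV_Pz_pos (Y := Y) q
    have hq0 : (0 : ℝ) < q := by exact_mod_cast (prime_of_mem (Y.hP (mem_Pz.1 hq).1)).pos
    calc Y.ex e * (1 / (q : ℝ) * VV (Y.Pz q) * Y.lo (Y.idx e q - Y.n)) =
          Y.lo (Y.idx e q - Y.n) * (Y.ex e * (1 / (q : ℝ)) * VV (Y.Pz q)) := by ring
      _ ≤ _ := mul_le_mul_of_nonneg_right h5 (by positivity)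
  have hV := VV_buch (Y.Pz z)
  have hV2 : ∑ q ∈ Y.Pz z, 1 / (q : ℝ) * VV ((Y.Pz z).filter fun p => p < q) =
      ∑ q ∈ Y.Pz z, 1 / (q : ℝ) * VV (Y.Pz q) :=
    sum_congr rfl fun q hq => by rw [Pz_filter hq]
  rw [hV2] at hV
  have hcs := child_sum h hj hjI (H := fun k => 1 - Y.lo (k - Y.n))
    (fun k => by have := lo_le_one (Y := Y) (k - Y.n); linarith)
    (fun k _ _ => by have := lo_mono (Y := Y) (show k - Y.n ≤ k + 1 - Y.n by omega); linarith)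
  have e2 : ∑ q ∈ Y.Pz z, Y.ex e * (1 / (q : ℝ) * VV (Y.Pz q) * Y.lo (Y.idx e q - Y.n)) =
      Y.ex e * (∑ q ∈ Y.Pz z, 1 / (q : ℝ) * VV (Y.Pz q) -
      ∑ q ∈ Y.Pz z, 1 / (q : ℝ) * VV (Y.Pz q) * (1 - Y.lo (Y.idx e q - Y.n))) := by
    rw [← mul_sum, ← sum_sub_distrib]
    congr 1
    refine sum_congr rfl fun q _ => by ring
  have hinv := inv_VV h (by omega) hjI
  set B : ℝ := Y.η * (1 - Y.lo (j - Y.n)) + (1 + Y.η) * ∑ i ∈ Icc j Y.I, (1 - Y.lo (i - Y.n)) *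
        (((i : ℝ) + 1) ^ Y.κ - (i : ℝ) ^ Y.κ) / (j : ℝ) ^ Y.κ with hB
  set T : ℝ := (1 + Y.η) * ((Y.I : ℝ) + 1) ^ Y.κ / (j : ℝ) ^ Y.κ with hT
  have h10 : Y.r (e, z) * (Y.ex e * VV (Y.Pz z)) ≤ Y.ex e * (VV (Y.Pz z) * (1 + Y.δ * T + B)) := by
    rw [← cnt_eq he, hb]
    have h11 : Y.δ ≤ Y.δ * (T * VV (Y.Pz z)) := le_mul_of_one_le_right Y.hδ hinv
    have h12 : Y.ex e * ((1 + Y.δ) - (∑ q ∈ Y.Pz z, 1 / (q : ℝ) * VV (Y.Pz q) -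
      ∑ q ∈ Y.Pz z, 1 / (q : ℝ) * VV (Y.Pz q) * (1 - Y.lo (Y.idx e q - Y.n)))) ≤
        Y.ex e * (VV (Y.Pz z) * (1 + Y.δ * T + B)) := by
      refine mul_le_mul_of_nonneg_left ?_ hex.le
      have h13 : VV (Y.Pz z) * (1 + Y.δ * T + B) =
        VV (Y.Pz z) + Y.δ * (T * VV (Y.Pz z)) + VV (Y.Pz z) * B := by ring
      rw [h13]
      linarith
    have h14 : Y.ex e * ((1 + Y.δ) - (∑ q ∈ Y.Pz z, 1 / (q : ℝ) * VV (Y.Pz q) -
      ∑ q ∈ Y.Pz z, 1 / (q : ℝ) * VV (Y.Pz q) * (1 - Y.lo (Y.idx e q - Y.n)))) =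
      (1 + Y.δ) * Y.ex e - Y.ex e * (∑ q ∈ Y.Pz z, 1 / (q : ℝ) * VV (Y.Pz q) -
      ∑ q ∈ Y.Pz z, 1 / (q : ℝ) * VV (Y.Pz q) * (1 - Y.lo (Y.idx e q - Y.n))) := by ring
    rw [← e2] at h14
    linarith
  have h15 : Y.ex e * (VV (Y.Pz z) * (1 + Y.δ * T + B)) =
      (1 + Y.δ * T + B) * (Y.ex e * VV (Y.Pz z)) := by ring
  rw [h15] at h10
  have h16 := le_of_mul_le_mul_right h10 (mul_pos hex hVz)
  linarith

/-- upper bound at nodes of small level -/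
theorem small_level {e : Finset ℕ} {z : ℕ} (he : e ⊆ Y.Q) (hz : z < Y.Z) (h0 : 0 ≤ Y.Lv e)
    (hno : ∀ p ∈ Y.P, p < z → p ∉ e) {Λ ρ : ℝ} (hΛ : ∀ p ∈ Y.P, p < z → Real.log p ≤ Λ) (hρ : 1 ≤ ρ)
    (hρΛ : ((Y.n : ℝ) + 1) * Λ ≤ ρ * (Y.n * Y.Lv e)) :
    (cnt Y.N Y.b e (Y.Pz z) : ℝ) ≤ Y.up (Y.n + 1) * ((1 + Y.η) * ρ ^ Y.κ) * (Y.ex e * VV (Y.Pz z)) := by
  set z1 : ℕ := ⌊Real.exp (Y.n * Y.Lv e / (Y.n + 1))⌋₊ + 1 with hz1
  set z2 : ℕ := min z z1 with hz2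
  have hnode : (e, z2) ∈ Y.nodes (Y.n + 1) := by
    refine mem_nodes.2 ⟨he, lt_of_le_of_lt (min_le_left _ _) hz, h0, fun p hp hpz => ?_,
      fun p hp hpz => ?_⟩
    · exact hno p hp (lt_of_lt_of_le hpz (min_le_left _ _))
    · have h1 : p < z1 := lt_of_lt_of_le hpz (min_le_right _ _)
      have hp0 : (0 : ℝ) < p := by exact_mod_cast (prime_of_mem (Y.hP hp)).pos
      have h2 : (p : ℝ) ≤ Real.exp (Y.n * Y.Lv e / (Y.n + 1)) := by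
        have h3 : p ≤ ⌊Real.exp (Y.n * Y.Lv e / (Y.n + 1))⌋₊ := by omega
        exact (Nat.le_floor_iff (Real.exp_pos _).le).1 h3
      have h4 := Real.log_le_log hp0 h2
      rw [Real.log_exp, le_div_iff₀ (by positivity)] at h4
      push_cast
      linarith
  have hsub : Y.P.filter (fun p => p < z ∧ ρ * Real.log p ≤ Λ) ⊆ Y.Pz z2 := by
    intro p hp
    obtain ⟨h1, h2, h3⟩ := mem_filter.1 hp
    refine mem_Pz.2 ⟨h1, lt_min h2 ?_⟩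
    have hp0 : (0 : ℝ) < p := by exact_mod_cast (prime_of_mem (Y.hP h1)).pos
    have h4 : ρ * (((Y.n : ℝ) + 1) * Real.log p) ≤ ρ * (Y.n * Y.Lv e) := by
      calc ρ * (((Y.n : ℝ) + 1) * Real.log p) = ((Y.n : ℝ) + 1) * (ρ * Real.log p) := by ring
        _ ≤ ((Y.n : ℝ) + 1) * Λ := mul_le_mul_of_nonneg_left h3 (by positivity)
        _ ≤ _ := hρΛ
    have h5 : ((Y.n : ℝ) + 1) * Real.log p ≤ Y.n * Y.Lv e := le_of_mul_le_mul_left h4 (by linarith)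
    have h6 : (p : ℝ) ≤ Real.exp (Y.n * Y.Lv e / (Y.n + 1)) := by
      rw [← Real.exp_log hp0]
      refine Real.exp_le_exp.mpr ?_
      rw [le_div_iff₀ (by positivity)]
      linarith
    have h7 : p ≤ ⌊Real.exp (Y.n * Y.Lv e / (Y.n + 1))⌋₊ := Nat.le_floor h6
    omega
  have hVsub : VV (Y.Pz z2) ≤ (1 + Y.η) * ρ ^ Y.κ * VV (Y.Pz z) := by
    refine le_trans ?_ (Y.dm z Λ ρ hρ hΛ)
    unfold VV
    rw [← prod_sdiff hsub]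
    refine mul_le_of_le_one_left ?_ ?_
    · exact prod_nonneg fun p hp => by
        have h2 : (2 : ℝ) ≤ p := by
          exact_mod_cast (prime_of_mem (Y.hP (mem_filter.1 hp).1)).two_le
        have : 1 / (p : ℝ) ≤ 1 := by rw [div_le_one (by linarith)]; linarith
        linarith
    · refine prod_le_one (fun p hp => ?_) (fun p hp => ?_)
      · have h2 : (2 : ℝ) ≤ p := by
          exact_mod_cast (prime_of_mem (Y.hP (mem_Pz.1 (mem_sdiff.1 hp).1).1)).two_le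
        have : 1 / (p : ℝ) ≤ 1 := by rw [div_le_one (by linarith)]; linarith
        linarith
      · have : 0 ≤ 1 / (p : ℝ) := by positivity
        linarith
  have hcnt : (cnt Y.N Y.b e (Y.Pz z) : ℝ) ≤ cnt Y.N Y.b e (Y.Pz z2) := by
    unfold cnt
    refine Nat.cast_le.2 (card_le_card fun m hm => ?_)
    obtain ⟨h1, h2, h3⟩ := mem_filter.1 hm
    refine mem_filter.2 ⟨h1, h2, fun p hp => h3 p ?_⟩
    obtain ⟨h4, h5⟩ := mem_Pz.1 hp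
    exact mem_Pz.2 ⟨h4, lt_of_lt_of_le h5 (min_le_left _ _)⟩
  have hex := ex_pos he
  have hup : 0 ≤ Y.up (Y.n + 1) := zero_le_one.trans (one_le_up _)
  calc (cnt Y.N Y.b e (Y.Pz z) : ℝ) ≤ cnt Y.N Y.b e (Y.Pz z2) := hcnt
    _ = Y.r (e, z2) * (Y.ex e * VV (Y.Pz z2)) := cnt_eq he
    _ ≤ Y.up (Y.n + 1) * (Y.ex e * VV (Y.Pz z2)) :=
        mul_le_mul_of_nonneg_right (r_le_up hnode) (mul_pos hex (VV_Pz_pos _)).le
    _ ≤ Y.up (Y.n + 1) * (Y.ex e * ((1 + Y.η) * ρ ^ Y.κ * VV (Y.Pz z))) :=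
        mul_le_mul_of_nonneg_left (mul_le_mul_of_nonneg_left hVsub hex.le) hup
    _ = _ := by ring

theorem r_small {k : ℕ} {ν : Finset ℕ × ℕ} (h : ν ∈ Y.nodes k) (hk : 1 ≤ k) (hkn : k ≤ Y.n + 1) :
    Y.r ν ≤ Y.up (Y.n + 1) * ((1 + Y.η) * (((Y.n : ℝ) + 1) ^ Y.κ / (k : ℝ) ^ Y.κ)) := by
  obtain ⟨e, z⟩ := ν
  obtain ⟨h1, h2, h3, h4, h5⟩ := mem_nodes.1 h
  have hk0 : (0 : ℝ) < k := by exact_mod_cast (by omega : 0 < k)
  have h6 := small_level h1 h2 h3 h4 (Λ := Y.n * Y.Lv e / k) (ρ := ((Y.n : ℝ) + 1) / k)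
    (fun p hp hpz => by rw [le_div_iff₀ hk0, mul_comm]; exact h5 p hp hpz)
    (by rw [le_div_iff₀ hk0, one_mul]; exact_mod_cast hkn) (le_of_eq (by ring))
  rw [Real.div_rpow (by positivity) hk0.le, cnt_eq h1] at h6
  exact le_of_mul_le_mul_right h6 (mul_pos (ex_pos h1) (VV_Pz_pos _))

/-- the main inequality between the extreme values -/
theorem gap_main (h1 : Y.κ < 1) (hI : Y.n + 1 ≤ Y.I) (hηκ : (1 + Y.η) * Y.κ + Y.η ≤ 1 - Y.κ) :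
    Y.up (Y.n + 1) - Y.lo (Y.n + 1) ≤ 2 * Y.δ * (1 + Y.η) * ((Y.I : ℝ) + 1) / ((Y.n : ℝ) + 1) +
      Y.up (Y.n + 1) * (Y.η * (1 + Y.η) * ((Y.n : ℝ) + 1) ^ Y.κ + (Y.η + (1 + Y.η) * Y.κ) *
        ((1 + Y.η) / (1 - Y.κ) + (1 + Y.η) / ((Y.n : ℝ) + 1))) := by
  have hup0 : 0 ≤ Y.up (Y.n + 1) := zero_le_one.trans (one_le_up _)
  refine gap Y.hκ h1 hI Y.hη Y.hδ hηκ (fun k => Y.up k - Y.lo k) (fun k => ?_) hup0 ?_ ?_
  · have h2 := one_le_up (Y := Y) k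
    have h3 := lo_le_one (Y := Y) k
    linarith
  · intro j hj hjI
    have hT0 : 0 ≤ (1 + Y.η) * ((Y.I : ℝ) + 1) ^ Y.κ / (j : ℝ) ^ Y.κ := by
      have := Y.hη
      positivity
    have hstep : ∀ i : ℕ, 0 ≤ (((i : ℝ) + 1) ^ Y.κ - (i : ℝ) ^ Y.κ) := fun i => by
      rw [sub_nonneg]
      exact Real.rpow_le_rpow (by positivity) (by linarith) Y.hκ
    have hj0 : (0 : ℝ) ≤ (j : ℝ) ^ Y.κ := by positivity
    have hA : Y.up j - 1 ≤ Y.δ * ((1 + Y.η) * ((Y.I : ℝ) + 1) ^ Y.κ / (j : ℝ) ^ Y.κ) +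
      (Y.η * (1 - Y.lo (j - Y.n)) + (1 + Y.η) * ∑ i ∈ Icc j Y.I, (1 - Y.lo (i - Y.n)) *
        (((i : ℝ) + 1) ^ Y.κ - (i : ℝ) ^ Y.κ) / (j : ℝ) ^ Y.κ) := by
      rcases up_cases (Y := Y) j with h2 | ⟨ν, h2, h3⟩
      · rw [h2, sub_self]
        have h4 : ∀ k, 0 ≤ 1 - Y.lo k := fun k => by linarith [lo_le_one (Y := Y) k]
        have h5 : 0 ≤ ∑ i ∈ Icc j Y.I, (1 - Y.lo (i - Y.n)) *
          (((i : ℝ) + 1) ^ Y.κ - (i : ℝ) ^ Y.κ) / (j : ℝ) ^ Y.κ :=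
          sum_nonneg fun i _ => div_nonneg (mul_nonneg (h4 _) (hstep i)) hj0
        have h6 := h4 (j - Y.n)
        exact add_nonneg (mul_nonneg Y.hδ hT0) (add_nonneg (mul_nonneg Y.hη h6)
          (mul_nonneg (by linarith [Y.hη]) h5))
      · rw [← h3]
        exact upper_node h2 hj hjI
    have hB : 1 - Y.lo j ≤ Y.δ * ((1 + Y.η) * ((Y.I : ℝ) + 1) ^ Y.κ / (j : ℝ) ^ Y.κ) +
      (Y.η * (Y.up (j - Y.n) - 1) + (1 + Y.η) * ∑ i ∈ Icc j Y.I, (Y.up (i - Y.n) - 1) *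
        (((i : ℝ) + 1) ^ Y.κ - (i : ℝ) ^ Y.κ) / (j : ℝ) ^ Y.κ) := by
      rcases lo_cases (Y := Y) (k := j) (by omega) with h2 | ⟨ν, h2, h3⟩
      · rw [h2, sub_self]
        have h4 : ∀ k, 0 ≤ Y.up k - 1 := fun k => by linarith [one_le_up (Y := Y) k]
        have h5 : 0 ≤ ∑ i ∈ Icc j Y.I, (Y.up (i - Y.n) - 1) *
          (((i : ℝ) + 1) ^ Y.κ - (i : ℝ) ^ Y.κ) / (j : ℝ) ^ Y.κ :=
          sum_nonneg fun i _ => div_nonneg (mul_nonneg (h4 _) (hstep i)) hj0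
        have h6 := h4 (j - Y.n)
        exact add_nonneg (mul_nonneg Y.hδ hT0) (add_nonneg (mul_nonneg Y.hη h6)
          (mul_nonneg (by linarith [Y.hη]) h5))
      · rw [← h3]
        exact lower_node h2 hj hjI
    have hC : ∑ i ∈ Icc j Y.I, (Y.up (i - Y.n) - Y.lo (i - Y.n)) *
        (((i : ℝ) + 1) ^ Y.κ - (i : ℝ) ^ Y.κ) / (j : ℝ) ^ Y.κ =
        ∑ i ∈ Icc j Y.I, (1 - Y.lo (i - Y.n)) *
        (((i : ℝ) + 1) ^ Y.κ - (i : ℝ) ^ Y.κ) / (j : ℝ) ^ Y.κ +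
        ∑ i ∈ Icc j Y.I, (Y.up (i - Y.n) - 1) *
        (((i : ℝ) + 1) ^ Y.κ - (i : ℝ) ^ Y.κ) / (j : ℝ) ^ Y.κ := by
      rw [← sum_add_distrib]
      refine sum_congr rfl fun i _ => by ring
    show Y.up j - Y.lo j ≤ 2 * Y.δ * ((1 + Y.η) * ((Y.I : ℝ) + 1) ^ Y.κ / (j : ℝ) ^ Y.κ) +
      (Y.η * (Y.up (j - Y.n) - Y.lo (j - Y.n)) + (1 + Y.η) * ∑ i ∈ Icc j Y.I,
        (Y.up (i - Y.n) - Y.lo (i - Y.n)) * (((i : ℝ) + 1) ^ Y.κ - (i : ℝ) ^ Y.κ) /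
        (j : ℝ) ^ Y.κ)
    rw [hC]
    linarith
  · intro k hk hkn
    have hk0 : (0 : ℝ) < k := by exact_mod_cast (by omega : 0 < k)
    have h2 : Y.up k ≤ Y.up (Y.n + 1) * ((1 + Y.η) * (((Y.n : ℝ) + 1) ^ Y.κ / (k : ℝ) ^ Y.κ)) := by
      rcases up_cases (Y := Y) k with h2 | ⟨ν, h2, h3⟩
      · rw [h2]
        have h4 : (1 : ℝ) ≤ ((Y.n : ℝ) + 1) ^ Y.κ / (k : ℝ) ^ Y.κ := by
          rw [le_div_iff₀ (by positivity), one_mul]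
          exact Real.rpow_le_rpow hk0.le (by exact_mod_cast hkn) Y.hκ
        have h5 := one_le_up (Y := Y) (Y.n + 1)
        have h6 : (1 : ℝ) ≤ (1 + Y.η) * (((Y.n : ℝ) + 1) ^ Y.κ / (k : ℝ) ^ Y.κ) := by
          have := Y.hη
          nlinarith
        nlinarith
      · rw [← h3]
        exact r_small h2 hk hkn
    have h3 := lo_nonneg (Y := Y) k
    linarith

theorem Pz_all : Y.Pz (Y.Z - 1) = Y.P := by
  ext p
  rw [mem_Pz]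
  exact ⟨fun h => h.1, fun h => ⟨h, by have := Y.hZ p h; omega⟩⟩

/-- lower bound for the number of unsifted elements, upper bounds in the classes of the remaining moduli -/
theorem core (h1 : Y.κ < 1) (hI : Y.n + 1 ≤ Y.I) (hηκ : (1 + Y.η) * Y.κ + Y.η ≤ 1 - Y.κ)
    (hL : 0 ≤ Y.LD) (htop : ∀ p ∈ Y.P, ((Y.n : ℝ) + 1) * Real.log p ≤ Y.n * Y.LD) :
    ∃ Φ : ℝ, 1 ≤ Φ ∧
      (Φ - (2 * Y.δ * (1 + Y.η) * ((Y.I : ℝ) + 1) / ((Y.n : ℝ) + 1) +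
      Φ * (Y.η * (1 + Y.η) * ((Y.n : ℝ) + 1) ^ Y.κ + (Y.η + (1 + Y.η) * Y.κ) *
        ((1 + Y.η) / (1 - Y.κ) + (1 + Y.η) / ((Y.n : ℝ) + 1))))) * (Y.X * VV Y.P) ≤
        cnt Y.N Y.b ∅ Y.P ∧
      ∀ q ∈ Y.Q, q ∉ Y.P → ∀ Λ ρ : ℝ, (∀ p ∈ Y.P, Real.log p ≤ Λ) → 1 ≤ ρ →
        ((Y.n : ℝ) + 1) * Λ ≤ ρ * (Y.n * (Y.LD - Real.log q)) → Real.log q ≤ Y.LD →
        (cnt Y.N Y.b {q} Y.P : ℝ) ≤ Φ * ((1 + Y.η) * ρ ^ Y.κ) * (1 / (q : ℝ)) * (Y.X * VV Y.P) := by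
  refine ⟨Y.up (Y.n + 1), one_le_up _, ?_, ?_⟩
  · have h2 := gap_main h1 hI hηκ
    have hZ := Y.hZ1
    have hLv : Y.Lv ∅ = Y.LD := by unfold Lv; simp
    have hex : Y.ex ∅ = Y.X := by unfold ex; simp
    have hnode : ((∅ : Finset ℕ), Y.Z - 1) ∈ Y.nodes (Y.n + 1) := by
      refine mem_nodes.2 ⟨empty_subset _, by omega, by rw [hLv]; exact hL, fun p _ _ => by simp,
        fun p hp _ => ?_⟩
      rw [hLv]
      push_cast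
      exact htop p hp
    have h3 := lo_le_r hnode
    have h4 := cnt_eq (Y := Y) (e := ∅) (z := Y.Z - 1) (empty_subset _)
    rw [Pz_all, hex] at h4
    rw [h4]
    refine mul_le_mul_of_nonneg_right (by linarith) ?_
    have h5 := VV_Pz_pos (Y := Y) (Y.Z - 1)
    rw [Pz_all] at h5
    exact (mul_pos Y.hX h5).le
  · intro q hq hqP Λ ρ hΛ hρ hρΛ hqL
    have hZ := Y.hZ1
    have hLv : Y.Lv {q} = Y.LD - Real.log q := by unfold Lv; simp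
    have hex : Y.ex {q} = Y.X / q := by unfold ex; simp
    have h2 := small_level (Y := Y) (e := {q}) (z := Y.Z - 1) (by
        intro p hp
        rw [mem_singleton.1 hp]
        exact hq) (by omega) (by rw [hLv]; linarith) (fun p hp _ hpe => by
        rw [mem_singleton.1 hpe] at hp
        exact hqP hp) (fun p hp _ => hΛ p hp) hρ (by rw [hLv]; exact hρΛ)
    rw [Pz_all, hex] at h2
    refine h2.trans (le_of_eq ?_)
    ring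

end Sys

end HD44
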