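import Pool.Agent.RS44.Gen

/-!
# Uniform distribution of the survivors of random classes, with accuracy inversely proportional to the sieve exponent
-/

namespace HD44

open Finset YX49 RS44

theorem rep {q : ℕ} (hq : 0 < q) (b : ℕ) : ∃ r, 0 < r ∧ r ≤ q ∧ r ≡ b [MOD q] := by
  rcases Nat.eq_zero_or_pos (b % q) with h | h
  · refine ⟨q, hq, le_rfl, ?_⟩
    unfold Nat.ModEq
    rw [Nat.mod_self, h]
  · exact ⟨b % q, h, (Nat.mod_lt _ hq).le, Nat.mod_modEq _ _⟩

theorem sf_xx_le_one (P : Finset ℕ) (cl : ℕ → ℕ) (u : ℤ) (q z m : ℕ) :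
    sf z (xx P cl u q) m ≤ 1 := by
  unfold sf
  refine prod_le_one (fun l _ => ?_) (fun l _ => ?_)
  · unfold xx; split_ifs <;> simp
  · unfold xx; split_ifs <;> simp

/-- both bounds in progressions -/
theorem sift_two (δ : ℝ) (hδ : 0 < δ) (hδ1 : δ ≤ 1) : ∃ s : ℕ, 1 ≤ s ∧ ∀ (z y q b : ℕ)
    (P : Finset ℕ) (cl : ℕ → ℕ), 2 ≤ z → 0 < q → (∀ l ∈ P, l.Prime ∧ ¬ l ∣ q) → (∀ l ∈ P, l ≤ z) →
    z ^ s * q ≤ y → 2 / (δ / s) ≤ (y : ℝ) / q →
    (1 - 2 * (δ / s)) * ((y : ℝ) / q) * VV P ≤ ((sift y q b P cl).card : ℝ) ∧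
    ((sift y q b P cl).card : ℝ) ≤ (1 + 2 * (δ / s)) * ((y : ℝ) / q) * VV P := by
  obtain ⟨s, hs1, hs⟩ := fund δ hδ hδ1
  refine ⟨s, hs1, fun z y q b P cl hz hq hP hPz hzy hy => ?_⟩
  have hq' : (0 : ℝ) < q := by exact_mod_cast hq
  have hs' : (1 : ℝ) ≤ s := by exact_mod_cast hs1
  have hV := VV_nonneg (P := P) fun l hl => (hP l hl).1
  set θ : ℝ := δ / s with hθ
  have hθ0 : 0 < θ := by positivity
  have hθ1 : θ ≤ 1 := by
    rw [hθ, div_le_one (by linarith)]
    linarith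
  have hyq : 0 ≤ (y : ℝ) / q := by positivity
  have hy2 : 2 ≤ θ * ((y : ℝ) / q) := by
    rw [div_le_iff₀ hθ0] at hy
    linarith
  have hdiv : z ^ s ≤ y / q := (Nat.le_div_iff_mul_le hq).2 hzy
  have hfl1 : (y : ℝ) / q - 1 ≤ ((y / q : ℕ) : ℝ) := by
    have := Nat.lt_div_mul_add (a := y) hq
    rw [sub_le_iff_le_add, div_le_iff₀ hq']
    have h5 : (y : ℝ) < ((y / q : ℕ) : ℝ) * q + q := by exact_mod_cast this
    linarith
  have hfl2 : ((y / q : ℕ) : ℝ) ≤ (y : ℝ) / q := Nat.cast_div_le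
  constructor
  · -- the lower bound
    obtain ⟨r, hr0, hrq, hrb⟩ := rep hq b
    set u : ℤ := (r : ℤ) - q with hu
    have hf := hs z hz (xx P cl u q) (loc_xx hP) 0 (y / q) hdiv
    rw [WW_xx hP hPz, abs_le] at hf
    have hcard : ∑ m ∈ Ioc 0 (0 + y / q), sf z (xx P cl u q) m ≤ ((sift y q b P cl).card : ℝ) := by
      classical
      set G := (Ioc 0 (0 + y / q)).filter fun m : ℕ =>
        ∀ l ∈ P, ¬ (u + q * (m : ℤ) ≡ (cl l : ℤ) [ZMOD (l : ℤ)]) with hG
      have h1 : ∑ m ∈ Ioc 0 (0 + y / q), sf z (xx P cl u q) m ≤ (G.card : ℝ) := by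
        calc ∑ m ∈ Ioc 0 (0 + y / q), sf z (xx P cl u q) m
            ≤ ∑ m ∈ Ioc 0 (0 + y / q), (if (∀ l ∈ P, ¬ (u + q * (m : ℤ) ≡ (cl l : ℤ) [ZMOD (l : ℤ)]))
              then (1 : ℝ) else 0) := by
              refine sum_le_sum fun m _ => ?_
              split_ifs with h
              · exact sf_xx_le_one _ _ _ _ _ _
              · push Not at h
                rw [sf_xx_zero (fun l hl => mem_prs.2 ⟨(hP l hl).1, hPz l hl⟩) h]
          _ = (G.card : ℝ) := by
              rw [← sum_filter, sum_const, nsmul_eq_mul, mul_one]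
      refine h1.trans (Nat.cast_le.2 ?_)
      refine card_le_card_of_injOn (fun m : ℕ => r + q * (m - 1)) ?_ ?_
      · intro m hm
        obtain ⟨h2, h3⟩ := mem_filter.1 hm
        obtain ⟨h4, h5⟩ := mem_Ioc.1 h2
        rw [zero_add] at h5
        have e : u + q * (m : ℤ) = ((r + q * (m - 1) : ℕ) : ℤ) := by
          rw [hu]
          obtain ⟨k, rfl⟩ : ∃ k, m = k + 1 := ⟨m - 1, by omega⟩
          rw [Nat.add_sub_cancel]
          push_cast
          ring
        have hpos : 0 < r + q * (m - 1) := by omega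
        refine mem_filter.2 ⟨mem_Ioc.2 ⟨hpos, ?_⟩, ?_, ?_⟩
        · have h6 : q * m ≤ y := (Nat.mul_le_mul_left q h5).trans (Nat.mul_div_le y q)
          obtain ⟨k, rfl⟩ : ∃ k, m = k + 1 := ⟨m - 1, by omega⟩
          simp only [Nat.add_sub_cancel]
          rw [mul_add, mul_one] at h6
          omega
        · have h7 : r + q * (m - 1) ≡ r [MOD q] := by
            unfold Nat.ModEq
            rw [Nat.add_mul_mod_self_left]
          exact h7.trans hrb
        · intro p hp hc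
          apply h3 p hp
          rw [e]
          exact (Int.natCast_modEq_iff).2 hc
      · intro m hm m' hm' h
        have h2 := (mem_Ioc.1 (mem_filter.1 hm).1).1
        have h3 := (mem_Ioc.1 (mem_filter.1 hm').1).1
        have h4 : r + q * (m - 1) = r + q * (m' - 1) := h
        have h5 : m - 1 = m' - 1 := Nat.eq_of_mul_eq_mul_left hq (by omega)
        omega
    have h1 : (1 - θ) * (((y / q : ℕ) : ℝ) * VV P) ≤ ((sift y q b P cl).card : ℝ) := by
      linarith [hf.1]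
    refine le_trans ?_ h1
    rw [← mul_assoc]
    refine mul_le_mul_of_nonneg_right ?_ hV
    have h2 : (1 - θ) * ((y : ℝ) / q - 1) ≤ (1 - θ) * ((y / q : ℕ) : ℝ) :=
      mul_le_mul_of_nonneg_left hfl1 (by linarith)
    nlinarith
  · -- the upper bound
    set u : ℤ := ((b % q : ℕ) : ℤ) - q with hu
    set H : ℕ := y / q + 1 with hH
    have hcard : ((sift y q b P cl).card : ℝ) ≤ ∑ m ∈ Ioc 0 (0 + H), sf z (xx P cl u q) m := by
      have hinj : Set.InjOn (fun n : ℕ => n / q + 1) (sift y q b P cl : Set ℕ) := by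
        intro n hn n' hn' h
        have h1 : n % q = b % q := (mem_filter.1 hn).2.1
        have h2 : n' % q = b % q := (mem_filter.1 hn').2.1
        have h3 : n / q = n' / q := by simpa using h
        rw [← Nat.div_add_mod n q, ← Nat.div_add_mod n' q, h1, h2, h3]
      rw [← card_image_of_injOn hinj]
      have hsub : (sift y q b P cl).image (fun n : ℕ => n / q + 1) ⊆ Ioc 0 (0 + H) := by
        intro m hm
        obtain ⟨n, hn, rfl⟩ := mem_image.1 hm
        have h1 := mem_Ioc.1 (mem_filter.1 hn).1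
        rw [mem_Ioc, hH, zero_add]
        exact ⟨Nat.succ_pos _, Nat.succ_le_succ (Nat.div_le_div_right (c := q) h1.2)⟩
      calc (((sift y q b P cl).image (fun n : ℕ => n / q + 1)).card : ℝ)
          = ∑ m ∈ (sift y q b P cl).image (fun n : ℕ => n / q + 1), (1 : ℝ) := by simp
        _ = ∑ m ∈ (sift y q b P cl).image (fun n : ℕ => n / q + 1), sf z (xx P cl u q) m := by
            refine sum_congr rfl fun m hm => ?_
            obtain ⟨n, hn, rfl⟩ := mem_image.1 hm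
            rw [sf_xx_eq]
            intro l hl hc
            have h1 := (mem_filter.1 hn).2
            apply h1.2 l hl
            have e : u + q * ((n / q + 1 : ℕ) : ℤ) = (n : ℤ) := by
              have h2 : (b % q) = n % q := h1.1.symm
              rw [hu, h2]
              have h3 := Nat.div_add_mod n q
              have h4 : (q : ℤ) * ((n / q : ℕ) : ℤ) + ((n % q : ℕ) : ℤ) = n := by exact_mod_cast h3
              push_cast at h4 ⊢
              linarith
            rw [e] at hc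
            exact (Int.natCast_modEq_iff).1 hc
        _ ≤ ∑ m ∈ Ioc 0 (0 + H), sf z (xx P cl u q) m :=
            sum_le_sum_of_subset_of_nonneg hsub fun m _ _ => sf_xx_nonneg _ _ _ _ _ _
    have hf := hs z hz (xx P cl u q) (loc_xx hP) 0 H (by omega)
    rw [WW_xx hP hPz, abs_le] at hf
    have hH1 : (H : ℝ) ≤ (y : ℝ) / q + 1 := by
      rw [hH]
      push_cast
      linarith
    calc ((sift y q b P cl).card : ℝ) ≤ H * VV P + θ * (H * VV P) := by linarith [hf.2]
      _ = (1 + θ) * (H * VV P) := by ring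
      _ ≤ (1 + θ) * (((y : ℝ) / q + 1) * VV P) :=
          mul_le_mul_of_nonneg_left (mul_le_mul_of_nonneg_right hH1 hV) (by linarith)
      _ ≤ (1 + 2 * θ) * ((y : ℝ) / q) * VV P := by
          rw [← mul_assoc]
          refine mul_le_mul_of_nonneg_right ?_ hV
          nlinarith

open Classical in
theorem eng_two (δ : ℝ) (hδ : 0 < δ) (hδ1 : δ ≤ 1) : ∃ s : ℕ, 1 ≤ s ∧ ∀ (z y q b : ℕ)
    (R Ad : Finset ℕ) (cl : ℕ → ℕ) (ε : ℝ), 2 ≤ z → 0 < q → (∀ l ∈ R, l.Prime ∧ ¬ l ∣ q) →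
    (∀ l ∈ Ad, l.Prime ∧ ¬ l ∣ q) → (∀ l ∈ Ad, l ≤ z) → Disjoint R Ad →
    z ^ s * q ≤ y → 2 / (δ / s) ≤ (y : ℝ) / q → 0 < ε → ε ≤ 1 / 2 →
    4 * ε * ∑ p ∈ R.filter (fun p => ¬ p ≤ z), 1 / (p : ℝ) ≤ δ / s →
    ((univ.filter fun a : Ch R => (1 + 6 * (δ / s)) * ((y : ℝ) / q) * (VV Ad * VV R) <
      ((sv R (sift y q b Ad cl) a).card : ℝ)).card : ℝ) ≤
      (∏ p ∈ R, (p : ℝ)) * Real.exp (-(δ / s * ε * (z / 2) * (VV Ad * VV R))) ∧
    ((univ.filter fun a : Ch R => ((sv R (sift y q b Ad cl) a).card : ℝ) <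
      (1 - 6 * (δ / s)) * ((y : ℝ) / q) * (VV Ad * VV R)).card : ℝ) ≤
      (∏ p ∈ R, (p : ℝ)) * Real.exp (-(δ / s * ε * (z / 2) * (VV Ad * VV R))) := by
  obtain ⟨s, hs1, hs⟩ := sift_two δ hδ hδ1
  refine ⟨s, hs1, fun z y q b R Ad cl ε hz hq hR hAd hAdz hd hzy hy hε hε1 hsum => ?_⟩
  set R1 := R.filter fun p => p ≤ z with hR1
  set R2 := R.filter fun p => ¬ p ≤ z with hR2
  have hs' : (1 : ℝ) ≤ s := by exact_mod_cast hs1
  set θ : ℝ := δ / s with hθ
  have hθ0 : 0 < θ := by positivity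
  have hθ1 : θ ≤ 1 := by
    rw [hθ, div_le_one (by linarith)]
    linarith
  have hzq : z * q ≤ y := by
    refine le_trans (Nat.mul_le_mul_right q ?_) hzy
    calc z = z ^ 1 := (pow_one z).symm
      _ ≤ z ^ s := Nat.pow_le_pow_right (by omega) hs1
  have hz' : (0 : ℝ) < z := by exact_mod_cast (by omega : 0 < z)
  have hq' : (0 : ℝ) < q := by exact_mod_cast hq
  have hVA : 0 ≤ VV Ad := VV_nonneg fun l hl => (hAd l hl).1
  have hV1 : 0 ≤ VV R1 := VV_nonneg fun l hl => (hR l (mem_filter.1 hl).1).1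
  have hV2 : 0 ≤ VV R2 := VV_nonneg fun l hl => (hR l (mem_filter.1 hl).1).1
  have hVR : VV R = VV R1 * VV R2 := VV_split R z
  set M : ℝ := (y : ℝ) / (q * z) + 1 with hM
  have hM0 : 0 < M := by positivity
  have hdis : Disjoint Ad R1 := (disjoint_of_subset_left (filter_subset _ _) hd).symm
  have hexp := expo hz hq hzq hε
  rw [← hM] at hexp
  have hMl : ∀ i : {p // p ∈ R}, ¬ (i : ℕ) ≤ z → ∀ c : ℕ,
      (((sift y q b Ad cl).filter fun m => m ≡ c [MOD (i : ℕ)]).card : ℝ) ≤ M := by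
    intro i hi c
    have hi' : z < (i : ℕ) := not_le.1 hi
    have hip := hR i i.2
    have hcop : Nat.Coprime q i := ((Nat.Prime.coprime_iff_not_dvd hip.1).2 hip.2).symm
    refine le_trans ?_ (le_trans (two_classes (y := y) b c hcop) ?_)
    · refine Nat.cast_le.2 (card_le_card fun m hm => ?_)
      have h1 := mem_filter.1 hm
      have h2 := mem_filter.1 h1.1
      exact mem_filter.2 ⟨h2.1, h2.2.1, h1.2⟩
    · have h3 : (y : ℝ) / (q * (i : ℕ)) ≤ (y : ℝ) / (q * z) := by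
        have h4 : (z : ℝ) ≤ ((i : ℕ) : ℝ) := by exact_mod_cast hi'.le
        exact div_le_div_of_nonneg_left (by positivity) (by positivity)
          (mul_le_mul_of_nonneg_left h4 hq'.le)
      linarith
  have hsv := fun a => hs z y q b (Ad ∪ R1) (clz (R := R) (z := z) cl a) hz hq (by
      intro l hl
      rcases mem_union.1 hl with hl | hl
      · exact hAd l hl
      · exact hR l (mem_filter.1 hl).1) (by
      intro l hl
      rcases mem_union.1 hl with hl | hl
      · exact hAdz l hl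
      · exact (mem_filter.1 hl).2) hzy hy
  constructor
  · have hc := conc_up (fun i : {p // p ∈ R} => (i : ℕ)) (fun i => (hR i i.2).1.pos)
      (fun i => (i : ℕ) ≤ z) (sift y q b Ad cl) M ε (ε / M)
      ((1 + 2 * θ) * ((y : ℝ) / q) * VV (Ad ∪ R1)) ((1 + 6 * θ) * ((y : ℝ) / q) * (VV Ad * VV R))
      hM0 hε.le (by linarith) (by positivity) (by rw [div_mul_cancel₀ _ hM0.ne']) hMl (by
        intro a
        rw [part_eq hd]
        exact (hsv a).2)
    unfold sv
    refine le_trans hc ?_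
    rw [prod_R R (fun p => (p : ℝ)), prod_big R z (fun p => 1 - (1 - ε) / (p : ℝ)), VV_union hdis, hVR]
    refine mul_le_mul_of_nonneg_left (Real.exp_le_exp.mpr ?_) (by positivity)
    have hρ := rho_up (S := R2) (fun p hp => (hR p (mem_filter.1 hp).1).1) hε.le hθ0.le hθ1 hsum
    set w : ℝ := (y : ℝ) / q
    have hw : 0 ≤ w := by positivity
    set v : ℝ := VV Ad * (VV R1 * VV R2) with hv
    have hv0 : 0 ≤ v := by positivity
    have h1 : (∏ p ∈ R2, (1 - (1 - ε) / (p : ℝ))) * ((1 + 2 * θ) * w * (VV Ad * VV R1)) ≤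
        (1 + 5 * θ) * (w * v) := by
      calc (∏ p ∈ R2, (1 - (1 - ε) / (p : ℝ))) * ((1 + 2 * θ) * w * (VV Ad * VV R1))
          ≤ ((1 + θ) * VV R2) * ((1 + 2 * θ) * w * (VV Ad * VV R1)) :=
            mul_le_mul_of_nonneg_right hρ (by positivity)
        _ = ((1 + θ) * (1 + 2 * θ)) * (w * v) := by rw [hv]; ring
        _ ≤ (1 + 5 * θ) * (w * v) := by
            refine mul_le_mul_of_nonneg_right ?_ (by positivity)
            nlinarith
    have h2 : (∏ p ∈ R2, (1 - (1 - ε) / (p : ℝ))) * ((1 + 2 * θ) * w * (VV Ad * VV R1)) -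
        (1 + 6 * θ) * w * v ≤ -(θ * (w * v)) := by
      have : (1 + 6 * θ) * w * v = (1 + 5 * θ) * (w * v) + θ * (w * v) := by ring
      linarith
    calc ε / M * ((∏ p ∈ R2, (1 - (1 - ε) / (p : ℝ))) * ((1 + 2 * θ) * w * (VV Ad * VV R1)) -
        (1 + 6 * θ) * w * v) ≤ ε / M * (-(θ * (w * v))) :=
          mul_le_mul_of_nonneg_left h2 (by positivity)
      _ = -(θ * (ε / M * w) * v) := by ring
      _ ≤ -(θ * (ε * (z / 2)) * v) := by
          refine neg_le_neg (mul_le_mul_of_nonneg_right ?_ hv0)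
          exact mul_le_mul_of_nonneg_left hexp hθ0.le
      _ = _ := by ring
  · have hc := conc_down (fun i : {p // p ∈ R} => (i : ℕ)) (fun i => (hR i i.2).1.two_le)
      (fun i => (i : ℕ) ≤ z) (sift y q b Ad cl) M ε (ε / M)
      ((1 - 2 * θ) * ((y : ℝ) / q) * VV (Ad ∪ R1)) ((1 - 6 * θ) * ((y : ℝ) / q) * (VV Ad * VV R))
      hM0 hε.le hε1 (by positivity) (by rw [div_mul_cancel₀ _ hM0.ne']) hMl (by
        intro a
        rw [part_eq hd]
        exact (hsv a).1)
    unfold sv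
    refine le_trans hc ?_
    rw [prod_R R (fun p => (p : ℝ)), prod_big R z (fun p => 1 - (1 + 2 * ε) / (p : ℝ)),
      VV_union hdis, hVR]
    refine mul_le_mul_of_nonneg_left (Real.exp_le_exp.mpr ?_) (by positivity)
    have hρ := rho_down (S := R2) (fun p hp => (hR p (mem_filter.1 hp).1).1) hε.le hε1 hsum
    have hρ0 : 0 ≤ ∏ p ∈ R2, (1 - (1 + 2 * ε) / (p : ℝ)) := by
      refine prod_nonneg fun p hp => ?_
      have h2 : (2 : ℝ) ≤ p := by exact_mod_cast (hR p (mem_filter.1 hp).1).1.two_le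
      have : (1 + 2 * ε) / (p : ℝ) ≤ 1 := by rw [div_le_one (by linarith)]; linarith
      linarith
    have hρ1 : ∏ p ∈ R2, (1 - (1 + 2 * ε) / (p : ℝ)) ≤ VV R2 := by
      unfold VV
      refine prod_le_prod (fun p hp => ?_) (fun p hp => ?_)
      · have h2 : (2 : ℝ) ≤ p := by exact_mod_cast (hR p (mem_filter.1 hp).1).1.two_le
        have : (1 + 2 * ε) / (p : ℝ) ≤ 1 := by rw [div_le_one (by linarith)]; linarith
        linarith
      · have h2 : (2 : ℝ) ≤ p := by exact_mod_cast (hR p (mem_filter.1 hp).1).1.two_le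
        have : 1 / (p : ℝ) ≤ (1 + 2 * ε) / (p : ℝ) :=
          div_le_div_of_nonneg_right (by linarith) (by linarith)
        linarith
    set w : ℝ := (y : ℝ) / q
    have hw : 0 ≤ w := by positivity
    set v : ℝ := VV Ad * (VV R1 * VV R2) with hv
    have hv0 : 0 ≤ v := by positivity
    set g : ℝ := ∏ p ∈ R2, (1 - (1 + 2 * ε) / (p : ℝ)) with hg
    have h1 : (1 - 4 * θ) * (w * v) ≤ g * ((1 - 2 * θ) * w * (VV Ad * VV R1)) := by
      have hA : 0 ≤ w * (VV Ad * VV R1) := by positivity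
      have h3 : g * ((1 - 2 * θ) * w * (VV Ad * VV R1)) =
          g * (w * (VV Ad * VV R1)) - 2 * θ * (g * (w * (VV Ad * VV R1))) := by ring
      have h4 : (1 - θ) * (w * v) ≤ g * (w * (VV Ad * VV R1)) := by
        calc (1 - θ) * (w * v) = ((1 - θ) * VV R2) * (w * (VV Ad * VV R1)) := by rw [hv]; ring
          _ ≤ _ := mul_le_mul_of_nonneg_right hρ hA
      have h5 : g * (w * (VV Ad * VV R1)) ≤ w * v := by
        calc g * (w * (VV Ad * VV R1)) ≤ VV R2 * (w * (VV Ad * VV R1)) :=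
              mul_le_mul_of_nonneg_right hρ1 hA
          _ = w * v := by rw [hv]; ring
      have h6 : θ * (g * (w * (VV Ad * VV R1))) ≤ θ * (w * v) :=
        mul_le_mul_of_nonneg_left h5 hθ0.le
      have h7 : 0 ≤ θ * (w * v) := by positivity
      rw [h3]
      have h8 : (1 - 4 * θ) * (w * v) = (1 - θ) * (w * v) - 3 * (θ * (w * v)) := by ring
      linarith
    have h2 : (1 - 6 * θ) * w * v - g * ((1 - 2 * θ) * w * (VV Ad * VV R1)) ≤ -(θ * (w * v)) := by
      have h3 : (1 - 6 * θ) * w * v = (1 - 4 * θ) * (w * v) - 2 * (θ * (w * v)) := by ring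
      have h4 : 0 ≤ θ * (w * v) := by positivity
      linarith
    calc ε / M * ((1 - 6 * θ) * w * v - g * ((1 - 2 * θ) * w * (VV Ad * VV R1)))
        ≤ ε / M * (-(θ * (w * v))) :=
          mul_le_mul_of_nonneg_left h2 (by positivity)
      _ = -(θ * (ε / M * w) * v) := by ring
      _ ≤ -(θ * (ε * (z / 2)) * v) := by
          refine neg_le_neg (mul_le_mul_of_nonneg_right ?_ hv0)
          exact mul_le_mul_of_nonneg_left hexp hθ0.le
      _ = _ := by ring

/-- for every pattern on the primes up to `w` outside `R`, the survivors are uniformly distributed in all progressions to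
moduli up to `D` -/
def UD (y w D : ℕ) (R : Finset ℕ) (δ : ℝ) (a : Ch R) : Prop :=
  ∀ t ∈ range (primorial w), ∀ d ∈ Ioc 0 D, (∀ l ∈ R, ¬ l ∣ d) → (∀ l ∈ ad R ∅ w, ¬ l ∣ d) →
    ∀ h ∈ range d,
      (1 - δ) * ((y : ℝ) / d) * (VV (ad R ∅ w) * VV R) ≤
        ((sv R (sift y d h (ad R ∅ w) fun _ => t) a).card : ℝ) ∧
      ((sv R (sift y d h (ad R ∅ w) fun _ => t) a).card : ℝ) ≤
        (1 + δ) * ((y : ℝ) / d) * (VV (ad R ∅ w) * VV R)

open Classical in
theorem bad_ud (δ : ℝ) (hδ : 0 < δ) (hδ1 : δ ≤ 1) : ∃ s : ℕ, 1 ≤ s ∧ ∀ (x y z w D : ℕ)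
    (R : Finset ℕ) (ε V0 F : ℝ), (∀ p ∈ R, p.Prime ∧ p ≤ x) → w ≤ x →
    2 ≤ z → w ≤ z → 0 < D → z ^ s * D ≤ y → 2 / (δ / s) ≤ (y : ℝ) / D →
    0 < ε → ε ≤ 1 / 2 → 4 * ε * ∑ p ∈ R, 1 / (p : ℝ) ≤ δ / s →
    0 ≤ V0 → V0 ≤ VV (prs x) →
    (4 : ℝ) ^ w * (2 * (D : ℝ) * D) * Real.exp (-(δ / s * ε * (z / 2) * V0)) ≤ F →
    ((univ.filter fun a : Ch R => ¬ UD y w D R (6 * (δ / s)) a).card : ℝ) ≤
      (∏ p ∈ R, (p : ℝ)) * F := by
  obtain ⟨s, hs1, heng⟩ := eng_two δ hδ hδ1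
  refine ⟨s, hs1, fun x y z w D R ε V0 F hR hwx hz hwz hD hzy hy hε hε1 hsum hV0 hV hF => ?_⟩
  have hs' : (1 : ℝ) ≤ s := by exact_mod_cast hs1
  set θ : ℝ := δ / s with hθ
  have hθ0 : 0 < θ := by positivity
  have hdis : Disjoint R (ad R ∅ w) := by
    rw [disjoint_left]
    exact fun p hp hp' => (mem_ad.1 hp').2.2.1 hp
  have hPi : (0 : ℝ) ≤ ∏ p ∈ R, (p : ℝ) := by positivity
  have hVle : V0 ≤ VV (ad R ∅ w) * VV R := hV.trans (VV_prs_le hdis.symm hR fun p hp =>
    ⟨(mem_ad.1 hp).1, (mem_ad.1 hp).2.1.trans hwx⟩)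
  set E : ℝ := (∏ p ∈ R, (p : ℝ)) * Real.exp (-(θ * ε * (z / 2) * V0)) with hE
  have hE0 : 0 ≤ E := by positivity
  set B1 : ℕ → ℕ → ℕ → Finset (Ch R) := fun t d h =>
    if (∀ l ∈ R, ¬ l ∣ d) ∧ (∀ l ∈ ad R ∅ w, ¬ l ∣ d) then
    (univ.filter fun a : Ch R => (1 + 6 * θ) * ((y : ℝ) / d) * (VV (ad R ∅ w) * VV R) <
      ((sv R (sift y d h (ad R ∅ w) fun _ => t) a).card : ℝ)) ∪
    (univ.filter fun a : Ch R => ((sv R (sift y d h (ad R ∅ w) fun _ => t) a).card : ℝ) <
      (1 - 6 * θ) * ((y : ℝ) / d) * (VV (ad R ∅ w) * VV R)) else ∅ with hB1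
  have hb : ∀ t, ∀ d ∈ Ioc 0 D, ∀ h, ((B1 t d h).card : ℝ) ≤ 2 * E := by
    intro t d hd h
    obtain ⟨hd0, hdD⟩ := mem_Ioc.1 hd
    have hd' : (0 : ℝ) < d := by exact_mod_cast hd0
    by_cases hc : (∀ l ∈ R, ¬ l ∣ d) ∧ (∀ l ∈ ad R ∅ w, ¬ l ∣ d)
    · have hB : B1 t d h = (univ.filter fun a : Ch R => (1 + 6 * θ) * ((y : ℝ) / d) *
          (VV (ad R ∅ w) * VV R) < ((sv R (sift y d h (ad R ∅ w) fun _ => t) a).card : ℝ)) ∪
          (univ.filter fun a : Ch R => ((sv R (sift y d h (ad R ∅ w) fun _ => t) a).card : ℝ) <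
          (1 - 6 * θ) * ((y : ℝ) / d) * (VV (ad R ∅ w) * VV R)) := if_pos hc
      have h2 := heng z y d h R (ad R ∅ w) (fun _ => t) ε hz hd0
        (fun l hl => ⟨(hR l hl).1, hc.1 l hl⟩) (fun l hl => ⟨(mem_ad.1 hl).1, hc.2 l hl⟩)
        (fun l hl => (mem_ad.1 hl).2.1.trans hwz) hdis
        ((Nat.mul_le_mul_left _ hdD).trans hzy) (hy.trans (div_le_div_of_nonneg_left
          (by positivity) hd' (by exact_mod_cast hdD))) hε hε1 (by
          refine le_trans ?_ hsum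
          refine mul_le_mul_of_nonneg_left ?_ (by linarith)
          exact sum_le_sum_of_subset_of_nonneg (filter_subset _ _) fun p _ _ => by positivity)
      have h3 : (∏ p ∈ R, (p : ℝ)) * Real.exp (-(θ * ε * (z / 2) * (VV (ad R ∅ w) * VV R))) ≤ E := by
        refine mul_le_mul_of_nonneg_left (Real.exp_le_exp.mpr (neg_le_neg ?_)) hPi
        exact mul_le_mul_of_nonneg_left hVle (by positivity)
      rw [hB]
      calc _ ≤ (((univ.filter fun a : Ch R => (1 + 6 * θ) * ((y : ℝ) / d) *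
          (VV (ad R ∅ w) * VV R) < ((sv R (sift y d h (ad R ∅ w) fun _ => t) a).card : ℝ)).card +
          (univ.filter fun a : Ch R => ((sv R (sift y d h (ad R ∅ w) fun _ => t) a).card : ℝ) <
          (1 - 6 * θ) * ((y : ℝ) / d) * (VV (ad R ∅ w) * VV R)).card : ℕ) : ℝ) :=
            Nat.cast_le.2 (card_union_le _ _)
        _ ≤ 2 * E := by
            push_cast
            linarith [h2.1, h2.2]
    · have hB : B1 t d h = ∅ := if_neg hc
      rw [hB, card_empty, Nat.cast_zero]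
      positivity
  have hsub : (univ.filter fun a : Ch R => ¬ UD y w D R (6 * θ) a) ⊆
      (range (primorial w)).biUnion fun t => (Ioc 0 D).biUnion fun d =>
        (range d).biUnion fun h => B1 t d h := by
    intro a ha
    have h1 := (mem_filter.1 ha).2
    unfold UD at h1
    push Not at h1
    obtain ⟨t, ht, d, hd, hdR, hdA, h, hh, h2⟩ := h1
    refine mem_biUnion.2 ⟨t, ht, mem_biUnion.2 ⟨d, hd, mem_biUnion.2 ⟨h, hh, ?_⟩⟩⟩
    have hB : B1 t d h = (univ.filter fun a : Ch R => (1 + 6 * θ) * ((y : ℝ) / d) *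
          (VV (ad R ∅ w) * VV R) < ((sv R (sift y d h (ad R ∅ w) fun _ => t) a).card : ℝ)) ∪
          (univ.filter fun a : Ch R => ((sv R (sift y d h (ad R ∅ w) fun _ => t) a).card : ℝ) <
          (1 - 6 * θ) * ((y : ℝ) / d) * (VV (ad R ∅ w) * VV R)) := if_pos ⟨hdR, hdA⟩
    rw [hB]
    by_cases h3 : (1 - 6 * θ) * ((y : ℝ) / d) * (VV (ad R ∅ w) * VV R) ≤
        ((sv R (sift y d h (ad R ∅ w) fun _ => t) a).card : ℝ)
    · exact mem_union_left _ (mem_filter.2 ⟨mem_univ _, h2 h3⟩)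
    · exact mem_union_right _ (mem_filter.2 ⟨mem_univ _, not_le.1 h3⟩)
  have hprim : ((primorial w : ℕ) : ℝ) ≤ (4 : ℝ) ^ w := by
    exact_mod_cast primorial_le_four_pow w
  have hcard := (Nat.cast_le (α := ℝ)).2 (card_le_card hsub)
  refine hcard.trans ?_
  calc (((((range (primorial w)).biUnion fun t => (Ioc 0 D).biUnion fun d =>
        (range d).biUnion fun h => B1 t d h)).card : ℕ) : ℝ)
      ≤ ∑ t ∈ range (primorial w), ∑ d ∈ Ioc 0 D, ∑ h ∈ range d, ((B1 t d h).card : ℝ) := by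
        have h1 : ((range (primorial w)).biUnion fun t => (Ioc 0 D).biUnion fun d =>
          (range d).biUnion fun h => B1 t d h).card ≤
          ∑ t ∈ range (primorial w), ∑ d ∈ Ioc 0 D, ∑ h ∈ range d, (B1 t d h).card :=
          card_biUnion_le.trans (sum_le_sum fun t _ => card_biUnion_le.trans
            (sum_le_sum fun d _ => card_biUnion_le))
        exact_mod_cast h1
    _ ≤ ∑ _t ∈ range (primorial w), ∑ _d ∈ Ioc 0 D, (D : ℝ) * (2 * E) := by
        refine sum_le_sum fun t _ => sum_le_sum fun d hd => ?_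
        calc ∑ h ∈ range d, ((B1 t d h).card : ℝ) ≤ ∑ _h ∈ range d, 2 * E :=
              sum_le_sum fun h _ => hb t d hd h
          _ = (d : ℝ) * (2 * E) := by rw [sum_const, card_range, nsmul_eq_mul]
          _ ≤ (D : ℝ) * (2 * E) := by
              refine mul_le_mul_of_nonneg_right ?_ (by positivity)
              exact_mod_cast (mem_Ioc.1 hd).2
    _ = (primorial w : ℝ) * ((D : ℝ) * ((D : ℝ) * (2 * E))) := by
        rw [sum_const, sum_const, card_range, Nat.card_Ioc, nsmul_eq_mul, nsmul_eq_mul]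
        simp
    _ ≤ (4 : ℝ) ^ w * ((D : ℝ) * ((D : ℝ) * (2 * E))) :=
        mul_le_mul_of_nonneg_right hprim (by positivity)
    _ = (∏ p ∈ R, (p : ℝ)) * ((4 : ℝ) ^ w * (2 * (D : ℝ) * D) *
        Real.exp (-(θ * ε * (z / 2) * V0))) := by rw [hE]; ring
    _ ≤ _ := mul_le_mul_of_nonneg_left hF hPi

end HD44
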