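import Pool.Agent.RS44.Ratio
import Pool.Agent.HD44.Eng2
import Pool.Agent.HD44.Core

/-!
# A covering which extends classes with uniformly distributed survivors gives a contradiction
-/

namespace HD44

open Finset YX49 RS44

theorem one_sub_ge_exp {t : ℝ} (h0 : 0 ≤ t) (h1 : t ≤ 1 / 2) : Real.exp (-(t + t ^ 2)) ≤ 1 - t := by
  have h2 := Real.quadratic_le_exp_of_nonneg (x := t + t ^ 2) (by positivity)
  have h3 : 0 < 1 + (t + t ^ 2) + (t + t ^ 2) ^ 2 / 2 := by positivity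
  have h4 : Real.exp (-(t + t ^ 2)) ≤ 1 / (1 + (t + t ^ 2) + (t + t ^ 2) ^ 2 / 2) := by
    rw [Real.exp_neg, inv_eq_one_div]
    exact one_div_le_one_div_of_le h3 h2
  refine h4.trans ?_
  rw [div_le_iff₀ h3]
  have h5 : (1 - t) * (1 + (t + t ^ 2) + (t + t ^ 2) ^ 2 / 2) =
      1 + t ^ 2 / 2 * (1 - t - t ^ 2 - t ^ 3) := by ring
  rw [h5]
  have h6 : t ^ 2 ≤ (1 / 2) ^ 2 := pow_le_pow_left₀ h0 h1 2
  have h7 : t ^ 3 ≤ (1 / 2) ^ 3 := pow_le_pow_left₀ h0 h1 3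
  have h8 : 0 ≤ 1 - t - t ^ 2 - t ^ 3 := by
    norm_num at h6 h7
    linarith
  have h9 : 0 ≤ t ^ 2 / 2 * (1 - t - t ^ 2 - t ^ 3) := by positivity
  linarith

theorem VV_ge {D : Finset ℕ} {w x : ℕ} (hw : 0 < w) (hwx : w ≤ x)
    (hD : ∀ p ∈ D, p.Prime ∧ w < p ∧ p ≤ x) :
    Real.exp (-(∑ p ∈ D, 1 / (p : ℝ) + 1 / w)) ≤ VV D := by
  have hsq : ∑ p ∈ D, (1 / (p : ℝ)) ^ 2 ≤ 1 / (w : ℝ) := by
    calc ∑ p ∈ D, (1 / (p : ℝ)) ^ 2 ≤ ∑ p ∈ Ioc w x, (1 / (p : ℝ)) ^ 2 :=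
          sum_le_sum_of_subset_of_nonneg (fun p hp => mem_Ioc.2 (hD p hp).2) fun p _ _ => by positivity
      _ = ∑ p ∈ Ioc w x, ((p : ℝ) ^ 2)⁻¹ := sum_congr rfl fun p _ => by rw [one_div, inv_pow]
      _ ≤ ((w : ℝ))⁻¹ - ((x : ℝ))⁻¹ := sum_Ioc_inv_sq_le_sub (by omega) hwx
      _ ≤ 1 / w := by
          have : (0 : ℝ) ≤ ((x : ℝ))⁻¹ := by positivity
          rw [one_div]
          linarith
  have h1 : Real.exp (-(∑ p ∈ D, 1 / (p : ℝ) + 1 / w)) ≤
      Real.exp (∑ p ∈ D, -(1 / (p : ℝ) + (1 / (p : ℝ)) ^ 2)) := by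
    refine Real.exp_le_exp.mpr ?_
    rw [sum_neg_distrib, sum_add_distrib]
    linarith
  refine h1.trans ?_
  rw [Real.exp_sum]
  unfold VV
  refine prod_le_prod (fun p _ => (Real.exp_pos _).le) (fun p hp => ?_)
  have h2 : (2 : ℝ) ≤ p := by exact_mod_cast (hD p hp).1.two_le
  exact one_sub_ge_exp (by positivity) (one_div_le_one_div_of_le (by norm_num) h2)

/-- the one-sided density condition -/
theorem dm_of {x w : ℕ} {R S P : Finset ℕ} {κ A c η : ℝ} (hdim : Dim x R S κ A c) (hA : 0 ≤ A)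
    (hxw : (x : ℝ) ^ c ≤ w) (hw : 2 ≤ w) (hwx : w ≤ x) (hκ : 0 ≤ κ) (hη : 0 ≤ η)
    (hηw : A / Real.log w + 1 / w ≤ Real.log (1 + η))
    (hP : ∀ p ∈ P, p.Prime ∧ w < p ∧ p ≤ x ∧ p ∉ R ∧ p ∉ S) (z : ℕ) (Λ ρ : ℝ) (hρ : 1 ≤ ρ)
    (hΛ : ∀ p ∈ P, p < z → Real.log p ≤ Λ) :
    VV (P.filter fun p => p < z ∧ ρ * Real.log p ≤ Λ) ≤
      (1 + η) * ρ ^ κ * VV (P.filter fun p => p < z) := by
  classical
  set G := P.filter fun p => p < z ∧ ρ * Real.log p ≤ Λ with hG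
  set D := P.filter fun p => p < z ∧ ¬ ρ * Real.log p ≤ Λ with hD
  have hρ0 : 0 < ρ := by linarith
  have hdisj : Disjoint G D := by
    rw [disjoint_left]
    intro p hp hp'
    exact (mem_filter.1 hp').2.2 (mem_filter.1 hp).2.2
  have hun : P.filter (fun p => p < z) = G ∪ D := by
    ext p
    rw [mem_union, mem_filter, mem_filter, mem_filter]
    by_cases h : ρ * Real.log p ≤ Λ
    · constructor
      · rintro ⟨h1, h2⟩
        exact Or.inl ⟨h1, h2, h⟩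
      · rintro (⟨h1, h2, _⟩ | ⟨h1, h2, h3⟩)
        · exact ⟨h1, h2⟩
        · exact ⟨h1, h2⟩
    · constructor
      · rintro ⟨h1, h2⟩
        exact Or.inr ⟨h1, h2, h⟩
      · rintro (⟨h1, h2, _⟩ | ⟨h1, h2, h3⟩)
        · exact ⟨h1, h2⟩
        · exact ⟨h1, h2⟩
  rw [hun, VV_union hdisj]
  have hVG : 0 ≤ VV G := VV_nonneg fun p hp => (hP p (mem_filter.1 hp).1).1
  have hρκ : 1 ≤ ρ ^ κ := Real.one_le_rpow hρ hκ
  have hkey : 1 ≤ (1 + η) * ρ ^ κ * VV D := by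
    rcases D.eq_empty_or_nonempty with h0 | ⟨p0, hp0⟩
    · rw [h0]
      unfold VV
      rw [prod_empty, mul_one]
      nlinarith
    · have hw1 : (1 : ℝ) < w := by exact_mod_cast (by omega : 1 < w)
      have hlw : 0 < Real.log w := Real.log_pos hw1
      have hx0 : (0 : ℝ) < x := by exact_mod_cast (by omega : 0 < x)
      set u : ℝ := max w (Real.exp (Λ / ρ)) with hu
      set v : ℝ := min x (Real.exp Λ) with hv
      have hall : ∀ p ∈ D, u < p ∧ (p : ℝ) ≤ v := by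
        intro p hp
        obtain ⟨h1, h2, h3⟩ := mem_filter.1 hp
        obtain ⟨h4, h5, h6, _⟩ := hP p h1
        have hpos : (0 : ℝ) < p := by exact_mod_cast h4.pos
        refine ⟨max_lt (by exact_mod_cast h5) ?_, le_min (by exact_mod_cast h6) ?_⟩
        · rw [← Real.exp_log hpos]
          refine Real.exp_lt_exp.mpr ?_
          rw [div_lt_iff₀ hρ0, mul_comm]
          exact not_le.1 h3
        · rw [← Real.exp_log hpos]
          exact Real.exp_le_exp.mpr (hΛ p h1 h2)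
      have hwu : (w : ℝ) ≤ u := le_max_left _ _
      have hu0 : 0 < u := by linarith
      have huv : u ≤ v := (hall p0 hp0).1.le.trans (hall p0 hp0).2
      have hv0 : 0 < v := by linarith
      have h1 := hdim u v (hxw.trans hwu) huv (min_le_left _ _)
      have hlu : Real.log w ≤ Real.log u := Real.log_le_log (by linarith) hwu
      have hlu0 : 0 < Real.log u := by linarith
      have hlv : Real.log u ≤ Real.log v := Real.log_le_log hu0 huv
      have h2 : Real.log v / Real.log u ≤ ρ := by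
        rw [div_le_iff₀ hlu0]
        have h3 : Real.log v ≤ Λ := by
          have := Real.log_le_log hv0 (min_le_right (x : ℝ) (Real.exp Λ))
          rwa [Real.log_exp] at this
        have h4 : Λ / ρ ≤ Real.log u := by
          have := Real.log_le_log (Real.exp_pos _) (le_max_right (w : ℝ) (Real.exp (Λ / ρ)))
          rwa [Real.log_exp] at this
        rw [div_le_iff₀ hρ0] at h4
        linarith
      have h3 : Real.log (Real.log v / Real.log u) ≤ Real.log ρ :=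
        Real.log_le_log (div_pos (by linarith) hlu0) h2
      have h4 : A / Real.log u ≤ A / Real.log w := div_le_div_of_nonneg_left hA hlw hlu
      have h5 : ∑ p ∈ D, 1 / (p : ℝ) ≤ κ * Real.log ρ + A / Real.log w := by
        calc ∑ p ∈ D, 1 / (p : ℝ) ≤ ∑ p ∈ (prs x).filter (fun p : ℕ => u < p ∧ (p : ℝ) ≤ v ∧
              p ∉ R ∧ p ∉ S), 1 / (p : ℝ) := by
              refine sum_le_sum_of_subset_of_nonneg ?_ fun p _ _ => by positivity
              intro p hp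
              obtain ⟨h6, h7, h8, h9⟩ := hP p (mem_filter.1 hp).1
              exact mem_filter.2 ⟨mem_prs.2 ⟨h6, h8⟩, (hall p hp).1, (hall p hp).2, h9⟩
          _ ≤ κ * Real.log (Real.log v / Real.log u) + A / Real.log u := h1
          _ ≤ _ := add_le_add (mul_le_mul_of_nonneg_left h3 hκ) h4
      have h6 := VV_ge (D := D) (w := w) (x := x) (by omega) hwx fun p hp =>
        ⟨(hP p (mem_filter.1 hp).1).1, (hP p (mem_filter.1 hp).1).2.1, (hP p (mem_filter.1 hp).1).2.2.1⟩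
      have h7 : Real.exp (-(κ * Real.log ρ) - Real.log (1 + η)) ≤ VV D := by
        refine le_trans (Real.exp_le_exp.mpr ?_) h6
        linarith
      have h8 : Real.exp (-(κ * Real.log ρ) - Real.log (1 + η)) * ((1 + η) * ρ ^ κ) = 1 := by
        rw [Real.rpow_def_of_pos hρ0]
        nth_rewrite 2 [← Real.exp_log (show 0 < 1 + η by linarith)]
        rw [← Real.exp_add, ← Real.exp_add]
        rw [show -(κ * Real.log ρ) - Real.log (1 + η) + (Real.log (1 + η) + Real.log ρ * κ) = 0 by ring,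
          Real.exp_zero]
      calc (1 : ℝ) = Real.exp (-(κ * Real.log ρ) - Real.log (1 + η)) * ((1 + η) * ρ ^ κ) := h8.symm
        _ ≤ VV D * ((1 + η) * ρ ^ κ) := mul_le_mul_of_nonneg_right h7 (by positivity)
        _ = _ := by ring
  calc VV G = VV G * 1 := (mul_one _).symm
    _ ≤ VV G * ((1 + η) * ρ ^ κ * VV D) := mul_le_mul_of_nonneg_left hkey hVG
    _ = _ := by ring

theorem crt (b : ℕ → ℕ) {e : Finset ℕ} (he : ∀ p ∈ e, p.Prime) :
    ∃ h ∈ range (∏ p ∈ e, p), ∀ m : ℕ, (∀ p ∈ e, m ≡ b p [MOD p]) ↔ m ≡ h [MOD ∏ p ∈ e, p] := by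
  classical
  induction e using Finset.induction_on with
  | empty =>
    refine ⟨0, by simp, fun m => ?_⟩
    simp only [notMem_empty, false_imp_iff, forall_const, prod_empty]
    exact ⟨fun _ => Nat.modEq_one, fun _ => trivial⟩
  | insert q e hq ih =>
    obtain ⟨h, hh, hm⟩ := ih fun p hp => he p (mem_insert_of_mem hp)
    have hqp := he q (mem_insert_self _ _)
    have hcop : Nat.Coprime q (∏ p ∈ e, p) := by
      refine Nat.Coprime.prod_right fun p hp => ?_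
      exact (Nat.coprime_primes hqp (he p (mem_insert_of_mem hp))).2 fun h => hq (h ▸ hp)
    obtain ⟨k, hk1, hk2⟩ := Nat.chineseRemainder hcop (b q) h
    have hpos : 0 < q * ∏ p ∈ e, p :=
      Nat.mul_pos hqp.pos (prod_pos fun p hp => (he p (mem_insert_of_mem hp)).pos)
    rw [prod_insert hq]
    refine ⟨k % (q * ∏ p ∈ e, p), mem_range.2 (Nat.mod_lt _ hpos), fun m => ?_⟩
    have e1 : m ≡ k % (q * ∏ p ∈ e, p) [MOD q * ∏ p ∈ e, p] ↔ m ≡ k [MOD q * ∏ p ∈ e, p] :=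
      ⟨fun h => h.trans (Nat.mod_modEq _ _), fun h => h.trans (Nat.mod_modEq _ _).symm⟩
    rw [e1, ← Nat.modEq_and_modEq_iff_modEq_mul hcop]
    simp only [mem_insert, forall_eq_or_imp]
    rw [hm]
    constructor
    · rintro ⟨h1, h2⟩
      exact ⟨h1.trans hk1.symm, h2.trans hk2.symm⟩
    · rintro ⟨h1, h2⟩
      exact ⟨h1.trans hk1, h2.trans hk2⟩

theorem contra {x y w D n I : ℕ} {R S : Finset ℕ} {a : Ch R} {κ δ η LD : ℝ} {ρ : ℕ → ℝ}
    (hR : ∀ p ∈ R, p.Prime ∧ p ≤ x) (hy : 0 < y) (hw : 2 ≤ w) (hwx : w ≤ x)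
    (hUD : UD y w D R δ a) (hD : ∀ d : ℕ, (d : ℝ) ≤ Real.exp LD → d ≤ D) (hcov : Cov x y R a)
    (hδ : 0 ≤ δ) (hη : 0 ≤ η) (hκ : 0 ≤ κ) (hκ1 : κ < 1) (hn : 1 ≤ n) (hnI : n + 1 ≤ I)
    (hI : n * LD < (I + 1) * Real.log w) (hηκ : (1 + η) * κ + η ≤ 1 - κ)
    (htop : ((n : ℝ) + 1) * Real.log x ≤ n * LD)
    (hdm : ∀ z : ℕ, ∀ Λ ρ : ℝ, 1 ≤ ρ →
      (∀ p ∈ (qb R ∅ w x).filter (fun p => p ∉ S), p < z → Real.log p ≤ Λ) →
      VV (((qb R ∅ w x).filter fun p => p ∉ S).filter fun p => p < z ∧ ρ * Real.log p ≤ Λ) ≤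
        (1 + η) * ρ ^ κ * VV (((qb R ∅ w x).filter fun p => p ∉ S).filter fun p => p < z))
    (hρ1 : ∀ q ∈ qb R ∅ w x, q ∈ S → 1 ≤ ρ q)
    (hρ : ∀ q ∈ qb R ∅ w x, q ∈ S → ((n : ℝ) + 1) * Real.log x ≤ ρ q * (n * (LD - Real.log q)))
    (hfin : 2 * δ * (1 + η) * ((I : ℝ) + 1) / ((n : ℝ) + 1) +
      (η * (1 + η) * ((n : ℝ) + 1) ^ κ + (η + (1 + η) * κ) * ((1 + η) / (1 - κ) +
        (1 + η) / ((n : ℝ) + 1))) +
      ∑ q ∈ (qb R ∅ w x).filter (fun p => p ∈ S), (1 + η) * ρ q ^ κ * (1 / (q : ℝ)) < 1) :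
    False := by
  classical
  obtain ⟨b, hb, hcover⟩ := hcov
  obtain ⟨t1, ht1, hp1⟩ := pattern b w
  have hRp : ∀ p ∈ R, p.Prime := fun p hp => (hR p hp).1
  have hVR : 0 < VV R := VV_pos hRp
  have hVA : 0 < VV (ad R ∅ w) := VV_pos fun p hp => (mem_ad.1 hp).1
  have hy' : (0 : ℝ) < y := by exact_mod_cast hy
  have hw1 : (1 : ℝ) < w := by exact_mod_cast (by omega : 1 < w)
  have hlw : 0 < Real.log w := Real.log_pos hw1
  have hwx' : (w : ℝ) ≤ x := by exact_mod_cast hwx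
  have hlx : 0 < Real.log x := Real.log_pos (by linarith)
  have hn' : (1 : ℝ) ≤ n := by exact_mod_cast hn
  set Q := qb R ∅ w x with hQ
  have hQm : ∀ {p : ℕ}, p ∈ Q ↔ p.Prime ∧ p ≤ x ∧ p ∉ R ∧ w < p := by
    intro p
    rw [hQ, mem_qb]
    simp
  set V : ℝ := VV (ad R ∅ w) * VV R with hV
  have hV0 : 0 < V := mul_pos hVA hVR
  have hLDx : Real.log x ≤ LD := by
    have h1 : (n : ℝ) * Real.log x ≤ n * LD := by linarith
    exact le_of_mul_le_mul_left h1 (by linarith)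
  set N := sv R (sift y 1 0 (ad R ∅ w) fun _ => t1) a with hN
  have hud : ∀ e ⊆ Q, ∑ p ∈ e, Real.log p ≤ LD →
      |(cnt N b e ∅ : ℝ) - y * V / ∏ p ∈ e, (p : ℝ)| ≤ δ * (y * V / ∏ p ∈ e, (p : ℝ)) := by
    intro e he hsum
    have hep : ∀ p ∈ e, p.Prime := fun p hp => (hQm.1 (he hp)).1
    obtain ⟨h, hh, hm⟩ := crt b hep
    set d : ℕ := ∏ p ∈ e, p with hd
    have hd0 : 0 < d := prod_pos fun p hp => (hep p hp).pos
    have hd1 : (d : ℝ) = ∏ p ∈ e, (p : ℝ) := by rw [hd]; push_cast; rfl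
    have hdD : d ≤ D := by
      refine hD d ?_
      rw [hd1]
      calc ∏ p ∈ e, (p : ℝ) = Real.exp (∑ p ∈ e, Real.log p) := by
            rw [Real.exp_sum]
            refine prod_congr rfl fun p hp => ?_
            rw [Real.exp_log (by exact_mod_cast (hep p hp).pos)]
        _ ≤ Real.exp LD := Real.exp_le_exp.mpr hsum
    have hnd : ∀ l : ℕ, l.Prime → l ∉ e → ¬ l ∣ d := by
      intro l hl hle hdvd
      rw [hd] at hdvd
      obtain ⟨p, hp, hlp⟩ := (Prime.dvd_finsetProd_iff hl.prime _).1 hdvd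
      exact hle (((Nat.prime_dvd_prime_iff_eq hl (hep p hp)).1 hlp) ▸ hp)
    have h1 := hUD t1 ht1 d (mem_Ioc.2 ⟨hd0, hdD⟩)
      (fun l hl => hnd l (hRp l hl) fun hle => (hQm.1 (he hle)).2.2.1 hl)
      (fun l hl => hnd l (mem_ad.1 hl).1 fun hle => by
        have h2 := (hQm.1 (he hle)).2.2.2
        have h3 := (mem_ad.1 hl).2.1
        omega) h hh
    have h2 : cnt N b e ∅ = (sv R (sift y d h (ad R ∅ w) fun _ => t1) a).card := by
      unfold cnt
      congr 1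
      ext m
      rw [mem_filter, hN, mem_sv, mem_sv]
      unfold sift
      rw [mem_filter, mem_filter, hm]
      constructor
      · rintro ⟨⟨⟨h3, _, h4⟩, h5⟩, h6, _⟩
        exact ⟨⟨h3, h6, h4⟩, h5⟩
      · rintro ⟨⟨h3, h6, h4⟩, h5⟩
        exact ⟨⟨⟨h3, Nat.modEq_one, h4⟩, h5⟩, h6, fun p hp => absurd hp (notMem_empty p)⟩
    rw [h2, ← hd1, abs_le]
    have e1 : (y : ℝ) * V / d = (y : ℝ) / d * V := by ring
    rw [e1]
    constructor
    · have := h1.1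
      linarith
    · have := h1.2
      linarith
  let Y : Sys :=
    { N := N, b := b, Q := Q, P := Q.filter fun p => p ∉ S, X := y * V, LD := LD, lw := Real.log w,
      δ := δ, η := η, κ := κ, n := n, I := I, Z := x + 2
      hQ := fun p hp => ⟨(hQm.1 hp).1, Real.log_lt_log (by linarith) (by
        exact_mod_cast (hQm.1 hp).2.2.2)⟩
      hP := filter_subset _ _
      hX := mul_pos hy' hV0
      hlw := hlw
      hδ := hδ
      hη := hη
      hκ := hκ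
      hn := hn
      hI := hI
      hZ := fun p hp => by
        have := (hQm.1 (mem_filter.1 hp).1).2.1
        omega
      hZ1 := by omega
      ud := hud
      dm := hdm }
  have hlogx : ∀ p : ℕ, p.Prime → p ≤ x → Real.log p ≤ Real.log x := fun p hp hpx =>
    Real.log_le_log (by exact_mod_cast hp.pos) (by exact_mod_cast hpx)
  obtain ⟨Φ, hΦ, hlow, hupp⟩ := Sys.core (Y := Y) hκ1 hnI hηκ (by
      show 0 ≤ LD
      linarith) (by
      intro p hp
      show ((n : ℝ) + 1) * Real.log p ≤ n * LD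
      have h1 := hQm.1 (mem_filter.1 hp).1
      refine le_trans (mul_le_mul_of_nonneg_left (hlogx p h1.1 h1.2.1) (by positivity)) htop)
  change (Φ - (2 * δ * (1 + η) * ((I : ℝ) + 1) / ((n : ℝ) + 1) +
      Φ * (η * (1 + η) * ((n : ℝ) + 1) ^ κ + (η + (1 + η) * κ) *
        ((1 + η) / (1 - κ) + (1 + η) / ((n : ℝ) + 1))))) * (y * V * VV (Q.filter fun p => p ∉ S)) ≤
        cnt N b ∅ (Q.filter fun p => p ∉ S) at hlow
  change ∀ q ∈ Q, q ∉ Q.filter (fun p => p ∉ S) → ∀ Λ ρ : ℝ,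
        (∀ p ∈ Q.filter (fun p => p ∉ S), Real.log p ≤ Λ) → 1 ≤ ρ →
        ((n : ℝ) + 1) * Λ ≤ ρ * (n * (LD - Real.log q)) → Real.log q ≤ LD →
        (cnt N b {q} (Q.filter fun p => p ∉ S) : ℝ) ≤
          Φ * ((1 + η) * ρ ^ κ) * (1 / (q : ℝ)) * (y * V * VV (Q.filter fun p => p ∉ S)) at hupp
  set P := Q.filter (fun p => p ∉ S) with hP
  set S' := Q.filter (fun p => p ∈ S) with hS'
  have hVP : 0 < VV P := VV_pos fun p hp => (hQm.1 (mem_filter.1 hp).1).1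
  set T : ℝ := y * V * VV P with hT
  have hT0 : 0 < T := by positivity
  -- the covering
  have hc1 : cnt N b ∅ P ≤ ∑ q ∈ S', cnt N b {q} P := by
    unfold cnt
    refine le_trans (card_le_card ?_) card_biUnion_le
    intro m hm
    obtain ⟨hm1, _, hm2⟩ := mem_filter.1 hm
    obtain ⟨hm3, hm4⟩ := mem_sv.1 hm1
    obtain ⟨hm5, _, hm6⟩ := mem_filter.1 hm3
    obtain ⟨h0, hmy⟩ := mem_Ioc.1 hm5
    obtain ⟨p, hp, hpx, hmp⟩ := hcover m h0 hmy
    have hpR : p ∉ R := fun h => hm4 ⟨p, h⟩ (hmp.trans (hb ⟨p, h⟩))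
    have hpw : w < p := by
      by_contra hcon
      have h1 : p ≤ w := not_lt.1 hcon
      exact hm6 p (mem_ad.2 ⟨hp, h1, hpR, notMem_empty p⟩) (hmp.trans (hp1 p hp h1).symm)
    have hpQ : p ∈ Q := hQm.2 ⟨hp, hpx, hpR, hpw⟩
    have hpS : p ∈ S := by
      by_contra h
      exact hm2 p (mem_filter.2 ⟨hpQ, h⟩) hmp
    refine mem_biUnion.2 ⟨p, mem_filter.2 ⟨hpQ, hpS⟩, mem_filter.2 ⟨hm1, ?_, hm2⟩⟩
    intro l hl
    rw [mem_singleton.1 hl]
    exact hmp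
  have hc2 : (cnt N b ∅ P : ℝ) ≤ ∑ q ∈ S', Φ * ((1 + η) * ρ q ^ κ) * (1 / (q : ℝ)) * T := by
    calc (cnt N b ∅ P : ℝ) ≤ ∑ q ∈ S', (cnt N b {q} P : ℝ) := by exact_mod_cast hc1
      _ ≤ _ := by
          refine sum_le_sum fun q hq => ?_
          obtain ⟨hqQ, hqS⟩ := mem_filter.1 hq
          have h1 := hQm.1 hqQ
          refine hupp q hqQ (fun h => (mem_filter.1 h).2 hqS) (Real.log x) (ρ q) ?_ (hρ1 q hqQ hqS)
            (hρ q hqQ hqS) ((hlogx q h1.1 h1.2.1).trans hLDx)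
          intro p hp
          have h2 := hQm.1 (mem_filter.1 hp).1
          exact hlogx p h2.1 h2.2.1
  have e1 : ∑ q ∈ S', Φ * ((1 + η) * ρ q ^ κ) * (1 / (q : ℝ)) * T =
      Φ * (∑ q ∈ S', (1 + η) * ρ q ^ κ * (1 / (q : ℝ))) * T := by
    rw [mul_sum, sum_mul]
    refine sum_congr rfl fun q _ => by ring
  rw [e1] at hc2
  set W : ℝ := ∑ q ∈ S', (1 + η) * ρ q ^ κ * (1 / (q : ℝ)) with hW
  set E1 : ℝ := 2 * δ * (1 + η) * ((I : ℝ) + 1) / ((n : ℝ) + 1) with hE1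
  set E2 : ℝ := η * (1 + η) * ((n : ℝ) + 1) ^ κ + (η + (1 + η) * κ) *
        ((1 + η) / (1 - κ) + (1 + η) / ((n : ℝ) + 1)) with hE2
  have hE10 : 0 ≤ E1 := by positivity
  have h1 : (Φ - (E1 + Φ * E2)) * T ≤ Φ * W * T := hlow.trans hc2
  have h2 : Φ - (E1 + Φ * E2) ≤ Φ * W := le_of_mul_le_mul_right h1 hT0
  have h3 : 0 < 1 - E2 - W := by linarith
  have h4 : 1 - E2 - W ≤ Φ * (1 - E2 - W) := le_mul_of_one_le_left h3.le hΦ
  have h5 : Φ * (1 - E2 - W) = Φ - Φ * E2 - Φ * W := by ring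
  linarith

end HD44
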