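import Pool.Agent.HD44.Gap

/-!
# The gap between the upper and the lower sieve functions, dimension between one half and one
-/

namespace HD44

open Finset

theorem bern_up {x y a : ℝ} (hx : 0 < x) (hy : 0 ≤ y) (h0 : 0 ≤ a) (h1 : a ≤ 1) :
    (x + y) ^ a ≤ x ^ a * (1 + a * (y / x)) := by
  have h2 : x + y = x * (1 + y / x) := by field_simp
  rw [h2, Real.mul_rpow hx.le (by positivity)]
  refine mul_le_mul_of_nonneg_left ?_ (by positivity)
  refine rpow_one_add_le_one_add_mul_self ?_ h0 h1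
  have : 0 ≤ y / x := by positivity
  linarith

theorem bern_down {x a : ℝ} (hx : 1 ≤ x) (h0 : 0 ≤ a) (h1 : a ≤ 1) :
    (x - 1) ^ a ≤ x ^ a * (1 - a / x) := by
  have hx0 : 0 < x := by linarith
  have h3 : 1 / x ≤ 1 := by rw [div_le_one hx0]; exact hx
  have h2 : x - 1 = x * (1 + -(1 / x)) := by field_simp; ring
  rw [h2, Real.mul_rpow hx0.le (by linarith)]
  refine mul_le_mul_of_nonneg_left ?_ (by positivity)
  have h4 := rpow_one_add_le_one_add_mul_self (s := -(1 / x)) (p := a) (by linarith) h0 h1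
  calc (1 + -(1 / x)) ^ a ≤ 1 + a * -(1 / x) := h4
    _ = 1 - a / x := by ring

theorem sum_sqrt {m : ℕ} (hm : 1 ≤ m) {b : ℕ} (hb : m ≤ b) :
    ∑ k ∈ Icc m b, 1 / Real.sqrt k ≤ 1 / Real.sqrt m + 2 * (Real.sqrt b - Real.sqrt m) := by
  induction b, hb using Nat.le_induction with
  | base => rw [Icc_self, sum_singleton]; linarith
  | succ b hb ih =>
    rw [Finset.sum_Icc_succ_top (by omega)]
    have hb0 : (0 : ℝ) ≤ b := Nat.cast_nonneg b
    set s := Real.sqrt ((b + 1 : ℕ) : ℝ) with hs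
    set t := Real.sqrt (b : ℝ) with ht
    have hs2 : s * s = (b : ℝ) + 1 := by
      rw [hs, Real.mul_self_sqrt (by positivity)]
      push_cast
      ring
    have ht2 : t * t = b := Real.mul_self_sqrt hb0
    have hs0 : 0 < s := Real.sqrt_pos.2 (by positivity)
    have ht0 : 0 ≤ t := Real.sqrt_nonneg _
    have hst : t ≤ s := Real.sqrt_le_sqrt (by push_cast; linarith)
    have h1 : 1 / s ≤ 2 * (s - t) := by
      rw [div_le_iff₀ hs0]
      nlinarith
    linarith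

theorem sum_inv {m : ℕ} (hm : 1 ≤ m) {b : ℕ} (hb : m ≤ b) :
    ∑ k ∈ Icc m b, 1 / (k : ℝ) ≤ 1 / (m : ℝ) + Real.log ((b : ℝ) / m) := by
  induction b, hb using Nat.le_induction with
  | base =>
    have : (m : ℝ) ≠ 0 := by positivity
    rw [Icc_self, sum_singleton, div_self this, Real.log_one]
    linarith
  | succ b hb ih =>
    rw [Finset.sum_Icc_succ_top (by omega)]
    have hm0 : (0 : ℝ) < m := by exact_mod_cast hm
    have hb0 : (0 : ℝ) < b := by exact_mod_cast (by omega : 0 < b)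
    have h1 : Real.log (((b + 1 : ℕ) : ℝ) / m) = Real.log ((b : ℝ) / m) +
        Real.log (((b : ℝ) + 1) / b) := by
      rw [← Real.log_mul (by positivity) (by positivity)]
      congr 1
      push_cast
      field_simp
    have h2 := Real.one_sub_inv_le_log_of_pos (x := ((b : ℝ) + 1) / b) (by positivity)
    have h3 : 1 - (((b : ℝ) + 1) / b)⁻¹ = 1 / (((b + 1 : ℕ) : ℝ)) := by
      push_cast
      field_simp
      ring
    rw [h1]
    linarith

/-- the closed form of the boundary sum -/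
theorem boundary {n b : ℕ} (hn : 1 ≤ n) (hnb : n < b) (hb : b ≤ 2 * n) :
    ∑ k ∈ Icc (b - n) b, ((1 - ((b : ℝ) - n) / n) * Real.sqrt ((b : ℝ) / k) +
      ((b : ℝ) - n) / n * ((2 * k + 2 * n - b) / k)) ≤ 2 * n + 2 + b / ((b : ℝ) - n) := by
  have hn0 : (0 : ℝ) < n := by exact_mod_cast hn
  have hnb' : (n : ℝ) < b := by exact_mod_cast hnb
  have hb' : (b : ℝ) ≤ 2 * n := by exact_mod_cast hb
  have hb0 : (0 : ℝ) < b := by linarith
  obtain ⟨m, hm⟩ : ∃ m : ℕ, b = n + m := ⟨b - n, by omega⟩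
  have hm1 : 1 ≤ m := by omega
  have hbm : b - n = m := by omega
  have hm0 : (0 : ℝ) < m := by exact_mod_cast hm1
  have hmr : (b : ℝ) - n = m := by rw [hm]; push_cast; ring
  rw [hbm, hmr]
  set a : ℝ := (m : ℝ) / n with ha
  have ha0 : 0 < a := by positivity
  have ha1 : a ≤ 1 := by
    rw [ha, div_le_one hn0]
    linarith
  have han : a * n = m := by rw [ha]; field_simp
  have hs := sum_sqrt hm1 (show m ≤ b by omega)
  have hi := sum_inv hm1 (show m ≤ b by omega)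
  have e1 : ∑ k ∈ Icc m b, ((1 - a) * Real.sqrt ((b : ℝ) / k) + a * ((2 * k + 2 * n - b) / k)) =
      (1 - a) * Real.sqrt b * ∑ k ∈ Icc m b, 1 / Real.sqrt k + 2 * a * ((n : ℝ) + 1) +
      a * (2 * n - b) * ∑ k ∈ Icc m b, 1 / (k : ℝ) := by
    have hcard : ∑ _k ∈ Icc m b, (2 * a) = 2 * a * ((n : ℝ) + 1) := by
      rw [sum_const, Nat.card_Icc, nsmul_eq_mul, show b + 1 - m = n + 1 by omega]
      push_cast
      ring
    rw [← hcard, mul_sum, mul_sum, ← sum_add_distrib, ← sum_add_distrib]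
    refine sum_congr rfl fun k hk => ?_
    have hk0 : (0 : ℝ) < k := by
      have := (mem_Icc.1 hk).1
      exact_mod_cast (by omega : 0 < k)
    rw [Real.sqrt_div hb0.le]
    field_simp
    ring
  rw [e1]
  set t : ℝ := Real.sqrt b / Real.sqrt m with ht
  have hsm : 0 < Real.sqrt m := Real.sqrt_pos.2 hm0
  have hsb : 0 < Real.sqrt b := Real.sqrt_pos.2 hb0
  have ht0 : 0 < t := by positivity
  have hsm2 : Real.sqrt m * Real.sqrt m = m := Real.mul_self_sqrt hm0.le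
  have hsb2 : Real.sqrt b * Real.sqrt b = b := Real.mul_self_sqrt hb0.le
  have htsm : t * Real.sqrt m = Real.sqrt b := by rw [ht]; field_simp
  have htt : t * t = b / m := by
    rw [ht, div_mul_div_comm, hsb2, hsm2]
  have ht1 : 1 ≤ t := by
    rw [ht, le_div_iff₀ hsm, one_mul]
    exact Real.sqrt_le_sqrt (by linarith)
  have hlogt : Real.log ((b : ℝ) / m) = 2 * Real.log t := by
    rw [← htt, Real.log_mul ht0.ne' ht0.ne']
    ring
  have hlt := Real.log_le_sub_one_of_pos ht0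
  have htle : t ≤ b / m := by
    rw [← htt]
    nlinarith
  have h1 : (1 - a) * Real.sqrt b * ∑ k ∈ Icc m b, 1 / Real.sqrt k ≤
      (1 - a) * (t + 2 * b - 2 * (m * t)) := by
    rw [mul_assoc]
    refine mul_le_mul_of_nonneg_left ?_ (by linarith)
    calc Real.sqrt b * ∑ k ∈ Icc m b, 1 / Real.sqrt k ≤
          Real.sqrt b * (1 / Real.sqrt m + 2 * (Real.sqrt b - Real.sqrt m)) :=
          mul_le_mul_of_nonneg_left hs hsb.le
      _ = t + 2 * (Real.sqrt b * Real.sqrt b) - 2 * (t * (Real.sqrt m * Real.sqrt m)) := by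
          rw [← htsm]
          field_simp
          ring
      _ = _ := by rw [hsb2, hsm2]; ring
  have h2nb : 0 ≤ 2 * (n : ℝ) - b := by linarith
  have h2 : a * (2 * n - b) * ∑ k ∈ Icc m b, 1 / (k : ℝ) ≤
      a * (2 * n - b) * (1 / m + 2 * Real.log t) := by
    rw [hlogt] at hi
    exact mul_le_mul_of_nonneg_left hi (by positivity)
  have hbn : (b : ℝ) = (1 + a) * n := by
    rw [add_mul, han, one_mul]
    linarith
  have e2 : a * (2 * n - b) * (1 / m + 2 * Real.log t) =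
      (1 - a) + 2 * (a * (1 - a) * n * Real.log t) := by
    have h3 : 2 * (n : ℝ) - b = (1 - a) * n := by rw [hbn]; ring
    rw [h3]
    have h4 : a * ((1 - a) * n) * (1 / m) = 1 - a := by
      rw [show a * ((1 - a) * n) = (1 - a) * (a * n) by ring, han]
      field_simp
    calc a * ((1 - a) * n) * (1 / m + 2 * Real.log t) = a * ((1 - a) * n) * (1 / m) +
          2 * (a * (1 - a) * n * Real.log t) := by ring
      _ = _ := by rw [h4]
  have e3 : (1 - a) * (t + 2 * b - 2 * (m * t)) = (1 - a) * t + 2 * n * (1 - a * a) -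
      2 * (a * (1 - a) * n * t) := by
    rw [hbn, ← han]
    ring
  have h5 : a * (1 - a) * n * Real.log t ≤ a * (1 - a) * n * (t - 1) := by
    refine mul_le_mul_of_nonneg_left hlt ?_
    have : 0 ≤ 1 - a := by linarith
    positivity
  have h6 : (1 - a) * t ≤ t := mul_le_of_le_one_left ht0.le (by linarith)
  rw [e3] at h1
  rw [e2] at h2
  have e4 : 2 * (n : ℝ) * (1 - a * a) - 2 * (a * (1 - a) * n * t) + 2 * a * ((n : ℝ) + 1) +
      2 * (a * (1 - a) * n * (t - 1)) = 2 * n + 2 * a := by ring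
  linarith

/-- the weight of an index -/
noncomputable def wR (a c : ℝ) (j : ℕ) : ℝ := ((j : ℝ) - c) ^ a

theorem wR_pos {a c : ℝ} {j : ℕ} (h : c < j) : 0 < wR a c j := Real.rpow_pos_of_pos (by linarith) _

theorem wR_add {a c : ℝ} (h0 : 0 ≤ a) (h1 : a ≤ 1) {j n : ℕ} (h : c < j) :
    wR a c (j + n) ≤ wR a c j * (1 + a * (n / ((j : ℝ) - c))) := by
  unfold wR
  have h2 : ((j + n : ℕ) : ℝ) - c = ((j : ℝ) - c) + n := by push_cast; ring
  rw [h2]
  exact bern_up (by linarith) (Nat.cast_nonneg n) h0 h1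

theorem wR_sub {a c : ℝ} (h0 : 0 ≤ a) (h1 : a ≤ 1) {j : ℕ} (h : c + 1 ≤ (j : ℝ)) :
    ((j : ℝ) - 1 - c) ^ a ≤ wR a c j * (1 - a / ((j : ℝ) - c)) := by
  unfold wR
  have h2 : (j : ℝ) - 1 - c = ((j : ℝ) - c) - 1 := by ring
  rw [h2]
  exact bern_down (by linarith) h0 h1

theorem gm1 {κ : ℝ} (h0 : 0 ≤ κ) (h1 : κ ≤ 1) {j : ℝ} (hj : 1 ≤ j) :
    j ^ κ * (j - 1) ^ (1 - κ) ≤ j - 1 + κ := by
  have h := Real.geom_mean_le_arith_mean2_weighted (w₁ := κ) (w₂ := 1 - κ) (p₁ := j) (p₂ := j - 1)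
    h0 (by linarith) (by linarith) (by linarith) (by ring)
  linarith

theorem gm2 {κ : ℝ} (h0 : 0 ≤ κ) {j : ℝ} (hj : 1 < j) :
    j - 1 ≤ j ^ κ * (j - 1) ^ (1 - κ) := by
  calc j - 1 = (j - 1) ^ (κ + (1 - κ)) := by
        rw [show κ + (1 - κ) = 1 by ring, Real.rpow_one]
    _ = (j - 1) ^ κ * (j - 1) ^ (1 - κ) := Real.rpow_add (by linarith) _ _
    _ ≤ _ := by
        refine mul_le_mul_of_nonneg_right ?_ (by
          have : 0 < j - 1 := by linarith
          positivity)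
        exact Real.rpow_le_rpow (by linarith) (by linarith) h0

/-- the coefficients of the weighted inequality: bounds -/
theorem coef {κ a c κ1 : ℝ} (h0 : 0 ≤ κ) (h1 : κ ≤ 1) (ha0 : 0 ≤ a) (ha1 : a ≤ 1) {n b j : ℕ}
    (hn : 1 ≤ n) (hc : c = (b : ℝ) / 2) (hb : b + 1 ≤ j) (hb1 : 2 ≤ b) (hκ1 : κ ≤ κ1)
    (hκ1n : κ1 * n + 1 ≤ c) (han : (1 + a) * n = b) :
    κ1 * wR a c (j + n) ≤ (j : ℝ) * wR a c j - (j : ℝ) ^ κ * ((j : ℝ) - 1) ^ (1 - κ) *
      ((j : ℝ) - 1 - c) ^ a ∧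
    (j : ℝ) * wR a c j - (j : ℝ) ^ κ * ((j : ℝ) - 1) ^ (1 - κ) * ((j : ℝ) - 1 - c) ^ a ≤
      3 * wR a c j := by
  have hn0 : (0 : ℝ) < n := by exact_mod_cast hn
  have hbr : (2 : ℝ) ≤ b := by exact_mod_cast hb1
  have hjb : (b : ℝ) + 1 ≤ j := by exact_mod_cast hb
  have hx : 0 < (j : ℝ) - c := by rw [hc]; linarith
  have hx1 : 0 < (j : ℝ) - 1 - c := by rw [hc]; linarith
  have hW := wR_pos (a := a) (c := c) (j := j) (by linarith)
  have hp : 0 < ((j : ℝ) - 1 - c) ^ a := Real.rpow_pos_of_pos hx1 _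
  set x : ℝ := (j : ℝ) - c with hxd
  constructor
  · have h2 := wR_add (a := a) (c := c) ha0 ha1 (j := j) (n := n) (by linarith)
    have h3 := wR_sub (a := a) (c := c) ha0 ha1 (j := j) (by linarith)
    have h4 := gm1 h0 h1 (j := (j : ℝ)) (by linarith)
    rw [← hxd] at h2 h3
    have h5 : (j : ℝ) ^ κ * ((j : ℝ) - 1) ^ (1 - κ) * ((j : ℝ) - 1 - c) ^ a ≤
        ((j : ℝ) - 1 + κ) * (wR a c j * (1 - a / x)) :=
      mul_le_mul h4 h3 hp.le (by linarith)
    have hκ10 : 0 ≤ κ1 := h0.trans hκ1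
    have h6 : κ1 * wR a c (j + n) ≤ κ1 * (wR a c j * (1 + a * (n / x))) :=
      mul_le_mul_of_nonneg_left h2 hκ10
    have h7 : κ1 * (1 + a * (n / x)) ≤ (j : ℝ) - ((j : ℝ) - 1 + κ) * (1 - a / x) := by
      have e1 : (j : ℝ) - ((j : ℝ) - 1 + κ) * (1 - a / x) = (1 - κ) + ((j : ℝ) - 1 + κ) * (a / x) := by
        ring
      have e2 : ((j : ℝ) - 1 + κ) * (a / x) = a + (c - 1 + κ) * (a / x) := by
        have : (j : ℝ) - 1 + κ = x + (c - 1 + κ) := by rw [hxd]; ring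
        rw [this, add_mul]
        congr 1
        field_simp
      have e3 : κ1 * (1 + a * (n / x)) = κ1 + κ1 * n * (a / x) := by ring
      rw [e1, e2, e3]
      have h8 : κ1 * n * (a / x) ≤ (c - 1 + κ) * (a / x) :=
        mul_le_mul_of_nonneg_right (by linarith) (by positivity)
      have h9 : κ + κ1 ≤ 1 + a := by
        have h10 : κ1 * n ≤ (1 + a) / 2 * n := by
          have : (1 + a) / 2 * n = c := by rw [hc, ← han]; ring
          linarith
        have h11 := le_of_mul_le_mul_right h10 hn0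
        linarith
      linarith
    have h12 : κ1 * (wR a c j * (1 + a * (n / x))) ≤
        (j : ℝ) * wR a c j - ((j : ℝ) - 1 + κ) * (wR a c j * (1 - a / x)) := by
      have h13 := mul_le_mul_of_nonneg_right h7 hW.le
      have e4 : ((j : ℝ) - ((j : ℝ) - 1 + κ) * (1 - a / x)) * wR a c j =
        (j : ℝ) * wR a c j - ((j : ℝ) - 1 + κ) * (wR a c j * (1 - a / x)) := by ring
      have e5 : κ1 * (1 + a * (n / x)) * wR a c j = κ1 * (wR a c j * (1 + a * (n / x))) := by ring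
      rw [e4, e5] at h13
      exact h13
    linarith
  · have h2 := gm2 h0 (j := (j : ℝ)) (by linarith)
    have h3 : ((j : ℝ) - 1) * ((j : ℝ) - 1 - c) ^ a ≤
        (j : ℝ) ^ κ * ((j : ℝ) - 1) ^ (1 - κ) * ((j : ℝ) - 1 - c) ^ a :=
      mul_le_mul_of_nonneg_right h2 hp.le
    set x1 : ℝ := (j : ℝ) - 1 - c with hx1d
    have h4 : wR a c j ≤ x1 ^ a * (1 + a * (1 / x1)) := by
      have h5 := bern_up (x := x1) (y := 1) (a := a) hx1 zero_le_one ha0 ha1
      have h6 : x1 + 1 = (j : ℝ) - c := by rw [hx1d]; ring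
      rw [h6] at h5
      exact h5
    have h7 : ((j : ℝ) - 1) * (1 / x1) ≤ 2 := by
      rw [mul_one_div, div_le_iff₀ hx1, hx1d, hc]
      linarith
    have h8 : ((j : ℝ) - 1) * (wR a c j - x1 ^ a) ≤ 2 * x1 ^ a := by
      have h9 : wR a c j - x1 ^ a ≤ x1 ^ a * (a * (1 / x1)) := by
        have : x1 ^ a * (1 + a * (1 / x1)) = x1 ^ a + x1 ^ a * (a * (1 / x1)) := by ring
        linarith
      calc ((j : ℝ) - 1) * (wR a c j - x1 ^ a) ≤ ((j : ℝ) - 1) * (x1 ^ a * (a * (1 / x1))) :=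
            mul_le_mul_of_nonneg_left h9 (by linarith)
        _ = a * (((j : ℝ) - 1) * (1 / x1)) * x1 ^ a := by ring
        _ ≤ 1 * 2 * x1 ^ a := by
            refine mul_le_mul_of_nonneg_right ?_ hp.le
            refine mul_le_mul ha1 h7 ?_ zero_le_one
            refine mul_nonneg (by linarith) (by positivity)
        _ = 2 * x1 ^ a := by ring
    have h10 : x1 ^ a ≤ wR a c j := Real.rpow_le_rpow hx1.le (by rw [hx1d]; linarith) ha0
    have e1 : (j : ℝ) * wR a c j - ((j : ℝ) - 1) * x1 ^ a = wR a c j +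
        ((j : ℝ) - 1) * (wR a c j - x1 ^ a) := by ring
    linarith

/-- pointwise bound of the boundary terms -/
theorem bterm {κ a c : ℝ} {n b k : ℕ} (hn : 1 ≤ n) (hc : c = (b : ℝ) / 2)
    (ha : a = ((b : ℝ) - n) / n) (ha0 : 0 ≤ a) (ha1 : a ≤ 1) (hκa : κ ≤ (1 + a) / 2)
    (hk1 : 1 ≤ k) (hkb : k ≤ b) (hb1 : 1 ≤ b) (hkn : b ≤ 2 * n) :
    wR a c (k + n) * ((b : ℝ) ^ κ / (k : ℝ) ^ κ) ≤ wR a c b * ((1 - a) * Real.sqrt ((b : ℝ) / k) +
      a * ((2 * k + 2 * n - b) / k)) := by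
  have hk0 : (0 : ℝ) < k := by exact_mod_cast hk1
  have hb0 : (0 : ℝ) < b := by exact_mod_cast hb1
  have hkb' : (k : ℝ) ≤ b := by exact_mod_cast hkb
  have hkn' : (b : ℝ) ≤ 2 * n := by exact_mod_cast hkn
  have hτ : 1 ≤ (b : ℝ) / k := by rw [le_div_iff₀ hk0]; linarith
  have hτ0 : 0 < (b : ℝ) / k := by linarith
  have h1 : (b : ℝ) ^ κ / (k : ℝ) ^ κ = ((b : ℝ) / k) ^ κ := (Real.div_rpow hb0.le hk0.le _).symm
  have h2 : ((b : ℝ) / k) ^ κ ≤ ((b : ℝ) / k) ^ ((1 + a) / 2) :=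
    Real.rpow_le_rpow_of_exponent_le hτ hκa
  have h3 : wR a c (k + n) = wR a c b * (((2 * k + 2 * n - b) / b : ℝ)) ^ a := by
    unfold wR
    rw [← Real.mul_rpow (by rw [hc]; linarith) (div_nonneg (by linarith) hb0.le)]
    congr 1
    rw [hc]
    push_cast
    field_simp
    ring
  have hy0 : 0 < (2 * (k : ℝ) + 2 * n - b) := by linarith
  have h4 : (((2 * k + 2 * n - b) / b : ℝ)) ^ a * ((b : ℝ) / k) ^ ((1 + a) / 2) =
      (Real.sqrt ((b : ℝ) / k)) ^ (1 - a) * (((2 * k + 2 * n - b) / k : ℝ)) ^ a := by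
    rw [Real.sqrt_eq_rpow, ← Real.rpow_mul hτ0.le]
    have h5 : (2 * (k : ℝ) + 2 * n - b) / k = ((2 * k + 2 * n - b) / b) * (b / k) := by
      field_simp
    rw [h5, Real.mul_rpow (by positivity) hτ0.le]
    have h6 : ((b : ℝ) / k) ^ ((1 + a) / 2) = ((b : ℝ) / k) ^ (1 / 2 * (1 - a)) *
        ((b : ℝ) / k) ^ a := by
      rw [← Real.rpow_add hτ0]
      congr 1
      ring
    rw [h6]
    ring
  have h5 := Real.geom_mean_le_arith_mean2_weighted (w₁ := 1 - a) (w₂ := a)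
    (p₁ := Real.sqrt ((b : ℝ) / k)) (p₂ := (2 * k + 2 * n - b) / k) (by linarith) ha0
    (Real.sqrt_nonneg _) (by positivity) (by ring)
  have hW := wR_pos (a := a) (c := c) (j := b) (by rw [hc]; linarith)
  rw [h1, h3]
  calc wR a c b * (((2 * k + 2 * n - b) / b : ℝ)) ^ a * ((b : ℝ) / k) ^ κ
      ≤ wR a c b * (((2 * k + 2 * n - b) / b : ℝ)) ^ a * ((b : ℝ) / k) ^ ((1 + a) / 2) :=
        mul_le_mul_of_nonneg_left h2 (by positivity)
    _ = wR a c b * ((((2 * k + 2 * n - b) / b : ℝ)) ^ a * ((b : ℝ) / k) ^ ((1 + a) / 2)) := by ring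
    _ ≤ _ := by
        rw [h4]
        exact mul_le_mul_of_nonneg_left h5 hW.le

/-- the weights -/
noncomputable def wt2 (κ a c : ℝ) (b j : ℕ) : ℝ :=
  if j ≤ b then (j : ℝ) ^ (1 - κ) * wR a c j else
    (j : ℝ) ^ (1 - κ) * wR a c j - ((j : ℝ) - 1) ^ (1 - κ) * ((j : ℝ) - 1 - c) ^ a

theorem wt2_sum (κ a c : ℝ) (b i : ℕ) (hi : b ≤ i) :
    ∑ j ∈ Icc b i, wt2 κ a c b j = (i : ℝ) ^ (1 - κ) * wR a c i := by
  induction i, hi using Nat.le_induction with
  | base => rw [Icc_self, sum_singleton]; unfold wt2; rw [if_pos le_rfl]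
  | succ i hi ih =>
    rw [Finset.sum_Icc_succ_top (by omega), ih]
    unfold wt2
    rw [if_neg (by omega)]
    have e : ((i + 1 : ℕ) : ℝ) - 1 = i := by push_cast; ring
    rw [e]
    unfold wR
    ring

theorem gap2 {κ : ℝ} (h0 : 0 ≤ κ) (h1 : κ ≤ 1) {n b I : ℕ} (hn : 1 ≤ n) (hnb : n < b)
    (hb2 : b ≤ 2 * n) (hI : b ≤ I) {η δ κ1 : ℝ} (hη : 0 ≤ η) (hδ : 0 ≤ δ)
    (hκ1 : (1 + η) * κ + 3 * η ≤ κ1) (hκ1n : κ1 * n + 1 ≤ (b : ℝ) / 2) (M : ℕ → ℝ)
    (hM : ∀ k, 0 ≤ M k) {Φ : ℝ} (hΦ : 0 ≤ Φ)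
    (hrec : ∀ j, b ≤ j → j ≤ I → M j ≤ 2 * δ * ((1 + η) * ((I : ℝ) + 1) ^ κ / (j : ℝ) ^ κ) +
      (η * M (j - n) + (1 + η) * ∑ i ∈ Icc j I, M (i - n) * (((i : ℝ) + 1) ^ κ - (i : ℝ) ^ κ) /
        (j : ℝ) ^ κ))
    (hB : ∀ k, 1 ≤ k → k ≤ b → M k ≤ Φ * ((1 + η) * ((b : ℝ) ^ κ / (k : ℝ) ^ κ))) :
    M b ≤ 4 * δ * (1 + η) * (((I : ℝ) + 1) / b) ^ 2 +
      Φ * (η * (1 + η) * (b / ((b : ℝ) - n)) +
        κ1 * (1 + η) * ((2 * n + 2 + b / ((b : ℝ) - n)) / b)) := by
  have hn0 : (0 : ℝ) < n := by exact_mod_cast hn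
  have hnb' : (n : ℝ) < b := by exact_mod_cast hnb
  have hb' : (b : ℝ) ≤ 2 * n := by exact_mod_cast hb2
  have hb0 : (0 : ℝ) < b := by linarith
  have hb1 : 2 ≤ b := by omega
  have hIr : (b : ℝ) ≤ I := by exact_mod_cast hI
  set c : ℝ := (b : ℝ) / 2 with hc
  set a : ℝ := ((b : ℝ) - n) / n with ha
  have ha0 : 0 ≤ a := div_nonneg (by linarith) hn0.le
  have ha1 : a ≤ 1 := by rw [ha, div_le_one hn0]; linarith
  have han : (1 + a) * n = b := by rw [ha]; field_simp; ring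
  have hκκ1 : κ ≤ κ1 := by
    have : 0 ≤ η * κ := mul_nonneg hη h0
    linarith
  have hκ10 : 0 ≤ κ1 := h0.trans hκκ1
  set A : ℕ → ℝ := fun j => (j : ℝ) ^ κ * wt2 κ a c b j with hA
  have hWb := wR_pos (a := a) (c := c) (j := b) (by rw [hc]; linarith)
  have hAb : A b = b * wR a c b := by
    show (b : ℝ) ^ κ * wt2 κ a c b b = _
    unfold wt2
    rw [if_pos le_rfl, ← mul_assoc, ← Real.rpow_add hb0]
    simp
  have hAj : ∀ j ∈ Icc (b + 1) I, κ1 * wR a c (j + n) ≤ A j ∧ A j ≤ 3 * wR a c j := by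
    intro j hj
    have hj1 := (mem_Icc.1 hj).1
    have hj0 : (0 : ℝ) < j := by exact_mod_cast (by omega : 0 < j)
    have h2 := coef (κ := κ) (a := a) (c := c) (κ1 := κ1) (n := n) (b := b) (j := j) h0 h1 ha0 ha1
      hn hc hj1 hb1 hκκ1 hκ1n han
    have h3 : A j = (j : ℝ) * wR a c j - (j : ℝ) ^ κ * ((j : ℝ) - 1) ^ (1 - κ) *
        ((j : ℝ) - 1 - c) ^ a := by
      show (j : ℝ) ^ κ * wt2 κ a c b j = _
      unfold wt2
      rw [if_neg (by omega), mul_sub, ← mul_assoc, ← mul_assoc, ← Real.rpow_add hj0]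
      simp
    rw [h3]
    exact h2
  have hsplit : Icc b I = insert b (Icc (b + 1) I) := by
    ext j
    rw [mem_insert, mem_Icc, mem_Icc]
    omega
  have hnot : b ∉ Icc (b + 1) I := by rw [mem_Icc]; omega
  have hWj : ∀ j, b ≤ j → 0 < wR a c j := by
    intro j hj
    refine wR_pos ?_
    have : (b : ℝ) ≤ j := by exact_mod_cast hj
    rw [hc]
    linarith
  have hA0 : ∀ j ∈ Icc b I, 0 ≤ A j := by
    intro j hj
    rw [hsplit, mem_insert] at hj
    rcases hj with hj | hj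
    · rw [hj, hAb]
      positivity
    · refine le_trans ?_ (hAj j hj).1
      have := hWj (j + n) (by have := (mem_Icc.1 hj).1; omega)
      positivity
  have hsum : ∑ j ∈ Icc b I, A j * M j ≤ ∑ j ∈ Icc b I, A j *
      (2 * δ * ((1 + η) * ((I : ℝ) + 1) ^ κ / (j : ℝ) ^ κ) +
      (η * M (j - n) + (1 + η) * ∑ i ∈ Icc j I, M (i - n) * (((i : ℝ) + 1) ^ κ - (i : ℝ) ^ κ) /
        (j : ℝ) ^ κ)) :=
    sum_le_sum fun j hj => mul_le_mul_of_nonneg_left
      (hrec j (mem_Icc.1 hj).1 (mem_Icc.1 hj).2) (hA0 j hj)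
  have hleft : b * wR a c b * M b + κ1 * ∑ j ∈ Icc (b + 1) I, wR a c (j + n) * M j ≤
      ∑ j ∈ Icc b I, A j * M j := by
    rw [hsplit, sum_insert hnot, hAb, mul_sum]
    refine add_le_add le_rfl (sum_le_sum fun j hj => ?_)
    rw [← mul_assoc]
    exact mul_le_mul_of_nonneg_right (hAj j hj).1 (hM j)
  have herr : ∑ j ∈ Icc b I, A j * (2 * δ * ((1 + η) * ((I : ℝ) + 1) ^ κ / (j : ℝ) ^ κ)) ≤
      2 * δ * (1 + η) * ((I : ℝ) + 1) * wR a c I := by
    have e : ∀ j ∈ Icc b I, A j * (2 * δ * ((1 + η) * ((I : ℝ) + 1) ^ κ / (j : ℝ) ^ κ)) =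
        2 * δ * (1 + η) * ((I : ℝ) + 1) ^ κ * wt2 κ a c b j := by
      intro j hj
      have hj0 : (0 : ℝ) < j := by
        have := (mem_Icc.1 hj).1
        exact_mod_cast (by omega : 0 < j)
      have : (j : ℝ) ^ κ ≠ 0 := by positivity
      show (j : ℝ) ^ κ * wt2 κ a c b j * _ = _
      field_simp
    rw [sum_congr rfl e, ← mul_sum, wt2_sum κ a c b I hI]
    have h2 : (I : ℝ) ^ (1 - κ) ≤ ((I : ℝ) + 1) ^ (1 - κ) :=
      Real.rpow_le_rpow (by positivity) (by linarith) (by linarith)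
    have h3 : ((I : ℝ) + 1) ^ κ * ((I : ℝ) + 1) ^ (1 - κ) = (I : ℝ) + 1 := by
      rw [← Real.rpow_add (by positivity)]
      simp
    have hWI := hWj I hI
    calc 2 * δ * (1 + η) * ((I : ℝ) + 1) ^ κ * ((I : ℝ) ^ (1 - κ) * wR a c I)
        ≤ 2 * δ * (1 + η) * ((I : ℝ) + 1) ^ κ * (((I : ℝ) + 1) ^ (1 - κ) * wR a c I) :=
          mul_le_mul_of_nonneg_left (mul_le_mul_of_nonneg_right h2 hWI.le) (by positivity)
      _ = 2 * δ * (1 + η) * (((I : ℝ) + 1) ^ κ * ((I : ℝ) + 1) ^ (1 - κ)) * wR a c I := by ring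
      _ = _ := by rw [h3]
  set Z : ℝ := ∑ i ∈ Icc b I, wR a c i * M (i - n) with hZ
  have hη1 : ∑ j ∈ Icc b I, A j * (η * M (j - n)) ≤ η * (b * wR a c b * M (b - n)) + 3 * η * Z := by
    have h2 : ∑ j ∈ Icc (b + 1) I, A j * (η * M (j - n)) ≤ 3 * η * Z := by
      calc ∑ j ∈ Icc (b + 1) I, A j * (η * M (j - n)) ≤
            ∑ j ∈ Icc (b + 1) I, 3 * η * (wR a c j * M (j - n)) := by
            refine sum_le_sum fun j hj => ?_
            have h3 := mul_le_mul_of_nonneg_right (hAj j hj).2 (mul_nonneg hη (hM (j - n)))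
            linarith
        _ ≤ ∑ j ∈ Icc b I, 3 * η * (wR a c j * M (j - n)) := by
            refine sum_le_sum_of_subset_of_nonneg (Icc_subset_Icc (by omega) le_rfl) ?_
            intro j hj _
            have h3 := hWj j (mem_Icc.1 hj).1
            have h4 := hM (j - n)
            positivity
        _ = 3 * η * Z := by rw [hZ, mul_sum]
    rw [hsplit, sum_insert hnot, hAb]
    have e : (b : ℝ) * wR a c b * (η * M (b - n)) = η * (b * wR a c b * M (b - n)) := by ring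
    rw [e]
    linarith
  have hmain : ∑ j ∈ Icc b I, A j * ((1 + η) * ∑ i ∈ Icc j I, M (i - n) *
      (((i : ℝ) + 1) ^ κ - (i : ℝ) ^ κ) / (j : ℝ) ^ κ) ≤ (1 + η) * κ * Z := by
    have e1 : ∑ j ∈ Icc b I, A j * ((1 + η) * ∑ i ∈ Icc j I, M (i - n) *
        (((i : ℝ) + 1) ^ κ - (i : ℝ) ^ κ) / (j : ℝ) ^ κ) =
        (1 + η) * ∑ j ∈ Icc b I, ∑ i ∈ Icc j I, wt2 κ a c b j * (M (i - n) *
        (((i : ℝ) + 1) ^ κ - (i : ℝ) ^ κ)) := by
      rw [mul_sum]
      refine sum_congr rfl fun j hj => ?_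
      have hj0 : (0 : ℝ) < j := by
        have := (mem_Icc.1 hj).1
        exact_mod_cast (by omega : 0 < j)
      have hj1 : (j : ℝ) ^ κ ≠ 0 := by positivity
      rw [mul_sum, mul_sum, mul_sum]
      refine sum_congr rfl fun i hi => ?_
      show (j : ℝ) ^ κ * wt2 κ a c b j * _ = _
      field_simp
    have e2 : ∑ j ∈ Icc b I, ∑ i ∈ Icc j I, wt2 κ a c b j * (M (i - n) *
        (((i : ℝ) + 1) ^ κ - (i : ℝ) ^ κ)) =
        ∑ i ∈ Icc b I, ∑ j ∈ Icc b i, wt2 κ a c b j * (M (i - n) *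
        (((i : ℝ) + 1) ^ κ - (i : ℝ) ^ κ)) := by
      refine sum_comm' ?_
      intro j i
      simp only [mem_Icc]
      omega
    rw [e1, e2, mul_assoc]
    refine mul_le_mul_of_nonneg_left ?_ (by linarith)
    rw [hZ, mul_sum]
    refine sum_le_sum fun i hi => ?_
    have hi1 := (mem_Icc.1 hi).1
    rw [← sum_mul, wt2_sum κ a c b i hi1]
    have h3 := rpow_step h0 h1 (i := i) (by omega)
    have h4 := hWj i hi1
    calc (i : ℝ) ^ (1 - κ) * wR a c i * (M (i - n) * (((i : ℝ) + 1) ^ κ - (i : ℝ) ^ κ))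
        = (((i : ℝ) + 1) ^ κ - (i : ℝ) ^ κ) * (i : ℝ) ^ (1 - κ) * (wR a c i * M (i - n)) := by ring
      _ ≤ κ * (wR a c i * M (i - n)) :=
          mul_le_mul_of_nonneg_right h3 (mul_nonneg h4.le (hM _))
  have hright : ∑ j ∈ Icc b I, A j *
      (2 * δ * ((1 + η) * ((I : ℝ) + 1) ^ κ / (j : ℝ) ^ κ) +
      (η * M (j - n) + (1 + η) * ∑ i ∈ Icc j I, M (i - n) * (((i : ℝ) + 1) ^ κ - (i : ℝ) ^ κ) /
        (j : ℝ) ^ κ)) =
      ∑ j ∈ Icc b I, A j * (2 * δ * ((1 + η) * ((I : ℝ) + 1) ^ κ / (j : ℝ) ^ κ)) +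
      (∑ j ∈ Icc b I, A j * (η * M (j - n)) +
      ∑ j ∈ Icc b I, A j * ((1 + η) * ∑ i ∈ Icc j I, M (i - n) *
      (((i : ℝ) + 1) ^ κ - (i : ℝ) ^ κ) / (j : ℝ) ^ κ)) := by
    rw [← sum_add_distrib, ← sum_add_distrib]
    refine sum_congr rfl fun j _ => by ring
  rw [hright] at hsum
  -- shift
  have hZ2 : Z ≤ ∑ k ∈ Icc (b - n) b, wR a c (k + n) * M k +
      ∑ k ∈ Icc (b + 1) I, wR a c (k + n) * M k := by
    have h2 : Z = ∑ k ∈ Icc (b - n) (I - n), wR a c (k + n) * M k := by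
      rw [hZ]
      refine sum_nbij' (fun i => i - n) (fun k => k + n) ?_ ?_ ?_ ?_ ?_
      · intro i hi
        have := mem_Icc.1 hi
        rw [mem_Icc]
        omega
      · intro k hk
        have := mem_Icc.1 hk
        rw [mem_Icc]
        omega
      · intro i hi
        have := mem_Icc.1 hi
        show i - n + n = i
        omega
      · intro k hk
        show k + n - n = k
        omega
      · intro i hi
        have := mem_Icc.1 hi
        show wR a c i * M (i - n) = wR a c (i - n + n) * M (i - n)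
        rw [show i - n + n = i by omega]
    rw [h2, ← sum_union]
    · refine sum_le_sum_of_subset_of_nonneg ?_ ?_
      · intro k hk
        rw [mem_union, mem_Icc, mem_Icc]
        have := mem_Icc.1 hk
        omega
      · intro k hk _
        rw [mem_union, mem_Icc, mem_Icc] at hk
        exact mul_nonneg (hWj (k + n) (by omega)).le (hM k)
    · rw [disjoint_left]
      intro k hk hk'
      have := mem_Icc.1 hk
      have := mem_Icc.1 hk'
      omega
  set U : ℝ := ∑ k ∈ Icc (b + 1) I, wR a c (k + n) * M k with hU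
  set W : ℝ := ∑ k ∈ Icc (b - n) b, wR a c (k + n) * M k with hW
  have hZ0 : 0 ≤ Z := sum_nonneg fun i hi => mul_nonneg (hWj i (mem_Icc.1 hi).1).le (hM _)
  have h5 : b * wR a c b * M b ≤ 2 * δ * (1 + η) * ((I : ℝ) + 1) * wR a c I +
      η * (b * wR a c b * M (b - n)) + κ1 * W := by
    have h6 : ((1 + η) * κ + 3 * η) * Z ≤ κ1 * Z := mul_le_mul_of_nonneg_right hκ1 hZ0
    have h7 : κ1 * Z ≤ κ1 * (W + U) := mul_le_mul_of_nonneg_left hZ2 hκ10
    have e : ((1 + η) * κ + 3 * η) * Z = (1 + η) * κ * Z + 3 * η * Z := by ring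
    have e2 : κ1 * (W + U) = κ1 * W + κ1 * U := by ring
    linarith
  -- boundary
  have hWle : W ≤ Φ * (1 + η) * (wR a c b * (2 * n + 2 + b / ((b : ℝ) - n))) := by
    have h6 : W ≤ ∑ k ∈ Icc (b - n) b, Φ * (1 + η) * (wR a c b * ((1 - a) * Real.sqrt ((b : ℝ) / k) +
        a * ((2 * k + 2 * n - b) / k))) := by
      refine sum_le_sum fun k hk => ?_
      obtain ⟨hk1, hk2⟩ := mem_Icc.1 hk
      have hk3 : 1 ≤ k := by omega
      have h7 := bterm (κ := κ) (a := a) (c := c) (n := n) (b := b) (k := k) hn hc ha ha0 ha1 (by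
        have h10 : κ1 * n ≤ (1 + a) / 2 * n := by
          have : (1 + a) / 2 * n = c := by rw [hc, ← han]; ring
          linarith
        have h11 := le_of_mul_le_mul_right h10 hn0
        linarith) hk3 hk2 (by omega) hb2
      calc wR a c (k + n) * M k ≤ wR a c (k + n) * (Φ * ((1 + η) * ((b : ℝ) ^ κ / (k : ℝ) ^ κ))) :=
            mul_le_mul_of_nonneg_left (hB k hk3 hk2) (hWj (k + n) (by omega)).le
        _ = Φ * (1 + η) * (wR a c (k + n) * ((b : ℝ) ^ κ / (k : ℝ) ^ κ)) := by ring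
        _ ≤ _ := mul_le_mul_of_nonneg_left h7 (by positivity)
    refine h6.trans ?_
    rw [← mul_sum, ← mul_sum]
    refine mul_le_mul_of_nonneg_left ?_ (by positivity)
    refine mul_le_mul_of_nonneg_left ?_ hWb.le
    exact boundary hn hnb hb2
  have hMbn : M (b - n) ≤ Φ * ((1 + η) * (b / ((b : ℝ) - n))) := by
    have h6 := hB (b - n) (by omega) (by omega)
    refine h6.trans ?_
    refine mul_le_mul_of_nonneg_left ?_ hΦ
    refine mul_le_mul_of_nonneg_left ?_ (by linarith)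
    rw [Nat.cast_sub hnb.le, ← Real.div_rpow hb0.le (by linarith)]
    have h7 : 1 ≤ (b : ℝ) / ((b : ℝ) - n) := by
      rw [le_div_iff₀ (by linarith)]
      linarith
    calc ((b : ℝ) / ((b : ℝ) - n)) ^ κ ≤ ((b : ℝ) / ((b : ℝ) - n)) ^ (1 : ℝ) :=
          Real.rpow_le_rpow_of_exponent_le h7 h1
      _ = _ := Real.rpow_one _
  have hWI : wR a c I ≤ wR a c b * (2 * (((I : ℝ) + 1) / b)) := by
    have h6 : wR a c I = wR a c b * (((I : ℝ) - c) / c) ^ a := by
      unfold wR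
      have h7 : (b : ℝ) - c = c := by rw [hc]; ring
      rw [h7, ← Real.mul_rpow (by rw [hc]; positivity)]
      · congr 1
        have : c ≠ 0 := by rw [hc]; positivity
        field_simp
      · refine div_nonneg ?_ (by rw [hc]; positivity)
        rw [hc]
        linarith
    rw [h6]
    refine mul_le_mul_of_nonneg_left ?_ hWb.le
    have hc0 : 0 < c := by rw [hc]; positivity
    have h8 : 1 ≤ ((I : ℝ) - c) / c := by
      rw [le_div_iff₀ hc0, hc]
      linarith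
    calc (((I : ℝ) - c) / c) ^ a ≤ (((I : ℝ) - c) / c) ^ (1 : ℝ) :=
          Real.rpow_le_rpow_of_exponent_le h8 ha1
      _ = ((I : ℝ) - c) / c := Real.rpow_one _
      _ ≤ ((I : ℝ) + 1) / c := div_le_div_of_nonneg_right (by linarith) hc0.le
      _ = 2 * (((I : ℝ) + 1) / b) := by rw [hc]; field_simp
  have hfin : b * wR a c b * M b ≤ b * wR a c b * (4 * δ * (1 + η) * (((I : ℝ) + 1) / b) ^ 2 +
      Φ * (η * (1 + η) * (b / ((b : ℝ) - n)) +
        κ1 * (1 + η) * ((2 * n + 2 + b / ((b : ℝ) - n)) / b))) := by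
    have hbn0 : 0 < (b : ℝ) - n := by linarith
    have t1 : 2 * δ * (1 + η) * ((I : ℝ) + 1) * wR a c I ≤
        b * wR a c b * (4 * δ * (1 + η) * (((I : ℝ) + 1) / b) ^ 2) := by
      calc 2 * δ * (1 + η) * ((I : ℝ) + 1) * wR a c I ≤
            2 * δ * (1 + η) * ((I : ℝ) + 1) * (wR a c b * (2 * (((I : ℝ) + 1) / b))) :=
            mul_le_mul_of_nonneg_left hWI (by positivity)
        _ = _ := by field_simp; ring
    have t2 : η * (b * wR a c b * M (b - n)) ≤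
        b * wR a c b * (Φ * (η * (1 + η) * (b / ((b : ℝ) - n)))) := by
      calc η * (b * wR a c b * M (b - n)) ≤
            η * (b * wR a c b * (Φ * ((1 + η) * (b / ((b : ℝ) - n))))) :=
            mul_le_mul_of_nonneg_left (mul_le_mul_of_nonneg_left hMbn (by positivity)) hη
        _ = _ := by ring
    have t3 : κ1 * W ≤ b * wR a c b * (Φ * (κ1 * (1 + η) * ((2 * n + 2 + b / ((b : ℝ) - n)) / b))) := by
      calc κ1 * W ≤ κ1 * (Φ * (1 + η) * (wR a c b * (2 * n + 2 + b / ((b : ℝ) - n)))) :=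
            mul_le_mul_of_nonneg_left hWle hκ10
        _ = _ := by
            have : (b : ℝ) ≠ 0 := hb0.ne'
            have e5 : (b : ℝ) * ((2 * n + 2 + b / ((b : ℝ) - n)) / b) =
              2 * n + 2 + b / ((b : ℝ) - n) := by field_simp
            calc κ1 * (Φ * (1 + η) * (wR a c b * (2 * n + 2 + b / ((b : ℝ) - n)))) =
                  wR a c b * Φ * κ1 * (1 + η) * (2 * n + 2 + b / ((b : ℝ) - n)) := by ring
              _ = wR a c b * Φ * κ1 * (1 + η) * ((b : ℝ) * ((2 * n + 2 + b / ((b : ℝ) - n)) / b)) := by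
                  rw [e5]
              _ = _ := by ring
    have e6 : b * wR a c b * (4 * δ * (1 + η) * (((I : ℝ) + 1) / b) ^ 2 +
      Φ * (η * (1 + η) * (b / ((b : ℝ) - n)) +
        κ1 * (1 + η) * ((2 * n + 2 + b / ((b : ℝ) - n)) / b))) =
        b * wR a c b * (4 * δ * (1 + η) * (((I : ℝ) + 1) / b) ^ 2) +
        b * wR a c b * (Φ * (η * (1 + η) * (b / ((b : ℝ) - n)))) +
        b * wR a c b * (Φ * (κ1 * (1 + η) * ((2 * n + 2 + b / ((b : ℝ) - n)) / b))) := by ring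
    rw [e6]
    linarith
  exact le_of_mul_le_mul_left hfin (by positivity)

end HD44
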