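import Pool.Agent.HD44.Core
import Pool.Agent.HD44.Gap2

/-!
# The sieve of dimension below one, with a one-sided density condition, for a set with a level of distribution
-/

namespace HD44

open Finset RS44

namespace Sys

variable {Y : Sys}

/-- upper bound at nodes of small level -/
theorem small_level2 {b : ℕ} (hb : 1 ≤ b) {e : Finset ℕ} {z : ℕ} (he : e ⊆ Y.Q) (hz : z < Y.Z)
    (h0 : 0 ≤ Y.Lv e) (hno : ∀ p ∈ Y.P, p < z → p ∉ e) {Λ ρ : ℝ}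
    (hΛ : ∀ p ∈ Y.P, p < z → Real.log p ≤ Λ) (hρ : 1 ≤ ρ)
    (hρΛ : (b : ℝ) * Λ ≤ ρ * (Y.n * Y.Lv e)) :
    (cnt Y.N Y.b e (Y.Pz z) : ℝ) ≤ Y.up b * ((1 + Y.η) * ρ ^ Y.κ) * (Y.ex e * VV (Y.Pz z)) := by
  have hb0 : (0 : ℝ) < b := by exact_mod_cast hb
  set z1 : ℕ := ⌊Real.exp (Y.n * Y.Lv e / b)⌋₊ + 1 with hz1
  set z2 : ℕ := min z z1 with hz2
  have hnode : (e, z2) ∈ Y.nodes b := by
    refine mem_nodes.2 ⟨he, lt_of_le_of_lt (min_le_left _ _) hz, h0, fun p hp hpz => ?_,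
      fun p hp hpz => ?_⟩
    · exact hno p hp (lt_of_lt_of_le hpz (min_le_left _ _))
    · have h1 : p < z1 := lt_of_lt_of_le hpz (min_le_right _ _)
      have hp0 : (0 : ℝ) < p := by exact_mod_cast (prime_of_mem (Y.hP hp)).pos
      have h2 : (p : ℝ) ≤ Real.exp (Y.n * Y.Lv e / b) := by
        have h3 : p ≤ ⌊Real.exp (Y.n * Y.Lv e / b)⌋₊ := by omega
        exact (Nat.le_floor_iff (Real.exp_pos _).le).1 h3
      have h4 := Real.log_le_log hp0 h2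
      rw [Real.log_exp, le_div_iff₀ hb0] at h4
      linarith
  have hsub : Y.P.filter (fun p => p < z ∧ ρ * Real.log p ≤ Λ) ⊆ Y.Pz z2 := by
    intro p hp
    obtain ⟨h1, h2, h3⟩ := mem_filter.1 hp
    refine mem_Pz.2 ⟨h1, lt_min h2 ?_⟩
    have hp0 : (0 : ℝ) < p := by exact_mod_cast (prime_of_mem (Y.hP h1)).pos
    have h4 : ρ * ((b : ℝ) * Real.log p) ≤ ρ * (Y.n * Y.Lv e) := by
      calc ρ * ((b : ℝ) * Real.log p) = (b : ℝ) * (ρ * Real.log p) := by ring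
        _ ≤ (b : ℝ) * Λ := mul_le_mul_of_nonneg_left h3 (by positivity)
        _ ≤ _ := hρΛ
    have h5 : (b : ℝ) * Real.log p ≤ Y.n * Y.Lv e := le_of_mul_le_mul_left h4 (by linarith)
    have h6 : (p : ℝ) ≤ Real.exp (Y.n * Y.Lv e / b) := by
      rw [← Real.exp_log hp0]
      refine Real.exp_le_exp.mpr ?_
      rw [le_div_iff₀ hb0]
      linarith
    have h7 : p ≤ ⌊Real.exp (Y.n * Y.Lv e / b)⌋₊ := Nat.le_floor h6
    omega
  have hVsub : VV (Y.Pz z2) ≤ (1 + Y.η) * ρ ^ Y.κ * VV (Y.Pz z) := by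
    refine le_trans ?_ (Y.dm z Λ ρ hρ hΛ)
    unfold VV
    rw [← prod_sdiff hsub]
    refine mul_le_of_le_one_left ?_ ?_
    · exact prod_nonneg fun p hp => by
        have h2 : (2 : ℝ) ≤ p := by
          exact_mod_cast (prime_of_mem (Y.hP (mem_filter.1 hp).1)).two_le
        have : 1 / (p : ℝ) ≤ 1 := by rw [div_le_one (by linarith)]; linarith
        linarith
    · refine prod_le_one (fun p hp => ?_) (fun p hp => ?_)
      · have h2 : (2 : ℝ) ≤ p := by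
          exact_mod_cast (prime_of_mem (Y.hP (mem_Pz.1 (mem_sdiff.1 hp).1).1)).two_le
        have : 1 / (p : ℝ) ≤ 1 := by rw [div_le_one (by linarith)]; linarith
        linarith
      · have : 0 ≤ 1 / (p : ℝ) := by positivity
        linarith
  have hcnt : (cnt Y.N Y.b e (Y.Pz z) : ℝ) ≤ cnt Y.N Y.b e (Y.Pz z2) := by
    unfold cnt
    refine Nat.cast_le.2 (card_le_card fun m hm => ?_)
    obtain ⟨h1, h2, h3⟩ := mem_filter.1 hm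
    refine mem_filter.2 ⟨h1, h2, fun p hp => h3 p ?_⟩
    obtain ⟨h4, h5⟩ := mem_Pz.1 hp
    exact mem_Pz.2 ⟨h4, lt_of_lt_of_le h5 (min_le_left _ _)⟩
  have hex := ex_pos he
  have hup : 0 ≤ Y.up b := zero_le_one.trans (one_le_up _)
  calc (cnt Y.N Y.b e (Y.Pz z) : ℝ) ≤ cnt Y.N Y.b e (Y.Pz z2) := hcnt
    _ = Y.r (e, z2) * (Y.ex e * VV (Y.Pz z2)) := cnt_eq he
    _ ≤ Y.up b * (Y.ex e * VV (Y.Pz z2)) :=
        mul_le_mul_of_nonneg_right (r_le_up hnode) (mul_pos hex (VV_Pz_pos _)).le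
    _ ≤ Y.up b * (Y.ex e * ((1 + Y.η) * ρ ^ Y.κ * VV (Y.Pz z))) :=
        mul_le_mul_of_nonneg_left (mul_le_mul_of_nonneg_left hVsub hex.le) hup
    _ = _ := by ring

theorem r_small2 {b k : ℕ} {ν : Finset ℕ × ℕ} (h : ν ∈ Y.nodes k) (hk : 1 ≤ k) (hkb : k ≤ b) :
    Y.r ν ≤ Y.up b * ((1 + Y.η) * ((b : ℝ) ^ Y.κ / (k : ℝ) ^ Y.κ)) := by
  obtain ⟨e, z⟩ := ν
  obtain ⟨h1, h2, h3, h4, h5⟩ := mem_nodes.1 h
  have hk0 : (0 : ℝ) < k := by exact_mod_cast (by omega : 0 < k)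
  have hb0 : (0 : ℝ) < b := by exact_mod_cast (by omega : 0 < b)
  have h6 := small_level2 (b := b) (by omega) h1 h2 h3 h4 (Λ := Y.n * Y.Lv e / k)
    (ρ := (b : ℝ) / k)
    (fun p hp hpz => by rw [le_div_iff₀ hk0, mul_comm]; exact h5 p hp hpz)
    (by rw [le_div_iff₀ hk0, one_mul]; exact_mod_cast hkb) (le_of_eq (by ring))
  rw [Real.div_rpow hb0.le hk0.le, cnt_eq h1] at h6
  exact le_of_mul_le_mul_right h6 (mul_pos (ex_pos h1) (VV_Pz_pos _))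

/-- the main inequality between the extreme values -/
theorem gap_main2 {b : ℕ} {κ1 : ℝ} (h1 : Y.κ ≤ 1) (hnb : Y.n < b) (hb2 : b ≤ 2 * Y.n)
    (hI : b ≤ Y.I) (hκ1 : (1 + Y.η) * Y.κ + 3 * Y.η ≤ κ1) (hκ1n : κ1 * Y.n + 1 ≤ (b : ℝ) / 2) :
    Y.up b - Y.lo b ≤ 4 * Y.δ * (1 + Y.η) * (((Y.I : ℝ) + 1) / b) ^ 2 +
      Y.up b * (Y.η * (1 + Y.η) * (b / ((b : ℝ) - Y.n)) +
        κ1 * (1 + Y.η) * ((2 * Y.n + 2 + b / ((b : ℝ) - Y.n)) / b)) := by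
  have hup0 : 0 ≤ Y.up b := zero_le_one.trans (one_le_up _)
  refine gap2 Y.hκ h1 Y.hn hnb hb2 hI Y.hη Y.hδ hκ1 hκ1n (fun k => Y.up k - Y.lo k) (fun k => ?_)
    hup0 ?_ ?_
  · have h2 := one_le_up (Y := Y) k
    have h3 := lo_le_one (Y := Y) k
    linarith
  · intro j hjb hjI
    have hj : Y.n + 1 ≤ j := by omega
    have hT0 : 0 ≤ (1 + Y.η) * ((Y.I : ℝ) + 1) ^ Y.κ / (j : ℝ) ^ Y.κ := by
      have := Y.hη
      positivity
    have hstep : ∀ i : ℕ, 0 ≤ (((i : ℝ) + 1) ^ Y.κ - (i : ℝ) ^ Y.κ) := fun i => by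
      rw [sub_nonneg]
      exact Real.rpow_le_rpow (by positivity) (by linarith) Y.hκ
    have hj0 : (0 : ℝ) ≤ (j : ℝ) ^ Y.κ := by positivity
    have hA : Y.up j - 1 ≤ Y.δ * ((1 + Y.η) * ((Y.I : ℝ) + 1) ^ Y.κ / (j : ℝ) ^ Y.κ) +
      (Y.η * (1 - Y.lo (j - Y.n)) + (1 + Y.η) * ∑ i ∈ Icc j Y.I, (1 - Y.lo (i - Y.n)) *
        (((i : ℝ) + 1) ^ Y.κ - (i : ℝ) ^ Y.κ) / (j : ℝ) ^ Y.κ) := by
      rcases up_cases (Y := Y) j with h2 | ⟨ν, h2, h3⟩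
      · rw [h2, sub_self]
        have h4 : ∀ k, 0 ≤ 1 - Y.lo k := fun k => by linarith [lo_le_one (Y := Y) k]
        have h5 : 0 ≤ ∑ i ∈ Icc j Y.I, (1 - Y.lo (i - Y.n)) *
          (((i : ℝ) + 1) ^ Y.κ - (i : ℝ) ^ Y.κ) / (j : ℝ) ^ Y.κ :=
          sum_nonneg fun i _ => div_nonneg (mul_nonneg (h4 _) (hstep i)) hj0
        have h6 := h4 (j - Y.n)
        exact add_nonneg (mul_nonneg Y.hδ hT0) (add_nonneg (mul_nonneg Y.hη h6)
          (mul_nonneg (by linarith [Y.hη]) h5))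
      · rw [← h3]
        exact upper_node h2 hj hjI
    have hB : 1 - Y.lo j ≤ Y.δ * ((1 + Y.η) * ((Y.I : ℝ) + 1) ^ Y.κ / (j : ℝ) ^ Y.κ) +
      (Y.η * (Y.up (j - Y.n) - 1) + (1 + Y.η) * ∑ i ∈ Icc j Y.I, (Y.up (i - Y.n) - 1) *
        (((i : ℝ) + 1) ^ Y.κ - (i : ℝ) ^ Y.κ) / (j : ℝ) ^ Y.κ) := by
      rcases lo_cases (Y := Y) (k := j) (by omega) with h2 | ⟨ν, h2, h3⟩
      · rw [h2, sub_self]
        have h4 : ∀ k, 0 ≤ Y.up k - 1 := fun k => by linarith [one_le_up (Y := Y) k]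
        have h5 : 0 ≤ ∑ i ∈ Icc j Y.I, (Y.up (i - Y.n) - 1) *
          (((i : ℝ) + 1) ^ Y.κ - (i : ℝ) ^ Y.κ) / (j : ℝ) ^ Y.κ :=
          sum_nonneg fun i _ => div_nonneg (mul_nonneg (h4 _) (hstep i)) hj0
        have h6 := h4 (j - Y.n)
        exact add_nonneg (mul_nonneg Y.hδ hT0) (add_nonneg (mul_nonneg Y.hη h6)
          (mul_nonneg (by linarith [Y.hη]) h5))
      · rw [← h3]
        exact lower_node h2 hj hjI
    have hC : ∑ i ∈ Icc j Y.I, (Y.up (i - Y.n) - Y.lo (i - Y.n)) *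
        (((i : ℝ) + 1) ^ Y.κ - (i : ℝ) ^ Y.κ) / (j : ℝ) ^ Y.κ =
        ∑ i ∈ Icc j Y.I, (1 - Y.lo (i - Y.n)) *
        (((i : ℝ) + 1) ^ Y.κ - (i : ℝ) ^ Y.κ) / (j : ℝ) ^ Y.κ +
        ∑ i ∈ Icc j Y.I, (Y.up (i - Y.n) - 1) *
        (((i : ℝ) + 1) ^ Y.κ - (i : ℝ) ^ Y.κ) / (j : ℝ) ^ Y.κ := by
      rw [← sum_add_distrib]
      refine sum_congr rfl fun i _ => by ring
    show Y.up j - Y.lo j ≤ 2 * Y.δ * ((1 + Y.η) * ((Y.I : ℝ) + 1) ^ Y.κ / (j : ℝ) ^ Y.κ) +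
      (Y.η * (Y.up (j - Y.n) - Y.lo (j - Y.n)) + (1 + Y.η) * ∑ i ∈ Icc j Y.I,
        (Y.up (i - Y.n) - Y.lo (i - Y.n)) * (((i : ℝ) + 1) ^ Y.κ - (i : ℝ) ^ Y.κ) /
        (j : ℝ) ^ Y.κ)
    rw [hC]
    linarith
  · intro k hk hkn
    have hk0 : (0 : ℝ) < k := by exact_mod_cast (by omega : 0 < k)
    have h2 : Y.up k ≤ Y.up b * ((1 + Y.η) * ((b : ℝ) ^ Y.κ / (k : ℝ) ^ Y.κ)) := by
      rcases up_cases (Y := Y) k with h2 | ⟨ν, h2, h3⟩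
      · rw [h2]
        have h4 : (1 : ℝ) ≤ (b : ℝ) ^ Y.κ / (k : ℝ) ^ Y.κ := by
          rw [le_div_iff₀ (by positivity), one_mul]
          exact Real.rpow_le_rpow hk0.le (by exact_mod_cast hkn) Y.hκ
        have h5 := one_le_up (Y := Y) b
        have h6 : (1 : ℝ) ≤ (1 + Y.η) * ((b : ℝ) ^ Y.κ / (k : ℝ) ^ Y.κ) := by
          have := Y.hη
          nlinarith
        nlinarith
      · rw [← h3]
        exact r_small2 h2 hk hkn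
    have h3 := lo_nonneg (Y := Y) k
    linarith

/-- lower bound for the number of unsifted elements, upper bounds in the classes of the remaining moduli -/
theorem core2 {b : ℕ} {κ1 : ℝ} (h1 : Y.κ ≤ 1) (hnb : Y.n < b) (hb2 : b ≤ 2 * Y.n)
    (hI : b ≤ Y.I) (hκ1 : (1 + Y.η) * Y.κ + 3 * Y.η ≤ κ1) (hκ1n : κ1 * Y.n + 1 ≤ (b : ℝ) / 2)
    (hL : 0 ≤ Y.LD) (htop : ∀ p ∈ Y.P, (b : ℝ) * Real.log p ≤ Y.n * Y.LD) :
    ∃ Φ : ℝ, 1 ≤ Φ ∧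
      (Φ - (4 * Y.δ * (1 + Y.η) * (((Y.I : ℝ) + 1) / b) ^ 2 +
      Φ * (Y.η * (1 + Y.η) * (b / ((b : ℝ) - Y.n)) +
        κ1 * (1 + Y.η) * ((2 * Y.n + 2 + b / ((b : ℝ) - Y.n)) / b)))) * (Y.X * VV Y.P) ≤
        cnt Y.N Y.b ∅ Y.P ∧
      ∀ q ∈ Y.Q, q ∉ Y.P → ∀ Λ ρ : ℝ, (∀ p ∈ Y.P, Real.log p ≤ Λ) → 1 ≤ ρ →
        (b : ℝ) * Λ ≤ ρ * (Y.n * (Y.LD - Real.log q)) → Real.log q ≤ Y.LD →
        (cnt Y.N Y.b {q} Y.P : ℝ) ≤ Φ * ((1 + Y.η) * ρ ^ Y.κ) * (1 / (q : ℝ)) * (Y.X * VV Y.P) := by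
  refine ⟨Y.up b, one_le_up _, ?_, ?_⟩
  · have h2 := gap_main2 h1 hnb hb2 hI hκ1 hκ1n
    have hZ := Y.hZ1
    have hLv : Y.Lv ∅ = Y.LD := by unfold Lv; simp
    have hex : Y.ex ∅ = Y.X := by unfold ex; simp
    have hnode : ((∅ : Finset ℕ), Y.Z - 1) ∈ Y.nodes b := by
      refine mem_nodes.2 ⟨empty_subset _, by omega, by rw [hLv]; exact hL, fun p _ _ => by simp,
        fun p hp _ => ?_⟩
      rw [hLv]
      exact htop p hp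
    have h3 := lo_le_r hnode
    have h4 := cnt_eq (Y := Y) (e := ∅) (z := Y.Z - 1) (empty_subset _)
    rw [Pz_all, hex] at h4
    rw [h4]
    refine mul_le_mul_of_nonneg_right (by linarith) ?_
    have h5 := VV_Pz_pos (Y := Y) (Y.Z - 1)
    rw [Pz_all] at h5
    exact (mul_pos Y.hX h5).le
  · intro q hq hqP Λ ρ hΛ hρ hρΛ hqL
    have hZ := Y.hZ1
    have hLv : Y.Lv {q} = Y.LD - Real.log q := by unfold Lv; simp
    have hex : Y.ex {q} = Y.X / q := by unfold ex; simp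
    have h2 := small_level2 (Y := Y) (b := b) (by omega) (e := {q}) (z := Y.Z - 1) (by
        intro p hp
        rw [mem_singleton.1 hp]
        exact hq) (by omega) (by rw [hLv]; linarith) (fun p hp _ hpe => by
        rw [mem_singleton.1 hpe] at hp
        exact hqP hp) (fun p hp _ => hΛ p hp) hρ (by rw [hLv]; exact hρΛ)
    rw [Pz_all, hex] at h2
    refine h2.trans (le_of_eq ?_)
    ring

end Sys

end HD44
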