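import Pool.Agent.HD44.Contra
import Pool.Agent.HD44.Core2

/-!
# A covering which extends classes with uniformly distributed survivors gives a contradiction: dimension at most one
-/

namespace HD44

open Finset YX49 RS44

theorem contra2 {x y w D n B I : ℕ} {R S : Finset ℕ} {a : Ch R} {κ δ η LD κ1 : ℝ} {ρ : ℕ → ℝ}
    (hR : ∀ p ∈ R, p.Prime ∧ p ≤ x) (hy : 0 < y) (hw : 2 ≤ w) (hwx : w ≤ x)
    (hUD : UD y w D R δ a) (hD : ∀ d : ℕ, (d : ℝ) ≤ Real.exp LD → d ≤ D) (hcov : Cov x y R a)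
    (hδ : 0 ≤ δ) (hη : 0 ≤ η) (hκ : 0 ≤ κ) (hκ1 : κ ≤ 1) (hn : 1 ≤ n) (hnB : n < B)
    (hB2 : B ≤ 2 * n) (hBI : B ≤ I)
    (hI : n * LD < (I + 1) * Real.log w) (hκη : (1 + η) * κ + 3 * η ≤ κ1)
    (hκn : κ1 * n + 1 ≤ (B : ℝ) / 2)
    (htop : (B : ℝ) * Real.log x ≤ n * LD)
    (hdm : ∀ z : ℕ, ∀ Λ ρ : ℝ, 1 ≤ ρ →
      (∀ p ∈ (qb R ∅ w x).filter (fun p => p ∉ S), p < z → Real.log p ≤ Λ) →
      VV (((qb R ∅ w x).filter fun p => p ∉ S).filter fun p => p < z ∧ ρ * Real.log p ≤ Λ) ≤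
        (1 + η) * ρ ^ κ * VV (((qb R ∅ w x).filter fun p => p ∉ S).filter fun p => p < z))
    (hρ1 : ∀ q ∈ qb R ∅ w x, q ∈ S → 1 ≤ ρ q)
    (hρ : ∀ q ∈ qb R ∅ w x, q ∈ S → (B : ℝ) * Real.log x ≤ ρ q * (n * (LD - Real.log q)))
    (hfin : 4 * δ * (1 + η) * (((I : ℝ) + 1) / B) ^ 2 +
      (η * (1 + η) * (B / ((B : ℝ) - n)) +
        κ1 * (1 + η) * ((2 * n + 2 + B / ((B : ℝ) - n)) / B)) +
      ∑ q ∈ (qb R ∅ w x).filter (fun p => p ∈ S), (1 + η) * ρ q ^ κ * (1 / (q : ℝ)) < 1) :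
    False := by
  classical
  obtain ⟨b, hb, hcover⟩ := hcov
  obtain ⟨t1, ht1, hp1⟩ := pattern b w
  have hRp : ∀ p ∈ R, p.Prime := fun p hp => (hR p hp).1
  have hVR : 0 < VV R := VV_pos hRp
  have hVA : 0 < VV (ad R ∅ w) := VV_pos fun p hp => (mem_ad.1 hp).1
  have hy' : (0 : ℝ) < y := by exact_mod_cast hy
  have hw1 : (1 : ℝ) < w := by exact_mod_cast (by omega : 1 < w)
  have hlw : 0 < Real.log w := Real.log_pos hw1
  have hwx' : (w : ℝ) ≤ x := by exact_mod_cast hwx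
  have hlx : 0 < Real.log x := Real.log_pos (by linarith)
  have hn' : (1 : ℝ) ≤ n := by exact_mod_cast hn
  set Q := qb R ∅ w x with hQ
  have hQm : ∀ {p : ℕ}, p ∈ Q ↔ p.Prime ∧ p ≤ x ∧ p ∉ R ∧ w < p := by
    intro p
    rw [hQ, mem_qb]
    simp
  set V : ℝ := VV (ad R ∅ w) * VV R with hV
  have hV0 : 0 < V := mul_pos hVA hVR
  have hLDx : Real.log x ≤ LD := by
    have hnB' : (n : ℝ) ≤ B := by exact_mod_cast hnB.le
    have h1 : (n : ℝ) * Real.log x ≤ n * LD :=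
      (mul_le_mul_of_nonneg_right hnB' hlx.le).trans htop
    exact le_of_mul_le_mul_left h1 (by linarith)
  set N := sv R (sift y 1 0 (ad R ∅ w) fun _ => t1) a with hN
  have hud : ∀ e ⊆ Q, ∑ p ∈ e, Real.log p ≤ LD →
      |(cnt N b e ∅ : ℝ) - y * V / ∏ p ∈ e, (p : ℝ)| ≤ δ * (y * V / ∏ p ∈ e, (p : ℝ)) := by
    intro e he hsum
    have hep : ∀ p ∈ e, p.Prime := fun p hp => (hQm.1 (he hp)).1
    obtain ⟨h, hh, hm⟩ := crt b hep
    set d : ℕ := ∏ p ∈ e, p with hd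
    have hd0 : 0 < d := prod_pos fun p hp => (hep p hp).pos
    have hd1 : (d : ℝ) = ∏ p ∈ e, (p : ℝ) := by rw [hd]; push_cast; rfl
    have hdD : d ≤ D := by
      refine hD d ?_
      rw [hd1]
      calc ∏ p ∈ e, (p : ℝ) = Real.exp (∑ p ∈ e, Real.log p) := by
            rw [Real.exp_sum]
            refine prod_congr rfl fun p hp => ?_
            rw [Real.exp_log (by exact_mod_cast (hep p hp).pos)]
        _ ≤ Real.exp LD := Real.exp_le_exp.mpr hsum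
    have hnd : ∀ l : ℕ, l.Prime → l ∉ e → ¬ l ∣ d := by
      intro l hl hle hdvd
      rw [hd] at hdvd
      obtain ⟨p, hp, hlp⟩ := (Prime.dvd_finsetProd_iff hl.prime _).1 hdvd
      exact hle (((Nat.prime_dvd_prime_iff_eq hl (hep p hp)).1 hlp) ▸ hp)
    have h1 := hUD t1 ht1 d (mem_Ioc.2 ⟨hd0, hdD⟩)
      (fun l hl => hnd l (hRp l hl) fun hle => (hQm.1 (he hle)).2.2.1 hl)
      (fun l hl => hnd l (mem_ad.1 hl).1 fun hle => by
        have h2 := (hQm.1 (he hle)).2.2.2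
        have h3 := (mem_ad.1 hl).2.1
        omega) h hh
    have h2 : cnt N b e ∅ = (sv R (sift y d h (ad R ∅ w) fun _ => t1) a).card := by
      unfold cnt
      congr 1
      ext m
      rw [mem_filter, hN, mem_sv, mem_sv]
      unfold sift
      rw [mem_filter, mem_filter, hm]
      constructor
      · rintro ⟨⟨⟨h3, _, h4⟩, h5⟩, h6, _⟩
        exact ⟨⟨h3, h6, h4⟩, h5⟩
      · rintro ⟨⟨h3, h6, h4⟩, h5⟩
        exact ⟨⟨⟨h3, Nat.modEq_one, h4⟩, h5⟩, h6, fun p hp => absurd hp (notMem_empty p)⟩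
    rw [h2, ← hd1, abs_le]
    have e1 : (y : ℝ) * V / d = (y : ℝ) / d * V := by ring
    rw [e1]
    constructor
    · have := h1.1
      linarith
    · have := h1.2
      linarith
  let Y : Sys :=
    { N := N, b := b, Q := Q, P := Q.filter fun p => p ∉ S, X := y * V, LD := LD, lw := Real.log w,
      δ := δ, η := η, κ := κ, n := n, I := I, Z := x + 2
      hQ := fun p hp => ⟨(hQm.1 hp).1, Real.log_lt_log (by linarith) (by
        exact_mod_cast (hQm.1 hp).2.2.2)⟩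
      hP := filter_subset _ _
      hX := mul_pos hy' hV0
      hlw := hlw
      hδ := hδ
      hη := hη
      hκ := hκ
      hn := hn
      hI := hI
      hZ := fun p hp => by
        have := (hQm.1 (mem_filter.1 hp).1).2.1
        omega
      hZ1 := by omega
      ud := hud
      dm := hdm }
  have hlogx : ∀ p : ℕ, p.Prime → p ≤ x → Real.log p ≤ Real.log x := fun p hp hpx =>
    Real.log_le_log (by exact_mod_cast hp.pos) (by exact_mod_cast hpx)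
  obtain ⟨Φ, hΦ, hlow, hupp⟩ := Sys.core2 (Y := Y) (b := B) (κ1 := κ1) hκ1 hnB hB2 hBI hκη hκn (by
      show 0 ≤ LD
      linarith) (by
      intro p hp
      show (B : ℝ) * Real.log p ≤ n * LD
      have h1 := hQm.1 (mem_filter.1 hp).1
      refine le_trans (mul_le_mul_of_nonneg_left (hlogx p h1.1 h1.2.1) (by positivity)) htop)
  change (Φ - (4 * δ * (1 + η) * (((I : ℝ) + 1) / B) ^ 2 +
      Φ * (η * (1 + η) * (B / ((B : ℝ) - n)) +
        κ1 * (1 + η) * ((2 * n + 2 + B / ((B : ℝ) - n)) / B)))) * (y * V * VV (Q.filter fun p => p ∉ S)) ≤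
        cnt N b ∅ (Q.filter fun p => p ∉ S) at hlow
  change ∀ q ∈ Q, q ∉ Q.filter (fun p => p ∉ S) → ∀ Λ ρ : ℝ,
        (∀ p ∈ Q.filter (fun p => p ∉ S), Real.log p ≤ Λ) → 1 ≤ ρ →
        (B : ℝ) * Λ ≤ ρ * (n * (LD - Real.log q)) → Real.log q ≤ LD →
        (cnt N b {q} (Q.filter fun p => p ∉ S) : ℝ) ≤
          Φ * ((1 + η) * ρ ^ κ) * (1 / (q : ℝ)) * (y * V * VV (Q.filter fun p => p ∉ S)) at hupp
  set P := Q.filter (fun p => p ∉ S) with hP
  set S' := Q.filter (fun p => p ∈ S) with hS'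
  have hVP : 0 < VV P := VV_pos fun p hp => (hQm.1 (mem_filter.1 hp).1).1
  set T : ℝ := y * V * VV P with hT
  have hT0 : 0 < T := by positivity
  -- the covering
  have hc1 : cnt N b ∅ P ≤ ∑ q ∈ S', cnt N b {q} P := by
    unfold cnt
    refine le_trans (card_le_card ?_) card_biUnion_le
    intro m hm
    obtain ⟨hm1, _, hm2⟩ := mem_filter.1 hm
    obtain ⟨hm3, hm4⟩ := mem_sv.1 hm1
    obtain ⟨hm5, _, hm6⟩ := mem_filter.1 hm3
    obtain ⟨h0, hmy⟩ := mem_Ioc.1 hm5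
    obtain ⟨p, hp, hpx, hmp⟩ := hcover m h0 hmy
    have hpR : p ∉ R := fun h => hm4 ⟨p, h⟩ (hmp.trans (hb ⟨p, h⟩))
    have hpw : w < p := by
      by_contra hcon
      have h1 : p ≤ w := not_lt.1 hcon
      exact hm6 p (mem_ad.2 ⟨hp, h1, hpR, notMem_empty p⟩) (hmp.trans (hp1 p hp h1).symm)
    have hpQ : p ∈ Q := hQm.2 ⟨hp, hpx, hpR, hpw⟩
    have hpS : p ∈ S := by
      by_contra h
      exact hm2 p (mem_filter.2 ⟨hpQ, h⟩) hmp
    refine mem_biUnion.2 ⟨p, mem_filter.2 ⟨hpQ, hpS⟩, mem_filter.2 ⟨hm1, ?_, hm2⟩⟩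
    intro l hl
    rw [mem_singleton.1 hl]
    exact hmp
  have hc2 : (cnt N b ∅ P : ℝ) ≤ ∑ q ∈ S', Φ * ((1 + η) * ρ q ^ κ) * (1 / (q : ℝ)) * T := by
    calc (cnt N b ∅ P : ℝ) ≤ ∑ q ∈ S', (cnt N b {q} P : ℝ) := by exact_mod_cast hc1
      _ ≤ _ := by
          refine sum_le_sum fun q hq => ?_
          obtain ⟨hqQ, hqS⟩ := mem_filter.1 hq
          have h1 := hQm.1 hqQ
          refine hupp q hqQ (fun h => (mem_filter.1 h).2 hqS) (Real.log x) (ρ q) ?_ (hρ1 q hqQ hqS)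
            (hρ q hqQ hqS) ((hlogx q h1.1 h1.2.1).trans hLDx)
          intro p hp
          have h2 := hQm.1 (mem_filter.1 hp).1
          exact hlogx p h2.1 h2.2.1
  have e1 : ∑ q ∈ S', Φ * ((1 + η) * ρ q ^ κ) * (1 / (q : ℝ)) * T =
      Φ * (∑ q ∈ S', (1 + η) * ρ q ^ κ * (1 / (q : ℝ))) * T := by
    rw [mul_sum, sum_mul]
    refine sum_congr rfl fun q _ => by ring
  rw [e1] at hc2
  set W : ℝ := ∑ q ∈ S', (1 + η) * ρ q ^ κ * (1 / (q : ℝ)) with hW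
  set E1 : ℝ := 4 * δ * (1 + η) * (((I : ℝ) + 1) / B) ^ 2 with hE1
  set E2 : ℝ := η * (1 + η) * (B / ((B : ℝ) - n)) +
        κ1 * (1 + η) * ((2 * n + 2 + B / ((B : ℝ) - n)) / B) with hE2
  have hE10 : 0 ≤ E1 := by positivity
  have h1 : (Φ - (E1 + Φ * E2)) * T ≤ Φ * W * T := hlow.trans hc2
  have h2 : Φ - (E1 + Φ * E2) ≤ Φ * W := le_of_mul_le_mul_right h1 hT0
  have h3 : 0 < 1 - E2 - W := by linarith
  have h4 : 1 - E2 - W ≤ Φ * (1 - E2 - W) := le_mul_of_one_le_left h3.le hΦ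
  have h5 : Φ * (1 - E2 - W) = Φ - Φ * E2 - Φ * W := by ring
  linarith

end HD44
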