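import Pool.Agent.HD44.GapC

/-!
# The gap lemma in dimension between one half and one, and the unified statement
-/

namespace HD44

open Finset

/-- pointwise bound of the boundary terms -/
theorem bterm3 {κ a c : ℝ} {n b k : ℕ} (hc : 2 * c ≤ (b : ℝ)) (hcn : c ≤ n) (hc0 : 0 ≤ c)
    (ha0 : 0 ≤ a) (ha1 : a ≤ 1) (hκa : κ ≤ (1 + a) / 2)
    (hk1 : 1 ≤ k) (hkb : k ≤ b) (hb1 : 1 ≤ b) :
    wR a c (k + n) * ((b : ℝ) ^ κ / (k : ℝ) ^ κ) ≤ wR a c b * ((1 - a) * Real.sqrt ((b : ℝ) / k) +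
      a * ((b : ℝ) / ((b : ℝ) - c) * ((k + (n - c)) / k))) := by
  have hk0 : (0 : ℝ) < k := by exact_mod_cast hk1
  have hb0 : (0 : ℝ) < b := by exact_mod_cast hb1
  have hkb' : (k : ℝ) ≤ b := by exact_mod_cast hkb
  have hbc : 0 < (b : ℝ) - c := by linarith
  have hτ : 1 ≤ (b : ℝ) / k := by rw [le_div_iff₀ hk0]; linarith
  have hτ0 : 0 < (b : ℝ) / k := by linarith
  have h1 : (b : ℝ) ^ κ / (k : ℝ) ^ κ = ((b : ℝ) / k) ^ κ := (Real.div_rpow hb0.le hk0.le _).symm
  have h2 : ((b : ℝ) / k) ^ κ ≤ ((b : ℝ) / k) ^ ((1 + a) / 2) :=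
    Real.rpow_le_rpow_of_exponent_le hτ hκa
  have hy0 : 0 < (k : ℝ) + (n - c) := by linarith
  have h3 : wR a c (k + n) = wR a c b * ((((k : ℝ) + (n - c)) / (b - c) : ℝ)) ^ a := by
    unfold wR
    rw [← Real.mul_rpow hbc.le (div_nonneg hy0.le hbc.le)]
    congr 1
    push_cast
    field_simp
    ring
  have h4 : ((((k : ℝ) + (n - c)) / (b - c) : ℝ)) ^ a * ((b : ℝ) / k) ^ ((1 + a) / 2) =
      (Real.sqrt ((b : ℝ) / k)) ^ (1 - a) * (((b : ℝ) / ((b : ℝ) - c) * ((k + (n - c)) / k) : ℝ)) ^ a := by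
    rw [Real.sqrt_eq_rpow, ← Real.rpow_mul hτ0.le]
    have h5 : (b : ℝ) / ((b : ℝ) - c) * ((k + (n - c)) / k) =
        (((k : ℝ) + (n - c)) / (b - c)) * (b / k) := by
      field_simp
    rw [h5, Real.mul_rpow (by positivity) hτ0.le]
    have h6 : ((b : ℝ) / k) ^ ((1 + a) / 2) = ((b : ℝ) / k) ^ (1 / 2 * (1 - a)) *
        ((b : ℝ) / k) ^ a := by
      rw [← Real.rpow_add hτ0]
      congr 1
      ring
    rw [h6]
    ring
  have h5 := Real.geom_mean_le_arith_mean2_weighted (w₁ := 1 - a) (w₂ := a)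
    (p₁ := Real.sqrt ((b : ℝ) / k)) (p₂ := (b : ℝ) / ((b : ℝ) - c) * ((k + (n - c)) / k))
    (by linarith) ha0 (Real.sqrt_nonneg _) (by positivity) (by ring)
  have hW := wR_pos (a := a) (c := c) (j := b) (by linarith)
  rw [h1, h3]
  calc wR a c b * ((((k : ℝ) + (n - c)) / (b - c) : ℝ)) ^ a * ((b : ℝ) / k) ^ κ
      ≤ wR a c b * ((((k : ℝ) + (n - c)) / (b - c) : ℝ)) ^ a * ((b : ℝ) / k) ^ ((1 + a) / 2) :=
        mul_le_mul_of_nonneg_left h2 (by positivity)
    _ = wR a c b * (((((k : ℝ) + (n - c)) / (b - c) : ℝ)) ^ a * ((b : ℝ) / k) ^ ((1 + a) / 2)) := by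
        ring
    _ ≤ _ := by
        rw [h4]
        exact mul_le_mul_of_nonneg_left h5 hW.le

theorem alg3 {m t a b n c : ℝ} (hm : 0 < m) (ht : 1 ≤ t) (ha0 : 0 ≤ a) (ha1 : a ≤ 1)
    (hb : b = t ^ 2 * m) (hn : n = b - m) (hc : c = (1 + a) * n / 2) (han : a * n ≤ m)
    (hbc : 0 < b - c) :
    (1 - a) * (2 * b - 2 * (m * t)) + a * (b / (b - c) * n) +
      a * (1 - a) * (b * n / (b - c)) * (t - 1) ≤ b * n / (b - c) := by
  have h1 : (1 - a) * (2 * b - 2 * (m * t)) + a * (b / (b - c) * n) +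
      a * (1 - a) * (b * n / (b - c)) * (t - 1) - b * n / (b - c) =
      ((1 - a) * (m ^ 2 * t * (t - 1) ^ 2 * (a * (t ^ 2 - 1) - 1))) / (b - c) := by
    rw [eq_div_iff hbc.ne']
    have h2 : ((1 - a) * (2 * b - 2 * (m * t)) + a * (b / (b - c) * n) +
      a * (1 - a) * (b * n / (b - c)) * (t - 1) - b * n / (b - c)) * (b - c) =
      (1 - a) * (2 * b - 2 * (m * t)) * (b - c) + a * (b * n) +
      a * (1 - a) * (b * n) * (t - 1) - b * n := by
      field_simp
    rw [h2, hc, hn, hb]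
    ring
  have h3 : a * (t ^ 2 - 1) ≤ 1 := by
    have h4 : a * (t ^ 2 - 1) * m ≤ 1 * m := by
      have e : a * (t ^ 2 - 1) * m = a * n := by rw [hn, hb]; ring
      rw [e, one_mul]
      exact han
    exact le_of_mul_le_mul_right h4 hm
  have h4 : ((1 - a) * (m ^ 2 * t * (t - 1) ^ 2 * (a * (t ^ 2 - 1) - 1))) / (b - c) ≤ 0 := by
    refine div_nonpos_of_nonpos_of_nonneg ?_ hbc.le
    refine mul_nonpos_of_nonneg_of_nonpos (by linarith) ?_
    refine mul_nonpos_of_nonneg_of_nonpos (by positivity) (by linarith)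
  linarith

/-- the closed form of the boundary sum -/
theorem boundary3 {n b : ℕ} (hn : 1 ≤ n) (hnb : n < b) {a c : ℝ} (ha0 : 0 ≤ a) (ha1 : a ≤ 1)
    (hc : c = (1 + a) * n / 2) (han : a * n ≤ (b : ℝ) - n) (hcb : 2 * c ≤ (b : ℝ)) :
    ∑ k ∈ Icc (b - n) b, ((1 - a) * Real.sqrt ((b : ℝ) / k) +
      a * ((b : ℝ) / ((b : ℝ) - c) * ((k + (n - c)) / k))) ≤
      b * n / (b - c) + b / ((b : ℝ) - n) + 2 + 2 * n / ((b : ℝ) - n) := by
  have hn0 : (0 : ℝ) < n := by exact_mod_cast hn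
  have hnb' : (n : ℝ) < b := by exact_mod_cast hnb
  have hb0 : (0 : ℝ) < b := by linarith
  obtain ⟨m, hm⟩ : ∃ m : ℕ, b = n + m := ⟨b - n, by omega⟩
  have hm1 : 1 ≤ m := by omega
  have hbm : b - n = m := by omega
  have hm0 : (0 : ℝ) < m := by exact_mod_cast hm1
  have hmr : (b : ℝ) - n = m := by rw [hm]; push_cast; ring
  rw [hbm, hmr]
  rw [hmr] at han
  have hbc : 0 < (b : ℝ) - c := by linarith
  have hcn : 0 ≤ (n : ℝ) - c := by
    have : (n : ℝ) - c = (1 - a) * n / 2 := by rw [hc]; ring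
    rw [this]
    have : 0 ≤ 1 - a := by linarith
    positivity
  have hs := sum_sqrt hm1 (show m ≤ b by omega)
  have hi := sum_inv hm1 (show m ≤ b by omega)
  have e1 : ∑ k ∈ Icc m b, ((1 - a) * Real.sqrt ((b : ℝ) / k) +
      a * ((b : ℝ) / ((b : ℝ) - c) * ((k + (n - c)) / k))) =
      (1 - a) * Real.sqrt b * ∑ k ∈ Icc m b, 1 / Real.sqrt k +
      a * (b / (b - c)) * ((n : ℝ) + 1) +
      a * (b / (b - c)) * (n - c) * ∑ k ∈ Icc m b, 1 / (k : ℝ) := by
    have hcard : ∑ _k ∈ Icc m b, (a * ((b : ℝ) / (b - c))) = a * (b / (b - c)) * ((n : ℝ) + 1) := by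
      rw [sum_const, Nat.card_Icc, nsmul_eq_mul, show b + 1 - m = n + 1 by omega]
      push_cast
      ring
    rw [← hcard, mul_sum, mul_sum, ← sum_add_distrib, ← sum_add_distrib]
    refine sum_congr rfl fun k hk => ?_
    have hk0 : (0 : ℝ) < k := by
      have := (mem_Icc.1 hk).1
      exact_mod_cast (by omega : 0 < k)
    rw [Real.sqrt_div hb0.le]
    field_simp
    ring
  rw [e1]
  set t : ℝ := Real.sqrt b / Real.sqrt m with ht
  have hsm : 0 < Real.sqrt m := Real.sqrt_pos.2 hm0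
  have hsb : 0 < Real.sqrt b := Real.sqrt_pos.2 hb0
  have ht0 : 0 < t := by positivity
  have hsm2 : Real.sqrt m * Real.sqrt m = m := Real.mul_self_sqrt hm0.le
  have hsb2 : Real.sqrt b * Real.sqrt b = b := Real.mul_self_sqrt hb0.le
  have htsm : t * Real.sqrt m = Real.sqrt b := by rw [ht]; field_simp
  have htt : t * t = b / m := by
    rw [ht, div_mul_div_comm, hsb2, hsm2]
  have ht1 : 1 ≤ t := by
    rw [ht, le_div_iff₀ hsm, one_mul]
    exact Real.sqrt_le_sqrt (by linarith)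
  have hlogt : Real.log ((b : ℝ) / m) = 2 * Real.log t := by
    rw [← htt, Real.log_mul ht0.ne' ht0.ne']
    ring
  have hlt := Real.log_le_sub_one_of_pos ht0
  have htle : t ≤ b / m := by
    rw [← htt]
    nlinarith
  have h1 : (1 - a) * Real.sqrt b * ∑ k ∈ Icc m b, 1 / Real.sqrt k ≤
      (1 - a) * (t + 2 * b - 2 * (m * t)) := by
    rw [mul_assoc]
    refine mul_le_mul_of_nonneg_left ?_ (by linarith)
    calc Real.sqrt b * ∑ k ∈ Icc m b, 1 / Real.sqrt k ≤
          Real.sqrt b * (1 / Real.sqrt m + 2 * (Real.sqrt b - Real.sqrt m)) :=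
          mul_le_mul_of_nonneg_left hs hsb.le
      _ = t + 2 * (Real.sqrt b * Real.sqrt b) - 2 * (t * (Real.sqrt m * Real.sqrt m)) := by
          rw [← htsm]
          field_simp
          ring
      _ = _ := by rw [hsb2, hsm2]; ring
  have hX0 : 0 ≤ a * ((b : ℝ) / (b - c)) * (n - c) := by positivity
  have h2 : a * ((b : ℝ) / (b - c)) * (n - c) * ∑ k ∈ Icc m b, 1 / (k : ℝ) ≤
      a * (b / (b - c)) * (n - c) * (1 / m + 2 * (t - 1)) := by
    refine mul_le_mul_of_nonneg_left ?_ hX0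
    rw [hlogt] at hi
    linarith
  have h3 := alg3 (m := (m : ℝ)) (t := t) (a := a) (b := (b : ℝ)) (n := (n : ℝ)) (c := c) hm0 ht1
    ha0 ha1 (by rw [sq, htt]; field_simp) (by linarith) hc han hbc
  have e2 : a * ((b : ℝ) / (b - c)) * (n - c) * (1 / m + 2 * (t - 1)) =
      a * ((b : ℝ) / (b - c)) * (n - c) * (1 / m) + a * (1 - a) * (b * n / (b - c)) * (t - 1) := by
    have : (n : ℝ) - c = (1 - a) * n / 2 := by rw [hc]; ring
    rw [this]
    field_simp
  have hbc2 : (b : ℝ) / (b - c) ≤ 2 := by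
    rw [div_le_iff₀ hbc]
    linarith
  have hbc0 : 0 ≤ (b : ℝ) / (b - c) := by positivity
  have h4 : a * ((b : ℝ) / (b - c)) ≤ 2 := by
    calc a * ((b : ℝ) / (b - c)) ≤ 1 * 2 := mul_le_mul ha1 hbc2 hbc0 zero_le_one
      _ = 2 := by ring
  have h5 : a * ((b : ℝ) / (b - c)) * (n - c) * (1 / m) ≤ 2 * n / m := by
    have hc0 : 0 ≤ c := by rw [hc]; positivity
    calc a * ((b : ℝ) / (b - c)) * (n - c) * (1 / m) ≤ 2 * n * (1 / m) := by
          refine mul_le_mul_of_nonneg_right ?_ (by positivity)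
          exact mul_le_mul h4 (by linarith) hcn (by norm_num)
      _ = _ := by ring
  have h6 : (1 - a) * t ≤ t := mul_le_of_le_one_left ht0.le (by linarith)
  have e3 : (1 - a) * (t + 2 * b - 2 * (m * t)) = (1 - a) * t + (1 - a) * (2 * b - 2 * (m * t)) := by
    ring
  have e4 : a * ((b : ℝ) / (b - c)) * ((n : ℝ) + 1) = a * (b / (b - c) * n) +
      a * ((b : ℝ) / (b - c)) := by ring
  linarith

theorem gapOK_mid {κ s τ : ℝ} (h0 : 1 / 2 ≤ κ) (h1 : κ < 1) (hs : 2 * κ < s) (hτ : 0 < τ)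
    (hτ1 : τ ≤ 1) : GapOK κ s τ := by
  have hs1 : 1 < s := by linarith
  set e : ℝ := min (min ((s - 2 * κ) / 2) (1 - κ)) (τ / 24) with he
  have he0 : 0 < e := lt_min (lt_min (by linarith) (by linarith)) (by linarith)
  have hes : 2 * e ≤ s - 2 * κ := by
    have : e ≤ (s - 2 * κ) / 2 := (min_le_left _ _).trans (min_le_left _ _)
    linarith
  have heκ : κ + e ≤ 1 := by
    have : e ≤ 1 - κ := (min_le_left _ _).trans (min_le_right _ _)
    linarith
  have heτ : 24 * e ≤ τ := by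
    have : e ≤ τ / 24 := min_le_right _ _
    linarith
  set n : ℕ := ⌈2 / e + 8 / τ * (3 / (s - 1) + 2)⌉₊ with hn
  have hs10 : 0 < s - 1 := by linarith
  have hnl : 2 / e + 8 / τ * (3 / (s - 1) + 2) ≤ (n : ℝ) := Nat.le_ceil _
  have hp1 : 0 < 2 / e := by positivity
  have hp2 : 0 < 8 / τ * (3 / (s - 1) + 2) := by positivity
  have hne : 2 ≤ n * e := by
    have : 2 / e ≤ n := by linarith
    rw [div_le_iff₀ he0] at this
    exact this
  have hnτ : 8 * (3 / (s - 1) + 2) ≤ n * τ := by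
    have h2 : 8 / τ * (3 / (s - 1) + 2) ≤ n := by linarith
    have h3 : 8 / τ * (3 / (s - 1) + 2) = 8 * (3 / (s - 1) + 2) / τ := by ring
    rw [h3, div_le_iff₀ hτ] at h2
    exact h2
  have hq0 : 0 < 3 / (s - 1) := by positivity
  have hn16 : (16 : ℝ) ≤ n := by
    have := mul_le_mul_of_nonneg_left hτ1 (Nat.cast_nonneg (α := ℝ) n)
    linarith
  have hn0 : (0 : ℝ) < n := by linarith
  have hn1 : 1 ≤ n := by
    have : 0 < n := by exact_mod_cast hn0
    omega
  set b : ℕ := ⌈s * n⌉₊ with hb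
  have hsn : 0 < s * n := by positivity
  have hbl : s * n ≤ (b : ℝ) := Nat.le_ceil _
  have hbu : (b : ℝ) ≤ s * n + 1 := (Nat.ceil_lt_add_one hsn.le).le
  have hnb' : (n : ℝ) < b := by
    have : 1 * (n : ℝ) < s * n := mul_lt_mul_of_pos_right hs1 hn0
    linarith
  have hnb : n < b := by exact_mod_cast hnb'
  have hb0 : (0 : ℝ) < b := by linarith
  set η : ℝ := min (e / 8) (τ * (s - 1) / (16 * s)) with hη
  have hη0 : 0 < η := lt_min (by linarith) (by positivity)
  have hηe : 8 * η ≤ e := by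
    have : η ≤ e / 8 := min_le_left _ _
    linarith
  have hηs : 16 * (η * s) ≤ τ * (s - 1) := by
    have h2 : η ≤ τ * (s - 1) / (16 * s) := min_le_right _ _
    rw [le_div_iff₀ (by positivity)] at h2
    linarith
  refine ⟨n, b, η, hn1, hnb, ?_, hη0, by linarith, ?_⟩
  · have e1 : s * (1 + τ) * n = s * n + s * (n * τ) := by ring
    have h3 : 1 * (n * τ) ≤ s * (n * τ) := mul_le_mul_of_nonneg_right hs1.le (by positivity)
    linarith
  intro I δ Φ M hbI hδ hΦ hM hrec hB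
  set k : ℝ := κ + e with hk
  set a : ℝ := 2 * k - 1 with ha
  set c : ℝ := k * n with hc
  set κ1 : ℝ := κ + e / 2 with hκ1
  have ha0 : 0 ≤ a := by rw [ha, hk]; linarith
  have ha1 : a ≤ 1 := by rw [ha]; linarith
  have hcn : c ≤ n := by rw [hc]; exact mul_le_of_le_one_left hn0.le heκ
  have hc0 : 0 ≤ c := by rw [hc]; positivity
  have hcb : 2 * c ≤ (b : ℝ) := by
    have : 2 * k * (n : ℝ) ≤ s * n := mul_le_mul_of_nonneg_right (by rw [hk]; linarith) hn0.le
    rw [hc]
    linarith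
  have hcb2 : c ≤ b / 2 := by linarith
  have hIb : (b : ℝ) ≤ I := by exact_mod_cast hbI
  have hbc0 : 0 < (b : ℝ) - c := by linarith
  have hWpos : ∀ j, b ≤ j → 0 < wR a c j := by
    intro j hj
    have : (b : ℝ) ≤ j := by exact_mod_cast hj
    exact wR_pos (by linarith)
  have hr0 : (1 : ℝ) ≤ ((I : ℝ) + 1) / n := by
    rw [le_div_iff₀ hn0]
    linarith
  have han : a * n ≤ (b : ℝ) - n := by
    have : a * n = 2 * c - n := by rw [ha, hc]; ring
    linarith
  have hmain := gapA (κ := κ) (by linarith) h1.le hnb hbI (η := η) (δ := δ) (κ1 := κ1) (C := 3)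
    (G := 2 * (((I : ℝ) + 1) / n)) (Θ := b * n / (b - c) + b / ((b : ℝ) - n) + 2 +
      2 * n / ((b : ℝ) - n)) hη0.le hδ (by norm_num)
    (by positivity) (wR a c) hWpos ?_ ?_ ?_ ?_ ?_ M hM hΦ hrec hB
  · refine hmain.trans ?_
    have t1 : 2 * δ * (1 + η) * (((I : ℝ) + 1) / b) * (2 * (((I : ℝ) + 1) / n)) ≤
        8 * δ * (((I : ℝ) + 1) / n) ^ 3 := by
      have h2 : ((I : ℝ) + 1) / b ≤ ((I : ℝ) + 1) / n :=
        div_le_div_of_nonneg_left (by positivity) hn0 (by linarith)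
      calc 2 * δ * (1 + η) * (((I : ℝ) + 1) / b) * (2 * (((I : ℝ) + 1) / n))
          ≤ 2 * δ * 2 * (((I : ℝ) + 1) / n) * (2 * (((I : ℝ) + 1) / n)) := by
            refine mul_le_mul_of_nonneg_right ?_ (by positivity)
            refine mul_le_mul (mul_le_mul_of_nonneg_left (by linarith) (by positivity)) h2
              (by positivity) (by positivity)
        _ = 8 * δ * (((I : ℝ) + 1) / n) ^ 2 := by ring
        _ ≤ _ := by
            refine mul_le_mul_of_nonneg_left ?_ (by positivity)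
            exact pow_le_pow_right₀ hr0 (by norm_num)
    have hbn0 : 0 < (b : ℝ) - n := by linarith
    have hbn1 : (n : ℝ) * (s - 1) ≤ b - n := by
      have : (n : ℝ) * (s - 1) = s * n - n := by ring
      linarith
    have t2 : η * (1 + η) * (b / ((b : ℝ) - n)) ≤ τ / 8 := by
      have h2 : (b : ℝ) / ((b : ℝ) - n) ≤ s / (s - 1) := by
        rw [div_le_div_iff₀ hbn0 hs10]
        have : s * n ≤ (b : ℝ) := hbl
        linarith
      have h3 : 0 ≤ (b : ℝ) / ((b : ℝ) - n) := by positivity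
      calc η * (1 + η) * (b / ((b : ℝ) - n)) ≤ η * 2 * (s / (s - 1)) :=
            mul_le_mul (mul_le_mul_of_nonneg_left (by linarith) hη0.le) h2 h3 (by positivity)
        _ = 2 * (η * s) / (s - 1) := by ring
        _ ≤ τ / 8 := by
            rw [div_le_div_iff₀ hs10 (by norm_num)]
            linarith
    have t3 : κ1 * (1 + η) * ((b * n / (b - c) + b / ((b : ℝ) - n) + 2 +
        2 * n / ((b : ℝ) - n)) / b) ≤ κ / (s - κ) + 3 / 4 * τ := by
      have hsk0 : 1 / 2 ≤ s - k := by rw [hk]; linarith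
      have hsκ0 : 1 / 2 ≤ s - κ := by linarith
      have g1 : κ1 * (1 + η) ≤ κ + e := by
        have : η * κ1 ≤ η * 1 := mul_le_mul_of_nonneg_left (by rw [hκ1]; linarith) hη0.le
        rw [hκ1] at this ⊢
        linarith
      have g2 : (b * n / (b - c) + b / ((b : ℝ) - n) + 2 + 2 * n / ((b : ℝ) - n)) / b ≤
          1 / (s - k) + (3 / (s - 1) + 2) / n := by
        have g3 : (b * n / (b - c) + b / ((b : ℝ) - n) + 2 + 2 * n / ((b : ℝ) - n)) / b =
            n / (b - c) + (1 / ((b : ℝ) - n) + 2 / b + 2 * (n / b) * (1 / ((b : ℝ) - n))) := by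
          field_simp
          ring
        have g4 : (n : ℝ) / (b - c) ≤ 1 / (s - k) := by
          rw [div_le_div_iff₀ hbc0 (by linarith)]
          have : (n : ℝ) * (s - k) = s * n - c := by rw [hc]; ring
          linarith
        have g5 : 1 / ((b : ℝ) - n) ≤ 1 / (s - 1) / n := by
          rw [div_div, mul_comm (s - 1)]
          exact one_div_le_one_div_of_le (by positivity) hbn1
        have g6 : 2 / (b : ℝ) ≤ 2 / n := div_le_div_of_nonneg_left (by norm_num) hn0 hnb'.le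
        have g7 : 2 * ((n : ℝ) / b) * (1 / ((b : ℝ) - n)) ≤ 2 * (1 / (s - 1) / n) := by
          have g8 : (n : ℝ) / b ≤ 1 := by rw [div_le_one hb0]; exact hnb'.le
          calc 2 * ((n : ℝ) / b) * (1 / ((b : ℝ) - n)) ≤ 2 * 1 * (1 / (s - 1) / n) := by
                refine mul_le_mul ?_ g5 (by positivity) (by norm_num)
                linarith
            _ = _ := by ring
        have g9 : (3 / (s - 1) + 2) / (n : ℝ) = 1 / (s - 1) / n + 2 / n + 2 * (1 / (s - 1) / n) := by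
          field_simp
          ring
        rw [g3, g9]
        linarith
      have g3 : (3 / (s - 1) + 2) / (n : ℝ) ≤ τ / 8 := by
        rw [div_le_div_iff₀ hn0 (by norm_num)]
        linarith
      have g4 : 1 / (s - k) ≤ 1 / (s - κ) + 4 * e := by
        have g5 : 1 / (s - k) - 1 / (s - κ) = e / ((s - k) * (s - κ)) := by
          have a1 : s - k ≠ 0 := by linarith
          have a2 : s - κ ≠ 0 := by linarith
          rw [div_sub_div _ _ a1 a2]
          congr 1
          rw [hk]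
          ring
        have g6 : e / ((s - k) * (s - κ)) ≤ 4 * e := by
          rw [div_le_iff₀ (by positivity)]
          have : 1 / 2 * (1 / 2) ≤ (s - k) * (s - κ) :=
            mul_le_mul hsk0 hsκ0 (by norm_num) (by linarith)
          have := mul_le_mul_of_nonneg_left this (show 0 ≤ 4 * e by positivity)
          linarith
        linarith
      have g5 : 0 ≤ 1 / (s - κ) := by
        have : 0 < s - κ := by linarith
        positivity
      have g6 : 1 / (s - κ) ≤ 2 := by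
        rw [div_le_iff₀ (by linarith)]
        linarith
      have g7 : 0 ≤ (b * n / (b - c) + b / ((b : ℝ) - n) + 2 + 2 * n / ((b : ℝ) - n)) / b := by
        positivity
      calc κ1 * (1 + η) * ((b * n / (b - c) + b / ((b : ℝ) - n) + 2 + 2 * n / ((b : ℝ) - n)) / b)
          ≤ (κ + e) * (1 / (s - κ) + 4 * e + τ / 8) :=
            mul_le_mul g1 (by linarith) g7 (by positivity)
        _ = κ / (s - κ) + e * (1 / (s - κ)) + (κ + e) * (4 * e + τ / 8) := by ring
        _ ≤ κ / (s - κ) + e * 2 + 1 * (4 * e + τ / 8) := by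
            have a1 : e * (1 / (s - κ)) ≤ e * 2 := mul_le_mul_of_nonneg_left g6 he0.le
            have a2 : (κ + e) * (4 * e + τ / 8) ≤ 1 * (4 * e + τ / 8) :=
              mul_le_mul_of_nonneg_right heκ (by positivity)
            linarith
        _ ≤ _ := by linarith
    have t4 : Φ * (η * (1 + η) * (b / ((b : ℝ) - n)) +
        κ1 * (1 + η) * ((b * n / (b - c) + b / ((b : ℝ) - n) + 2 +
        2 * n / ((b : ℝ) - n)) / b)) ≤ Φ * (κ / (s - κ) + τ) := by
      refine mul_le_mul_of_nonneg_left ?_ hΦ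
      linarith
    linarith
  · -- first coefficient bound
    intro j hj1 hj2
    have hjb : (b : ℝ) + 1 ≤ j := by exact_mod_cast hj1
    have hx : 0 < (j : ℝ) - c := by linarith
    have hx1 : 0 < (j : ℝ) - 1 - c := by linarith
    have hW := wR_pos (a := a) (c := c) (j := j) (by linarith)
    have hp : 0 < ((j : ℝ) - 1 - c) ^ a := Real.rpow_pos_of_pos hx1 _
    have hWj1 : wR a c (j - 1) = ((j : ℝ) - 1 - c) ^ a := by
      unfold wR
      rw [Nat.cast_sub (by omega)]
      push_cast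
      rfl
    rw [hWj1]
    set x : ℝ := (j : ℝ) - c with hxd
    have h2 := wR_add (a := a) (c := c) ha0 ha1 (j := j) (n := n) (by linarith)
    have h3 := wR_sub (a := a) (c := c) ha0 ha1 (j := j) (by linarith)
    have h4 := gm1 (show 0 ≤ κ by linarith) h1.le (j := (j : ℝ)) (by linarith)
    rw [← hxd] at h2 h3
    have h5 : (j : ℝ) ^ κ * ((j : ℝ) - 1) ^ (1 - κ) * ((j : ℝ) - 1 - c) ^ a ≤
        ((j : ℝ) - 1 + κ) * (wR a c j * (1 - a / x)) :=
      mul_le_mul h4 h3 hp.le (by linarith)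
    have hκ10 : 0 ≤ κ1 := by rw [hκ1]; linarith
    have h6 : κ1 * wR a c (j + n) ≤ κ1 * (wR a c j * (1 + a * (n / x))) :=
      mul_le_mul_of_nonneg_left h2 hκ10
    have h7 : κ1 * (1 + a * (n / x)) ≤ (j : ℝ) - ((j : ℝ) - 1 + κ) * (1 - a / x) := by
      have e1 : (j : ℝ) - ((j : ℝ) - 1 + κ) * (1 - a / x) = (1 - κ) + ((j : ℝ) - 1 + κ) * (a / x) := by
        ring
      have e2 : ((j : ℝ) - 1 + κ) * (a / x) = a + (c - 1 + κ) * (a / x) := by
        have : (j : ℝ) - 1 + κ = x + (c - 1 + κ) := by rw [hxd]; ring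
        rw [this, add_mul]
        congr 1
        field_simp
      have e3 : κ1 * (1 + a * (n / x)) = κ1 + κ1 * n * (a / x) := by ring
      rw [e1, e2, e3]
      have h8 : κ1 * n * (a / x) ≤ (c - 1 + κ) * (a / x) := by
        refine mul_le_mul_of_nonneg_right ?_ (by positivity)
        rw [hc, hκ1, hk]
        have : (κ + e) * (n : ℝ) = (κ + e / 2) * n + n * e / 2 := by ring
        linarith
      have h9 : κ + κ1 ≤ 1 + a := by rw [hκ1, ha, hk]; linarith
      linarith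
    have h12 : κ1 * (wR a c j * (1 + a * (n / x))) ≤
        (j : ℝ) * wR a c j - ((j : ℝ) - 1 + κ) * (wR a c j * (1 - a / x)) := by
      have h13 := mul_le_mul_of_nonneg_right h7 hW.le
      have e4 : ((j : ℝ) - ((j : ℝ) - 1 + κ) * (1 - a / x)) * wR a c j =
        (j : ℝ) * wR a c j - ((j : ℝ) - 1 + κ) * (wR a c j * (1 - a / x)) := by ring
      have e5 : κ1 * (1 + a * (n / x)) * wR a c j = κ1 * (wR a c j * (1 + a * (n / x))) := by ring
      rw [e4, e5] at h13
      exact h13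
    linarith
  · -- second coefficient bound
    intro j hj1 hj2
    have hjb : (b : ℝ) + 1 ≤ j := by exact_mod_cast hj1
    have hx : 0 < (j : ℝ) - c := by linarith
    have hx1 : 0 < (j : ℝ) - 1 - c := by linarith
    have hW := wR_pos (a := a) (c := c) (j := j) (by linarith)
    have hp : 0 < ((j : ℝ) - 1 - c) ^ a := Real.rpow_pos_of_pos hx1 _
    have hWj1 : wR a c (j - 1) = ((j : ℝ) - 1 - c) ^ a := by
      unfold wR
      rw [Nat.cast_sub (by omega)]
      push_cast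
      rfl
    rw [hWj1]
    have h2 := gm2 (show 0 ≤ κ by linarith) (j := (j : ℝ)) (by linarith)
    have h3 : ((j : ℝ) - 1) * ((j : ℝ) - 1 - c) ^ a ≤
        (j : ℝ) ^ κ * ((j : ℝ) - 1) ^ (1 - κ) * ((j : ℝ) - 1 - c) ^ a :=
      mul_le_mul_of_nonneg_right h2 hp.le
    set x1 : ℝ := (j : ℝ) - 1 - c with hx1d
    have h4 : wR a c j ≤ x1 ^ a * (1 + a * (1 / x1)) := by
      have h5 := bern_up (x := x1) (y := 1) (a := a) hx1 zero_le_one ha0 ha1
      have h6 : x1 + 1 = (j : ℝ) - c := by rw [hx1d]; ring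
      rw [h6] at h5
      exact h5
    have h7 : ((j : ℝ) - 1) * (1 / x1) ≤ 2 := by
      rw [mul_one_div, div_le_iff₀ hx1, hx1d]
      linarith
    have h8 : ((j : ℝ) - 1) * (wR a c j - x1 ^ a) ≤ 2 * x1 ^ a := by
      have h9 : wR a c j - x1 ^ a ≤ x1 ^ a * (a * (1 / x1)) := by
        have : x1 ^ a * (1 + a * (1 / x1)) = x1 ^ a + x1 ^ a * (a * (1 / x1)) := by ring
        linarith
      calc ((j : ℝ) - 1) * (wR a c j - x1 ^ a) ≤ ((j : ℝ) - 1) * (x1 ^ a * (a * (1 / x1))) :=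
            mul_le_mul_of_nonneg_left h9 (by linarith)
        _ = a * (((j : ℝ) - 1) * (1 / x1)) * x1 ^ a := by ring
        _ ≤ 1 * 2 * x1 ^ a := by
            refine mul_le_mul_of_nonneg_right ?_ hp.le
            refine mul_le_mul ha1 h7 ?_ zero_le_one
            refine mul_nonneg (by linarith) (by positivity)
        _ = 2 * x1 ^ a := by ring
    have h10 : x1 ^ a ≤ wR a c j := Real.rpow_le_rpow hx1.le (by rw [hx1d]; linarith) ha0
    have e1 : (j : ℝ) * wR a c j - ((j : ℝ) - 1) * x1 ^ a = wR a c j +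
        ((j : ℝ) - 1) * (wR a c j - x1 ^ a) := by ring
    linarith
  · have : η * κ ≤ η * 1 := mul_le_mul_of_nonneg_left h1.le hη0.le
    rw [hκ1]
    linarith
  · -- growth
    have h6 : wR a c I = wR a c b * (((I : ℝ) - c) / (b - c)) ^ a := by
      unfold wR
      rw [← Real.mul_rpow hbc0.le (div_nonneg (by linarith) hbc0.le)]
      congr 1
      field_simp
    rw [h6, mul_comm]
    refine mul_le_mul_of_nonneg_right ?_ (hWpos b le_rfl).le
    have h8 : 1 ≤ ((I : ℝ) - c) / (b - c) := by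
      rw [le_div_iff₀ hbc0]
      linarith
    calc (((I : ℝ) - c) / (b - c)) ^ a ≤ (((I : ℝ) - c) / (b - c)) ^ (1 : ℝ) :=
          Real.rpow_le_rpow_of_exponent_le h8 ha1
      _ = ((I : ℝ) - c) / (b - c) := Real.rpow_one _
      _ ≤ ((I : ℝ) + 1) / (n / 2) :=
          div_le_div₀ (by positivity) (by linarith) (by positivity) (by linarith)
      _ = 2 * (((I : ℝ) + 1) / n) := by field_simp
  · -- boundary
    have h2 := boundary3 hn1 hnb ha0 ha1 (c := c) (by rw [hc, ha]; ring) han hcb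
    have h3 : ∀ i ∈ Icc (b - n) b, wR a c (i + n) * ((b : ℝ) ^ κ / (i : ℝ) ^ κ) ≤
        wR a c b * ((1 - a) * Real.sqrt ((b : ℝ) / i) +
        a * ((b : ℝ) / ((b : ℝ) - c) * ((i + (n - c)) / i))) := by
      intro i hi
      obtain ⟨hi1, hi2⟩ := mem_Icc.1 hi
      exact bterm3 hcb hcn hc0 ha0 ha1 (by rw [ha, hk]; linarith) (by omega) hi2 (by omega)
    refine (sum_le_sum h3).trans ?_
    rw [← mul_sum, mul_comm]
    exact mul_le_mul_of_nonneg_right h2 (hWpos b le_rfl).le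

theorem gapOK {κ s τ : ℝ} (h0 : 0 ≤ κ) (h1 : κ ≤ 1) (hs1 : 1 ≤ s) (hs : 2 * κ < s) (hτ : 0 < τ)
    (hτ1 : τ ≤ 1) : GapOK κ s τ := by
  rcases lt_or_ge κ (1 / 2) with h | h
  · exact gapOK_low h0 h hs1 hτ hτ1
  · rcases eq_or_lt_of_le h1 with h2 | h2
    · rw [h2] at hs ⊢
      exact gapOK_one (by linarith) hτ hτ1
    · exact gapOK_mid h h2 hs hτ hτ1

end HD44
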