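import Pool.Agent.HD44.Core2
import Pool.Agent.HD44.GapD

/-!
# The sieve of dimension at most one, with a one-sided density condition, for a set with a level of distribution
-/

namespace HD44

open Finset RS44

/-- the conclusion of the gap lemma with the bound `g` -/
def GapAt (κ : ℝ) (n b : ℕ) (η g : ℝ) : Prop :=
  ∀ (I : ℕ) (δ Φ : ℝ) (M : ℕ → ℝ), b ≤ I → 0 ≤ δ → 0 ≤ Φ → (∀ k, 0 ≤ M k) →
    (∀ j, b ≤ j → j ≤ I → M j ≤ 2 * δ * ((1 + η) * ((I : ℝ) + 1) ^ κ / (j : ℝ) ^ κ) +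
      (η * M (j - n) + (1 + η) * ∑ i ∈ Icc j I, M (i - n) * (((i : ℝ) + 1) ^ κ - (i : ℝ) ^ κ) /
        (j : ℝ) ^ κ)) →
    (∀ k, 1 ≤ k → k ≤ b → M k ≤ Φ * ((1 + η) * ((b : ℝ) ^ κ / (k : ℝ) ^ κ))) →
    M b ≤ 8 * δ * (((I : ℝ) + 1) / n) ^ 3 + Φ * g

theorem gapOK' {κ s τ : ℝ} (h0 : 0 ≤ κ) (h1 : κ ≤ 1) (hs1 : 1 ≤ s) (hs : 2 * κ < s) (hτ : 0 < τ)
    (hτ1 : τ ≤ 1) : ∃ (n b : ℕ) (η : ℝ), 1 ≤ n ∧ n < b ∧ (b : ℝ) ≤ s * (1 + τ) * n ∧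
    0 < η ∧ η ≤ τ ∧ GapAt κ n b η (κ / (s - κ) + τ) :=
  gapOK h0 h1 hs1 hs hτ hτ1

namespace Sys

variable {Y : Sys}

/-- the main inequality between the extreme values -/
theorem gap_main3 {b : ℕ} {g : ℝ} (hnb : Y.n < b) (hI : b ≤ Y.I) (hgap : GapAt Y.κ Y.n b Y.η g) :
    Y.up b - Y.lo b ≤ 8 * Y.δ * (((Y.I : ℝ) + 1) / Y.n) ^ 3 + Y.up b * g := by
  have hup0 : 0 ≤ Y.up b := zero_le_one.trans (one_le_up _)
  refine hgap Y.I Y.δ (Y.up b) (fun k => Y.up k - Y.lo k) hI Y.hδ hup0 (fun k => ?_) ?_ ?_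
  · have h2 := one_le_up (Y := Y) k
    have h3 := lo_le_one (Y := Y) k
    linarith
  · intro j hjb hjI
    have hj : Y.n + 1 ≤ j := by omega
    have hT0 : 0 ≤ (1 + Y.η) * ((Y.I : ℝ) + 1) ^ Y.κ / (j : ℝ) ^ Y.κ := by
      have := Y.hη
      positivity
    have hstep : ∀ i : ℕ, 0 ≤ (((i : ℝ) + 1) ^ Y.κ - (i : ℝ) ^ Y.κ) := fun i => by
      rw [sub_nonneg]
      exact Real.rpow_le_rpow (by positivity) (by linarith) Y.hκ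
    have hj0 : (0 : ℝ) ≤ (j : ℝ) ^ Y.κ := by positivity
    have hA : Y.up j - 1 ≤ Y.δ * ((1 + Y.η) * ((Y.I : ℝ) + 1) ^ Y.κ / (j : ℝ) ^ Y.κ) +
      (Y.η * (1 - Y.lo (j - Y.n)) + (1 + Y.η) * ∑ i ∈ Icc j Y.I, (1 - Y.lo (i - Y.n)) *
        (((i : ℝ) + 1) ^ Y.κ - (i : ℝ) ^ Y.κ) / (j : ℝ) ^ Y.κ) := by
      rcases up_cases (Y := Y) j with h2 | ⟨ν, h2, h3⟩
      · rw [h2, sub_self]
        have h4 : ∀ k, 0 ≤ 1 - Y.lo k := fun k => by linarith [lo_le_one (Y := Y) k]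
        have h5 : 0 ≤ ∑ i ∈ Icc j Y.I, (1 - Y.lo (i - Y.n)) *
          (((i : ℝ) + 1) ^ Y.κ - (i : ℝ) ^ Y.κ) / (j : ℝ) ^ Y.κ :=
          sum_nonneg fun i _ => div_nonneg (mul_nonneg (h4 _) (hstep i)) hj0
        have h6 := h4 (j - Y.n)
        exact add_nonneg (mul_nonneg Y.hδ hT0) (add_nonneg (mul_nonneg Y.hη h6)
          (mul_nonneg (by linarith [Y.hη]) h5))
      · rw [← h3]
        exact upper_node h2 hj hjI
    have hB : 1 - Y.lo j ≤ Y.δ * ((1 + Y.η) * ((Y.I : ℝ) + 1) ^ Y.κ / (j : ℝ) ^ Y.κ) +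
      (Y.η * (Y.up (j - Y.n) - 1) + (1 + Y.η) * ∑ i ∈ Icc j Y.I, (Y.up (i - Y.n) - 1) *
        (((i : ℝ) + 1) ^ Y.κ - (i : ℝ) ^ Y.κ) / (j : ℝ) ^ Y.κ) := by
      rcases lo_cases (Y := Y) (k := j) (by omega) with h2 | ⟨ν, h2, h3⟩
      · rw [h2, sub_self]
        have h4 : ∀ k, 0 ≤ Y.up k - 1 := fun k => by linarith [one_le_up (Y := Y) k]
        have h5 : 0 ≤ ∑ i ∈ Icc j Y.I, (Y.up (i - Y.n) - 1) *
          (((i : ℝ) + 1) ^ Y.κ - (i : ℝ) ^ Y.κ) / (j : ℝ) ^ Y.κ :=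
          sum_nonneg fun i _ => div_nonneg (mul_nonneg (h4 _) (hstep i)) hj0
        have h6 := h4 (j - Y.n)
        exact add_nonneg (mul_nonneg Y.hδ hT0) (add_nonneg (mul_nonneg Y.hη h6)
          (mul_nonneg (by linarith [Y.hη]) h5))
      · rw [← h3]
        exact lower_node h2 hj hjI
    have hC : ∑ i ∈ Icc j Y.I, (Y.up (i - Y.n) - Y.lo (i - Y.n)) *
        (((i : ℝ) + 1) ^ Y.κ - (i : ℝ) ^ Y.κ) / (j : ℝ) ^ Y.κ =
        ∑ i ∈ Icc j Y.I, (1 - Y.lo (i - Y.n)) *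
        (((i : ℝ) + 1) ^ Y.κ - (i : ℝ) ^ Y.κ) / (j : ℝ) ^ Y.κ +
        ∑ i ∈ Icc j Y.I, (Y.up (i - Y.n) - 1) *
        (((i : ℝ) + 1) ^ Y.κ - (i : ℝ) ^ Y.κ) / (j : ℝ) ^ Y.κ := by
      rw [← sum_add_distrib]
      refine sum_congr rfl fun i _ => by ring
    show Y.up j - Y.lo j ≤ 2 * Y.δ * ((1 + Y.η) * ((Y.I : ℝ) + 1) ^ Y.κ / (j : ℝ) ^ Y.κ) +
      (Y.η * (Y.up (j - Y.n) - Y.lo (j - Y.n)) + (1 + Y.η) * ∑ i ∈ Icc j Y.I,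
        (Y.up (i - Y.n) - Y.lo (i - Y.n)) * (((i : ℝ) + 1) ^ Y.κ - (i : ℝ) ^ Y.κ) /
        (j : ℝ) ^ Y.κ)
    rw [hC]
    linarith
  · intro k hk hkn
    have hk0 : (0 : ℝ) < k := by exact_mod_cast (by omega : 0 < k)
    have h2 : Y.up k ≤ Y.up b * ((1 + Y.η) * ((b : ℝ) ^ Y.κ / (k : ℝ) ^ Y.κ)) := by
      rcases up_cases (Y := Y) k with h2 | ⟨ν, h2, h3⟩
      · rw [h2]
        have h4 : (1 : ℝ) ≤ (b : ℝ) ^ Y.κ / (k : ℝ) ^ Y.κ := by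
          rw [le_div_iff₀ (by positivity), one_mul]
          exact Real.rpow_le_rpow hk0.le (by exact_mod_cast hkn) Y.hκ
        have h5 := one_le_up (Y := Y) b
        have h6 : (1 : ℝ) ≤ (1 + Y.η) * ((b : ℝ) ^ Y.κ / (k : ℝ) ^ Y.κ) := by
          have := Y.hη
          nlinarith
        nlinarith
      · rw [← h3]
        exact r_small2 h2 hk hkn
    have h3 := lo_nonneg (Y := Y) k
    linarith

/-- lower bound for the number of unsifted elements, upper bounds in the classes of the remaining moduli -/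
theorem core3 {b : ℕ} {g : ℝ} (hnb : Y.n < b) (hI : b ≤ Y.I) (hgap : GapAt Y.κ Y.n b Y.η g)
    (hL : 0 ≤ Y.LD) (htop : ∀ p ∈ Y.P, (b : ℝ) * Real.log p ≤ Y.n * Y.LD) :
    ∃ Φ : ℝ, 1 ≤ Φ ∧
      (Φ - (8 * Y.δ * (((Y.I : ℝ) + 1) / Y.n) ^ 3 + Φ * g)) * (Y.X * VV Y.P) ≤
        cnt Y.N Y.b ∅ Y.P ∧
      ∀ q ∈ Y.Q, q ∉ Y.P → ∀ Λ ρ : ℝ, (∀ p ∈ Y.P, Real.log p ≤ Λ) → 1 ≤ ρ →
        (b : ℝ) * Λ ≤ ρ * (Y.n * (Y.LD - Real.log q)) → Real.log q ≤ Y.LD →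
        (cnt Y.N Y.b {q} Y.P : ℝ) ≤ Φ * ((1 + Y.η) * ρ ^ Y.κ) * (1 / (q : ℝ)) * (Y.X * VV Y.P) := by
  refine ⟨Y.up b, one_le_up _, ?_, ?_⟩
  · have h2 := gap_main3 hnb hI hgap
    have hZ := Y.hZ1
    have hLv : Y.Lv ∅ = Y.LD := by unfold Lv; simp
    have hex : Y.ex ∅ = Y.X := by unfold ex; simp
    have hnode : ((∅ : Finset ℕ), Y.Z - 1) ∈ Y.nodes b := by
      refine mem_nodes.2 ⟨empty_subset _, by omega, by rw [hLv]; exact hL, fun p _ _ => by simp,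
        fun p hp _ => ?_⟩
      rw [hLv]
      exact htop p hp
    have h3 := lo_le_r hnode
    have h4 := cnt_eq (Y := Y) (e := ∅) (z := Y.Z - 1) (empty_subset _)
    rw [Pz_all, hex] at h4
    rw [h4]
    refine mul_le_mul_of_nonneg_right (by linarith) ?_
    have h5 := VV_Pz_pos (Y := Y) (Y.Z - 1)
    rw [Pz_all] at h5
    exact (mul_pos Y.hX h5).le
  · intro q hq hqP Λ ρ hΛ hρ hρΛ hqL
    have hZ := Y.hZ1
    have hLv : Y.Lv {q} = Y.LD - Real.log q := by unfold Lv; simp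
    have hex : Y.ex {q} = Y.X / q := by unfold ex; simp
    have h2 := small_level2 (Y := Y) (b := b) (by omega) (e := {q}) (z := Y.Z - 1) (by
        intro p hp
        rw [mem_singleton.1 hp]
        exact hq) (by omega) (by rw [hLv]; linarith) (fun p hp _ hpe => by
        rw [mem_singleton.1 hpe] at hp
        exact hqP hp) (fun p hp _ => hΛ p hp) hρ (by rw [hLv]; exact hρΛ)
    rw [Pz_all, hex] at h2
    refine h2.trans (le_of_eq ?_)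
    ring

end Sys

end HD44
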