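import Pool.Agent.HD44.Low

/-!
# Most choices of classes are far from every covering
-/

namespace HD44

open Finset YX49 RS44

/-- a power of `x` beats powers of the logarithm -/
theorem exp_ge {t K : ℝ} (ht : 0 < t) (hK : 0 ≤ K) {l : ℝ} (hl : 6 * K / t ^ 3 ≤ l) (hl0 : 0 ≤ l) :
    K * l ^ 2 ≤ Real.exp (t * l) := by
  have h1 := Real.pow_div_factorial_le_exp (t * l) (by positivity) 3
  have h2 : 6 * K ≤ l * t ^ 3 := by rwa [div_le_iff₀ (by positivity)] at hl
  have h3 : (t * l) ^ 3 / (Nat.factorial 3 : ℝ) = (l * t ^ 3) * l ^ 2 / 6 := by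
    have : (Nat.factorial 3 : ℝ) = 6 := by norm_num [Nat.factorial]
    rw [this]
    ring
  rw [h3] at h1
  have h4 : 6 * K * l ^ 2 ≤ l * t ^ 3 * l ^ 2 := mul_le_mul_of_nonneg_right h2 (by positivity)
  linarith

open Classical in
theorem cov_few (α β : ℝ) (hα : 0 < α) (hα1 : α < 1) (h2 : 2 * α < β) : ∃ x0 : ℕ, ∀ x : ℕ,
    x0 ≤ x → ((univ.filter fun a : Ch (prs x) => sv (prs x) (Ioc 0 ⌊(x : ℝ) ^ β⌋₊) a = ∅).card : ℝ) ≤
      (∏ p ∈ prs x, (p : ℝ)) * Real.exp (-(x : ℝ) ^ α) := by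
  set α' : ℝ := min ((2 * α + β) / 4) 1 with hα'
  have hαα' : α < α' := lt_min (by linarith) hα1
  have hα'1 : α' ≤ 1 := min_le_right _ _
  have hα'β : 2 * α' < β := by
    have : α' ≤ (2 * α + β) / 4 := min_le_left _ _
    linarith
  have hα'0 : 0 < α' := by linarith
  obtain ⟨c0, hc0, x1, hlow⟩ := low_all α' β hα'0 hα'β
  obtain ⟨c3, hc3, hmert⟩ := mert_lower
  have hcpp := Pool.Agent.E456.cpp_nonneg
  have hlog20 : 0 < Real.log 2 := Real.log_pos (by norm_num)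
  set Lr : ℝ := |Real.log (2 / α')| + (8 + Pool.Agent.E456.cpp) / Real.log 2 with hLr
  have hLr0 : 0 < Lr := by positivity
  set ε : ℝ := min (1 / 2) (1 / (8 * Lr)) with hε
  have hε0 : 0 < ε := lt_min (by norm_num) (by positivity)
  have hε1 : ε ≤ 1 / 2 := min_le_left _ _
  have hεL : 4 * ε * Lr ≤ 1 / 2 := by
    have h1 : ε ≤ 1 / (8 * Lr) := min_le_right _ _
    calc 4 * ε * Lr ≤ 4 * (1 / (8 * Lr)) * Lr := by
          refine mul_le_mul_of_nonneg_right ?_ hLr0.le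
          linarith
      _ = 1 / 2 := by field_simp; norm_num
  set K1 : ℝ := 12 / (ε * c3 * c0) with hK1
  set K2 : ℝ := 4 / (c3 * c0) with hK2
  have hK10 : 0 < K1 := by positivity
  have hK20 : 0 < K2 := by positivity
  have hd : 0 < α' - α := by linarith
  have hβ0 : 0 < β := by linarith
  set U1 : ℝ := 6 * K1 / (α' - α) ^ 3 with hU1
  set U2 : ℝ := 6 * K2 / β ^ 3 with hU2
  set U3 : ℝ := 2 / α' with hU3
  have hU10 : 0 < U1 := by positivity
  have hU20 : 0 < U2 := by positivity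
  have hU30 : 0 < U3 := by positivity
  refine ⟨max x1 (⌈Real.exp (U1 + U2 + U3)⌉₊ + 2), fun x hx => ?_⟩
  have hxx1 : x1 ≤ x := (le_max_left _ _).trans hx
  have hx' : ⌈Real.exp (U1 + U2 + U3)⌉₊ + 2 ≤ x := (le_max_right _ _).trans hx
  have hx2 : 2 ≤ x := by omega
  have hx0 : (0 : ℝ) < x := by exact_mod_cast (by omega : 0 < x)
  have hx1r : (1 : ℝ) ≤ x := by exact_mod_cast (by omega : 1 ≤ x)
  set l : ℝ := Real.log x with hl
  have hUl : U1 + U2 + U3 ≤ l := by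
    rw [hl, ← Real.log_exp (U1 + U2 + U3)]
    refine Real.log_le_log (Real.exp_pos _) ?_
    have h1 : Real.exp (U1 + U2 + U3) ≤ (⌈Real.exp (U1 + U2 + U3)⌉₊ : ℝ) := Nat.le_ceil _
    have h2 : ((⌈Real.exp (U1 + U2 + U3)⌉₊ : ℕ) : ℝ) ≤ (x : ℝ) := by
      exact_mod_cast (by omega : ⌈Real.exp (U1 + U2 + U3)⌉₊ ≤ x)
    linarith
  have hl0 : 0 < l := by linarith
  have hpow : ∀ r : ℝ, (x : ℝ) ^ r = Real.exp (r * l) := fun r => by
    rw [Real.rpow_def_of_pos hx0, mul_comm]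
  have hα'l : 2 ≤ α' * l := by
    have h1 : U3 ≤ l := by linarith
    rw [hU3, div_le_iff₀ hα'0] at h1
    linarith
  set y : ℕ := ⌊(x : ℝ) ^ β⌋₊ with hy
  set z : ℕ := ⌊(x : ℝ) ^ α'⌋₊ with hz
  have hz1 : (x : ℝ) ^ α' / 2 ≤ z := by
    rw [hz]
    refine floor_half ?_
    rw [hpow]
    exact Real.one_le_exp (by positivity)
  have hzx : z ≤ x := by
    have h1 : (x : ℝ) ^ α' ≤ x := by
      calc (x : ℝ) ^ α' ≤ (x : ℝ) ^ (1 : ℝ) := Real.rpow_le_rpow_of_exponent_le hx1r hα'1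
        _ = x := Real.rpow_one _
    have h2 : (z : ℝ) ≤ x := (Nat.floor_le (by positivity)).trans h1
    exact_mod_cast h2
  have hxα0 : 0 < (x : ℝ) ^ α' := Real.rpow_pos_of_pos hx0 _
  have hz0 : (0 : ℝ) < z := by linarith
  have hyβ : (y : ℝ) ≤ (x : ℝ) ^ β := Nat.floor_le (by positivity)
  set M : ℝ := (y : ℝ) / z + 1 with hM
  have hM0 : 0 < M := by positivity
  have hM1 : M ≤ 3 * (x : ℝ) ^ (β - α') := by
    have h1 : (y : ℝ) / z ≤ (x : ℝ) ^ β / ((x : ℝ) ^ α' / 2) :=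
      div_le_div₀ (by positivity) hyβ (by positivity) hz1
    have h2 : (x : ℝ) ^ β / ((x : ℝ) ^ α' / 2) = 2 * (x : ℝ) ^ (β - α') := by
      rw [Real.rpow_sub hx0]
      field_simp
    have h3 : 1 ≤ (x : ℝ) ^ (β - α') := Real.one_le_rpow hx1r (by linarith)
    rw [hM]
    linarith
  have hRp : ∀ p ∈ prs x, p.Prime := fun p hp => (mem_prs.1 hp).1
  set R2 := (prs x).filter fun p => ¬ p ≤ z with hR2
  set K : ℝ := c0 * ((x : ℝ) ^ β / l) with hK
  have hK0 : 0 < K := by positivity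
  have hpart : ∀ a : ∀ i : {i : {p // p ∈ prs x} // (i : ℕ) ≤ z}, Fin ((i : {p // p ∈ prs x}) : ℕ),
      K ≤ ((part (fun i : {p // p ∈ prs x} => (i : ℕ)) (fun i => (i : ℕ) ≤ z) (Ioc 0 y) a).card : ℝ) := by
    intro a
    have e0 : Ioc 0 y = sift y 1 0 ∅ fun _ => 0 := by
      unfold sift
      ext m
      rw [mem_filter]
      constructor
      · intro h
        exact ⟨h, Nat.modEq_one, fun p hp => absurd hp (notMem_empty p)⟩
      · intro h
        exact h.1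
    rw [e0, part_eq (disjoint_empty_right _), empty_union]
    have e1 : (prs x).filter (fun p => p ≤ z) = prs z := by
      ext p
      rw [mem_filter, mem_prs, mem_prs]
      constructor
      · rintro ⟨⟨h3, _⟩, h4⟩
        exact ⟨h3, h4⟩
      · rintro ⟨h3, h4⟩
        exact ⟨⟨h3, h4.trans hzx⟩, h4⟩
    rw [e1]
    exact hlow x hxx1 _
  have hc := conc_down (fun i : {p // p ∈ prs x} => (i : ℕ)) (fun i => (hRp i i.2).two_le)
    (fun i => (i : ℕ) ≤ z) (Ioc 0 y) M ε (ε / M) K 1 hM0 hε0.le hε1 (by positivity)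
    (by rw [div_mul_cancel₀ _ hM0.ne']) (by
      intro i hi c
      have hi' : z < (i : ℕ) := not_le.1 hi
      have hip := hRp i i.2
      have hcop : Nat.Coprime 1 i := Nat.coprime_one_left _
      refine le_trans ?_ (le_trans (two_classes (y := y) 0 c hcop) ?_)
      · refine Nat.cast_le.2 (card_le_card fun m hm => ?_)
        have h1 := mem_filter.1 hm
        exact mem_filter.2 ⟨h1.1, Nat.modEq_one, h1.2⟩
      · have h3 : (y : ℝ) / ((1 : ℕ) * (i : ℕ)) ≤ (y : ℝ) / z := by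
          have h4 : (z : ℝ) ≤ ((i : ℕ) : ℝ) := by exact_mod_cast hi'.le
          rw [Nat.cast_one, one_mul]
          exact div_le_div_of_nonneg_left (by positivity) hz0 h4
        linarith) hpart
  have hset : (univ.filter fun a : Ch (prs x) => sv (prs x) (Ioc 0 y) a = ∅) ⊆
      univ.filter fun a : Ch (prs x) =>
        ((surv (fun i : {p // p ∈ prs x} => (i : ℕ)) (Ioc 0 y) a).card : ℝ) < 1 := by
    intro a ha
    refine mem_filter.2 ⟨mem_univ _, ?_⟩
    have h1 : surv (fun i : {p // p ∈ prs x} => (i : ℕ)) (Ioc 0 y) a = ∅ := (mem_filter.1 ha).2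
    rw [h1, card_empty, Nat.cast_zero]
    exact one_pos
  refine (Nat.cast_le.2 (card_le_card hset)).trans (hc.trans ?_)
  rw [prod_R (prs x) (fun p => (p : ℝ)), prod_big (prs x) z (fun p => 1 - (1 + 2 * ε) / (p : ℝ))]
  refine mul_le_mul_of_nonneg_left (Real.exp_le_exp.mpr ?_) (by positivity)
  have hsum : ∑ p ∈ R2, 1 / (p : ℝ) ≤ Lr := by
    refine sum_R hα'0 hα'1 (by rw [← hl]; exact hα'l) fun p hp => ?_
    obtain ⟨h1, h2⟩ := mem_filter.1 hp
    refine ⟨hRp p h1, ?_, (mem_prs.1 h1).2⟩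
    rw [← hl, ← hpow]
    exact (Nat.floor_lt (by positivity)).1 (not_le.1 h2)
  have hρ := rho_down (S := R2) (ε := ε) (δ := 1 / 2) (fun p hp => hRp p (mem_filter.1 hp).1)
    hε0.le hε1 ((mul_le_mul_of_nonneg_left hsum (by positivity)).trans hεL)
  have hV2 : c3 / l ≤ VV R2 := by
    have h1 : VV (prs x) = VV ((prs x).filter fun p => p ≤ z) * VV R2 := VV_split (prs x) z
    have h3 : VV ((prs x).filter fun p => p ≤ z) ≤ 1 := by
      unfold VV
      refine prod_le_one (fun p hp => ?_) (fun p hp => ?_)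
      · have h2 : (2 : ℝ) ≤ p := by exact_mod_cast (hRp p (mem_filter.1 hp).1).two_le
        have : 1 / (p : ℝ) ≤ 1 := by rw [div_le_one (by linarith)]; linarith
        linarith
      · have : 0 ≤ 1 / (p : ℝ) := by positivity
        linarith
    have h4 : 0 ≤ VV R2 := VV_nonneg fun p hp => hRp p (mem_filter.1 hp).1
    have h5 : c3 / l ≤ VV (prs x) := hmert x hx2
    have h6 : VV ((prs x).filter fun p => p ≤ z) * VV R2 ≤ 1 * VV R2 :=
      mul_le_mul_of_nonneg_right h3 h4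
    linarith
  set ρ : ℝ := ∏ p ∈ R2, (1 - (1 + 2 * ε) / (p : ℝ)) with hρd
  have hρ1 : c3 / (2 * l) ≤ ρ := by
    refine le_trans ?_ hρ
    have e : c3 / (2 * l) = (1 - 1 / 2) * (c3 / l) := by ring
    rw [e]
    exact mul_le_mul_of_nonneg_left hV2 (by norm_num)
  have hρK : c3 * c0 * ((x : ℝ) ^ β / (2 * l ^ 2)) ≤ ρ * K := by
    calc c3 * c0 * ((x : ℝ) ^ β / (2 * l ^ 2)) = c3 / (2 * l) * K := by rw [hK]; field_simp
      _ ≤ ρ * K := mul_le_mul_of_nonneg_right hρ1 hK0.le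
  have h1β : 1 ≤ c3 * c0 * ((x : ℝ) ^ β / (4 * l ^ 2)) := by
    have h1 := exp_ge (t := β) (K := K2) hβ0 hK20.le (l := l) (by linarith) hl0.le
    rw [← hpow, hK2] at h1
    have h3 : 4 * l ^ 2 ≤ c3 * c0 * (x : ℝ) ^ β := by
      calc 4 * l ^ 2 = c3 * c0 * (4 / (c3 * c0) * l ^ 2) := by field_simp
        _ ≤ _ := mul_le_mul_of_nonneg_left h1 (by positivity)
    rw [← mul_div_assoc, le_div_iff₀ (by positivity)]
    linarith
  have h2K : c3 * c0 * ((x : ℝ) ^ β / (4 * l ^ 2)) ≤ ρ * K - 1 := by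
    have e : c3 * c0 * ((x : ℝ) ^ β / (2 * l ^ 2)) = c3 * c0 * ((x : ℝ) ^ β / (4 * l ^ 2)) +
        c3 * c0 * ((x : ℝ) ^ β / (4 * l ^ 2)) := by field_simp; norm_num
    linarith
  have hfin : (x : ℝ) ^ α ≤ ε / M * (ρ * K - 1) := by
    have h1 : ε / (3 * (x : ℝ) ^ (β - α')) * (c3 * c0 * ((x : ℝ) ^ β / (4 * l ^ 2))) ≤
        ε / M * (ρ * K - 1) := by
      refine mul_le_mul ?_ h2K (by positivity) (by positivity)
      exact div_le_div_of_nonneg_left hε0.le hM0 hM1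
    refine le_trans ?_ h1
    have e : ε / (3 * (x : ℝ) ^ (β - α')) * (c3 * c0 * ((x : ℝ) ^ β / (4 * l ^ 2))) =
        ε * c3 * c0 * (x : ℝ) ^ α' / (12 * l ^ 2) := by
      have h3 : (x : ℝ) ^ β = (x : ℝ) ^ (β - α') * (x : ℝ) ^ α' := by
        rw [← Real.rpow_add hx0]
        congr 1
        ring
      rw [h3]
      have h4 : (x : ℝ) ^ (β - α') ≠ 0 := (Real.rpow_pos_of_pos hx0 _).ne'
      field_simp
      norm_num
    rw [e, le_div_iff₀ (by positivity)]
    have h5 := exp_ge (t := α' - α) (K := K1) hd hK10.le (l := l) (by linarith) hl0.le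
    have h6 : (x : ℝ) ^ α' = (x : ℝ) ^ α * Real.exp ((α' - α) * l) := by
      rw [hpow, hpow, ← Real.exp_add]
      congr 1
      ring
    rw [h6]
    have h7 : 0 < (x : ℝ) ^ α := Real.rpow_pos_of_pos hx0 _
    calc (x : ℝ) ^ α * (12 * l ^ 2) = ε * c3 * c0 * ((x : ℝ) ^ α * (K1 * l ^ 2)) := by
          rw [hK1]
          field_simp
      _ ≤ ε * c3 * c0 * ((x : ℝ) ^ α * Real.exp ((α' - α) * l)) := by
          refine mul_le_mul_of_nonneg_left ?_ (by positivity)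
          exact mul_le_mul_of_nonneg_left h5 h7.le
  have e : ε / M * (1 - ρ * K) = -(ε / M * (ρ * K - 1)) := by ring
  rw [e]
  exact neg_le_neg hfin

end HD44
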