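import Pool.Agent.HD44.Far

/-!
# Most choices of classes are far from every covering: the distance
-/

namespace HD44

open Finset YX49 RS44

open Classical in
theorem ball_card {ι : Type} [Fintype ι] [DecidableEq ι] (P : ι → ℕ) (b : ∀ i, Fin (P i)) (k : ℕ) :
    (univ.filter fun a : ∀ i, Fin (P i) => (univ.filter fun i => a i ≠ b i).card ≤ k).card ≤
      (∑ i, P i + 1) ^ k := by
  set F : (Fin k → Option (Σ i, Fin (P i))) → (∀ i, Fin (P i)) := fun f i =>
    if h : ∃ j, ∃ c : Fin (P i), f j = some ⟨i, c⟩ then h.choose_spec.choose else b i with hF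
  have hcard : Fintype.card (Fin k → Option (Σ i, Fin (P i))) = (∑ i, P i + 1) ^ k := by
    rw [Fintype.card_fun, Fintype.card_option, Fintype.card_sigma, Fintype.card_fin]
    simp only [Fintype.card_fin]
  rw [← hcard]
  have hsub : (univ.filter fun a : ∀ i, Fin (P i) => (univ.filter fun i => a i ≠ b i).card ≤ k) ⊆
      univ.image F := by
    intro a ha
    have hk := (mem_filter.1 ha).2
    set C : Finset ι := univ.filter fun i => a i ≠ b i with hC
    have hcC : Fintype.card {i // i ∈ C} ≤ Fintype.card (Fin k) := by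
      rw [Fintype.card_coe, Fintype.card_fin]
      exact hk
    obtain ⟨e⟩ := Function.Embedding.nonempty_of_card_le hcC
    set f : Fin k → Option (Σ i, Fin (P i)) := fun j =>
      if h : ∃ i : {i // i ∈ C}, e i = j then some ⟨(h.choose : ι), a h.choose⟩ else none with hf
    have key : ∀ j i (c : Fin (P i)), f j = some ⟨i, c⟩ → i ∈ C ∧ c = a i := by
      intro j i c hj
      by_cases h : ∃ i : {i // i ∈ C}, e i = j
      · have h1 : f j = some ⟨(h.choose : ι), a h.choose⟩ := dif_pos h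
        rw [h1] at hj
        have h2 := Option.some.inj hj
        have h3 : (h.choose : ι) = i := congrArg Sigma.fst h2
        refine ⟨h3 ▸ h.choose.2, ?_⟩
        have h4 := (Sigma.mk.inj_iff.1 h2).2
        generalize (h.choose : ι) = i0 at h3 h4
        subst h3
        exact (eq_of_heq h4).symm
      · have h1 : f j = none := dif_neg h
        rw [h1] at hj
        exact absurd hj (by simp)
    refine mem_image.2 ⟨f, mem_univ _, ?_⟩
    funext i
    by_cases hi : i ∈ C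
    · have hex : ∃ j, ∃ c : Fin (P i), f j = some ⟨i, c⟩ := by
        have h : ∃ i' : {i // i ∈ C}, e i' = e ⟨i, hi⟩ := ⟨⟨i, hi⟩, rfl⟩
        have h1 : f (e ⟨i, hi⟩) = some ⟨(h.choose : ι), a h.choose⟩ := dif_pos h
        have h2 : h.choose = ⟨i, hi⟩ := e.injective h.choose_spec
        have h3 : (h.choose : ι) = i := congrArg Subtype.val h2
        generalize (h.choose : ι) = i0 at h1 h3
        subst h3
        exact ⟨_, _, h1⟩
      have h1 : F f i = hex.choose_spec.choose := dif_pos hex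
      rw [h1]
      exact (key _ _ _ hex.choose_spec.choose_spec).2
    · have hex : ¬ ∃ j, ∃ c : Fin (P i), f j = some ⟨i, c⟩ := by
        rintro ⟨j, c, hj⟩
        exact hi (key j i c hj).1
      have h1 : F f i = b i := dif_neg hex
      rw [h1]
      by_contra h2
      exact hi (mem_filter.2 ⟨mem_univ _, fun h3 => h2 h3.symm⟩)
  exact (card_le_card hsub).trans card_image_le

open Classical in
theorem far (α β : ℝ) (hα : 0 < α) (hα1 : α < 1) (h2 : 2 * α < β) : ∃ x0 : ℕ, ∀ x : ℕ,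
    x0 ≤ x → ((univ.filter fun a : Ch (prs x) => ∃ b : ℕ → ℕ,
      ((univ.filter fun p : {p // p ∈ prs x} => ¬ b p ≡ (a p : ℕ) [MOD (p : ℕ)]).card : ℝ) ≤
        (x : ℝ) ^ α ∧
      ∀ m : ℕ, 1 ≤ m → m ≤ ⌊(x : ℝ) ^ β⌋₊ → ∃ p : ℕ, p.Prime ∧ p ≤ x ∧ m ≡ b p [MOD p]).card : ℝ) ≤
      (∏ p ∈ prs x, (p : ℝ)) * Real.exp (-(x : ℝ) ^ α) := by
  set α1 : ℝ := (α + min 1 (β / 2)) / 2 with hα1d
  have hm : α < min 1 (β / 2) := lt_min hα1 (by linarith)
  have hm1 : min 1 (β / 2) ≤ 1 := min_le_left _ _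
  have hm2 : min 1 (β / 2) ≤ β / 2 := min_le_right _ _
  have h01 : α < α1 := by rw [hα1d]; linarith
  have h11 : α1 < 1 := by rw [hα1d]; linarith
  have h21 : 2 * α1 < β := by rw [hα1d]; linarith
  obtain ⟨x1, hfew⟩ := cov_few α1 β (by linarith) h11 h21
  set U : ℝ := 6 * 4 / (α1 - α) ^ 3 + 1 with hU
  have hd : 0 < α1 - α := by linarith
  have hU0 : 0 < 6 * 4 / (α1 - α) ^ 3 := by positivity
  refine ⟨max x1 (⌈Real.exp U⌉₊ + 2), fun x hx => ?_⟩
  have hxx1 : x1 ≤ x := (le_max_left _ _).trans hx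
  have hx' : ⌈Real.exp U⌉₊ + 2 ≤ x := (le_max_right _ _).trans hx
  have hx2 : 2 ≤ x := by omega
  have hx0 : (0 : ℝ) < x := by exact_mod_cast (by omega : 0 < x)
  set l : ℝ := Real.log x with hl
  have hUl : U ≤ l := by
    rw [hl, ← Real.log_exp U]
    refine Real.log_le_log (Real.exp_pos _) ?_
    have h1 : Real.exp U ≤ (⌈Real.exp U⌉₊ : ℝ) := Nat.le_ceil _
    have h2 : ((⌈Real.exp U⌉₊ : ℕ) : ℝ) ≤ (x : ℝ) := by
      exact_mod_cast (by omega : ⌈Real.exp U⌉₊ ≤ x)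
    linarith
  have hl1 : 1 ≤ l := by linarith
  have hpow : ∀ r : ℝ, (x : ℝ) ^ r = Real.exp (r * l) := fun r => by
    rw [Real.rpow_def_of_pos hx0, mul_comm]
  set y : ℕ := ⌊(x : ℝ) ^ β⌋₊ with hy
  set k : ℕ := ⌊(x : ℝ) ^ α⌋₊ with hk
  set 𝒞 : Finset (Ch (prs x)) := univ.filter fun a : Ch (prs x) => sv (prs x) (Ioc 0 y) a = ∅ with h𝒞
  have hRp : ∀ p ∈ prs x, p.Prime := fun p hp => (mem_prs.1 hp).1
  have hsub : (univ.filter fun a : Ch (prs x) => ∃ b : ℕ → ℕ,
      ((univ.filter fun p : {p // p ∈ prs x} => ¬ b p ≡ (a p : ℕ) [MOD (p : ℕ)]).card : ℝ) ≤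
        (x : ℝ) ^ α ∧
      ∀ m : ℕ, 1 ≤ m → m ≤ y → ∃ p : ℕ, p.Prime ∧ p ≤ x ∧ m ≡ b p [MOD p]) ⊆
      𝒞.biUnion fun b => univ.filter fun a : Ch (prs x) => (univ.filter fun i => a i ≠ b i).card ≤ k := by
    intro a ha
    obtain ⟨b, hb1, hb2⟩ := (mem_filter.1 ha).2
    set b' : Ch (prs x) := fun i => ⟨b i % i, Nat.mod_lt _ (hRp i i.2).pos⟩ with hb'
    have hbb : ∀ i : {p // p ∈ prs x}, (b' i : ℕ) ≡ b i [MOD (i : ℕ)] := fun i => Nat.mod_modEq _ _
    refine mem_biUnion.2 ⟨b', mem_filter.2 ⟨mem_univ _, ?_⟩, mem_filter.2 ⟨mem_univ _, ?_⟩⟩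
    · rw [eq_empty_iff_forall_notMem]
      intro m hmem
      obtain ⟨h1, h3⟩ := mem_sv.1 hmem
      obtain ⟨h4, h5⟩ := mem_Ioc.1 h1
      obtain ⟨p, hp, hpx, hmp⟩ := hb2 m h4 h5
      exact h3 ⟨p, mem_prs.2 ⟨hp, hpx⟩⟩ (hmp.trans (hbb ⟨p, mem_prs.2 ⟨hp, hpx⟩⟩).symm)
    · refine le_trans (card_le_card ?_) (Nat.le_floor hb1)
      intro i hi
      refine mem_filter.2 ⟨mem_univ _, fun hcon => (mem_filter.1 hi).2 ?_⟩
      have h1 : (b' i : ℕ) ≡ (a i : ℕ) [MOD (i : ℕ)] := (hbb i).trans hcon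
      have h3 : (b' i : ℕ) = (a i : ℕ) := Nat.ModEq.eq_of_lt_of_lt h1 (b' i).2 (a i).2
      exact (Fin.ext h3).symm
  have hsum : ∑ i : {p // p ∈ prs x}, (i : ℕ) + 1 ≤ x ^ 3 := by
    have h1 : ∑ i : {p // p ∈ prs x}, (i : ℕ) = ∑ p ∈ prs x, p := Finset.sum_coe_sort (prs x) fun p => p
    rw [h1]
    have h3 : ∑ p ∈ prs x, p ≤ x * x := by
      calc ∑ p ∈ prs x, p ≤ ∑ _p ∈ prs x, x := sum_le_sum fun p hp => (mem_prs.1 hp).2
        _ = (prs x).card * x := by rw [sum_const, smul_eq_mul]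
        _ ≤ x * x := by
            refine Nat.mul_le_mul_right _ ?_
            calc (prs x).card ≤ (Ioc 0 x).card := card_le_card fun p hp =>
                  mem_Ioc.2 ⟨(mem_prs.1 hp).1.pos, (mem_prs.1 hp).2⟩
              _ = x := by simp
    have h4 : x * x + 1 ≤ x ^ 3 := by nlinarith
    omega
  have hball : ∀ b ∈ 𝒞, ((univ.filter fun a : Ch (prs x) =>
      (univ.filter fun i => a i ≠ b i).card ≤ k).card : ℝ) ≤ Real.exp (3 * l * (x : ℝ) ^ α) := by
    intro b _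
    have h1 := ball_card (fun i : {p // p ∈ prs x} => (i : ℕ)) b k
    have h3 : (univ.filter fun a : Ch (prs x) => (univ.filter fun i => a i ≠ b i).card ≤ k).card ≤
        (x ^ 3) ^ k := h1.trans (Nat.pow_le_pow_left hsum k)
    calc ((univ.filter fun a : Ch (prs x) =>
        (univ.filter fun i => a i ≠ b i).card ≤ k).card : ℝ) ≤ (((x ^ 3) ^ k : ℕ) : ℝ) :=
          Nat.cast_le.2 h3
      _ = Real.exp (3 * l * k) := by
          push_cast
          rw [← pow_mul, ← Real.exp_log hx0, ← Real.exp_nat_mul, ← hl]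
          congr 1
          push_cast
          ring
      _ ≤ Real.exp (3 * l * (x : ℝ) ^ α) := by
          refine Real.exp_le_exp.mpr ?_
          exact mul_le_mul_of_nonneg_left (Nat.floor_le (by positivity)) (by positivity)
  have h𝒞card := hfew x hxx1
  rw [← h𝒞] at h𝒞card
  have hPi : (0 : ℝ) ≤ ∏ p ∈ prs x, (p : ℝ) := by positivity
  calc _ ≤ ((𝒞.biUnion fun b => univ.filter fun a : Ch (prs x) =>
        (univ.filter fun i => a i ≠ b i).card ≤ k).card : ℝ) := Nat.cast_le.2 (card_le_card hsub)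
    _ ≤ ∑ b ∈ 𝒞, ((univ.filter fun a : Ch (prs x) =>
        (univ.filter fun i => a i ≠ b i).card ≤ k).card : ℝ) := by exact_mod_cast card_biUnion_le
    _ ≤ ∑ _b ∈ 𝒞, Real.exp (3 * l * (x : ℝ) ^ α) := sum_le_sum hball
    _ = 𝒞.card * Real.exp (3 * l * (x : ℝ) ^ α) := by rw [sum_const, nsmul_eq_mul]
    _ ≤ ((∏ p ∈ prs x, (p : ℝ)) * Real.exp (-(x : ℝ) ^ α1)) * Real.exp (3 * l * (x : ℝ) ^ α) :=
        mul_le_mul_of_nonneg_right h𝒞card (Real.exp_pos _).le
    _ = (∏ p ∈ prs x, (p : ℝ)) * Real.exp (-(x : ℝ) ^ α1 + 3 * l * (x : ℝ) ^ α) := by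
        rw [mul_assoc, ← Real.exp_add]
    _ ≤ (∏ p ∈ prs x, (p : ℝ)) * Real.exp (-(x : ℝ) ^ α) := by
        refine mul_le_mul_of_nonneg_left (Real.exp_le_exp.mpr ?_) hPi
        have h5 := exp_ge (t := α1 - α) (K := 4) hd (by norm_num) (l := l) (by linarith)
          (by linarith)
        have h6 : (x : ℝ) ^ α1 = (x : ℝ) ^ α * Real.exp ((α1 - α) * l) := by
          rw [hpow, hpow, ← Real.exp_add]
          congr 1
          ring
        have h7 : 0 < (x : ℝ) ^ α := Real.rpow_pos_of_pos hx0 _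
        have h8 : 1 + 3 * l ≤ 4 * l ^ 2 := by nlinarith
        have h9 : (x : ℝ) ^ α * (1 + 3 * l) ≤ (x : ℝ) ^ α * Real.exp ((α1 - α) * l) :=
          mul_le_mul_of_nonneg_left (h8.trans h5) h7.le
        rw [h6]
        linarith

end HD44
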