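import Pool.Agent.RS44.Fin
import Pool.Agent.HD44.Contra

/-!
# The choice of the parameters
-/

namespace HD44

open Finset YX49 RS44

/-- the error terms of the sieve of small dimension -/
theorem E2_bound {κ η τ : ℝ} {n : ℕ} (hκ : 0 ≤ κ) (hκ1 : κ < 1 / 2) (hη : 0 ≤ η) (hτ : 0 < τ)
    (hτ1 : τ ≤ 1) (hητ : η * (128 * ((n : ℝ) + 1)) ≤ τ) (hn : 16 ≤ τ * ((n : ℝ) + 1)) :
    η * (1 + η) * ((n : ℝ) + 1) ^ κ + (η + (1 + η) * κ) *
        ((1 + η) / (1 - κ) + (1 + η) / ((n : ℝ) + 1)) ≤ κ / (1 - κ) + τ / 8 := by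
  have hn0 : (0 : ℝ) < (n : ℝ) + 1 := by positivity
  have hn1 : (1 : ℝ) ≤ (n : ℝ) + 1 := by
    have : (0 : ℝ) ≤ n := Nat.cast_nonneg n
    linarith
  have hη1 : η ≤ 1 / 128 := by
    have : η * 128 ≤ η * (128 * ((n : ℝ) + 1)) := mul_le_mul_of_nonneg_left (by linarith) hη
    linarith
  have hpow : ((n : ℝ) + 1) ^ κ ≤ (n : ℝ) + 1 := by
    calc ((n : ℝ) + 1) ^ κ ≤ ((n : ℝ) + 1) ^ (1 : ℝ) :=
          Real.rpow_le_rpow_of_exponent_le hn1 (by linarith)
      _ = _ := Real.rpow_one _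
  have h1 : η * (1 + η) * ((n : ℝ) + 1) ^ κ ≤ τ / 64 := by
    calc η * (1 + η) * ((n : ℝ) + 1) ^ κ ≤ η * 2 * ((n : ℝ) + 1) := by
          refine mul_le_mul ?_ hpow (by positivity) (by positivity)
          exact mul_le_mul_of_nonneg_left (by linarith) hη
      _ = η * (128 * ((n : ℝ) + 1)) / 64 := by ring
      _ ≤ τ / 64 := by linarith
  set G : ℝ := 1 / (1 - κ) with hG
  set H : ℝ := 1 / ((n : ℝ) + 1) with hH
  have hG2 : G ≤ 2 := by
    rw [hG, div_le_iff₀ (by linarith)]
    linarith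
  have hG0 : 0 ≤ G := by
    have : 0 < 1 - κ := by linarith
    positivity
  have hH0 : 0 ≤ H := by positivity
  have hH1 : H ≤ τ / 16 := by
    rw [hH, div_le_iff₀ hn0]
    linarith
  have h2 : (η + (1 + η) * κ) * ((1 + η) / (1 - κ) + (1 + η) / ((n : ℝ) + 1)) =
      (η + (1 + η) * κ) * (1 + η) * (G + H) := by
    rw [hG, hH]
    ring
  have h3 : (η + (1 + η) * κ) * (1 + η) ≤ κ + 3 * η := by
    have h4 : 0 ≤ η * κ := mul_nonneg hη hκ
    have h5 : η * κ ≤ η * (1 / 2) := mul_le_mul_of_nonneg_left hκ1.le hη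
    have h6 : η * η ≤ η * (1 / 128) := mul_le_mul_of_nonneg_left hη1 hη
    have h7 : η * (η * κ) ≤ η * (1 / 256) := by
      refine mul_le_mul_of_nonneg_left ?_ hη
      calc η * κ ≤ 1 / 128 * (1 / 2) := mul_le_mul hη1 hκ1.le hκ (by norm_num)
        _ = _ := by norm_num
    have e : (η + (1 + η) * κ) * (1 + η) = κ + η + 2 * (η * κ) + η * η + η * (η * κ) := by ring
    rw [e]
    linarith
  have h4 : (η + (1 + η) * κ) * (1 + η) * (G + H) ≤ (κ + 3 * η) * (G + H) :=
    mul_le_mul_of_nonneg_right h3 (by positivity)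
  have h5 : (κ + 3 * η) * (G + H) = κ * G + κ * H + 3 * η * (G + H) := by ring
  have h6 : κ * H ≤ 1 / 2 * (τ / 16) := mul_le_mul hκ1.le hH1 hH0 (by norm_num)
  have h7 : 3 * η * (G + H) ≤ 3 * η * 3 := by
    refine mul_le_mul_of_nonneg_left ?_ (by positivity)
    linarith
  have h8 : η * 128 ≤ τ := by
    have : η * 128 ≤ η * (128 * ((n : ℝ) + 1)) := mul_le_mul_of_nonneg_left (by linarith) hη
    linarith
  have h8' : η * 256 ≤ τ := by
    have h9 : (2 : ℝ) ≤ (n : ℝ) + 1 := by
      by_contra hc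
      have : τ * ((n : ℝ) + 1) ≤ 1 * 2 := mul_le_mul hτ1 (not_le.1 hc).le hn0.le (by norm_num)
      linarith
    have : η * 256 ≤ η * (128 * ((n : ℝ) + 1)) := mul_le_mul_of_nonneg_left (by linarith) hη
    linarith
  have h9 : κ / (1 - κ) = κ * G := by rw [hG]; ring
  rw [h2, h9]
  linarith

theorem lam_bound {t : ℝ} (h0 : 0 ≤ t) (h1 : t ≤ 1 / 3) {a b : ℝ} (ha0 : 0 ≤ a) (ha : a ≤ t)
    (hb : b ≤ t) : (1 + a) / (1 - b) ≤ 1 + 3 * t := by
  rw [div_le_iff₀ (by linarith)]
  have h2 : (1 + 3 * t) * (1 - t) ≤ (1 + 3 * t) * (1 - b) :=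
    mul_le_mul_of_nonneg_left (by linarith) (by linarith)
  have h3 : (1 + 3 * t) * (1 - t) = 1 + 2 * t - 3 * (t * t) := by ring
  have h4 : t * t ≤ t * (1 / 3) := mul_le_mul_of_nonneg_left h1 h0
  linarith

/-- the exponential factor beats the number of events -/
theorem expo2 {E l θ e c3 LD ε k : ℝ} {w z D : ℕ} (hl : 0 < l) (hE : 1 ≤ E) (hw : (w : ℝ) ≤ E)
    (hz : E * E / 2 ≤ z) (hD : (D : ℝ) ≤ Real.exp LD) (hLD : LD ≤ (1 + ε) * l)
    (hθ : 0 < θ) (he : 0 < e) (hc3 : 0 < c3) (h1 : 5 / (θ * e * c3 / 4) * l ≤ E)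
    (h2 : 2 * (1 + ε) * l ≤ E) (hk : k ≤ E) :
    (4 : ℝ) ^ w * (2 * (D : ℝ) * D) * Real.exp (-(θ * e * (z / 2) * (c3 / l))) ≤ Real.exp (-k) := by
  have h4 : (4 : ℝ) ^ w ≤ Real.exp (2 * E) := by
    rw [← Real.exp_log (by norm_num : (0 : ℝ) < 4), ← Real.exp_nat_mul]
    refine Real.exp_le_exp.mpr ?_
    have h5 : Real.log 4 ≤ 2 := by
      have h6 := Real.log_two_lt_d9
      have h7 : Real.log 4 = 2 * Real.log 2 := by
        rw [show (4 : ℝ) = 2 ^ 2 by norm_num, Real.log_pow]
        norm_num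
      linarith
    calc (w : ℝ) * Real.log 4 ≤ E * 2 :=
          mul_le_mul hw h5 (Real.log_nonneg (by norm_num)) (by linarith)
      _ = 2 * E := by ring
  have h5 : (D : ℝ) ≤ Real.exp ((1 + ε) * l) := hD.trans (Real.exp_le_exp.mpr hLD)
  have h6 : (2 : ℝ) ≤ Real.exp 1 := by
    have := Real.add_one_le_exp (1 : ℝ)
    linarith
  have h7 : 2 * (D : ℝ) * D ≤ Real.exp (1 + 2 * (1 + ε) * l) := by
    calc 2 * (D : ℝ) * D ≤ Real.exp 1 * Real.exp ((1 + ε) * l) * Real.exp ((1 + ε) * l) := by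
          refine mul_le_mul (mul_le_mul h6 h5 (by positivity) (by positivity)) h5 (by positivity)
            (by positivity)
      _ = _ := by
          rw [← Real.exp_add, ← Real.exp_add]
          congr 1
          ring
  set c5 : ℝ := θ * e * c3 / 4 with hc5
  have hc50 : 0 < c5 := by positivity
  have h8 : 5 * E ≤ θ * e * (z / 2) * (c3 / l) := by
    have h9 : 5 * l ≤ c5 * E := by
      have : 5 / c5 * l * c5 ≤ E * c5 := mul_le_mul_of_nonneg_right h1 hc50.le
      have e1 : 5 / c5 * l * c5 = 5 * l := by field_simp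
      linarith
    calc 5 * E = 5 * l * E * (1 / l) := by field_simp
      _ ≤ c5 * E * E * (1 / l) := by
          refine mul_le_mul_of_nonneg_right ?_ (by positivity)
          exact mul_le_mul_of_nonneg_right h9 (by linarith)
      _ = θ * e * (E * E / 2 / 2) * (c3 / l) := by rw [hc5]; ring
      _ ≤ _ := by
          refine mul_le_mul_of_nonneg_right ?_ (by positivity)
          exact mul_le_mul_of_nonneg_left (by linarith) (by positivity)
  calc (4 : ℝ) ^ w * (2 * (D : ℝ) * D) * Real.exp (-(θ * e * (z / 2) * (c3 / l)))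
      ≤ Real.exp (2 * E) * Real.exp (1 + 2 * (1 + ε) * l) * Real.exp (-(5 * E)) := by
        refine mul_le_mul (mul_le_mul h4 h7 ?_ ?_) (Real.exp_le_exp.mpr (neg_le_neg h8)) ?_ ?_ <;>
          positivity
    _ = Real.exp (2 * E + (1 + 2 * (1 + ε) * l) + -(5 * E)) := by
        rw [← Real.exp_add, ← Real.exp_add]
    _ ≤ Real.exp (-k) := Real.exp_le_exp.mpr (by linarith)

open Classical in
theorem tinf (κ τ ε A : ℝ) (hκ : 0 ≤ κ) (hκ1 : κ < 1 / 2) (hτ : 0 < τ) (hε : 0 < ε) (hA : 0 ≤ A) :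
    ∃ c : ℝ, 0 < c ∧ ∃ x0 : ℕ, ∀ x : ℕ, x0 ≤ x → ∀ R S : Finset ℕ,
      (∀ p ∈ R, p.Prime ∧ (x : ℝ) ^ c < p ∧ p ≤ x) →
      ∑ p ∈ S, (max 1 (Real.log x / ((1 + ε) * Real.log x - Real.log p))) ^ κ * (1 / (p : ℝ)) ≤
        (1 - 2 * κ) / (1 - κ) - τ →
      Dim x R S κ A c →
      ((univ.filter fun a : Ch R => Cov x ⌊(x : ℝ) ^ (1 + ε)⌋₊ R a).card : ℝ) ≤
        Real.exp (-(x : ℝ) ^ c) * ∏ p ∈ R, (p : ℝ) := by
  set τ' : ℝ := min τ 1 with hτ'
  have hτ0 : 0 < τ' := lt_min hτ one_pos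
  have hτ1 : τ' ≤ 1 := min_le_right _ _
  have hττ : τ' ≤ τ := min_le_left _ _
  set σ : ℝ := min ε 1 * τ' / 16 with hσ
  have hm0 : 0 < min ε 1 := lt_min hε one_pos
  have hσ0 : 0 < σ := by positivity
  have hσ1 : σ ≤ 1 / 16 := by
    have : min ε 1 * τ' ≤ 1 * 1 := mul_le_mul (min_le_right _ _) hτ1 hτ0.le (by norm_num)
    rw [hσ]
    linarith
  have hσε : σ ≤ ε * (τ' / 16) := by
    have : min ε 1 * (τ' / 16) ≤ ε * (τ' / 16) :=
      mul_le_mul_of_nonneg_right (min_le_left _ _) (by positivity)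
    rw [hσ]
    linarith
  have hσε2 : σ ≤ ε / 16 := by
    have : ε * (τ' / 16) ≤ ε * (1 / 16) := mul_le_mul_of_nonneg_left (by linarith) hε.le
    linarith
  set n : ℕ := ⌈16 / τ' + 2 / ε⌉₊ with hn
  have hn1 : 16 / τ' + 2 / ε ≤ (n : ℝ) := Nat.le_ceil _
  have h16τ : 16 ≤ 16 / τ' := by
    rw [le_div_iff₀ hτ0]
    linarith
  have h2ε : 0 < 2 / ε := by positivity
  have hn16 : (16 : ℝ) ≤ n := by linarith
  have hn' : 1 ≤ n := by
    have : (1 : ℝ) ≤ n := by linarith
    exact_mod_cast this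
  have hnτ : 16 ≤ τ' * n := by
    have h1 : 16 / τ' ≤ (n : ℝ) := by linarith
    rw [div_le_iff₀ hτ0] at h1
    linarith
  have hnε : 2 ≤ ε * n := by
    have h1 : 2 / ε ≤ (n : ℝ) := by
      have : 0 < 16 / τ' := by positivity
      linarith
    rw [div_le_iff₀ hε] at h1
    linarith
  have hn0 : (0 : ℝ) < n := by linarith
  set η1 : ℝ := min (τ' / (128 * ((n : ℝ) + 1))) ((1 - 2 * κ) / 2) with hη1
  have hη10 : 0 < η1 := lt_min (by positivity) (by linarith)
  have hη1τ : η1 * (128 * ((n : ℝ) + 1)) ≤ τ' := by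
    have h1 : η1 ≤ τ' / (128 * ((n : ℝ) + 1)) := min_le_left _ _
    rwa [le_div_iff₀ (by positivity)] at h1
  have hη1κ : η1 ≤ (1 - 2 * κ) / 2 := min_le_right _ _
  have hη1s : η1 ≤ τ' / 128 := by
    have : η1 * 128 ≤ η1 * (128 * ((n : ℝ) + 1)) :=
      mul_le_mul_of_nonneg_left (by linarith) hη10.le
    linarith
  have hηκ : (1 + η1) * κ + η1 ≤ 1 - κ := by nlinarith
  set CI : ℝ := 8 * (1 + ε) / σ + 1 with hCI
  have hCI1 : 1 ≤ CI := by
    have : 0 ≤ 8 * (1 + ε) / σ := by positivity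
    linarith
  set δ0 : ℝ := τ' / (384 * CI) with hδ0
  have hδ00 : 0 < δ0 := by positivity
  have hδ01 : δ0 ≤ 1 := by
    rw [hδ0, div_le_one (by positivity)]
    linarith
  obtain ⟨s, hs1, hbad⟩ := bad_ud δ0 hδ00 hδ01
  have hs' : (1 : ℝ) ≤ s := by exact_mod_cast hs1
  set θ : ℝ := δ0 / s with hθ
  have hθ0 : 0 < θ := by positivity
  have hθs : θ * s = δ0 := by rw [hθ]; field_simp
  set c : ℝ := σ / (8 * s) with hc
  have hc0 : 0 < c := by positivity
  have hcs : c * (8 * s) = σ := by rw [hc]; field_simp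
  have hc1 : c ≤ 1 / 16 := by
    have : c * 8 ≤ c * (8 * s) := mul_le_mul_of_nonneg_left (by linarith) hc0.le
    linarith
  obtain ⟨c3, hc3, hmert⟩ := mert_lower
  have hcpp := Pool.Agent.E456.cpp_nonneg
  have hlog20 : 0 < Real.log 2 := Real.log_pos (by norm_num)
  have hlog21 : Real.log 2 ≤ 1 := by
    have := Real.log_two_lt_d9
    linarith
  set Lr : ℝ := |Real.log (2 / c)| + (8 + Pool.Agent.E456.cpp) / Real.log 2 with hLr
  have hLr0 : 0 < Lr := by positivity
  set ε2 : ℝ := min (1 / 2) (θ / (4 * Lr)) with hε2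
  have hε20 : 0 < ε2 := lt_min (by norm_num) (by positivity)
  have hε21 : ε2 ≤ 1 / 2 := min_le_left _ _
  have hε22 : ε2 ≤ θ / (4 * Lr) := min_le_right _ _
  set K : ℝ := 5 / (θ * ε2 * c3 / 4) + 2 * (1 + ε) with hK
  have hK0 : 0 < K := by positivity
  have hlη : 0 < Real.log (1 + η1) := Real.log_pos (by linarith)
  set U1 : ℝ := 4 / c with hU1
  set U2 : ℝ := 4 / (θ * σ) with hU2
  set U3 : ℝ := K / (2 * c ^ 2) with hU3
  set U4 : ℝ := (A + 1) / (c * Real.log (1 + η1)) with hU4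
  have hU10 : 0 < U1 := by positivity
  have hU20 : 0 < U2 := by positivity
  have hU30 : 0 < U3 := by positivity
  have hU40 : 0 < U4 := by positivity
  refine ⟨c, hc0, ⌈Real.exp (U1 + U2 + U3 + U4)⌉₊ + 2, fun x hx R S hR hS hdim => ?_⟩
  have hx2 : 2 ≤ x := by omega
  have hx0 : (0 : ℝ) < x := by exact_mod_cast (by omega : 0 < x)
  set l : ℝ := Real.log x with hl
  have hexpl : Real.exp l = x := Real.exp_log hx0
  have hUl : U1 + U2 + U3 + U4 ≤ l := by
    rw [hl, ← Real.log_exp (U1 + U2 + U3 + U4)]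
    refine Real.log_le_log (Real.exp_pos _) ?_
    have h1 : Real.exp (U1 + U2 + U3 + U4) ≤ (⌈Real.exp (U1 + U2 + U3 + U4)⌉₊ : ℝ) := Nat.le_ceil _
    have h2 : ((⌈Real.exp (U1 + U2 + U3 + U4)⌉₊ : ℕ) : ℝ) ≤ (x : ℝ) := by
      exact_mod_cast (by omega : ⌈Real.exp (U1 + U2 + U3 + U4)⌉₊ ≤ x)
    linarith
  have hl0 : 0 < l := by linarith
  have hcl : 4 ≤ c * l := by
    have h1 : U1 ≤ l := by linarith
    rw [hU1, div_le_iff₀ hc0] at h1
    linarith
  have hθσ : 4 ≤ θ * (σ * l) := by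
    have h1 : U2 ≤ l := by linarith
    rw [hU2, div_le_iff₀ (by positivity)] at h1
    linarith
  have hKl : K ≤ 2 * c ^ 2 * l := by
    have h1 : U3 ≤ l := by linarith
    rw [hU3, div_le_iff₀ (by positivity)] at h1
    linarith
  have hAl : A + 1 ≤ c * Real.log (1 + η1) * l := by
    have h1 : U4 ≤ l := by linarith
    rw [hU4, div_le_iff₀ (by positivity)] at h1
    linarith
  have hσl : 32 ≤ σ * l := by
    rw [← hcs]
    have h1 : c * l * 8 ≤ c * l * (8 * s) := mul_le_mul_of_nonneg_left (by linarith) (by positivity)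
    have h2 : c * (8 * s) * l = c * l * (8 * s) := by ring
    linarith
  have hpow : ∀ r : ℝ, (x : ℝ) ^ r = Real.exp (r * l) := fun r => by
    rw [Real.rpow_def_of_pos hx0, mul_comm]
  set E : ℝ := Real.exp (2 * (c * l)) with hE
  have hE1 : 1 ≤ E := Real.one_le_exp (by positivity)
  set LD : ℝ := (1 + ε - σ) * l with hLD
  have hLDl : LD = (1 + ε) * l - σ * l := by rw [hLD]; ring
  have hσl' : σ * l ≤ ε / 16 * l := mul_le_mul_of_nonneg_right hσε2 hl0.le
  have hεl : 0 < ε * l := by positivity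
  have hLD1 : l ≤ LD := by
    rw [hLDl]
    have : (1 + ε) * l = l + ε * l := by ring
    linarith
  have hLD2 : LD ≤ (1 + ε) * l := by
    rw [hLDl]
    have : 0 < σ * l := by positivity
    linarith
  set w : ℕ := ⌊E⌋₊ with hw
  set z : ℕ := ⌊E * E⌋₊ with hz
  set D : ℕ := ⌊Real.exp LD⌋₊ with hD
  set y : ℕ := ⌊(x : ℝ) ^ (1 + ε)⌋₊ with hy
  have hEE : E * E = Real.exp (4 * (c * l)) := by
    rw [hE, ← Real.exp_add]
    congr 1
    ring
  -- w
  have hwE : (w : ℝ) ≤ E := Nat.floor_le (by linarith)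
  have hwE2 : E / 2 ≤ (w : ℝ) := floor_half hE1
  have hlw1 : c * l ≤ Real.log w := by
    have h1 := log_floor_exp (t := 2 * (c * l)) (by positivity)
    rw [← hE, ← hw] at h1
    linarith
  have hlw2 : Real.log w ≤ 2 * (c * l) := by
    have h1 := log_floor_exp_le (t := 2 * (c * l)) (by positivity)
    rwa [← hE, ← hw] at h1
  have hlw0 : 0 < Real.log w := by linarith
  have hE8 : 8 ≤ E := by
    have := Real.add_one_le_exp (2 * (c * l))
    linarith
  have hw2 : 2 ≤ w := by
    have : (2 : ℝ) ≤ w := by linarith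
    exact_mod_cast this
  have hwx : w ≤ x := by
    have h1 : E ≤ x := by
      rw [← hexpl]
      refine Real.exp_le_exp.mpr ?_
      have : c * l ≤ 1 / 16 * l := mul_le_mul_of_nonneg_right hc1 hl0.le
      linarith
    have : (w : ℝ) ≤ x := hwE.trans h1
    exact_mod_cast this
  have hxw : (x : ℝ) ^ c ≤ w := by
    rw [hpow]
    refine le_trans ?_ hwE2
    have h3 := Real.add_one_le_exp (c * l)
    have h4 : E = Real.exp (c * l) * Real.exp (c * l) := by
      rw [hE, ← Real.exp_add]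
      congr 1
      ring
    rw [h4]
    have h5 := Real.exp_pos (c * l)
    have h6 : 2 * Real.exp (c * l) ≤ Real.exp (c * l) * Real.exp (c * l) :=
      mul_le_mul_of_nonneg_right (by linarith) h5.le
    linarith
  -- z
  have hwz : w ≤ z := Nat.floor_mono (by nlinarith)
  have hz2 : 2 ≤ z := hw2.trans hwz
  have hzE : E * E / 2 ≤ (z : ℝ) := floor_half (by nlinarith)
  have hzE2 : (z : ℝ) ≤ Real.exp (4 * (c * l)) := by
    rw [← hEE]
    exact Nat.floor_le (by positivity)
  -- y and D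
  have hy1 : Real.exp ((1 + ε) * l) / 2 ≤ (y : ℝ) := by
    rw [hy, hpow]
    exact floor_half (Real.one_le_exp (by positivity))
  have hexpy : 0 < Real.exp ((1 + ε) * l) := Real.exp_pos _
  have hy0 : 0 < y := by
    have : (0 : ℝ) < y := by linarith
    exact_mod_cast this
  have hDle : (D : ℝ) ≤ Real.exp LD := Nat.floor_le (Real.exp_pos _).le
  have hD0 : 0 < D := by
    rw [hD]
    exact Nat.floor_pos.2 (Real.one_le_exp (by linarith))
  have hD0' : (0 : ℝ) < D := by exact_mod_cast hD0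
  have hzs : (z : ℝ) ^ s ≤ Real.exp (σ * l / 2) := by
    calc (z : ℝ) ^ s ≤ Real.exp (4 * (c * l)) ^ s := pow_le_pow_left₀ (by positivity) hzE2 _
      _ = Real.exp (σ * l / 2) := by
          rw [← Real.exp_nat_mul]
          congr 1
          rw [← hcs]
          ring
  have hzy : z ^ s * D ≤ y := by
    have h1 : (z : ℝ) ^ s * D ≤ y := by
      refine le_trans (mul_le_mul hzs hDle (by positivity) (Real.exp_pos _).le) ?_
      refine le_trans ?_ hy1
      rw [le_div_iff₀ (by norm_num)]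
      have h2 : Real.exp (σ * l / 2) * Real.exp LD * Real.exp (σ * l / 2) =
          Real.exp ((1 + ε) * l) := by
        rw [← Real.exp_add, ← Real.exp_add]
        congr 1
        rw [hLDl]
        ring
      rw [← h2]
      refine mul_le_mul_of_nonneg_left ?_ (by positivity)
      have := Real.add_one_le_exp (σ * l / 2)
      linarith
    exact_mod_cast h1
  have hyD : 2 / θ ≤ (y : ℝ) / D := by
    have h1 : Real.exp (σ * l) / 2 ≤ (y : ℝ) / D := by
      rw [le_div_iff₀ hD0']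
      calc Real.exp (σ * l) / 2 * D ≤ Real.exp (σ * l) / 2 * Real.exp LD :=
            mul_le_mul_of_nonneg_left hDle (by positivity)
        _ = Real.exp ((1 + ε) * l) / 2 := by
            rw [div_mul_eq_mul_div, ← Real.exp_add]
            congr 2
            rw [hLDl]
            ring
        _ ≤ y := hy1
    refine le_trans ?_ h1
    rw [div_le_div_iff₀ hθ0 (by norm_num)]
    have h2 := Real.add_one_le_exp (σ * l)
    have h3 : θ * (σ * l) ≤ θ * Real.exp (σ * l) :=
      mul_le_mul_of_nonneg_left (by linarith) hθ0.le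
    linarith
  -- the exceptional set
  have hRl : ∀ p ∈ R, p.Prime ∧ Real.exp (c * Real.log x) < p ∧ p ≤ x := by
    intro p hp
    obtain ⟨h1, h2, h3⟩ := hR p hp
    rw [hpow] at h2
    exact ⟨h1, h2, h3⟩
  have hsumR := sum_R hc0 (by linarith) (by rw [← hl]; linarith) hRl
  rw [← hLr] at hsumR
  have hEK : K * l ≤ E := by
    have h1 := Real.quadratic_le_exp_of_nonneg (x := 2 * (c * l)) (by positivity)
    rw [← hE] at h1
    have h2 : K * l ≤ 2 * c ^ 2 * l * l := mul_le_mul_of_nonneg_right hKl hl0.le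
    have h3 : (2 * (c * l)) ^ 2 / 2 = 2 * c ^ 2 * l * l := by ring
    have h4 : 0 ≤ 2 * (c * l) := by positivity
    linarith
  have hKsplit : K * l = 5 / (θ * ε2 * c3 / 4) * l + 2 * (1 + ε) * l := by rw [hK]; ring
  have hKa : 0 ≤ 5 / (θ * ε2 * c3 / 4) * l := by positivity
  have hKb : 0 ≤ 2 * (1 + ε) * l := by positivity
  have hF := expo2 (E := E) (l := l) (θ := θ) (e := ε2) (c3 := c3) (LD := LD) (ε := ε)
    (k := (x : ℝ) ^ c) (w := w) (z := z) (D := D) hl0 hE1 hwE hzE hDle hLD2 hθ0 hε20 hc3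
    (by linarith) (by linarith) (by
      rw [hpow, hE]
      refine Real.exp_le_exp.mpr ?_
      have : 0 ≤ c * l := by positivity
      linarith)
  have hmain := hbad x y z w D R ε2 (c3 / l) (Real.exp (-(x : ℝ) ^ c))
    (fun p hp => ⟨(hR p hp).1, (hR p hp).2.2⟩) hwx hz2 hwz hD0 hzy hyD hε20 hε21 (by
      have h1 : 4 * ε2 * ∑ p ∈ R, 1 / (p : ℝ) ≤ 4 * ε2 * Lr :=
        mul_le_mul_of_nonneg_left hsumR (by positivity)
      have h2 : 4 * ε2 * Lr ≤ 4 * (θ / (4 * Lr)) * Lr := by
        refine mul_le_mul_of_nonneg_right ?_ hLr0.le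
        linarith
      have h3 : 4 * (θ / (4 * Lr)) * Lr = θ := by field_simp
      linarith) (by positivity) (hmert x hx2) hF
  have hcard : ((univ.filter fun a : Ch R => Cov x y R a).card : ℝ) ≤
      ((univ.filter fun a : Ch R => ¬ UD y w D R (6 * θ) a).card : ℝ) := by
    refine Nat.cast_le.2 (card_le_card fun a ha => ?_)
    refine mem_filter.2 ⟨mem_univ _, fun hUD => ?_⟩
    have hcov := (mem_filter.1 ha).2
    -- the contradiction
    set I : ℕ := ⌊(n : ℝ) * LD / Real.log w⌋₊ with hI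
    have hLD0 : 0 < LD := by linarith
    have hInn : 0 ≤ (n : ℝ) * LD / Real.log w := by positivity
    have hI1 : n * LD < (I + 1) * Real.log w := by
      have := Nat.lt_floor_add_one ((n : ℝ) * LD / Real.log w)
      rw [div_lt_iff₀ hlw0] at this
      exact this
    have htop : ((n : ℝ) + 1) * l ≤ n * LD := by
      rw [hLDl]
      have h1 : (n : ℝ) * ((1 + ε) * l - σ * l) = n * l + n * (ε * l - σ * l) := by ring
      have h2 : n * (ε / 2 * l) ≤ n * (ε * l - σ * l) := by
        refine mul_le_mul_of_nonneg_left ?_ hn0.le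
        linarith
      have h3 : n * (ε / 2 * l) = ε * n * (l / 2) := by ring
      have h4 : 2 * (l / 2) ≤ ε * n * (l / 2) := mul_le_mul_of_nonneg_right hnε (by positivity)
      linarith
    have hlwl : Real.log w ≤ l := Real.log_le_log (by linarith) (by exact_mod_cast hwx)
    have hnI : n + 1 ≤ I := by
      refine Nat.le_floor ?_
      rw [le_div_iff₀ hlw0]
      push_cast
      refine le_trans ?_ htop
      exact mul_le_mul_of_nonneg_left hlwl (by positivity)
    have hI2 : (I : ℝ) ≤ n * (1 + ε) / c := by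
      have h1 : (I : ℝ) ≤ n * LD / Real.log w := Nat.floor_le hInn
      refine h1.trans ?_
      rw [div_le_div_iff₀ hlw0 hc0]
      calc n * LD * c ≤ n * ((1 + ε) * l) * c := by
            refine mul_le_mul_of_nonneg_right ?_ hc0.le
            exact mul_le_mul_of_nonneg_left hLD2 hn0.le
        _ = n * (1 + ε) * (c * l) := by ring
        _ ≤ n * (1 + ε) * Real.log w := mul_le_mul_of_nonneg_left hlw1 (by positivity)
    have hI3 : (I : ℝ) + 1 ≤ s * CI * ((n : ℝ) + 1) := by
      have h1 : n * (1 + ε) / c = s * (8 * (1 + ε) / σ) * n := by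
        rw [← hcs]
        field_simp
      have h2 : 0 ≤ s * (8 * (1 + ε) / σ) := by positivity
      have h3 : s * CI * ((n : ℝ) + 1) = s * (8 * (1 + ε) / σ) * n + s * (8 * (1 + ε) / σ) +
          s * n + s := by rw [hCI]; ring
      have h4 : 0 ≤ (s : ℝ) * n := by positivity
      linarith
    have hE1b : 2 * (6 * θ) * (1 + η1) * ((I : ℝ) + 1) / ((n : ℝ) + 1) ≤ τ' / 16 := by
      rw [div_le_iff₀ (by positivity)]
      calc 2 * (6 * θ) * (1 + η1) * ((I : ℝ) + 1) ≤ 2 * (6 * θ) * 2 * (s * CI * ((n : ℝ) + 1)) := by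
            refine mul_le_mul ?_ hI3 (by positivity) (by positivity)
            refine mul_le_mul_of_nonneg_left ?_ (by positivity)
            linarith
        _ = 24 * (θ * s) * CI * ((n : ℝ) + 1) := by ring
        _ = τ' / 16 * ((n : ℝ) + 1) := by
            rw [hθs, hδ0]
            field_simp
            norm_num
    have hE2b := E2_bound (κ := κ) (η := η1) (τ := τ') (n := n) hκ hκ1 hη10.le hτ0 hτ1 hη1τ (by
      have : τ' * ((n : ℝ) + 1) = τ' * n + τ' := by ring
      linarith)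
    set m : ℕ → ℝ := fun q => max 1 (l / ((1 + ε) * l - Real.log q)) with hm
    have hm1 : ∀ q, 1 ≤ m q := fun q => le_max_left _ _
    set lam : ℝ := (1 + 1 / (n : ℝ)) / (1 - σ / ε) with hlam
    have hσε3 : σ / ε ≤ τ' / 16 := by
      rw [div_le_iff₀ hε]
      linarith
    have hσε4 : 0 < σ / ε := by positivity
    have hn1τ : 1 / (n : ℝ) ≤ τ' / 16 := by
      rw [div_le_iff₀ hn0]
      linarith
    have hlam1 : 1 ≤ lam := by
      rw [hlam, le_div_iff₀ (by linarith)]
      have : 0 < 1 / (n : ℝ) := by positivity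
      linarith
    have hlam2 : lam ≤ 1 + 3 * (τ' / 16) :=
      lam_bound (by positivity) (by linarith) (by positivity) hn1τ hσε3
    have hρκ : ∀ q, (lam * m q) ^ κ ≤ lam * m q ^ κ := by
      intro q
      have h1 := hm1 q
      rw [Real.mul_rpow (by linarith) (by linarith)]
      refine mul_le_mul_of_nonneg_right ?_ (by positivity)
      calc lam ^ κ ≤ lam ^ (1 : ℝ) := Real.rpow_le_rpow_of_exponent_le hlam1 (by linarith)
        _ = lam := Real.rpow_one _
    refine contra (S := S) (κ := κ) (δ := 6 * θ) (η := η1) (LD := LD) (n := n) (I := I)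
      (ρ := fun q => lam * m q)
      (fun p hp => ⟨(hR p hp).1, (hR p hp).2.2⟩) hy0 hw2 hwx hUD (fun d hd => Nat.le_floor hd) hcov
      (by positivity) hη10.le hκ (by linarith) hn' hnI hI1 hηκ htop ?_ ?_ ?_ ?_
    · intro z Λ ρ hρ hΛ
      refine dm_of (R := R) (S := S) (A := A) (c := c) hdim hA hxw hw2 hwx hκ hη10.le ?_ ?_ z Λ ρ hρ hΛ
      · have h1 : Real.log w ≤ w := by
          have := Real.log_le_sub_one_of_pos (show (0 : ℝ) < w by linarith)
          linarith
        have h2 : 1 / (w : ℝ) ≤ 1 / Real.log w := one_div_le_one_div_of_le hlw0 h1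
        have h3 : A / Real.log w + 1 / Real.log w = (A + 1) / Real.log w := by ring
        have h4 : (A + 1) / Real.log w ≤ Real.log (1 + η1) := by
          rw [div_le_iff₀ hlw0]
          have h5 : Real.log (1 + η1) * (c * l) ≤ Real.log (1 + η1) * Real.log w :=
            mul_le_mul_of_nonneg_left hlw1 hlη.le
          have h6 : c * Real.log (1 + η1) * l = Real.log (1 + η1) * (c * l) := by ring
          linarith
        linarith
      · intro p hp
        obtain ⟨h1, h2⟩ := mem_filter.1 hp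
        obtain ⟨h3, h4, h5, h6⟩ := mem_qb.1 h1
        rcases h6 with h6 | h6
        · exact absurd h6 (notMem_empty p)
        · exact ⟨h3, h6, h4, h5, h2⟩
    · intro q _ _
      show 1 ≤ lam * m q
      exact le_trans hlam1 (le_mul_of_one_le_right (zero_le_one.trans hlam1) (hm1 q))
    · intro q hq _
      show ((n : ℝ) + 1) * l ≤ lam * m q * (n * (LD - Real.log q))
      obtain ⟨h3, h4, _, _⟩ := mem_qb.1 hq
      have hlq : Real.log q ≤ l := Real.log_le_log (by exact_mod_cast h3.pos) (by exact_mod_cast h4)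
      set g : ℝ := (1 + ε) * l - Real.log q with hg
      have hg1 : ε * l ≤ g := by
        rw [hg]
        have : (1 + ε) * l = l + ε * l := by ring
        linarith
      have hg0 : 0 < g := by linarith
      have h5 : g * (1 - σ / ε) ≤ LD - Real.log q := by
        have h6 : σ / ε * (ε * l) ≤ σ / ε * g := mul_le_mul_of_nonneg_left hg1 hσε4.le
        have h7 : σ / ε * (ε * l) = σ * l := by field_simp
        have h8 : LD - Real.log q = g - σ * l := by rw [hLDl, hg]; ring
        rw [h8]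
        have h9 : g * (1 - σ / ε) = g - σ / ε * g := by ring
        linarith
      have h1b : 0 < 1 - σ / ε := by linarith
      have h6 : l / g ≤ m q := le_max_right _ _
      have h7 : lam * (l / g) ≤ lam * m q := mul_le_mul_of_nonneg_left h6 (by linarith)
      have e1 : lam * (1 - σ / ε) = 1 + 1 / (n : ℝ) := by rw [hlam, div_mul_cancel₀ _ h1b.ne']
      have e2 : lam * (l / g) * (n * (g * (1 - σ / ε))) =
          (lam * (1 - σ / ε)) * n * (l / g * g) := by ring
      have e3 : (1 + 1 / (n : ℝ)) * n = n + 1 := by field_simp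
      calc ((n : ℝ) + 1) * l = lam * (l / g) * (n * (g * (1 - σ / ε))) := by
            rw [e2, e1, e3, div_mul_cancel₀ _ hg0.ne']
        _ ≤ lam * m q * (n * (g * (1 - σ / ε))) :=
            mul_le_mul_of_nonneg_right h7 (by positivity)
        _ ≤ lam * m q * (n * (LD - Real.log q)) := by
            refine mul_le_mul_of_nonneg_left ?_ (mul_nonneg (by linarith) (by linarith [hm1 q]))
            exact mul_le_mul_of_nonneg_left h5 hn0.le
    · -- the numbers
      set SS : ℝ := ∑ p ∈ S, m p ^ κ * (1 / (p : ℝ)) with hSS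
      have hnn : ∀ p, 0 ≤ m p ^ κ * (1 / (p : ℝ)) := fun p => by
        have := hm1 p
        positivity
      have hSS0 : 0 ≤ SS := sum_nonneg fun p _ => hnn p
      have hSSle : SS ≤ (1 - 2 * κ) / (1 - κ) - τ := hS
      have h1κ : 0 < 1 - κ := by linarith
      have hsum1 : κ / (1 - κ) + (1 - 2 * κ) / (1 - κ) = 1 := by
        rw [← add_div, div_eq_one_iff_eq h1κ.ne']
        ring
      have hk0 : 0 ≤ κ / (1 - κ) := by positivity
      have hSS1 : SS ≤ 1 := by linarith
      have hfac : (1 + η1) * lam ≤ 1 + τ' / 2 := by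
        calc (1 + η1) * lam ≤ (1 + τ' / 128) * (1 + 3 * (τ' / 16)) :=
              mul_le_mul (by linarith) hlam2 (by linarith) (by positivity)
          _ = 1 + τ' / 128 + 3 * τ' / 16 + 3 / 2048 * (τ' * τ') := by ring
          _ ≤ 1 + τ' / 2 := by
              have : τ' * τ' ≤ τ' * 1 := mul_le_mul_of_nonneg_left hτ1 hτ0.le
              linarith
      have hW : ∑ q ∈ (qb R ∅ w x).filter (fun p => p ∈ S),
          (1 + η1) * (lam * m q) ^ κ * (1 / (q : ℝ)) ≤ (1 + τ' / 2) * SS := by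
        calc ∑ q ∈ (qb R ∅ w x).filter (fun p => p ∈ S),
              (1 + η1) * (lam * m q) ^ κ * (1 / (q : ℝ))
            ≤ ∑ q ∈ (qb R ∅ w x).filter (fun p => p ∈ S),
              (1 + η1) * lam * (m q ^ κ * (1 / (q : ℝ))) := by
              refine sum_le_sum fun q _ => ?_
              have h1 := hρκ q
              calc (1 + η1) * (lam * m q) ^ κ * (1 / (q : ℝ)) ≤
                    (1 + η1) * (lam * m q ^ κ) * (1 / (q : ℝ)) := by
                    refine mul_le_mul_of_nonneg_right ?_ (by positivity)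
                    exact mul_le_mul_of_nonneg_left h1 (by linarith)
                _ = _ := by ring
          _ ≤ ∑ q ∈ S, (1 + η1) * lam * (m q ^ κ * (1 / (q : ℝ))) := by
              refine sum_le_sum_of_subset_of_nonneg (fun q hq => (mem_filter.1 hq).2) fun q _ _ => ?_
              exact mul_nonneg (mul_nonneg (by linarith) (by linarith)) (hnn q)
          _ = (1 + η1) * lam * SS := by rw [mul_sum]
          _ ≤ _ := mul_le_mul_of_nonneg_right hfac hSS0
      have hW2 : (1 + τ' / 2) * SS ≤ SS + τ' / 2 := by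
        have : τ' / 2 * SS ≤ τ' / 2 * 1 := mul_le_mul_of_nonneg_left hSS1 (by positivity)
        linarith
      linarith
  calc ((univ.filter fun a : Ch R => Cov x y R a).card : ℝ) ≤
        ((univ.filter fun a : Ch R => ¬ UD y w D R (6 * θ) a).card : ℝ) := hcard
    _ ≤ (∏ p ∈ R, (p : ℝ)) * Real.exp (-(x : ℝ) ^ c) := hmain
    _ = _ := mul_comm _ _

end HD44
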