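import Pool.Agent.HD44.Fin2
import Pool.Agent.HD44.Fund2
import Pool.Agent.HD44.Eng3
import Pool.Agent.HD44.Contra2

/-!
# Dimension below one: the choice of the parameters
-/

namespace HD44

open Finset YX49 RS44

/-- the sizes of all parameters -/
theorem sizes {x s : ℕ} {β σ c θ LD l : ℝ} (hx : 2 ≤ x) (hs : 1 ≤ s) (hl : l = Real.log x)
    (hc : c * (8 * s) = σ) (hcl : 4 ≤ c * l) (hc1 : c ≤ 1 / 16) (hβ : 1 ≤ β)
    (hLD : LD = β * l - σ * l) (hLD0 : 0 ≤ LD) (hθ : 0 < θ) (hθσ : 4 ≤ θ * (σ * l)) :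
    2 ≤ ⌊Real.exp (2 * (c * l))⌋₊ ∧ ⌊Real.exp (2 * (c * l))⌋₊ ≤ x ∧
    ⌊Real.exp (2 * (c * l))⌋₊ ≤ ⌊Real.exp (4 * (c * l))⌋₊ ∧
    (x : ℝ) ^ c ≤ ⌊Real.exp (2 * (c * l))⌋₊ ∧ c * l ≤ Real.log ⌊Real.exp (2 * (c * l))⌋₊ ∧
    ⌊Real.exp (4 * (c * l))⌋₊ ^ s * ⌊Real.exp LD⌋₊ ≤ ⌊(x : ℝ) ^ β⌋₊ ∧
    2 / θ ≤ (⌊(x : ℝ) ^ β⌋₊ : ℝ) / ⌊Real.exp LD⌋₊ ∧ 0 < ⌊Real.exp LD⌋₊ ∧ 0 < ⌊(x : ℝ) ^ β⌋₊ := by
  have hx0 : (0 : ℝ) < x := by exact_mod_cast (by omega : 0 < x)
  have hs' : (1 : ℝ) ≤ s := by exact_mod_cast hs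
  have hexpl : Real.exp l = x := by rw [hl]; exact Real.exp_log hx0
  have hl0 : 0 < l := by rw [hl]; exact Real.log_pos (by exact_mod_cast (by omega : 1 < x))
  have hpow : ∀ r : ℝ, (x : ℝ) ^ r = Real.exp (r * l) := fun r => by
    rw [Real.rpow_def_of_pos hx0, mul_comm, hl]
  have hlog21 : Real.log 2 ≤ 1 := by
    have := Real.log_two_lt_d9
    linarith
  have hc0 : 0 < c := by
    by_contra h
    have := mul_nonpos_of_nonpos_of_nonneg (not_lt.1 h) hl0.le
    linarith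
  have hσl : σ * l = c * l * (8 * s) := by rw [← hc]; ring
  have hσl1 : 32 ≤ σ * l := by
    rw [hσl]
    have h1 : c * l * 8 ≤ c * l * (8 * s) := mul_le_mul_of_nonneg_left (by linarith) (by positivity)
    linarith
  set E : ℝ := Real.exp (2 * (c * l)) with hE
  have hE1 : 1 ≤ E := Real.one_le_exp (by positivity)
  have hE8 : 8 ≤ E := by
    have := Real.add_one_le_exp (2 * (c * l))
    linarith
  have hEE : E * E = Real.exp (4 * (c * l)) := by
    rw [hE, ← Real.exp_add]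
    congr 1
    ring
  have hwE : (⌊E⌋₊ : ℝ) ≤ E := Nat.floor_le (by linarith)
  have hwE2 : E / 2 ≤ (⌊E⌋₊ : ℝ) := floor_half hE1
  have hDle : (⌊Real.exp LD⌋₊ : ℝ) ≤ Real.exp LD := Nat.floor_le (Real.exp_pos _).le
  have hD0 : 0 < ⌊Real.exp LD⌋₊ := Nat.floor_pos.2 (Real.one_le_exp hLD0)
  have hD0' : (0 : ℝ) < (⌊Real.exp LD⌋₊ : ℝ) := by exact_mod_cast hD0
  have hy1 : Real.exp (β * l) / 2 ≤ (⌊(x : ℝ) ^ β⌋₊ : ℝ) := by
    rw [hpow]
    exact floor_half (Real.one_le_exp (by positivity))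
  have hexpy : 0 < Real.exp (β * l) := Real.exp_pos _
  have hzE2 : (⌊Real.exp (4 * (c * l))⌋₊ : ℝ) ≤ Real.exp (4 * (c * l)) :=
    Nat.floor_le (Real.exp_pos _).le
  refine ⟨?_, ?_, ?_, ?_, ?_, ?_, ?_, hD0, ?_⟩
  · have : (2 : ℝ) ≤ (⌊E⌋₊ : ℝ) := by linarith
    exact_mod_cast this
  · have h1 : E ≤ x := by
      rw [← hexpl]
      refine Real.exp_le_exp.mpr ?_
      have : c * l ≤ 1 / 16 * l := mul_le_mul_of_nonneg_right hc1 hl0.le
      linarith
    have : (⌊E⌋₊ : ℝ) ≤ x := hwE.trans h1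
    exact_mod_cast this
  · rw [← hEE]
    exact Nat.floor_mono (by nlinarith)
  · rw [hpow]
    refine le_trans ?_ hwE2
    have h3 := Real.add_one_le_exp (c * l)
    have h4 : E = Real.exp (c * l) * Real.exp (c * l) := by
      rw [hE, ← Real.exp_add]
      congr 1
      ring
    rw [h4]
    have h5 := Real.exp_pos (c * l)
    have h6 : 2 * Real.exp (c * l) ≤ Real.exp (c * l) * Real.exp (c * l) :=
      mul_le_mul_of_nonneg_right (by linarith) h5.le
    linarith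
  · have h1 := log_floor_exp (t := 2 * (c * l)) (by positivity)
    rw [← hE] at h1
    linarith
  · have hzs : (⌊Real.exp (4 * (c * l))⌋₊ : ℝ) ^ s ≤ Real.exp (σ * l / 2) := by
      calc (⌊Real.exp (4 * (c * l))⌋₊ : ℝ) ^ s ≤ Real.exp (4 * (c * l)) ^ s :=
            pow_le_pow_left₀ (by positivity) hzE2 _
        _ = Real.exp (σ * l / 2) := by
            rw [← Real.exp_nat_mul]
            congr 1
            rw [hσl]
            ring
    have h1 : (⌊Real.exp (4 * (c * l))⌋₊ : ℝ) ^ s * ⌊Real.exp LD⌋₊ ≤ (⌊(x : ℝ) ^ β⌋₊ : ℝ) := by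
      refine le_trans (mul_le_mul hzs hDle (by positivity) (Real.exp_pos _).le) ?_
      refine le_trans ?_ hy1
      rw [le_div_iff₀ (by norm_num)]
      have h2 : Real.exp (σ * l / 2) * Real.exp LD * Real.exp (σ * l / 2) =
          Real.exp (β * l) := by
        rw [← Real.exp_add, ← Real.exp_add]
        congr 1
        rw [hLD]
        ring
      rw [← h2]
      refine mul_le_mul_of_nonneg_left ?_ (by positivity)
      have := Real.add_one_le_exp (σ * l / 2)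
      linarith
    exact_mod_cast h1
  · have h1 : Real.exp (σ * l) / 2 ≤ (⌊(x : ℝ) ^ β⌋₊ : ℝ) / ⌊Real.exp LD⌋₊ := by
      rw [le_div_iff₀ hD0']
      calc Real.exp (σ * l) / 2 * ⌊Real.exp LD⌋₊ ≤ Real.exp (σ * l) / 2 * Real.exp LD :=
            mul_le_mul_of_nonneg_left hDle (by positivity)
        _ = Real.exp (β * l) / 2 := by
            rw [div_mul_eq_mul_div, ← Real.exp_add]
            congr 2
            rw [hLD]
            ring
        _ ≤ _ := hy1
    refine le_trans ?_ h1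
    rw [div_le_div_iff₀ hθ (by norm_num)]
    have h2 := Real.add_one_le_exp (σ * l)
    have h3 : θ * (σ * l) ≤ θ * Real.exp (σ * l) :=
      mul_le_mul_of_nonneg_left (by linarith) hθ.le
    linarith
  · have : (0 : ℝ) < (⌊(x : ℝ) ^ β⌋₊ : ℝ) := by linarith
    exact_mod_cast this

/-- the error term of the sieve -/
theorem E3_bound {κ e η κ1 : ℝ} {n b : ℕ} (hκ : 1 / 2 ≤ κ) (he : 0 < e) (he1 : κ + e ≤ 1)
    (hη : 0 ≤ η) (hηe : η ≤ e ^ 2 / 256) (hκ1 : κ1 = κ + e / 8) (hn : 0 < (n : ℝ))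
    (hne : 32 * (1 + 1 / e) ≤ e * n) (hb : 2 * n * (κ + e / 2) ≤ b) (hb2 : (b : ℝ) ≤ 2 * n) :
    η * (1 + η) * (b / ((b : ℝ) - n)) + κ1 * (1 + η) * ((2 * n + 2 + b / ((b : ℝ) - n)) / b) ≤
      1 - e / 4 := by
  have he2 : e ≤ 1 / 2 := by linarith
  have hb0 : (0 : ℝ) < b := by
    have : 0 < 2 * (n : ℝ) * (κ + e / 2) := by positivity
    linarith
  have hbn : e * n ≤ (b : ℝ) - n := by
    have h1 : (n : ℝ) * 1 ≤ n * (2 * κ) := mul_le_mul_of_nonneg_left (by linarith) hn.le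
    have h2 : 2 * (n : ℝ) * (κ + e / 2) = n * (2 * κ) + e * n := by ring
    linarith
  have hen : 0 < e * (n : ℝ) := by positivity
  have hbn0 : 0 < (b : ℝ) - n := by linarith
  have hη1 : η ≤ 1 / 1024 := by nlinarith
  have hηe2 : η ≤ e / 512 := by nlinarith
  have hr : (b : ℝ) / ((b : ℝ) - n) ≤ 2 / e := by
    rw [div_le_div_iff₀ hbn0 he]
    calc (b : ℝ) * e ≤ 2 * n * e := mul_le_mul_of_nonneg_right hb2 he.le
      _ = 2 * (e * n) := by ring
      _ ≤ 2 * ((b : ℝ) - n) := by linarith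
  have hr0 : 0 ≤ (b : ℝ) / ((b : ℝ) - n) := by positivity
  have h1 : η * (1 + η) * (b / ((b : ℝ) - n)) ≤ e / 64 := by
    calc η * (1 + η) * (b / ((b : ℝ) - n)) ≤ e ^ 2 / 256 * 2 * (2 / e) := by
          refine mul_le_mul (mul_le_mul hηe (by linarith) (by linarith) (by positivity)) hr hr0
            (by positivity)
      _ = e / 64 := by field_simp; norm_num
  set g : ℝ := κ + e / 2 with hg
  have hg0 : 0 < g := by linarith
  have hg1 : g ≤ 1 := by linarith
  have h2 : (2 * n + 2 + b / ((b : ℝ) - n)) / b ≤ (1 + e / 32) / g := by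
    rw [div_le_div_iff₀ hb0 hg0]
    have h3 : 2 * (n : ℝ) + 2 + b / ((b : ℝ) - n) ≤ 2 * n * (1 + e / 32) := by
      have h4 : 2 * (n : ℝ) * (1 + e / 32) = 2 * n + e * n / 16 := by ring
      have h5 : 2 * (1 + 1 / e) = 2 + 2 / e := by ring
      linarith
    calc (2 * (n : ℝ) + 2 + b / ((b : ℝ) - n)) * g ≤ 2 * n * (1 + e / 32) * g :=
          mul_le_mul_of_nonneg_right h3 hg0.le
      _ = (1 + e / 32) * (2 * n * g) := by ring
      _ ≤ (1 + e / 32) * b := mul_le_mul_of_nonneg_left hb (by positivity)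
  have hκ10 : 0 < κ1 := by rw [hκ1]; linarith
  have hκ1g : κ1 / g ≤ 1 - 3 * e / 8 := by
    rw [div_le_iff₀ hg0]
    have h3 : (1 - 3 * e / 8) * g = g - 3 * e / 8 * g := by ring
    have h4 : 3 * e / 8 * g ≤ 3 * e / 8 * 1 := mul_le_mul_of_nonneg_left hg1 (by positivity)
    rw [h3, hκ1]
    have h5 : g = κ + e / 2 := hg
    linarith
  have h6 : κ1 * (1 + η) * ((2 * n + 2 + b / ((b : ℝ) - n)) / b) ≤ 1 - 9 * e / 32 := by
    calc κ1 * (1 + η) * ((2 * n + 2 + b / ((b : ℝ) - n)) / b) ≤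
          κ1 * (1 + η) * ((1 + e / 32) / g) := mul_le_mul_of_nonneg_left h2 (by positivity)
      _ = κ1 / g * ((1 + η) * (1 + e / 32)) := by ring
      _ ≤ (1 - 3 * e / 8) * ((1 + η) * (1 + e / 32)) :=
          mul_le_mul_of_nonneg_right hκ1g (by positivity)
      _ ≤ (1 - 3 * e / 8) * (1 + 3 * e / 32) := by
          refine mul_le_mul_of_nonneg_left ?_ (by linarith)
          nlinarith
      _ ≤ 1 - 9 * e / 32 := by nlinarith
  linarith

theorem no_cov {x w y D n B s : ℕ} {R S : Finset ℕ} {a : Ch R} {κ e η κ1 ε σ β c l LD θ A CI δ0 ηS : ℝ}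
    (hR : ∀ p ∈ R, p.Prime ∧ p ≤ x) (hy : 0 < y) (hw2 : 2 ≤ w) (hwx : w ≤ x)
    (hUD : UD y w D R (6 * θ) a) (hD : D = ⌊Real.exp LD⌋₊) (hcov : Cov x y R a)
    (hκ : 1 / 2 ≤ κ) (hκ1 : κ < 1) (he : 0 < e) (he1 : κ + e ≤ 1) (heε : 2 * e ≤ ε / 4)
    (hη : 0 < η) (hηe : η ≤ e ^ 2 / 256) (hκ1e : κ1 = κ + e / 8)
    (hn : 1 ≤ n) (hne : 32 * (1 + 1 / e) ≤ e * n) (hB : 2 * n * (κ + e / 2) ≤ B)
    (hB1 : (B : ℝ) ≤ 2 * n * (κ + e)) (hl : l = Real.log x) (hβ : β = 2 * κ + ε) (hε : 0 < ε)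
    (hσ0 : 0 < σ) (hσ : σ ≤ ε / 4)
    (hLD : LD = β * l - σ * l) (hlw : c * l ≤ Real.log w) (hc0 : 0 < c) (hcs : c * (8 * s) = σ)
    (hs : 1 ≤ s) (hxw : (x : ℝ) ^ c ≤ w) (hA : 0 ≤ A) (hdim : Dim x R S κ A c)
    (hAl : A + 1 ≤ c * Real.log (1 + η) * l) (hθ : θ * (s : ℝ) ^ 2 = δ0)
    (hCI : CI = 8 * β / σ + 1) (hδ0 : δ0 * (768 * CI ^ 2) = e) (hθ0 : 0 < θ)
    (hηS : ηS * (32 * (1 + 4 / ε)) = e) (hS : ∑ p ∈ S, 1 / (p : ℝ) ≤ ηS) : False := by
  have hn0 : (0 : ℝ) < n := by exact_mod_cast hn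
  have hs' : (1 : ℝ) ≤ s := by exact_mod_cast hs
  have hw1 : (1 : ℝ) < w := by exact_mod_cast (by omega : 1 < w)
  have hlw0 : 0 < Real.log w := Real.log_pos hw1
  have hwx' : (w : ℝ) ≤ x := by exact_mod_cast hwx
  have hlwl : Real.log w ≤ l := by rw [hl]; exact Real.log_le_log (by linarith) hwx'
  have hl0 : 0 < l := by linarith
  have he2 : e ≤ 1 / 2 := by linarith
  have hinve : 0 < 1 / e := by positivity
  have hne1 : 32 ≤ e * n := by linarith
  have hB2 : (B : ℝ) ≤ 2 * n := by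
    have : 2 * (n : ℝ) * (κ + e) ≤ 2 * n * 1 := mul_le_mul_of_nonneg_left he1 (by positivity)
    linarith
  have hnB : e * n ≤ (B : ℝ) - n := by
    have h1 : (n : ℝ) * 1 ≤ n * (2 * κ) := mul_le_mul_of_nonneg_left (by linarith) hn0.le
    have h2 : 2 * (n : ℝ) * (κ + e / 2) = n * (2 * κ) + e * n := by ring
    linarith
  have hnB' : n < B := by
    have : (n : ℝ) < B := by linarith
    exact_mod_cast this
  have hB2' : B ≤ 2 * n := by exact_mod_cast hB2
  have hB0 : (0 : ℝ) < B := by linarith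
  have hσl : σ * l ≤ ε / 4 * l := mul_le_mul_of_nonneg_right hσ hl0.le
  have hβ1 : 1 ≤ β := by rw [hβ]; linarith
  have hβ0 : 0 < β := by linarith
  have htop : (B : ℝ) * l ≤ n * LD := by
    have h1 : (B : ℝ) * l ≤ 2 * n * (κ + e) * l := mul_le_mul_of_nonneg_right hB1 hl0.le
    have h2 : n * (3 * ε / 4 * l) ≤ n * (ε * l - σ * l) := by
      refine mul_le_mul_of_nonneg_left ?_ hn0.le
      linarith
    have h3 : 2 * (n : ℝ) * (κ + e) * l = n * (2 * κ * l) + n * l * (2 * e) := by ring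
    have h4 : n * l * (2 * e) ≤ n * l * (ε / 4) := mul_le_mul_of_nonneg_left heε (by positivity)
    have h5 : (n : ℝ) * LD = n * (2 * κ * l) + n * (ε * l - σ * l) := by rw [hLD, hβ]; ring
    have h6 : n * (3 * ε / 4 * l) = n * l * (ε / 4) + n * l * (ε / 2) := by ring
    have h7 : 0 < n * l * (ε / 2) := by positivity
    linarith
  have hLDβ : LD ≤ β * l := by
    rw [hLD]
    have : 0 < σ * l := by positivity
    linarith
  have hLDl : l ≤ LD := by
    have h1 : (n : ℝ) * l ≤ n * LD := by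
      have : (n : ℝ) * l ≤ B * l := mul_le_mul_of_nonneg_right (by linarith) hl0.le
      linarith
    exact le_of_mul_le_mul_left h1 hn0
  set I : ℕ := ⌊(n : ℝ) * LD / Real.log w⌋₊ with hI
  have hInn : 0 ≤ (n : ℝ) * LD / Real.log w := by
    have : 0 ≤ LD := by linarith
    positivity
  have hI1 : n * LD < (I + 1) * Real.log w := by
    have := Nat.lt_floor_add_one ((n : ℝ) * LD / Real.log w)
    rw [div_lt_iff₀ hlw0] at this
    exact this
  have hBI : B ≤ I := by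
    refine Nat.le_floor ?_
    rw [le_div_iff₀ hlw0]
    refine le_trans ?_ htop
    exact mul_le_mul_of_nonneg_left hlwl hB0.le
  have hI2 : (I : ℝ) ≤ n * β / c := by
    have h1 : (I : ℝ) ≤ n * LD / Real.log w := Nat.floor_le hInn
    refine h1.trans ?_
    rw [div_le_div_iff₀ hlw0 hc0]
    calc n * LD * c ≤ n * (β * l) * c := by
          refine mul_le_mul_of_nonneg_right ?_ hc0.le
          exact mul_le_mul_of_nonneg_left hLDβ hn0.le
      _ = n * β * (c * l) := by ring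
      _ ≤ n * β * Real.log w := mul_le_mul_of_nonneg_left hlw (by positivity)
  have hI3 : ((I : ℝ) + 1) / B ≤ s * CI := by
    rw [div_le_iff₀ hB0]
    have h1 : n * β / c = s * (8 * β / σ) * n := by
      rw [← hcs]
      field_simp
    have h2 : s * (8 * β / σ) * n ≤ s * (8 * β / σ) * B := by
      refine mul_le_mul_of_nonneg_left (by linarith) (by positivity)
    have h3 : s * CI * (B : ℝ) = s * (8 * β / σ) * B + s * B := by rw [hCI]; ring
    have h4 : 1 ≤ (s : ℝ) * B := by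
      have : (1 : ℝ) ≤ B := by
        have : (1 : ℝ) ≤ n := by exact_mod_cast hn
        linarith
      nlinarith
    linarith
  have hη1 : η ≤ 1 := by nlinarith
  have hCI0 : 0 < CI := by rw [hCI]; positivity
  have hE1b : 4 * (6 * θ) * (1 + η) * (((I : ℝ) + 1) / B) ^ 2 ≤ e / 16 := by
    calc 4 * (6 * θ) * (1 + η) * (((I : ℝ) + 1) / B) ^ 2 ≤ 4 * (6 * θ) * 2 * (s * CI) ^ 2 := by
          refine mul_le_mul ?_ (pow_le_pow_left₀ (by positivity) hI3 2) (by positivity)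
            (by positivity)
          exact mul_le_mul_of_nonneg_left (by linarith) (by positivity)
      _ = 48 * (θ * (s : ℝ) ^ 2) * CI ^ 2 := by ring
      _ = 48 * δ0 * CI ^ 2 := by rw [hθ]
      _ = δ0 * (768 * CI ^ 2) / 16 := by ring
      _ = e / 16 := by rw [hδ0]
  have hE2b := E3_bound (κ := κ) (e := e) (η := η) (κ1 := κ1) (n := n) (b := B) hκ he he1 hη.le
    hηe hκ1e hn0 hne hB hB2
  have hρ1 : 1 ≤ 1 + 4 / ε := by
    have : 0 < 4 / ε := by positivity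
    linarith
  refine contra2 (x := x) (y := y) (w := w) (D := D) (n := n) (B := B) (I := I) (R := R) (S := S)
    (a := a) (κ := κ) (δ := 6 * θ) (η := η) (LD := LD) (κ1 := κ1) (ρ := fun _ => 1 + 4 / ε)
    hR hy hw2 hwx hUD (fun d hd => by rw [hD]; exact Nat.le_floor hd) hcov
    (by positivity) hη.le (by linarith) hκ1.le hn hnB' hB2' hBI hI1 ?_ ?_ (by rw [← hl]; exact htop)
    ?_ ?_ ?_ ?_
  · rw [hκ1e]
    have h1 : η * κ ≤ η * 1 := mul_le_mul_of_nonneg_left hκ1.le hη.le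
    have h2 : e ^ 2 / 256 ≤ e / 32 := by nlinarith
    linarith
  · rw [hκ1e]
    have h1 : 2 * (n : ℝ) * (κ + e / 2) = 2 * (κ * n) + e * n := by ring
    have h2 : (κ + e / 8) * (n : ℝ) = κ * n + e * n / 8 := by ring
    linarith
  · intro z Λ ρ hρ hΛ
    refine dm_of (R := R) (S := S) (A := A) (c := c) hdim hA hxw hw2 hwx (by linarith) hη.le ?_ ?_
      z Λ ρ hρ hΛ
    · have h1 : Real.log w ≤ w := by
        have := Real.log_le_sub_one_of_pos (show (0 : ℝ) < w by linarith)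
        linarith
      have h2 : 1 / (w : ℝ) ≤ 1 / Real.log w := one_div_le_one_div_of_le hlw0 h1
      have h3 : A / Real.log w + 1 / Real.log w = (A + 1) / Real.log w := by ring
      have hlη : 0 ≤ Real.log (1 + η) := Real.log_nonneg (by linarith)
      have h4 : (A + 1) / Real.log w ≤ Real.log (1 + η) := by
        rw [div_le_iff₀ hlw0]
        have h5 : Real.log (1 + η) * (c * l) ≤ Real.log (1 + η) * Real.log w :=
          mul_le_mul_of_nonneg_left hlw hlη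
        have h6 : c * Real.log (1 + η) * l = Real.log (1 + η) * (c * l) := by ring
        linarith
      linarith
    · intro p hp
      obtain ⟨h1, h2⟩ := mem_filter.1 hp
      obtain ⟨h3, h4, h5, h6⟩ := mem_qb.1 h1
      rcases h6 with h6 | h6
      · exact absurd h6 (notMem_empty p)
      · exact ⟨h3, h6, h4, h5, h2⟩
  · intro q _ _
    exact hρ1
  · intro q hq _
    show (B : ℝ) * Real.log x ≤ (1 + 4 / ε) * (n * (LD - Real.log q))
    rw [← hl]
    obtain ⟨h3, h4, _, _⟩ := mem_qb.1 hq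
    have hlq : Real.log q ≤ l := by
      rw [hl]
      exact Real.log_le_log (by exact_mod_cast h3.pos) (by exact_mod_cast h4)
    have h5 : 3 * ε / 4 * l ≤ LD - Real.log q := by
      have h6 : l * 1 ≤ l * (2 * κ) := mul_le_mul_of_nonneg_left (by linarith) hl0.le
      have h7 : LD = l * (2 * κ) + ε * l - σ * l := by rw [hLD, hβ]; ring
      linarith
    have h50 : 0 ≤ LD - Real.log q := le_trans (by positivity) h5
    calc (B : ℝ) * l ≤ 2 * n * l := mul_le_mul_of_nonneg_right hB2 hl0.le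
      _ ≤ 3 * n * l := by
          have : 0 < n * l := by positivity
          linarith
      _ = 4 / ε * (n * (3 * ε / 4 * l)) := by field_simp
      _ ≤ 4 / ε * (n * (LD - Real.log q)) := by
          refine mul_le_mul_of_nonneg_left ?_ (by positivity)
          exact mul_le_mul_of_nonneg_left h5 hn0.le
      _ ≤ (1 + 4 / ε) * (n * (LD - Real.log q)) :=
          mul_le_mul_of_nonneg_right (by linarith) (by positivity)
  · have hW : ∑ q ∈ (qb R ∅ w x).filter (fun p => p ∈ S),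
        (1 + η) * (1 + 4 / ε) ^ κ * (1 / (q : ℝ)) ≤ e / 16 := by
      have h1 : (1 + 4 / ε) ^ κ ≤ 1 + 4 / ε := by
        calc (1 + 4 / ε) ^ κ ≤ (1 + 4 / ε) ^ (1 : ℝ) :=
              Real.rpow_le_rpow_of_exponent_le hρ1 hκ1.le
          _ = _ := Real.rpow_one _
      calc ∑ q ∈ (qb R ∅ w x).filter (fun p => p ∈ S), (1 + η) * (1 + 4 / ε) ^ κ * (1 / (q : ℝ))
          ≤ ∑ q ∈ S, (1 + η) * (1 + 4 / ε) ^ κ * (1 / (q : ℝ)) := by
            refine sum_le_sum_of_subset_of_nonneg (fun q hq => (mem_filter.1 hq).2) fun q _ _ => ?_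
            positivity
        _ = (1 + η) * (1 + 4 / ε) ^ κ * ∑ q ∈ S, 1 / (q : ℝ) := by rw [mul_sum]
        _ ≤ 2 * (1 + 4 / ε) * ηS := by
            refine mul_le_mul (mul_le_mul (by linarith) h1 (by positivity) (by norm_num)) hS ?_
              (by positivity)
            exact sum_nonneg fun q _ => by positivity
        _ = ηS * (32 * (1 + 4 / ε)) / 16 := by ring
        _ = e / 16 := by rw [hηS]
    show _ + _ + ∑ q ∈ (qb R ∅ w x).filter (fun p => p ∈ S),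
        (1 + η) * (1 + 4 / ε) ^ κ * (1 / (q : ℝ)) < 1
    linarith

end HD44
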