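import Pool.Agent.HD44.Fin3

/-!
# Dimension below one: the theorem
-/

namespace HD44

open Finset YX49 RS44

open Classical in
theorem tprop (κ ε : ℝ) (hκ : 1 / 2 ≤ κ) (hκ1 : κ < 1) (hε : 0 < ε) :
    ∃ ηS : ℝ, 0 < ηS ∧ ∀ A : ℝ, 0 ≤ A →
    ∃ c : ℝ, 0 < c ∧ ∃ x0 : ℕ, ∀ x : ℕ, x0 ≤ x → ∀ R S : Finset ℕ,
      (∀ p ∈ R, p.Prime ∧ (x : ℝ) ^ c < p ∧ p ≤ x) →
      ∑ p ∈ S, 1 / (p : ℝ) ≤ ηS → Dim x R S κ A c →
      ((univ.filter fun a : Ch R => Cov x ⌊(x : ℝ) ^ (2 * κ + ε)⌋₊ R a).card : ℝ) ≤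
        Real.exp (-(x : ℝ) ^ c) * ∏ p ∈ R, (p : ℝ) := by
  set e : ℝ := min (ε / 8) ((1 - κ) / 2) with he
  have he0 : 0 < e := lt_min (by positivity) (by linarith)
  have he1 : κ + e ≤ 1 := by
    have : e ≤ (1 - κ) / 2 := min_le_right _ _
    linarith
  have heε : 2 * e ≤ ε / 4 := by
    have : e ≤ ε / 8 := min_le_left _ _
    linarith
  set ηS : ℝ := e / (32 * (1 + 4 / ε)) with hηS
  have hηS0 : 0 < ηS := by positivity
  have hηSe : ηS * (32 * (1 + 4 / ε)) = e := by rw [hηS]; field_simp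
  refine ⟨ηS, hηS0, fun A hA => ?_⟩
  set n : ℕ := ⌈32 * (1 + 1 / e) / e⌉₊ with hn
  have hinve : 0 < 1 / e := by positivity
  have hne : 32 * (1 + 1 / e) ≤ e * n := by
    have h1 : 32 * (1 + 1 / e) / e ≤ (n : ℝ) := Nat.le_ceil _
    rw [div_le_iff₀ he0] at h1
    linarith
  have hne1 : 32 ≤ e * n := by linarith
  have hn0 : (0 : ℝ) < n := by
    by_contra h
    have := mul_nonpos_of_nonneg_of_nonpos he0.le (not_lt.1 h)
    linarith
  have hn1 : 1 ≤ n := by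
    have : 0 < n := by exact_mod_cast hn0
    omega
  set B : ℕ := ⌈2 * (n : ℝ) * (κ + e / 2)⌉₊ with hB
  have hBl : 2 * n * (κ + e / 2) ≤ (B : ℝ) := Nat.le_ceil _
  have hBu : (B : ℝ) ≤ 2 * n * (κ + e) := by
    have h1 : (B : ℝ) < 2 * (n : ℝ) * (κ + e / 2) + 1 := Nat.ceil_lt_add_one (by positivity)
    have h2 : 2 * (n : ℝ) * (κ + e) = 2 * (n : ℝ) * (κ + e / 2) + e * n := by ring
    linarith
  set η : ℝ := e ^ 2 / 256 with hη
  have hη0 : 0 < η := by positivity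
  set σ : ℝ := min ε 1 / 4 with hσ
  have hm0 : 0 < min ε 1 := lt_min hε one_pos
  have hσ0 : 0 < σ := by positivity
  have hσε : σ ≤ ε / 4 := by
    have : min ε 1 ≤ ε := min_le_left _ _
    rw [hσ]
    linarith
  have hσ1 : σ ≤ 1 / 4 := by
    have : min ε 1 ≤ 1 := min_le_right _ _
    rw [hσ]
    linarith
  set β : ℝ := 2 * κ + ε with hβ
  have hβ1 : 1 ≤ β := by rw [hβ]; linarith
  have hβ0 : 0 < β := by linarith
  set CI : ℝ := 8 * β / σ + 1 with hCI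
  have hCI1 : 1 ≤ CI := by
    have : 0 ≤ 8 * β / σ := by positivity
    linarith
  set δ0 : ℝ := e / (768 * CI ^ 2) with hδ0
  have hδ00 : 0 < δ0 := by positivity
  have hδ0e : δ0 * (768 * CI ^ 2) = e := by rw [hδ0]; field_simp
  have hδ01 : δ0 ≤ 1 := by
    rw [hδ0, div_le_one (by positivity)]
    have : (1 : ℝ) ≤ CI ^ 2 := one_le_pow₀ hCI1
    linarith
  obtain ⟨s, hs1, hF0⟩ := fund2 δ0 hδ00 hδ01
  have hs' : (1 : ℝ) ≤ s := by exact_mod_cast hs1
  set θ : ℝ := δ0 / (s : ℝ) ^ 2 with hθ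
  have hθ0 : 0 < θ := by positivity
  have hθs : θ * (s : ℝ) ^ 2 = δ0 := by rw [hθ]; field_simp
  have hθ1 : θ ≤ 1 := by
    rw [hθ, div_le_one (by positivity)]
    have : (1 : ℝ) ≤ (s : ℝ) ^ 2 := one_le_pow₀ hs'
    linarith
  have hbad := bad_ud3 hs1 hθ0 hθ1 hF0
  set c : ℝ := σ / (8 * s) with hc
  have hc0 : 0 < c := by positivity
  have hcs : c * (8 * s) = σ := by rw [hc]; field_simp
  have hc1 : c ≤ 1 / 16 := by
    have : c * 8 ≤ c * (8 * s) := mul_le_mul_of_nonneg_left (by linarith) hc0.le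
    linarith
  obtain ⟨c3, hc3, hmert⟩ := mert_lower
  have hcpp := Pool.Agent.E456.cpp_nonneg
  have hlog20 : 0 < Real.log 2 := Real.log_pos (by norm_num)
  set Lr : ℝ := |Real.log (2 / c)| + (8 + Pool.Agent.E456.cpp) / Real.log 2 with hLr
  have hLr0 : 0 < Lr := by positivity
  set ε2 : ℝ := min (1 / 2) (θ / (4 * Lr)) with hε2
  have hε20 : 0 < ε2 := lt_min (by norm_num) (by positivity)
  have hε21 : ε2 ≤ 1 / 2 := min_le_left _ _
  have hε22 : ε2 ≤ θ / (4 * Lr) := min_le_right _ _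
  set K : ℝ := 5 / (θ * ε2 * c3 / 4) + 2 * β with hK
  have hK0 : 0 < K := by positivity
  have hlη : 0 < Real.log (1 + η) := Real.log_pos (by linarith)
  set U1 : ℝ := 4 / c with hU1
  set U2 : ℝ := 4 / (θ * σ) with hU2
  set U3 : ℝ := K / (2 * c ^ 2) with hU3
  set U4 : ℝ := (A + 1) / (c * Real.log (1 + η)) with hU4
  have hU10 : 0 < U1 := by positivity
  have hU20 : 0 < U2 := by positivity
  have hU30 : 0 < U3 := by positivity
  have hU40 : 0 < U4 := by positivity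
  refine ⟨c, hc0, ⌈Real.exp (U1 + U2 + U3 + U4)⌉₊ + 2, fun x hx R S hR hS hdim => ?_⟩
  have hx2 : 2 ≤ x := by omega
  have hx0 : (0 : ℝ) < x := by exact_mod_cast (by omega : 0 < x)
  set l : ℝ := Real.log x with hl
  have hUl : U1 + U2 + U3 + U4 ≤ l := by
    rw [hl, ← Real.log_exp (U1 + U2 + U3 + U4)]
    refine Real.log_le_log (Real.exp_pos _) ?_
    have h1 : Real.exp (U1 + U2 + U3 + U4) ≤ (⌈Real.exp (U1 + U2 + U3 + U4)⌉₊ : ℝ) := Nat.le_ceil _
    have h2 : ((⌈Real.exp (U1 + U2 + U3 + U4)⌉₊ : ℕ) : ℝ) ≤ (x : ℝ) := by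
      exact_mod_cast (by omega : ⌈Real.exp (U1 + U2 + U3 + U4)⌉₊ ≤ x)
    linarith
  have hl0 : 0 < l := by linarith
  have hcl : 4 ≤ c * l := by
    have h1 : U1 ≤ l := by linarith
    rw [hU1, div_le_iff₀ hc0] at h1
    linarith
  have hθσ : 4 ≤ θ * (σ * l) := by
    have h1 : U2 ≤ l := by linarith
    rw [hU2, div_le_iff₀ (by positivity)] at h1
    linarith
  have hKl : K ≤ 2 * c ^ 2 * l := by
    have h1 : U3 ≤ l := by linarith
    rw [hU3, div_le_iff₀ (by positivity)] at h1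
    linarith
  have hAl : A + 1 ≤ c * Real.log (1 + η) * l := by
    have h1 : U4 ≤ l := by linarith
    rw [hU4, div_le_iff₀ (by positivity)] at h1
    linarith
  have hpow : ∀ r : ℝ, (x : ℝ) ^ r = Real.exp (r * l) := fun r => by
    rw [Real.rpow_def_of_pos hx0, mul_comm]
  set LD : ℝ := β * l - σ * l with hLD
  have hLD0 : 0 ≤ LD := by
    have h1 : 1 * l ≤ β * l := mul_le_mul_of_nonneg_right hβ1 hl0.le
    have h2 : σ * l ≤ 1 / 4 * l := mul_le_mul_of_nonneg_right hσ1 hl0.le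
    linarith
  obtain ⟨hw2, hwx, hwz, hxw, hlw, hzy, hyD, hD0, hy0⟩ := sizes (β := β) (σ := σ) (c := c)
    (θ := θ) (LD := LD) (l := l) hx2 hs1 hl hcs hcl hc1 hβ1 hLD hLD0 hθ0 hθσ
  set w : ℕ := ⌊Real.exp (2 * (c * l))⌋₊ with hw
  set z : ℕ := ⌊Real.exp (4 * (c * l))⌋₊ with hz
  set D : ℕ := ⌊Real.exp LD⌋₊ with hD
  set y : ℕ := ⌊(x : ℝ) ^ β⌋₊ with hy
  set E : ℝ := Real.exp (2 * (c * l)) with hE
  have hEE : E * E = Real.exp (4 * (c * l)) := by
    rw [hE, ← Real.exp_add]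
    congr 1
    ring
  have hE1 : 1 ≤ E := Real.one_le_exp (by positivity)
  have hRl : ∀ p ∈ R, p.Prime ∧ Real.exp (c * Real.log x) < p ∧ p ≤ x := by
    intro p hp
    obtain ⟨h1, h2, h3⟩ := hR p hp
    rw [hpow] at h2
    exact ⟨h1, h2, h3⟩
  have hsumR := sum_R hc0 (by linarith) (by rw [← hl]; linarith) hRl
  rw [← hLr] at hsumR
  have hEK : K * l ≤ E := by
    have h1 := Real.quadratic_le_exp_of_nonneg (x := 2 * (c * l)) (by positivity)
    rw [← hE] at h1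
    have h2 : K * l ≤ 2 * c ^ 2 * l * l := mul_le_mul_of_nonneg_right hKl hl0.le
    have h3 : (2 * (c * l)) ^ 2 / 2 = 2 * c ^ 2 * l * l := by ring
    have h4 : 0 ≤ 2 * (c * l) := by positivity
    linarith
  have hKsplit : K * l = 5 / (θ * ε2 * c3 / 4) * l + 2 * β * l := by rw [hK]; ring
  have hKa : 0 ≤ 5 / (θ * ε2 * c3 / 4) * l := by positivity
  have hKb : 0 ≤ 2 * β * l := by positivity
  have hF := expo2 (E := E) (l := l) (θ := θ) (e := ε2) (c3 := c3) (LD := LD) (ε := β - 1)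
    (k := (x : ℝ) ^ c) (w := w) (z := z) (D := D) hl0 hE1 (Nat.floor_le (by linarith))
    (by rw [hEE, hz]; exact floor_half (Real.one_le_exp (by positivity)))
    (Nat.floor_le (Real.exp_pos _).le) (by
      have : 0 < σ * l := by positivity
      rw [hLD]
      linarith) hθ0 hε20 hc3
    (by linarith) (by
      have : 2 * (1 + (β - 1)) * l = 2 * β * l := by ring
      rw [this]
      linarith) (by
      rw [hpow, hE]
      refine Real.exp_le_exp.mpr ?_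
      have : 0 ≤ c * l := by positivity
      linarith)
  have hmain := hbad x y z w D R ε2 (c3 / l) (Real.exp (-(x : ℝ) ^ c))
    (fun p hp => ⟨(hR p hp).1, (hR p hp).2.2⟩) hwx (hw2.trans hwz) hwz hD0 hzy hyD hε20 hε21 (by
      have h1 : 4 * ε2 * ∑ p ∈ R, 1 / (p : ℝ) ≤ 4 * ε2 * Lr :=
        mul_le_mul_of_nonneg_left hsumR (by positivity)
      have h2 : 4 * ε2 * Lr ≤ 4 * (θ / (4 * Lr)) * Lr := by
        refine mul_le_mul_of_nonneg_right ?_ hLr0.le
        linarith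
      have h3 : 4 * (θ / (4 * Lr)) * Lr = θ := by field_simp
      linarith) (by positivity) (hmert x hx2) hF
  have hcard : ((univ.filter fun a : Ch R => Cov x y R a).card : ℝ) ≤
      ((univ.filter fun a : Ch R => ¬ UD y w D R (6 * θ) a).card : ℝ) := by
    refine Nat.cast_le.2 (card_le_card fun a ha => ?_)
    refine mem_filter.2 ⟨mem_univ _, fun hUD => ?_⟩
    exact no_cov (x := x) (w := w) (y := y) (D := D) (n := n) (B := B) (s := s) (R := R) (S := S)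
      (a := a) (κ := κ) (e := e) (η := η) (κ1 := κ + e / 8) (ε := ε) (σ := σ) (β := β) (c := c)
      (l := l) (LD := LD) (θ := θ) (A := A) (CI := CI) (δ0 := δ0) (ηS := ηS)
      (fun p hp => ⟨(hR p hp).1, (hR p hp).2.2⟩) hy0 hw2 hwx hUD hD (mem_filter.1 ha).2 hκ hκ1 he0
      he1 heε hη0 le_rfl rfl hn1 hne hBl hBu hl hβ hε hσ0 hσε hLD hlw hc0 hcs hs1 hxw hA hdim hAl
      hθs hCI hδ0e hθ0 hηSe hS
  calc ((univ.filter fun a : Ch R => Cov x y R a).card : ℝ) ≤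
        ((univ.filter fun a : Ch R => ¬ UD y w D R (6 * θ) a).card : ℝ) := hcard
    _ ≤ (∏ p ∈ R, (p : ℝ)) * Real.exp (-(x : ℝ) ^ c) := hmain
    _ = _ := mul_comm _ _

end HD44
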