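import Pool.Agent.HD44.Fin3
import Pool.Agent.HD44.Fund3
import Pool.Agent.HD44.Contra3

/-!
# An adversary of dimension at most one among the small primes: the theorem
-/

namespace HD44

open Finset YX49 RS44

/-- the sizes of all parameters -/
theorem sizes2 {x s : ℕ} {β σ c θ LD l : ℝ} (hx : 2 ≤ x) (hs : 1 ≤ s) (hl : l = Real.log x)
    (hc : c * (8 * s) = σ) (hcl : 4 ≤ c * l) (hc1 : c ≤ 1 / 16) (hβ : 0 < β)
    (hLD : LD = β * l - σ * l) (hLD0 : 0 ≤ LD) (hθ : 0 < θ) (hθσ : 4 ≤ θ * (σ * l)) :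
    2 ≤ ⌊Real.exp (2 * (c * l))⌋₊ ∧ ⌊Real.exp (2 * (c * l))⌋₊ ≤ x ∧
    ⌊Real.exp (2 * (c * l))⌋₊ ≤ ⌊Real.exp (4 * (c * l))⌋₊ ∧
    (x : ℝ) ^ c ≤ ⌊Real.exp (2 * (c * l))⌋₊ ∧ c * l ≤ Real.log ⌊Real.exp (2 * (c * l))⌋₊ ∧
    ⌊Real.exp (4 * (c * l))⌋₊ ^ s * ⌊Real.exp LD⌋₊ ≤ ⌊(x : ℝ) ^ β⌋₊ ∧
    2 / θ ≤ (⌊(x : ℝ) ^ β⌋₊ : ℝ) / ⌊Real.exp LD⌋₊ ∧ 0 < ⌊Real.exp LD⌋₊ ∧ 0 < ⌊(x : ℝ) ^ β⌋₊ := by
  have hx0 : (0 : ℝ) < x := by exact_mod_cast (by omega : 0 < x)
  have hs' : (1 : ℝ) ≤ s := by exact_mod_cast hs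
  have hexpl : Real.exp l = x := by rw [hl]; exact Real.exp_log hx0
  have hl0 : 0 < l := by rw [hl]; exact Real.log_pos (by exact_mod_cast (by omega : 1 < x))
  have hpow : ∀ r : ℝ, (x : ℝ) ^ r = Real.exp (r * l) := fun r => by
    rw [Real.rpow_def_of_pos hx0, mul_comm, hl]
  have hlog21 : Real.log 2 ≤ 1 := by
    have := Real.log_two_lt_d9
    linarith
  have hc0 : 0 < c := by
    by_contra h
    have := mul_nonpos_of_nonpos_of_nonneg (not_lt.1 h) hl0.le
    linarith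
  have hσl : σ * l = c * l * (8 * s) := by rw [← hc]; ring
  have hσl1 : 32 ≤ σ * l := by
    rw [hσl]
    have h1 : c * l * 8 ≤ c * l * (8 * s) := mul_le_mul_of_nonneg_left (by linarith) (by positivity)
    linarith
  set E : ℝ := Real.exp (2 * (c * l)) with hE
  have hE1 : 1 ≤ E := Real.one_le_exp (by positivity)
  have hE8 : 8 ≤ E := by
    have := Real.add_one_le_exp (2 * (c * l))
    linarith
  have hEE : E * E = Real.exp (4 * (c * l)) := by
    rw [hE, ← Real.exp_add]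
    congr 1
    ring
  have hwE : (⌊E⌋₊ : ℝ) ≤ E := Nat.floor_le (by linarith)
  have hwE2 : E / 2 ≤ (⌊E⌋₊ : ℝ) := floor_half hE1
  have hDle : (⌊Real.exp LD⌋₊ : ℝ) ≤ Real.exp LD := Nat.floor_le (Real.exp_pos _).le
  have hD0 : 0 < ⌊Real.exp LD⌋₊ := Nat.floor_pos.2 (Real.one_le_exp hLD0)
  have hD0' : (0 : ℝ) < (⌊Real.exp LD⌋₊ : ℝ) := by exact_mod_cast hD0
  have hy1 : Real.exp (β * l) / 2 ≤ (⌊(x : ℝ) ^ β⌋₊ : ℝ) := by
    rw [hpow]
    exact floor_half (Real.one_le_exp (by positivity))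
  have hexpy : 0 < Real.exp (β * l) := Real.exp_pos _
  have hzE2 : (⌊Real.exp (4 * (c * l))⌋₊ : ℝ) ≤ Real.exp (4 * (c * l)) :=
    Nat.floor_le (Real.exp_pos _).le
  refine ⟨?_, ?_, ?_, ?_, ?_, ?_, ?_, hD0, ?_⟩
  · have : (2 : ℝ) ≤ (⌊E⌋₊ : ℝ) := by linarith
    exact_mod_cast this
  · have h1 : E ≤ x := by
      rw [← hexpl]
      refine Real.exp_le_exp.mpr ?_
      have : c * l ≤ 1 / 16 * l := mul_le_mul_of_nonneg_right hc1 hl0.le
      linarith
    have : (⌊E⌋₊ : ℝ) ≤ x := hwE.trans h1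
    exact_mod_cast this
  · rw [← hEE]
    exact Nat.floor_mono (by nlinarith)
  · rw [hpow]
    refine le_trans ?_ hwE2
    have h3 := Real.add_one_le_exp (c * l)
    have h4 : E = Real.exp (c * l) * Real.exp (c * l) := by
      rw [hE, ← Real.exp_add]
      congr 1
      ring
    rw [h4]
    have h5 := Real.exp_pos (c * l)
    have h6 : 2 * Real.exp (c * l) ≤ Real.exp (c * l) * Real.exp (c * l) :=
      mul_le_mul_of_nonneg_right (by linarith) h5.le
    linarith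
  · have h1 := log_floor_exp (t := 2 * (c * l)) (by positivity)
    rw [← hE] at h1
    linarith
  · have hzs : (⌊Real.exp (4 * (c * l))⌋₊ : ℝ) ^ s ≤ Real.exp (σ * l / 2) := by
      calc (⌊Real.exp (4 * (c * l))⌋₊ : ℝ) ^ s ≤ Real.exp (4 * (c * l)) ^ s :=
            pow_le_pow_left₀ (by positivity) hzE2 _
        _ = Real.exp (σ * l / 2) := by
            rw [← Real.exp_nat_mul]
            congr 1
            rw [hσl]
            ring
    have h1 : (⌊Real.exp (4 * (c * l))⌋₊ : ℝ) ^ s * ⌊Real.exp LD⌋₊ ≤ (⌊(x : ℝ) ^ β⌋₊ : ℝ) := by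
      refine le_trans (mul_le_mul hzs hDle (by positivity) (Real.exp_pos _).le) ?_
      refine le_trans ?_ hy1
      rw [le_div_iff₀ (by norm_num)]
      have h2 : Real.exp (σ * l / 2) * Real.exp LD * Real.exp (σ * l / 2) =
          Real.exp (β * l) := by
        rw [← Real.exp_add, ← Real.exp_add]
        congr 1
        rw [hLD]
        ring
      rw [← h2]
      refine mul_le_mul_of_nonneg_left ?_ (by positivity)
      have := Real.add_one_le_exp (σ * l / 2)
      linarith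
    exact_mod_cast h1
  · have h1 : Real.exp (σ * l) / 2 ≤ (⌊(x : ℝ) ^ β⌋₊ : ℝ) / ⌊Real.exp LD⌋₊ := by
      rw [le_div_iff₀ hD0']
      calc Real.exp (σ * l) / 2 * ⌊Real.exp LD⌋₊ ≤ Real.exp (σ * l) / 2 * Real.exp LD :=
            mul_le_mul_of_nonneg_left hDle (by positivity)
        _ = Real.exp (β * l) / 2 := by
            rw [div_mul_eq_mul_div, ← Real.exp_add]
            congr 2
            rw [hLD]
            ring
        _ ≤ _ := hy1
    refine le_trans ?_ h1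
    rw [div_le_div_iff₀ hθ (by norm_num)]
    have h2 := Real.add_one_le_exp (σ * l)
    have h3 : θ * (σ * l) ≤ θ * Real.exp (σ * l) :=
      mul_le_mul_of_nonneg_left (by linarith) hθ.le
    linarith
  · have : (0 : ℝ) < (⌊(x : ℝ) ^ β⌋₊ : ℝ) := by linarith
    exact_mod_cast this

theorem no_cov3 {x w y D n B s : ℕ} {R S : Finset ℕ} {a : Ch R}
    {κ α β β1 γ η τ σ c l LD θ A CI δ0 η0 lam : ℝ}
    (hR : ∀ p ∈ R, p.Prime ∧ p ≤ x) (hy : 0 < y) (hw2 : 2 ≤ w) (hwx : w ≤ x)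
    (hUD : UD y w D R (6 * θ) a) (hD : D = ⌊Real.exp LD⌋₊) (hcov : Cov x y R a)
    (hκ : 0 ≤ κ) (hκ1 : κ ≤ 1) (hα : 0 < α) (hαγ : α ≤ γ) (hβ1 : β1 < β)
    (hSx : ∀ p ∈ S, (p : ℝ) ≤ (x : ℝ) ^ β1)
    (h2κ : 2 * κ * α < γ) (hη : 0 < η) (hητ : η ≤ τ) (hτ0 : 0 < τ)
    (hn : 1 ≤ n) (hnB : n < B) (hB : (B : ℝ) ≤ γ / α * (1 + τ) * n)
    (hgap : GapAt κ n B η (κ / (γ / α - κ) + τ)) (hl : l = Real.log x)
    (hσ0 : 0 < σ) (hσβ : σ < β - β1) (hσγ : γ * (1 + τ) + σ ≤ β)
    (hLD : LD = β * l - σ * l) (hlw : c * l ≤ Real.log w) (hlwα : Real.log w ≤ α * l) (hc0 : 0 < c)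
    (hcs : c * (8 * s) = σ) (hs : 1 ≤ s) (hxw : (x : ℝ) ^ c ≤ w) (hA : 0 ≤ A)
    (hdim : Dim x R S κ A c) (hAl : A + 1 ≤ c * Real.log (1 + η) * l)
    (hθ : θ * (s : ℝ) ^ 3 = δ0) (hCI : CI = 8 * β / σ + 1) (hδ0 : δ0 * (384 * CI ^ 3) = η0)
    (hθ0 : 0 < θ) (hη0 : 0 < η0) (hτη : 8 * τ ≤ η0)
    (hlam1 : 1 ≤ lam) (hlam : lam * (1 - σ / (β - β1)) = 1 + τ) (hlam2 : (1 + τ) * lam ≤ 1 + η0 / 2)
    (hαS : ∀ p : ℕ, p.Prime → (x : ℝ) ^ α < p → p ≤ x → p ∈ R ∨ p ∈ S)
    (hS : ∑ p ∈ S, (max 1 (γ * l / (β * l - Real.log p))) ^ κ * (1 / (p : ℝ)) ≤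
      (γ - 2 * κ * α) / (γ - κ * α) - η0) : False := by
  have hn0 : (0 : ℝ) < n := by exact_mod_cast hn
  have hn1 : (1 : ℝ) ≤ n := by exact_mod_cast hn
  have hs' : (1 : ℝ) ≤ s := by exact_mod_cast hs
  have hw1 : (1 : ℝ) < w := by exact_mod_cast (by omega : 1 < w)
  have hlw0 : 0 < Real.log w := Real.log_pos hw1
  have hwx' : (w : ℝ) ≤ x := by exact_mod_cast hwx
  have hx0 : (0 : ℝ) < x := by linarith
  have hlwl : Real.log w ≤ l := by rw [hl]; exact Real.log_le_log (by linarith) hwx'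
  have hl0 : 0 < l := by linarith
  have hγ0 : 0 < γ := by linarith
  have hγτ : 0 < γ * (1 + τ) := by positivity
  have hβ0 : 0 < β := by linarith
  have hB0 : (0 : ℝ) < B := by exact_mod_cast (by omega : 0 < B)
  have hσl : 0 < σ * l := by positivity
  have htop : (B : ℝ) * (α * l) ≤ n * LD := by
    have h1 : (B : ℝ) * (α * l) ≤ γ / α * (1 + τ) * n * (α * l) :=
      mul_le_mul_of_nonneg_right hB (by positivity)
    have h2 : γ / α * (1 + τ) * n * (α * l) = n * l * (γ * (1 + τ)) := by field_simp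
    have h3 : n * l * (γ * (1 + τ)) ≤ n * l * (β - σ) :=
      mul_le_mul_of_nonneg_left (by linarith) (by positivity)
    have h4 : n * l * (β - σ) = n * LD := by rw [hLD]; ring
    linarith
  have hLDβ : LD ≤ β * l := by
    rw [hLD]
    linarith
  have hLD0 : 0 ≤ LD := by
    have h1 : 0 ≤ (β - σ) * l := mul_nonneg (by linarith) hl0.le
    have h2 : LD = (β - σ) * l := by rw [hLD]; ring
    linarith
  set I : ℕ := ⌊(n : ℝ) * LD / Real.log w⌋₊ with hI
  have hInn : 0 ≤ (n : ℝ) * LD / Real.log w := by positivity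
  have hI1 : n * LD < (I + 1) * Real.log w := by
    have := Nat.lt_floor_add_one ((n : ℝ) * LD / Real.log w)
    rw [div_lt_iff₀ hlw0] at this
    exact this
  have hBI : B ≤ I := by
    refine Nat.le_floor ?_
    rw [le_div_iff₀ hlw0]
    refine le_trans ?_ htop
    exact mul_le_mul_of_nonneg_left hlwα hB0.le
  have hlS : ∀ q ∈ qb R ∅ w x, q ∈ S → Real.log q ≤ β1 * l := by
    intro q hq hqS
    have h3 := (mem_qb.1 hq).1
    have h4 := Real.log_le_log (by exact_mod_cast h3.pos) (hSx q hqS)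
    rwa [Real.log_rpow hx0, ← hl] at h4
  have hI2 : (I : ℝ) ≤ n * β / c := by
    have h1 : (I : ℝ) ≤ n * LD / Real.log w := Nat.floor_le hInn
    refine h1.trans ?_
    rw [div_le_div_iff₀ hlw0 hc0]
    calc n * LD * c ≤ n * (β * l) * c := by
          refine mul_le_mul_of_nonneg_right ?_ hc0.le
          exact mul_le_mul_of_nonneg_left hLDβ hn0.le
      _ = n * β * (c * l) := by ring
      _ ≤ n * β * Real.log w := mul_le_mul_of_nonneg_left hlw (by positivity)
  have hI3 : ((I : ℝ) + 1) / n ≤ s * CI := by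
    rw [div_le_iff₀ hn0]
    have h1 : n * β / c = s * (8 * β / σ) * n := by
      rw [← hcs]
      field_simp
    have h3 : s * CI * (n : ℝ) = s * (8 * β / σ) * n + s * n := by rw [hCI]; ring
    have h4 : 1 ≤ (s : ℝ) * n := one_le_mul_of_one_le_of_one_le hs' hn1
    linarith
  have hCI0 : 0 < CI := by rw [hCI]; positivity
  have hE1b : 8 * (6 * θ) * (((I : ℝ) + 1) / n) ^ 3 ≤ η0 / 8 := by
    calc 8 * (6 * θ) * (((I : ℝ) + 1) / n) ^ 3 ≤ 8 * (6 * θ) * (s * CI) ^ 3 := by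
          refine mul_le_mul_of_nonneg_left ?_ (by positivity)
          exact pow_le_pow_left₀ (by positivity) hI3 3
      _ = 48 * (θ * (s : ℝ) ^ 3) * CI ^ 3 := by ring
      _ = 48 * δ0 * CI ^ 3 := by rw [hθ]
      _ = δ0 * (384 * CI ^ 3) / 8 := by ring
      _ = η0 / 8 := by rw [hδ0]
  have hκα : 0 < γ - κ * α := by
    have : 0 ≤ κ * α := by positivity
    linarith
  set T : ℝ := (γ - 2 * κ * α) / (γ - κ * α) with hT
  have hT1 : T ≤ 1 := by
    rw [hT, div_le_one hκα]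
    have : 0 ≤ κ * α := by positivity
    linarith
  have hgT : κ / (γ / α - κ) = 1 - T := by
    have h1 : γ / α - κ = (γ - κ * α) / α := by field_simp
    rw [h1, hT, eq_sub_iff_add_eq, div_div_eq_mul_div, ← add_div]
    rw [div_eq_one_iff_eq hκα.ne']
    ring
  -- the primes of the adversary are below `x ^ α`
  have hΛ : ∀ p ∈ qb R ∅ w x, p ∉ S → Real.log p ≤ α * l := by
    intro p hp hpS
    obtain ⟨h3, h4, h5, _⟩ := mem_qb.1 hp
    have hp0 : (0 : ℝ) < p := by exact_mod_cast h3.pos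
    by_contra hcon
    have h7 : (x : ℝ) ^ α < p := by
      rw [Real.rpow_def_of_pos hx0, ← Real.exp_log hp0, ← hl]
      refine Real.exp_lt_exp.mpr ?_
      have := not_le.1 hcon
      linarith
    rcases hαS p h3 h7 h4 with h6 | h6
    · exact h5 h6
    · exact hpS h6
  have hmax0 : ∀ p : ℕ, 0 ≤ (max 1 (γ * l / (β * l - Real.log p))) ^ κ * (1 / (p : ℝ)) := fun p => by
    have : (0 : ℝ) ≤ max 1 (γ * l / (β * l - Real.log p)) := zero_le_one.trans (le_max_left _ _)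
    positivity
  have hSnn : 0 ≤ T - η0 := le_trans (sum_nonneg fun p _ => hmax0 p) hS
  refine contra3 (x := x) (y := y) (w := w) (D := D) (n := n) (B := B) (I := I) (R := R) (S := S)
    (a := a) (κ := κ) (δ := 6 * θ) (η := η) (LD := LD) (g := κ / (γ / α - κ) + τ) (Λ := α * l)
    (ρ := fun q => lam * max 1 (γ * l / (β * l - Real.log q)))
    hR hy hw2 hwx hUD (fun d hd => by rw [hD]; exact Nat.le_floor hd) hcov
    (by positivity) hη.le hκ hn hnB hBI hI1 hgap hLD0 (fun q hq hqS => (hlS q hq hqS).trans (by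
      have h1 : β1 * l ≤ (β - σ) * l := mul_le_mul_of_nonneg_right (by linarith) hl0.le
      have h2 : LD = (β - σ) * l := by rw [hLD]; ring
      linarith)) hΛ htop
    ?_ ?_ ?_ ?_
  · intro z Λ ρ hρ hΛ'
    refine dm_of (R := R) (S := S) (A := A) (c := c) hdim hA hxw hw2 hwx hκ hη.le ?_ ?_
      z Λ ρ hρ hΛ'
    · have h1 : Real.log w ≤ w := by
        have := Real.log_le_sub_one_of_pos (show (0 : ℝ) < w by linarith)
        linarith
      have h2 : 1 / (w : ℝ) ≤ 1 / Real.log w := one_div_le_one_div_of_le hlw0 h1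
      have h3 : A / Real.log w + 1 / Real.log w = (A + 1) / Real.log w := by ring
      have hlη : 0 ≤ Real.log (1 + η) := Real.log_nonneg (by linarith)
      have h4 : (A + 1) / Real.log w ≤ Real.log (1 + η) := by
        rw [div_le_iff₀ hlw0]
        have h5 : Real.log (1 + η) * (c * l) ≤ Real.log (1 + η) * Real.log w :=
          mul_le_mul_of_nonneg_left hlw hlη
        have h6 : c * Real.log (1 + η) * l = Real.log (1 + η) * (c * l) := by ring
        linarith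
      linarith
    · intro p hp
      obtain ⟨h1, h2⟩ := mem_filter.1 hp
      obtain ⟨h3, h4, h5, h6⟩ := mem_qb.1 h1
      rcases h6 with h6 | h6
      · exact absurd h6 (notMem_empty p)
      · exact ⟨h3, h6, h4, h5, h2⟩
  · intro q _ _
    exact one_le_mul_of_one_le_of_one_le hlam1 (le_max_left _ _)
  · intro q hq hqS
    show (B : ℝ) * (α * l) ≤ lam * max 1 (γ * l / (β * l - Real.log q)) * (n * (LD - Real.log q))
    have hlq := hlS q hq hqS
    set t : ℝ := β * l - Real.log q with ht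
    have ht1 : (β - β1) * l ≤ t := by
      have : (β - β1) * l = β * l - β1 * l := by ring
      linarith
    have hβl : 0 < (β - β1) * l := by
      have : 0 < β - β1 := by linarith
      positivity
    have ht0 : 0 < t := by linarith
    have hσt : σ * l ≤ σ / (β - β1) * t := by
      have h5 : σ * l = σ / (β - β1) * ((β - β1) * l) := by
        have : β - β1 ≠ 0 := by linarith
        field_simp
      rw [h5]
      refine mul_le_mul_of_nonneg_left ht1 ?_
      exact div_nonneg hσ0.le (by linarith)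
    have hLDt : (1 - σ / (β - β1)) * t ≤ LD - Real.log q := by
      have h5 : LD - Real.log q = t - σ * l := by rw [hLD, ht]; ring
      have h6 : (1 - σ / (β - β1)) * t = t - σ / (β - β1) * t := by ring
      linarith
    have hu0 : 0 ≤ 1 - σ / (β - β1) := by
      rw [sub_nonneg, div_le_one (by linarith)]
      exact hσβ.le
    calc (B : ℝ) * (α * l) ≤ γ / α * (1 + τ) * n * (α * l) :=
          mul_le_mul_of_nonneg_right hB (by positivity)
      _ = n * (γ * l * (1 + τ)) := by field_simp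
      _ = lam * (γ * l / t) * (n * ((1 - σ / (β - β1)) * t)) := by
          rw [← hlam]
          field_simp
      _ ≤ lam * (γ * l / t) * (n * (LD - Real.log q)) := by
          refine mul_le_mul_of_nonneg_left ?_ (by positivity)
          exact mul_le_mul_of_nonneg_left hLDt hn0.le
      _ ≤ _ := by
          refine mul_le_mul_of_nonneg_right ?_ ?_
          · exact mul_le_mul_of_nonneg_left (le_max_right _ _) (by linarith)
          · refine mul_nonneg hn0.le (le_trans ?_ hLDt)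
            exact mul_nonneg hu0 ht0.le
  · have hW : ∑ q ∈ (qb R ∅ w x).filter (fun p => p ∈ S),
        (1 + η) * (lam * max 1 (γ * l / (β * l - Real.log q))) ^ κ * (1 / (q : ℝ)) ≤ T - η0 / 2 := by
      have hpt : ∀ q : ℕ, (1 + η) * (lam * max 1 (γ * l / (β * l - Real.log q))) ^ κ * (1 / (q : ℝ)) ≤
          (1 + τ) * lam * ((max 1 (γ * l / (β * l - Real.log q))) ^ κ * (1 / (q : ℝ))) := by
        intro q
        have hm : (0 : ℝ) ≤ max 1 (γ * l / (β * l - Real.log q)) :=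
          zero_le_one.trans (le_max_left _ _)
        have h1 : lam ^ κ ≤ lam := by
          calc lam ^ κ ≤ lam ^ (1 : ℝ) := Real.rpow_le_rpow_of_exponent_le hlam1 hκ1
            _ = lam := Real.rpow_one _
        rw [Real.mul_rpow (by linarith) hm]
        have h2 : (1 + η) * lam ^ κ ≤ (1 + τ) * lam :=
          mul_le_mul (by linarith) h1 (by positivity) (by linarith)
        calc (1 + η) * (lam ^ κ * (max 1 (γ * l / (β * l - Real.log q))) ^ κ) * (1 / (q : ℝ)) =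
              (1 + η) * lam ^ κ * ((max 1 (γ * l / (β * l - Real.log q))) ^ κ * (1 / (q : ℝ))) := by
              ring
          _ ≤ _ := mul_le_mul_of_nonneg_right h2 (hmax0 q)
      calc ∑ q ∈ (qb R ∅ w x).filter (fun p => p ∈ S),
          (1 + η) * (lam * max 1 (γ * l / (β * l - Real.log q))) ^ κ * (1 / (q : ℝ))
          ≤ ∑ q ∈ (qb R ∅ w x).filter (fun p => p ∈ S),
            (1 + τ) * lam * ((max 1 (γ * l / (β * l - Real.log q))) ^ κ * (1 / (q : ℝ))) :=
            sum_le_sum fun q _ => hpt q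
        _ ≤ ∑ q ∈ S, (1 + τ) * lam * ((max 1 (γ * l / (β * l - Real.log q))) ^ κ * (1 / (q : ℝ))) := by
            refine sum_le_sum_of_subset_of_nonneg (fun q hq => (mem_filter.1 hq).2) fun q _ _ => ?_
            exact mul_nonneg (by positivity) (hmax0 q)
        _ = (1 + τ) * lam * ∑ q ∈ S, ((max 1 (γ * l / (β * l - Real.log q))) ^ κ * (1 / (q : ℝ))) := by
            rw [mul_sum]
        _ ≤ (1 + η0 / 2) * (T - η0) := by
            refine mul_le_mul hlam2 hS (sum_nonneg fun p _ => hmax0 p) (by linarith)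
        _ ≤ T - η0 / 2 := by nlinarith
    show _ + _ + ∑ q ∈ (qb R ∅ w x).filter (fun p => p ∈ S),
        (1 + η) * (lam * max 1 (γ * l / (β * l - Real.log q))) ^ κ * (1 / (q : ℝ)) < 1
    rw [hgT]
    linarith

open Classical in
theorem tmaster (κ α β γ ζ A : ℝ) (hκ : 0 ≤ κ) (hκ1 : κ ≤ 1) (hα : 0 < α) (hαγ : α ≤ γ)
    (hγβ : γ < β) (h2κ : 2 * κ * α < γ) (hζ : 0 < ζ) (hA : 0 ≤ A) :
    ∃ c : ℝ, 0 < c ∧ ∃ x0 : ℕ, ∀ x : ℕ, x0 ≤ x → ∀ R S : Finset ℕ,
      (∀ p ∈ R, p.Prime ∧ (x : ℝ) ^ c < p ∧ p ≤ x) →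
      (∀ p ∈ S, (p : ℝ) ≤ (x : ℝ) ^ (β - ζ)) →
      (∀ p : ℕ, p.Prime → (x : ℝ) ^ α < p → p ≤ x → p ∈ R ∨ p ∈ S) →
      ∑ p ∈ S, (max 1 (γ * Real.log x / (β * Real.log x - Real.log p))) ^ κ * (1 / (p : ℝ)) ≤
        (γ - 2 * κ * α) / (γ - κ * α) - ζ →
      Dim x R S κ A c →
      ((univ.filter fun a : Ch R => Cov x ⌊(x : ℝ) ^ β⌋₊ R a).card : ℝ) ≤
        Real.exp (-(x : ℝ) ^ c) * ∏ p ∈ R, (p : ℝ) := by
  have hγ0 : 0 < γ := by linarith
  have hβ0 : 0 < β := by linarith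
  set η0 : ℝ := min ζ 1 with hη0d
  have hη0 : 0 < η0 := lt_min hζ one_pos
  have hη01 : η0 ≤ 1 := min_le_right _ _
  have hη0ζ : η0 ≤ ζ := min_le_left _ _
  set τ : ℝ := min (η0 / 16) ((β - γ) / (2 * γ)) with hτd
  have hτ0 : 0 < τ := lt_min (by positivity) (div_pos (by linarith) (by positivity))
  have hτη : 16 * τ ≤ η0 := by
    have : τ ≤ η0 / 16 := min_le_left _ _
    linarith
  have hτγ : γ * τ ≤ (β - γ) / 2 := by
    have h1 : τ ≤ (β - γ) / (2 * γ) := min_le_right _ _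
    rw [le_div_iff₀ (by positivity)] at h1
    linarith
  have hτ1 : τ ≤ 1 := by linarith
  set σ : ℝ := min (min (ζ * η0 / 16) ((β - γ) / 2)) (min α (1 / 2)) with hσd
  have hσ0 : 0 < σ := lt_min (lt_min (by positivity) (by linarith)) (lt_min hα (by norm_num))
  have hσβ : σ ≤ ζ * η0 / 16 := (min_le_left _ _).trans (min_le_left _ _)
  have hσγ : σ ≤ (β - γ) / 2 := (min_le_left _ _).trans (min_le_right _ _)
  have hσα : σ ≤ α := (min_le_right _ _).trans (min_le_left _ _)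
  have hσ1 : σ ≤ 1 / 2 := (min_le_right _ _).trans (min_le_right _ _)
  set u : ℝ := σ / ζ with hu
  have hu0 : 0 < u := by positivity
  have hu1 : u ≤ η0 / 16 := by
    rw [hu, div_le_iff₀ hζ]
    linarith
  set lam : ℝ := (1 + τ) / (1 - u) with hlamd
  have h1u : 0 < 1 - u := by linarith
  have hlamu : lam * (1 - u) = 1 + τ := by rw [hlamd]; field_simp
  have hlam1 : 1 ≤ lam := by
    rw [hlamd, le_div_iff₀ h1u]
    linarith
  have hlam2 : (1 + τ) * lam ≤ 1 + η0 / 2 := by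
    rw [hlamd, ← mul_div_assoc, div_le_iff₀ h1u]
    have h1 : (1 + τ) * (1 + τ) ≤ (1 + η0 / 16) * (1 + η0 / 16) :=
      mul_le_mul (by linarith) (by linarith) (by linarith) (by linarith)
    have h2 : (1 + η0 / 2) * (1 - η0 / 16) ≤ (1 + η0 / 2) * (1 - u) :=
      mul_le_mul_of_nonneg_left (by linarith) (by linarith)
    have h3 : (1 + η0 / 16) * (1 + η0 / 16) ≤ (1 + η0 / 2) * (1 - η0 / 16) := by nlinarith
    linarith
  obtain ⟨n, B, η, hn1, hnB, hBs, hηpos, hητ, hgap⟩ := gapOK' (κ := κ) (s := γ / α) (τ := τ) hκ hκ1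
    (by rw [le_div_iff₀ hα]; linarith) (by rw [lt_div_iff₀ hα]; linarith) hτ0 hτ1
  set CI : ℝ := 8 * β / σ + 1 with hCI
  have hCI1 : 1 ≤ CI := by
    have : 0 ≤ 8 * β / σ := by positivity
    linarith
  set δ0 : ℝ := η0 / (384 * CI ^ 3) with hδ0
  have hδ00 : 0 < δ0 := by positivity
  have hδ0e : δ0 * (384 * CI ^ 3) = η0 := by rw [hδ0]; field_simp
  have hδ01 : δ0 ≤ 1 := by
    rw [hδ0, div_le_one (by positivity)]
    have : (1 : ℝ) ≤ CI ^ 3 := one_le_pow₀ hCI1
    linarith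
  obtain ⟨s, hs1, hF0⟩ := fund3 δ0 hδ00 hδ01
  have hs' : (1 : ℝ) ≤ s := by exact_mod_cast hs1
  set θ : ℝ := δ0 / (s : ℝ) ^ 3 with hθ
  have hθ0 : 0 < θ := by positivity
  have hθs : θ * (s : ℝ) ^ 3 = δ0 := by rw [hθ]; field_simp
  have hθ1 : θ ≤ 1 := by
    rw [hθ, div_le_one (by positivity)]
    have : (1 : ℝ) ≤ (s : ℝ) ^ 3 := one_le_pow₀ hs'
    linarith
  have hbad := bad_ud3 hs1 hθ0 hθ1 hF0
  set c : ℝ := σ / (8 * s) with hc
  have hc0 : 0 < c := by positivity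
  have hcs : c * (8 * s) = σ := by rw [hc]; field_simp
  have hcσ : c * 8 ≤ σ := by
    have : c * 8 ≤ c * (8 * s) := mul_le_mul_of_nonneg_left (by linarith) hc0.le
    linarith
  have hc1 : c ≤ 1 / 16 := by linarith
  obtain ⟨c3, hc3, hmert⟩ := mert_lower
  have hcpp := Pool.Agent.E456.cpp_nonneg
  have hlog20 : 0 < Real.log 2 := Real.log_pos (by norm_num)
  set Lr : ℝ := |Real.log (2 / c)| + (8 + Pool.Agent.E456.cpp) / Real.log 2 with hLr
  have hLr0 : 0 < Lr := by positivity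
  set ε2 : ℝ := min (1 / 2) (θ / (4 * Lr)) with hε2
  have hε20 : 0 < ε2 := lt_min (by norm_num) (by positivity)
  have hε21 : ε2 ≤ 1 / 2 := min_le_left _ _
  have hε22 : ε2 ≤ θ / (4 * Lr) := min_le_right _ _
  set K : ℝ := 5 / (θ * ε2 * c3 / 4) + 2 * β with hK
  have hK0 : 0 < K := by positivity
  have hlη : 0 < Real.log (1 + η) := Real.log_pos (by linarith)
  set U1 : ℝ := 4 / c with hU1
  set U2 : ℝ := 4 / (θ * σ) with hU2
  set U3 : ℝ := K / (2 * c ^ 2) with hU3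
  set U4 : ℝ := (A + 1) / (c * Real.log (1 + η)) with hU4
  have hU10 : 0 < U1 := by positivity
  have hU20 : 0 < U2 := by positivity
  have hU30 : 0 < U3 := by positivity
  have hU40 : 0 < U4 := by positivity
  refine ⟨c, hc0, ⌈Real.exp (U1 + U2 + U3 + U4)⌉₊ + 2, fun x hx R S hR hSx hRS hS hdim => ?_⟩
  have hx2 : 2 ≤ x := by omega
  have hx0 : (0 : ℝ) < x := by exact_mod_cast (by omega : 0 < x)
  set l : ℝ := Real.log x with hl
  have hUl : U1 + U2 + U3 + U4 ≤ l := by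
    rw [hl, ← Real.log_exp (U1 + U2 + U3 + U4)]
    refine Real.log_le_log (Real.exp_pos _) ?_
    have h1 : Real.exp (U1 + U2 + U3 + U4) ≤ (⌈Real.exp (U1 + U2 + U3 + U4)⌉₊ : ℝ) := Nat.le_ceil _
    have h2 : ((⌈Real.exp (U1 + U2 + U3 + U4)⌉₊ : ℕ) : ℝ) ≤ (x : ℝ) := by
      exact_mod_cast (by omega : ⌈Real.exp (U1 + U2 + U3 + U4)⌉₊ ≤ x)
    linarith
  have hl0 : 0 < l := by linarith
  have hcl : 4 ≤ c * l := by
    have h1 : U1 ≤ l := by linarith
    rw [hU1, div_le_iff₀ hc0] at h1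
    linarith
  have hθσ : 4 ≤ θ * (σ * l) := by
    have h1 : U2 ≤ l := by linarith
    rw [hU2, div_le_iff₀ (by positivity)] at h1
    linarith
  have hKl : K ≤ 2 * c ^ 2 * l := by
    have h1 : U3 ≤ l := by linarith
    rw [hU3, div_le_iff₀ (by positivity)] at h1
    linarith
  have hAl : A + 1 ≤ c * Real.log (1 + η) * l := by
    have h1 : U4 ≤ l := by linarith
    rw [hU4, div_le_iff₀ (by positivity)] at h1
    linarith
  have hpow : ∀ r : ℝ, (x : ℝ) ^ r = Real.exp (r * l) := fun r => by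
    rw [Real.rpow_def_of_pos hx0, mul_comm]
  set LD : ℝ := β * l - σ * l with hLD
  have hLD0 : 0 ≤ LD := by
    have h1 : σ * l ≤ β * l := mul_le_mul_of_nonneg_right (by linarith) hl0.le
    linarith
  obtain ⟨hw2, hwx, hwz, hxw, hlw, hzy, hyD, hD0, hy0⟩ := sizes2 (β := β) (σ := σ) (c := c)
    (θ := θ) (LD := LD) (l := l) hx2 hs1 hl hcs hcl hc1 hβ0 hLD hLD0 hθ0 hθσ
  have hlwα : Real.log ⌊Real.exp (2 * (c * l))⌋₊ ≤ α * l := by
    have h1 := log_floor_exp_le (t := 2 * (c * l)) (by positivity)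
    have h2 : c * l ≤ α / 8 * l := mul_le_mul_of_nonneg_right (by linarith) hl0.le
    have h3 : 0 < α * l := by positivity
    linarith
  set w : ℕ := ⌊Real.exp (2 * (c * l))⌋₊ with hw
  set z : ℕ := ⌊Real.exp (4 * (c * l))⌋₊ with hz
  set D : ℕ := ⌊Real.exp LD⌋₊ with hD
  set y : ℕ := ⌊(x : ℝ) ^ β⌋₊ with hy
  set E : ℝ := Real.exp (2 * (c * l)) with hE
  have hEE : E * E = Real.exp (4 * (c * l)) := by
    rw [hE, ← Real.exp_add]
    congr 1
    ring
  have hE1 : 1 ≤ E := Real.one_le_exp (by positivity)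
  have hRl : ∀ p ∈ R, p.Prime ∧ Real.exp (c * Real.log x) < p ∧ p ≤ x := by
    intro p hp
    obtain ⟨h1, h2, h3⟩ := hR p hp
    rw [hpow] at h2
    exact ⟨h1, h2, h3⟩
  have hsumR := sum_R hc0 (by linarith) (by rw [← hl]; linarith) hRl
  rw [← hLr] at hsumR
  have hEK : K * l ≤ E := by
    have h1 := Real.quadratic_le_exp_of_nonneg (x := 2 * (c * l)) (by positivity)
    rw [← hE] at h1
    have h2 : K * l ≤ 2 * c ^ 2 * l * l := mul_le_mul_of_nonneg_right hKl hl0.le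
    have h3 : (2 * (c * l)) ^ 2 / 2 = 2 * c ^ 2 * l * l := by ring
    have h4 : 0 ≤ 2 * (c * l) := by positivity
    linarith
  have hKsplit : K * l = 5 / (θ * ε2 * c3 / 4) * l + 2 * β * l := by rw [hK]; ring
  have hKa : 0 ≤ 5 / (θ * ε2 * c3 / 4) * l := by positivity
  have hKb : 0 ≤ 2 * β * l := by positivity
  have hF := expo2 (E := E) (l := l) (θ := θ) (e := ε2) (c3 := c3) (LD := LD) (ε := β - 1)
    (k := (x : ℝ) ^ c) (w := w) (z := z) (D := D) hl0 hE1 (Nat.floor_le (by linarith))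
    (by rw [hEE, hz]; exact floor_half (Real.one_le_exp (by positivity)))
    (Nat.floor_le (Real.exp_pos _).le) (by
      have : 0 < σ * l := by positivity
      rw [hLD]
      linarith) hθ0 hε20 hc3
    (by linarith) (by
      have : 2 * (1 + (β - 1)) * l = 2 * β * l := by ring
      rw [this]
      linarith) (by
      rw [hpow, hE]
      refine Real.exp_le_exp.mpr ?_
      have : 0 ≤ c * l := by positivity
      linarith)
  have hmain := hbad x y z w D R ε2 (c3 / l) (Real.exp (-(x : ℝ) ^ c))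
    (fun p hp => ⟨(hR p hp).1, (hR p hp).2.2⟩) hwx (hw2.trans hwz) hwz hD0 hzy hyD hε20 hε21 (by
      have h1 : 4 * ε2 * ∑ p ∈ R, 1 / (p : ℝ) ≤ 4 * ε2 * Lr :=
        mul_le_mul_of_nonneg_left hsumR (by positivity)
      have h2 : 4 * ε2 * Lr ≤ 4 * (θ / (4 * Lr)) * Lr := by
        refine mul_le_mul_of_nonneg_right ?_ hLr0.le
        linarith
      have h3 : 4 * (θ / (4 * Lr)) * Lr = θ := by field_simp
      linarith) (by positivity) (hmert x hx2) hF
  have hcard : ((univ.filter fun a : Ch R => Cov x y R a).card : ℝ) ≤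
      ((univ.filter fun a : Ch R => ¬ UD y w D R (6 * θ) a).card : ℝ) := by
    refine Nat.cast_le.2 (card_le_card fun a ha => ?_)
    refine mem_filter.2 ⟨mem_univ _, fun hUD => ?_⟩
    exact no_cov3 (x := x) (w := w) (y := y) (D := D) (n := n) (B := B) (s := s) (R := R) (S := S)
      (a := a) (κ := κ) (α := α) (β := β) (β1 := β - ζ) (γ := γ) (η := η) (τ := τ) (σ := σ) (c := c)
      (l := l) (LD := LD) (θ := θ) (A := A) (CI := CI) (δ0 := δ0) (η0 := η0) (lam := lam)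
      (fun p hp => ⟨(hR p hp).1, (hR p hp).2.2⟩) hy0 hw2 hwx hUD hD (mem_filter.1 ha).2 hκ hκ1 hα
      hαγ (by linarith) hSx h2κ hηpos hητ hτ0 hn1 hnB hBs hgap hl hσ0 (by
        have : ζ * η0 ≤ ζ * 1 := mul_le_mul_of_nonneg_left hη01 hζ.le
        linarith) (by
        have : γ * (1 + τ) = γ + γ * τ := by ring
        linarith) hLD hlw hlwα hc0 hcs hs1 hxw hA hdim hAl hθs hCI hδ0e hθ0 hη0 (by linarith)
      hlam1 (by rw [sub_sub_cancel]; exact hlamu) hlam2 hRS (hS.trans (by linarith))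
  calc ((univ.filter fun a : Ch R => Cov x y R a).card : ℝ) ≤
        ((univ.filter fun a : Ch R => ¬ UD y w D R (6 * θ) a).card : ℝ) := hcard
    _ ≤ (∏ p ∈ R, (p : ℝ)) * Real.exp (-(x : ℝ) ^ c) := hmain
    _ = _ := mul_comm _ _

end HD44
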