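import Mathlib

/-!
# The gap between the upper and the lower sieve functions, below dimension one half
-/

namespace HD44

open Finset

/-- `(i+1)^κ - i^κ ≤ κ i^{κ-1}` in the form needed -/
theorem rpow_step {κ : ℝ} (h0 : 0 ≤ κ) (h1 : κ ≤ 1) {i : ℕ} (hi : 1 ≤ i) :
    (((i : ℝ) + 1) ^ κ - (i : ℝ) ^ κ) * (i : ℝ) ^ (1 - κ) ≤ κ := by
  have hi' : (0 : ℝ) < i := by exact_mod_cast hi
  have h2 : ((i : ℝ) + 1) ^ κ = (i : ℝ) ^ κ * (1 + 1 / (i : ℝ)) ^ κ := by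
    rw [← Real.mul_rpow hi'.le (by positivity)]
    congr 1
    field_simp
  have h3 : (1 + 1 / (i : ℝ)) ^ κ ≤ 1 + κ * (1 / (i : ℝ)) := by
    refine rpow_one_add_le_one_add_mul_self ?_ h0 h1
    have : (0 : ℝ) ≤ 1 / i := by positivity
    linarith
  have h4 : (i : ℝ) ^ κ * (i : ℝ) ^ (1 - κ) = i := by
    rw [← Real.rpow_add hi']
    simp
  have h5 : 0 ≤ (i : ℝ) ^ κ * (i : ℝ) ^ (1 - κ) := by rw [h4]; exact hi'.le
  calc (((i : ℝ) + 1) ^ κ - (i : ℝ) ^ κ) * (i : ℝ) ^ (1 - κ)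
      = ((i : ℝ) ^ κ * (i : ℝ) ^ (1 - κ)) * ((1 + 1 / (i : ℝ)) ^ κ - 1) := by rw [h2]; ring
    _ ≤ ((i : ℝ) ^ κ * (i : ℝ) ^ (1 - κ)) * (κ * (1 / (i : ℝ))) :=
        mul_le_mul_of_nonneg_left (by linarith) h5
    _ = κ := by rw [h4]; field_simp

theorem rpow_low {κ : ℝ} (h0 : 0 ≤ κ) (h1 : κ ≤ 1) {j : ℕ} (hj : 1 ≤ j) :
    1 - κ ≤ (j : ℝ) ^ κ * ((j : ℝ) ^ (1 - κ) - ((j : ℝ) - 1) ^ (1 - κ)) := by
  have hj' : (1 : ℝ) ≤ j := by exact_mod_cast hj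
  have hj0 : (0 : ℝ) < j := by linarith
  have h2 : ((j : ℝ) - 1) ^ (1 - κ) = (j : ℝ) ^ (1 - κ) * (1 + -(1 / (j : ℝ))) ^ (1 - κ) := by
    have h5 : (0 : ℝ) ≤ 1 + -(1 / (j : ℝ)) := by
      have : 1 / (j : ℝ) ≤ 1 := by rw [div_le_one hj0]; exact hj'
      linarith
    rw [← Real.mul_rpow hj0.le h5]
    congr 1
    field_simp
    ring
  have h3 : (1 + -(1 / (j : ℝ))) ^ (1 - κ) ≤ 1 + (1 - κ) * (-(1 / (j : ℝ))) := by
    refine rpow_one_add_le_one_add_mul_self ?_ (by linarith) (by linarith)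
    have : 1 / (j : ℝ) ≤ 1 := by rw [div_le_one hj0]; exact hj'
    linarith
  have h4 : (j : ℝ) ^ κ * (j : ℝ) ^ (1 - κ) = j := by
    rw [← Real.rpow_add hj0]
    simp
  calc 1 - κ = (j : ℝ) * (1 - (1 + (1 - κ) * (-(1 / (j : ℝ))))) := by field_simp; ring
    _ ≤ (j : ℝ) * (1 - (1 + -(1 / (j : ℝ))) ^ (1 - κ)) :=
        mul_le_mul_of_nonneg_left (by linarith) hj0.le
    _ = (j : ℝ) ^ κ * (j : ℝ) ^ (1 - κ) * (1 - (1 + -(1 / (j : ℝ))) ^ (1 - κ)) := by rw [h4]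
    _ = _ := by rw [h2]; ring

theorem rpow_up {κ : ℝ} (h0 : 0 ≤ κ) {j : ℕ} (hj : 2 ≤ j) :
    (j : ℝ) ^ κ * ((j : ℝ) ^ (1 - κ) - ((j : ℝ) - 1) ^ (1 - κ)) ≤ 1 := by
  have hj' : (2 : ℝ) ≤ j := by exact_mod_cast hj
  have hj0 : (0 : ℝ) < j := by linarith
  have h5 : (0 : ℝ) < 1 + -(1 / (j : ℝ)) := by
    have : 1 / (j : ℝ) ≤ 1 / 2 := one_div_le_one_div_of_le (by norm_num) hj'
    linarith
  have h6 : 1 + -(1 / (j : ℝ)) ≤ 1 := by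
    have : (0 : ℝ) ≤ 1 / j := by positivity
    linarith
  have h2 : ((j : ℝ) - 1) ^ (1 - κ) = (j : ℝ) ^ (1 - κ) * (1 + -(1 / (j : ℝ))) ^ (1 - κ) := by
    rw [← Real.mul_rpow hj0.le h5.le]
    congr 1
    field_simp
    ring
  have h3 : 1 + -(1 / (j : ℝ)) ≤ (1 + -(1 / (j : ℝ))) ^ (1 - κ) := by
    have := Real.rpow_le_rpow_of_exponent_ge h5 h6 (show 1 - κ ≤ 1 by linarith)
    rwa [Real.rpow_one] at this
  have h4 : (j : ℝ) ^ κ * (j : ℝ) ^ (1 - κ) = j := by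
    rw [← Real.rpow_add hj0]
    simp
  calc (j : ℝ) ^ κ * ((j : ℝ) ^ (1 - κ) - ((j : ℝ) - 1) ^ (1 - κ))
      = (j : ℝ) ^ κ * (j : ℝ) ^ (1 - κ) * (1 - (1 + -(1 / (j : ℝ))) ^ (1 - κ)) := by rw [h2]; ring
    _ = (j : ℝ) * (1 - (1 + -(1 / (j : ℝ))) ^ (1 - κ)) := by rw [h4]
    _ ≤ (j : ℝ) * (1 / (j : ℝ)) := mul_le_mul_of_nonneg_left (by linarith) hj0.le
    _ = 1 := by field_simp

/-- `∑ k^{-κ} ≤ n^{1-κ}/(1-κ)` -/
theorem sum_pow {κ : ℝ} (h0 : 0 ≤ κ) (h1 : κ < 1) (n : ℕ) :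
    ∑ k ∈ Icc 1 n, ((k : ℝ) ^ κ)⁻¹ ≤ (n : ℝ) ^ (1 - κ) / (1 - κ) := by
  induction n with
  | zero =>
    simp only [Nat.cast_zero]
    rw [Real.zero_rpow (by linarith)]
    simp
  | succ n ih =>
    rw [Finset.sum_Icc_succ_top (by omega)]
    have h2 := rpow_low h0 h1.le (j := n + 1) (by omega)
    have h3 : (0 : ℝ) < ((n + 1 : ℕ) : ℝ) ^ κ := by positivity
    have e : ((n + 1 : ℕ) : ℝ) - 1 = n := by push_cast; ring
    rw [e] at h2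
    have h4 : (((n + 1 : ℕ) : ℝ) ^ κ)⁻¹ ≤
        (((n + 1 : ℕ) : ℝ) ^ (1 - κ) - (n : ℝ) ^ (1 - κ)) / (1 - κ) := by
      rw [le_div_iff₀ (by linarith), inv_mul_le_iff₀ h3]
      exact h2
    calc _ ≤ (n : ℝ) ^ (1 - κ) / (1 - κ) +
          (((n + 1 : ℕ) : ℝ) ^ (1 - κ) - (n : ℝ) ^ (1 - κ)) / (1 - κ) := add_le_add ih h4
      _ = _ := by ring

/-- the weights -/
noncomputable def wt (κ : ℝ) (n j : ℕ) : ℝ :=
  if j ≤ n + 1 then (j : ℝ) ^ (1 - κ) else (j : ℝ) ^ (1 - κ) - ((j : ℝ) - 1) ^ (1 - κ)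

theorem wt_sum (κ : ℝ) (n i : ℕ) (hi : n + 1 ≤ i) :
    ∑ j ∈ Icc (n + 1) i, wt κ n j = (i : ℝ) ^ (1 - κ) := by
  induction i, hi using Nat.le_induction with
  | base => rw [Icc_self, sum_singleton]; unfold wt; rw [if_pos le_rfl]
  | succ i hi ih =>
    rw [Finset.sum_Icc_succ_top (by omega), ih]
    unfold wt
    rw [if_neg (by omega)]
    have e : ((i + 1 : ℕ) : ℝ) - 1 = i := by push_cast; ring
    rw [e]
    ring

theorem wt_nonneg {κ : ℝ} (h1 : κ ≤ 1) (n : ℕ) {j : ℕ} (hj : 1 ≤ j) : 0 ≤ wt κ n j := by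
  unfold wt
  have hj' : (1 : ℝ) ≤ j := by exact_mod_cast hj
  split_ifs
  · positivity
  · rw [sub_nonneg]
    exact Real.rpow_le_rpow (by linarith) (by linarith) (by linarith)

theorem gap {κ : ℝ} (h0 : 0 ≤ κ) (h1 : κ < 1) {n I : ℕ} (hI : n + 1 ≤ I) {η δ : ℝ}
    (hη : 0 ≤ η) (hδ : 0 ≤ δ) (hηκ : (1 + η) * κ + η ≤ 1 - κ) (M : ℕ → ℝ)
    (hM : ∀ k, 0 ≤ M k) {Φ : ℝ} (hΦ : 0 ≤ Φ)
    (hrec : ∀ j, n + 1 ≤ j → j ≤ I → M j ≤ 2 * δ * ((1 + η) * ((I : ℝ) + 1) ^ κ / (j : ℝ) ^ κ) +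
      (η * M (j - n) + (1 + η) * ∑ i ∈ Icc j I, M (i - n) * (((i : ℝ) + 1) ^ κ - (i : ℝ) ^ κ) /
        (j : ℝ) ^ κ))
    (hB : ∀ k, 1 ≤ k → k ≤ n + 1 → M k ≤ Φ * ((1 + η) * (((n : ℝ) + 1) ^ κ / (k : ℝ) ^ κ))) :
    M (n + 1) ≤ 2 * δ * (1 + η) * ((I : ℝ) + 1) / ((n : ℝ) + 1) +
      Φ * (η * (1 + η) * ((n : ℝ) + 1) ^ κ + (η + (1 + η) * κ) * ((1 + η) / (1 - κ) +
        (1 + η) / ((n : ℝ) + 1))) := by
  have hn0 : (0 : ℝ) < (n : ℝ) + 1 := by positivity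
  set a : ℕ → ℝ := fun j => (j : ℝ) ^ κ * wt κ n j with ha
  have ha0 : ∀ j ∈ Icc (n + 1) I, 0 ≤ a j := fun j hj =>
    mul_nonneg (by positivity) (wt_nonneg h1.le n (by have := (mem_Icc.1 hj).1; omega))
  have hsum : ∑ j ∈ Icc (n + 1) I, a j * M j ≤ ∑ j ∈ Icc (n + 1) I, a j *
      (2 * δ * ((1 + η) * ((I : ℝ) + 1) ^ κ / (j : ℝ) ^ κ) +
      (η * M (j - n) + (1 + η) * ∑ i ∈ Icc j I, M (i - n) * (((i : ℝ) + 1) ^ κ - (i : ℝ) ^ κ) /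
        (j : ℝ) ^ κ)) :=
    sum_le_sum fun j hj => mul_le_mul_of_nonneg_left
      (hrec j (mem_Icc.1 hj).1 (mem_Icc.1 hj).2) (ha0 j hj)
  -- the left side
  have hsplit : Icc (n + 1) I = insert (n + 1) (Icc (n + 2) I) := by
    ext j
    rw [mem_insert, mem_Icc, mem_Icc]
    omega
  have hnot : (n + 1) ∉ Icc (n + 2) I := by
    rw [mem_Icc]; omega
  have ha1 : a (n + 1) = (n : ℝ) + 1 := by
    rw [ha]
    show ((n + 1 : ℕ) : ℝ) ^ κ * wt κ n (n + 1) = _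
    unfold wt
    rw [if_pos le_rfl, ← Real.rpow_add (by positivity)]
    push_cast
    simp
  have ha2 : ∀ j ∈ Icc (n + 2) I, 1 - κ ≤ a j := by
    intro j hj
    have hj1 := (mem_Icc.1 hj).1
    show 1 - κ ≤ (j : ℝ) ^ κ * wt κ n j
    unfold wt
    rw [if_neg (by omega)]
    exact rpow_low h0 h1.le (by omega)
  have ha3 : ∀ j ∈ Icc (n + 2) I, a j ≤ 1 := by
    intro j hj
    have hj1 := (mem_Icc.1 hj).1
    show (j : ℝ) ^ κ * wt κ n j ≤ 1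
    unfold wt
    rw [if_neg (by omega)]
    exact rpow_up h0 (by omega)
  have hleft : ((n : ℝ) + 1) * M (n + 1) + (1 - κ) * ∑ j ∈ Icc (n + 2) I, M j ≤
      ∑ j ∈ Icc (n + 1) I, a j * M j := by
    rw [hsplit, sum_insert hnot, ha1, mul_sum]
    refine add_le_add le_rfl (sum_le_sum fun j hj => ?_)
    exact mul_le_mul_of_nonneg_right (ha2 j hj) (hM j)
  -- the error sum
  have herr : ∑ j ∈ Icc (n + 1) I, a j * (2 * δ * ((1 + η) * ((I : ℝ) + 1) ^ κ / (j : ℝ) ^ κ)) ≤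
      2 * δ * (1 + η) * ((I : ℝ) + 1) := by
    have e : ∀ j ∈ Icc (n + 1) I, a j * (2 * δ * ((1 + η) * ((I : ℝ) + 1) ^ κ / (j : ℝ) ^ κ)) =
        2 * δ * (1 + η) * ((I : ℝ) + 1) ^ κ * wt κ n j := by
      intro j hj
      have hj0 : (0 : ℝ) < j := by
        have := (mem_Icc.1 hj).1
        exact_mod_cast (by omega : 0 < j)
      have : (j : ℝ) ^ κ ≠ 0 := by positivity
      show (j : ℝ) ^ κ * wt κ n j * _ = _
      field_simp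
    rw [sum_congr rfl e, ← mul_sum, wt_sum κ n I hI]
    have h2 : (I : ℝ) ^ (1 - κ) ≤ ((I : ℝ) + 1) ^ (1 - κ) :=
      Real.rpow_le_rpow (by positivity) (by linarith) (by linarith)
    have h3 : ((I : ℝ) + 1) ^ κ * ((I : ℝ) + 1) ^ (1 - κ) = (I : ℝ) + 1 := by
      rw [← Real.rpow_add (by positivity)]
      simp
    calc 2 * δ * (1 + η) * ((I : ℝ) + 1) ^ κ * (I : ℝ) ^ (1 - κ)
        ≤ 2 * δ * (1 + η) * ((I : ℝ) + 1) ^ κ * ((I : ℝ) + 1) ^ (1 - κ) :=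
          mul_le_mul_of_nonneg_left h2 (by positivity)
      _ = 2 * δ * (1 + η) * (((I : ℝ) + 1) ^ κ * ((I : ℝ) + 1) ^ (1 - κ)) := by ring
      _ = _ := by rw [h3]
  -- sums of `M`
  have hMall : ∑ i ∈ Icc (n + 1) I, M (i - n) ≤ ∑ k ∈ Icc 1 (n + 1), M k + ∑ k ∈ Icc (n + 2) I, M k := by
    have h2 : ∑ i ∈ Icc (n + 1) I, M (i - n) = ∑ k ∈ Icc 1 (I - n), M k := by
      refine sum_nbij' (fun i => i - n) (fun k => k + n) ?_ ?_ ?_ ?_ ?_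
      · intro i hi
        have := mem_Icc.1 hi
        rw [mem_Icc]
        omega
      · intro k hk
        have := mem_Icc.1 hk
        rw [mem_Icc]
        omega
      · intro i hi
        have := mem_Icc.1 hi
        show i - n + n = i
        omega
      · intro k hk
        show k + n - n = k
        omega
      · intro i hi
        rfl
    rw [h2, ← sum_union]
    · refine sum_le_sum_of_subset_of_nonneg ?_ fun k _ _ => hM k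
      intro k hk
      rw [mem_union, mem_Icc, mem_Icc]
      have := mem_Icc.1 hk
      omega
    · rw [disjoint_left]
      intro k hk hk'
      have := mem_Icc.1 hk
      have := mem_Icc.1 hk'
      omega
  have hMall2 : ∑ i ∈ Icc (n + 2) I, M (i - n) ≤ ∑ k ∈ Icc 1 (n + 1), M k + ∑ k ∈ Icc (n + 2) I, M k := by
    refine le_trans ?_ hMall
    rw [hsplit, sum_insert hnot]
    linarith [hM (n + 1 - n)]
  -- the first order term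
  have hη1 : ∑ j ∈ Icc (n + 1) I, a j * (η * M (j - n)) ≤ η * (((n : ℝ) + 1) * M 1) +
      η * (∑ k ∈ Icc 1 (n + 1), M k + ∑ k ∈ Icc (n + 2) I, M k) := by
    rw [hsplit, sum_insert hnot, ha1]
    refine add_le_add (le_of_eq ?_) ?_
    · rw [show n + 1 - n = 1 by omega]
      ring
    · calc ∑ j ∈ Icc (n + 2) I, a j * (η * M (j - n)) ≤ ∑ j ∈ Icc (n + 2) I, η * M (j - n) := by
            refine sum_le_sum fun j hj => ?_
            exact mul_le_of_le_one_left (mul_nonneg hη (hM _)) (ha3 j hj)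
        _ = η * ∑ j ∈ Icc (n + 2) I, M (j - n) := by rw [mul_sum]
        _ ≤ _ := mul_le_mul_of_nonneg_left hMall2 hη
  -- the main term
  have hmain : ∑ j ∈ Icc (n + 1) I, a j * ((1 + η) * ∑ i ∈ Icc j I, M (i - n) *
      (((i : ℝ) + 1) ^ κ - (i : ℝ) ^ κ) / (j : ℝ) ^ κ) ≤
      (1 + η) * κ * (∑ k ∈ Icc 1 (n + 1), M k + ∑ k ∈ Icc (n + 2) I, M k) := by
    have e1 : ∑ j ∈ Icc (n + 1) I, a j * ((1 + η) * ∑ i ∈ Icc j I, M (i - n) *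
        (((i : ℝ) + 1) ^ κ - (i : ℝ) ^ κ) / (j : ℝ) ^ κ) =
        (1 + η) * ∑ j ∈ Icc (n + 1) I, ∑ i ∈ Icc j I, wt κ n j * (M (i - n) *
        (((i : ℝ) + 1) ^ κ - (i : ℝ) ^ κ)) := by
      rw [mul_sum]
      refine sum_congr rfl fun j hj => ?_
      have hj0 : (0 : ℝ) < j := by
        have := (mem_Icc.1 hj).1
        exact_mod_cast (by omega : 0 < j)
      have hj1 : (j : ℝ) ^ κ ≠ 0 := by positivity
      rw [mul_sum, mul_sum, mul_sum]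
      refine sum_congr rfl fun i hi => ?_
      show (j : ℝ) ^ κ * wt κ n j * _ = _
      field_simp
    have e2 : ∑ j ∈ Icc (n + 1) I, ∑ i ∈ Icc j I, wt κ n j * (M (i - n) *
        (((i : ℝ) + 1) ^ κ - (i : ℝ) ^ κ)) =
        ∑ i ∈ Icc (n + 1) I, ∑ j ∈ Icc (n + 1) i, wt κ n j * (M (i - n) *
        (((i : ℝ) + 1) ^ κ - (i : ℝ) ^ κ)) := by
      refine sum_comm' ?_
      intro j i
      simp only [mem_Icc]
      omega
    rw [e1, e2, mul_assoc]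
    refine mul_le_mul_of_nonneg_left ?_ (by linarith)
    refine le_trans ?_ (mul_le_mul_of_nonneg_left hMall h0)
    rw [mul_sum]
    refine sum_le_sum fun i hi => ?_
    have hi1 := (mem_Icc.1 hi).1
    rw [← sum_mul, wt_sum κ n i hi1]
    have h3 := rpow_step h0 h1.le (i := i) (by omega)
    calc (i : ℝ) ^ (1 - κ) * (M (i - n) * (((i : ℝ) + 1) ^ κ - (i : ℝ) ^ κ))
        = (((i : ℝ) + 1) ^ κ - (i : ℝ) ^ κ) * (i : ℝ) ^ (1 - κ) * M (i - n) := by ring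
      _ ≤ κ * M (i - n) := mul_le_mul_of_nonneg_right h3 (hM _)
  have hright : ∑ j ∈ Icc (n + 1) I, a j *
      (2 * δ * ((1 + η) * ((I : ℝ) + 1) ^ κ / (j : ℝ) ^ κ) +
      (η * M (j - n) + (1 + η) * ∑ i ∈ Icc j I, M (i - n) * (((i : ℝ) + 1) ^ κ - (i : ℝ) ^ κ) /
        (j : ℝ) ^ κ)) =
      ∑ j ∈ Icc (n + 1) I, a j * (2 * δ * ((1 + η) * ((I : ℝ) + 1) ^ κ / (j : ℝ) ^ κ)) +
      (∑ j ∈ Icc (n + 1) I, a j * (η * M (j - n)) +
      ∑ j ∈ Icc (n + 1) I, a j * ((1 + η) * ∑ i ∈ Icc j I, M (i - n) *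
      (((i : ℝ) + 1) ^ κ - (i : ℝ) ^ κ) / (j : ℝ) ^ κ)) := by
    rw [← sum_add_distrib, ← sum_add_distrib]
    refine sum_congr rfl fun j _ => by ring
  rw [hright] at hsum
  set U : ℝ := ∑ k ∈ Icc (n + 2) I, M k with hU
  have hU0 : 0 ≤ U := sum_nonneg fun k _ => hM k
  set W : ℝ := ∑ k ∈ Icc 1 (n + 1), M k with hW
  have h5 : ((n : ℝ) + 1) * M (n + 1) + (1 - κ) * U ≤ 2 * δ * (1 + η) * ((I : ℝ) + 1) +
      (η * (((n : ℝ) + 1) * M 1) + η * (W + U) + (1 + η) * κ * (W + U)) := by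
    linarith
  have h6 : ((1 + η) * κ + η) * U ≤ (1 - κ) * U := mul_le_mul_of_nonneg_right hηκ hU0
  have h7 : ((n : ℝ) + 1) * M (n + 1) ≤ 2 * δ * (1 + η) * ((I : ℝ) + 1) +
      η * (((n : ℝ) + 1) * M 1) + (η + (1 + η) * κ) * W := by
    nlinarith
  -- the sum over `k ≤ n + 1`
  have hWle : W ≤ Φ * (1 + η) * (((n : ℝ) + 1) / (1 - κ) + 1) := by
    have h8 : W ≤ ∑ k ∈ Icc 1 (n + 1), Φ * ((1 + η) * (((n : ℝ) + 1) ^ κ / (k : ℝ) ^ κ)) :=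
      sum_le_sum fun k hk => hB k (mem_Icc.1 hk).1 (mem_Icc.1 hk).2
    have h9 : ∑ k ∈ Icc 1 (n + 1), Φ * ((1 + η) * (((n : ℝ) + 1) ^ κ / (k : ℝ) ^ κ)) =
        Φ * (1 + η) * (((n : ℝ) + 1) ^ κ * ∑ k ∈ Icc 1 (n + 1), ((k : ℝ) ^ κ)⁻¹) := by
      rw [mul_sum, mul_sum]
      refine sum_congr rfl fun k _ => by ring
    have h10 := sum_pow h0 h1 (n + 1)
    have h11 : ((n : ℝ) + 1) ^ κ * ((n : ℝ) + 1) ^ (1 - κ) = (n : ℝ) + 1 := by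
      rw [← Real.rpow_add hn0]
      simp
    push_cast at h10
    calc W ≤ Φ * (1 + η) * (((n : ℝ) + 1) ^ κ * ∑ k ∈ Icc 1 (n + 1), ((k : ℝ) ^ κ)⁻¹) := by
          rw [← h9]; exact h8
      _ ≤ Φ * (1 + η) * (((n : ℝ) + 1) ^ κ * (((n : ℝ) + 1) ^ (1 - κ) / (1 - κ))) := by
          refine mul_le_mul_of_nonneg_left ?_ (by positivity)
          exact mul_le_mul_of_nonneg_left h10 (by positivity)
      _ = Φ * (1 + η) * (((n : ℝ) + 1) / (1 - κ)) := by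
          rw [← mul_div_assoc, h11]
      _ ≤ _ := by
          refine mul_le_mul_of_nonneg_left ?_ (by positivity)
          linarith
  have hM1 : M 1 ≤ Φ * ((1 + η) * ((n : ℝ) + 1) ^ κ) := by
    have := hB 1 le_rfl (by omega)
    simpa using this
  have h12 : ((n : ℝ) + 1) * M (n + 1) ≤ ((n : ℝ) + 1) * (2 * δ * (1 + η) * ((I : ℝ) + 1) / ((n : ℝ) + 1) +
      Φ * (η * (1 + η) * ((n : ℝ) + 1) ^ κ + (η + (1 + η) * κ) * ((1 + η) / (1 - κ) +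
        (1 + η) / ((n : ℝ) + 1)))) := by
    have h13 : η * (((n : ℝ) + 1) * M 1) ≤ η * (((n : ℝ) + 1) * (Φ * ((1 + η) * ((n : ℝ) + 1) ^ κ))) := by
      refine mul_le_mul_of_nonneg_left ?_ hη
      exact mul_le_mul_of_nonneg_left hM1 hn0.le
    have h14 : (η + (1 + η) * κ) * W ≤ (η + (1 + η) * κ) *
        (Φ * (1 + η) * (((n : ℝ) + 1) / (1 - κ) + 1)) :=
      mul_le_mul_of_nonneg_left hWle (by positivity)
    have h15 : ((n : ℝ) + 1) * (2 * δ * (1 + η) * ((I : ℝ) + 1) / ((n : ℝ) + 1) +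
      Φ * (η * (1 + η) * ((n : ℝ) + 1) ^ κ + (η + (1 + η) * κ) * ((1 + η) / (1 - κ) +
        (1 + η) / ((n : ℝ) + 1)))) = 2 * δ * (1 + η) * ((I : ℝ) + 1) +
      η * (((n : ℝ) + 1) * (Φ * ((1 + η) * ((n : ℝ) + 1) ^ κ))) +
      (η + (1 + η) * κ) * (Φ * (1 + η) * (((n : ℝ) + 1) / (1 - κ) + 1)) := by
      have : (1 : ℝ) - κ ≠ 0 := by linarith
      field_simp
      ring
    rw [h15]
    linarith
  exact le_of_mul_le_mul_left h12 hn0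

end HD44
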