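import Pool.Agent.HD44.Gap2

/-!
# The gap lemma for general weights
-/

namespace HD44

open Finset

/-- the coefficients attached to weights `W` -/
noncomputable def wtA (κ : ℝ) (W : ℕ → ℝ) (b j : ℕ) : ℝ :=
  if j ≤ b then (j : ℝ) ^ (1 - κ) * W j else
    (j : ℝ) ^ (1 - κ) * W j - ((j : ℝ) - 1) ^ (1 - κ) * W (j - 1)

theorem wtA_sum (κ : ℝ) (W : ℕ → ℝ) (b i : ℕ) (hi : b ≤ i) :
    ∑ j ∈ Icc b i, wtA κ W b j = (i : ℝ) ^ (1 - κ) * W i := by
  induction i, hi using Nat.le_induction with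
  | base => rw [Icc_self, sum_singleton]; unfold wtA; rw [if_pos le_rfl]
  | succ i hi ih =>
    rw [Finset.sum_Icc_succ_top (by omega), ih]
    unfold wtA
    rw [if_neg (by omega)]
    have e : ((i + 1 : ℕ) : ℝ) - 1 = i := by push_cast; ring
    rw [e, Nat.add_sub_cancel]
    ring

theorem gapA {κ : ℝ} (h0 : 0 ≤ κ) (h1 : κ ≤ 1) {n b I : ℕ} (hnb : n < b)
    (hI : b ≤ I) {η δ κ1 C G Θ : ℝ} (hη : 0 ≤ η) (hδ : 0 ≤ δ) (hC : 0 ≤ C) (hG0 : 0 ≤ G)
    (W : ℕ → ℝ) (hWj : ∀ j, b ≤ j → 0 < W j)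
    (hA1 : ∀ j, b + 1 ≤ j → j ≤ I → κ1 * W (j + n) ≤
      (j : ℝ) * W j - (j : ℝ) ^ κ * ((j : ℝ) - 1) ^ (1 - κ) * W (j - 1))
    (hA2 : ∀ j, b + 1 ≤ j → j ≤ I →
      (j : ℝ) * W j - (j : ℝ) ^ κ * ((j : ℝ) - 1) ^ (1 - κ) * W (j - 1) ≤ C * W j)
    (hκ1 : (1 + η) * κ + C * η ≤ κ1) (hG : W I ≤ G * W b)
    (hΘ : ∑ k ∈ Icc (b - n) b, W (k + n) * ((b : ℝ) ^ κ / (k : ℝ) ^ κ) ≤ Θ * W b)
    (M : ℕ → ℝ) (hM : ∀ k, 0 ≤ M k) {Φ : ℝ} (hΦ : 0 ≤ Φ)
    (hrec : ∀ j, b ≤ j → j ≤ I → M j ≤ 2 * δ * ((1 + η) * ((I : ℝ) + 1) ^ κ / (j : ℝ) ^ κ) +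
      (η * M (j - n) + (1 + η) * ∑ i ∈ Icc j I, M (i - n) * (((i : ℝ) + 1) ^ κ - (i : ℝ) ^ κ) /
        (j : ℝ) ^ κ))
    (hB : ∀ k, 1 ≤ k → k ≤ b → M k ≤ Φ * ((1 + η) * ((b : ℝ) ^ κ / (k : ℝ) ^ κ))) :
    M b ≤ 2 * δ * (1 + η) * (((I : ℝ) + 1) / b) * G +
      Φ * (η * (1 + η) * (b / ((b : ℝ) - n)) + κ1 * (1 + η) * (Θ / b)) := by
  have hnb' : (n : ℝ) < b := by exact_mod_cast hnb
  have hn0 : (0 : ℝ) ≤ n := Nat.cast_nonneg n
  have hb0 : (0 : ℝ) < b := by linarith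
  have hκκ1 : κ ≤ κ1 := by
    have : 0 ≤ η * κ := mul_nonneg hη h0
    have : 0 ≤ C * η := mul_nonneg hC hη
    linarith
  have hκ10 : 0 ≤ κ1 := h0.trans hκκ1
  set A : ℕ → ℝ := fun j => (j : ℝ) ^ κ * wtA κ W b j with hA
  have hWb := hWj b le_rfl
  have hAb : A b = b * W b := by
    show (b : ℝ) ^ κ * wtA κ W b b = _
    unfold wtA
    rw [if_pos le_rfl, ← mul_assoc, ← Real.rpow_add hb0]
    simp
  have hAj : ∀ j ∈ Icc (b + 1) I, κ1 * W (j + n) ≤ A j ∧ A j ≤ C * W j := by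
    intro j hj
    obtain ⟨hj1, hj2⟩ := mem_Icc.1 hj
    have hj0 : (0 : ℝ) < j := by exact_mod_cast (by omega : 0 < j)
    have h3 : A j = (j : ℝ) * W j - (j : ℝ) ^ κ * ((j : ℝ) - 1) ^ (1 - κ) * W (j - 1) := by
      show (j : ℝ) ^ κ * wtA κ W b j = _
      unfold wtA
      rw [if_neg (by omega), mul_sub, ← mul_assoc, ← mul_assoc, ← Real.rpow_add hj0]
      simp
    rw [h3]
    exact ⟨hA1 j hj1 hj2, hA2 j hj1 hj2⟩
  have hsplit : Icc b I = insert b (Icc (b + 1) I) := by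
    ext j
    rw [mem_insert, mem_Icc, mem_Icc]
    omega
  have hnot : b ∉ Icc (b + 1) I := by rw [mem_Icc]; omega
  have hA0 : ∀ j ∈ Icc b I, 0 ≤ A j := by
    intro j hj
    rw [hsplit, mem_insert] at hj
    rcases hj with hj | hj
    · rw [hj, hAb]
      positivity
    · refine le_trans ?_ (hAj j hj).1
      have := hWj (j + n) (by have := (mem_Icc.1 hj).1; omega)
      positivity
  have hsum : ∑ j ∈ Icc b I, A j * M j ≤ ∑ j ∈ Icc b I, A j *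
      (2 * δ * ((1 + η) * ((I : ℝ) + 1) ^ κ / (j : ℝ) ^ κ) +
      (η * M (j - n) + (1 + η) * ∑ i ∈ Icc j I, M (i - n) * (((i : ℝ) + 1) ^ κ - (i : ℝ) ^ κ) /
        (j : ℝ) ^ κ)) :=
    sum_le_sum fun j hj => mul_le_mul_of_nonneg_left
      (hrec j (mem_Icc.1 hj).1 (mem_Icc.1 hj).2) (hA0 j hj)
  have hleft : b * W b * M b + κ1 * ∑ j ∈ Icc (b + 1) I, W (j + n) * M j ≤
      ∑ j ∈ Icc b I, A j * M j := by
    rw [hsplit, sum_insert hnot, hAb, mul_sum]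
    refine add_le_add le_rfl (sum_le_sum fun j hj => ?_)
    rw [← mul_assoc]
    exact mul_le_mul_of_nonneg_right (hAj j hj).1 (hM j)
  have herr : ∑ j ∈ Icc b I, A j * (2 * δ * ((1 + η) * ((I : ℝ) + 1) ^ κ / (j : ℝ) ^ κ)) ≤
      2 * δ * (1 + η) * ((I : ℝ) + 1) * W I := by
    have e : ∀ j ∈ Icc b I, A j * (2 * δ * ((1 + η) * ((I : ℝ) + 1) ^ κ / (j : ℝ) ^ κ)) =
        2 * δ * (1 + η) * ((I : ℝ) + 1) ^ κ * wtA κ W b j := by
      intro j hj
      have hj0 : (0 : ℝ) < j := by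
        have := (mem_Icc.1 hj).1
        exact_mod_cast (by omega : 0 < j)
      have : (j : ℝ) ^ κ ≠ 0 := by positivity
      show (j : ℝ) ^ κ * wtA κ W b j * _ = _
      field_simp
    rw [sum_congr rfl e, ← mul_sum, wtA_sum κ W b I hI]
    have h2 : (I : ℝ) ^ (1 - κ) ≤ ((I : ℝ) + 1) ^ (1 - κ) :=
      Real.rpow_le_rpow (by positivity) (by linarith) (by linarith)
    have h3 : ((I : ℝ) + 1) ^ κ * ((I : ℝ) + 1) ^ (1 - κ) = (I : ℝ) + 1 := by
      rw [← Real.rpow_add (by positivity)]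
      simp
    have hWI := hWj I hI
    calc 2 * δ * (1 + η) * ((I : ℝ) + 1) ^ κ * ((I : ℝ) ^ (1 - κ) * W I)
        ≤ 2 * δ * (1 + η) * ((I : ℝ) + 1) ^ κ * (((I : ℝ) + 1) ^ (1 - κ) * W I) :=
          mul_le_mul_of_nonneg_left (mul_le_mul_of_nonneg_right h2 hWI.le) (by positivity)
      _ = 2 * δ * (1 + η) * (((I : ℝ) + 1) ^ κ * ((I : ℝ) + 1) ^ (1 - κ)) * W I := by ring
      _ = _ := by rw [h3]
  set Z : ℝ := ∑ i ∈ Icc b I, W i * M (i - n) with hZ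
  have hη1 : ∑ j ∈ Icc b I, A j * (η * M (j - n)) ≤ η * (b * W b * M (b - n)) + C * η * Z := by
    have h2 : ∑ j ∈ Icc (b + 1) I, A j * (η * M (j - n)) ≤ C * η * Z := by
      calc ∑ j ∈ Icc (b + 1) I, A j * (η * M (j - n)) ≤
            ∑ j ∈ Icc (b + 1) I, C * η * (W j * M (j - n)) := by
            refine sum_le_sum fun j hj => ?_
            have h3 := mul_le_mul_of_nonneg_right (hAj j hj).2 (mul_nonneg hη (hM (j - n)))
            calc A j * (η * M (j - n)) ≤ C * W j * (η * M (j - n)) := h3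
              _ = _ := by ring
        _ ≤ ∑ j ∈ Icc b I, C * η * (W j * M (j - n)) := by
            refine sum_le_sum_of_subset_of_nonneg (Icc_subset_Icc (by omega) le_rfl) ?_
            intro j hj _
            have h3 := hWj j (mem_Icc.1 hj).1
            have h4 := hM (j - n)
            positivity
        _ = C * η * Z := by rw [hZ, mul_sum]
    rw [hsplit, sum_insert hnot, hAb]
    have e : (b : ℝ) * W b * (η * M (b - n)) = η * (b * W b * M (b - n)) := by ring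
    rw [e]
    linarith
  have hmain : ∑ j ∈ Icc b I, A j * ((1 + η) * ∑ i ∈ Icc j I, M (i - n) *
      (((i : ℝ) + 1) ^ κ - (i : ℝ) ^ κ) / (j : ℝ) ^ κ) ≤ (1 + η) * κ * Z := by
    have e1 : ∑ j ∈ Icc b I, A j * ((1 + η) * ∑ i ∈ Icc j I, M (i - n) *
        (((i : ℝ) + 1) ^ κ - (i : ℝ) ^ κ) / (j : ℝ) ^ κ) =
        (1 + η) * ∑ j ∈ Icc b I, ∑ i ∈ Icc j I, wtA κ W b j * (M (i - n) *
        (((i : ℝ) + 1) ^ κ - (i : ℝ) ^ κ)) := by
      rw [mul_sum]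
      refine sum_congr rfl fun j hj => ?_
      have hj0 : (0 : ℝ) < j := by
        have := (mem_Icc.1 hj).1
        exact_mod_cast (by omega : 0 < j)
      have hj1 : (j : ℝ) ^ κ ≠ 0 := by positivity
      rw [mul_sum, mul_sum, mul_sum]
      refine sum_congr rfl fun i hi => ?_
      show (j : ℝ) ^ κ * wtA κ W b j * _ = _
      field_simp
    have e2 : ∑ j ∈ Icc b I, ∑ i ∈ Icc j I, wtA κ W b j * (M (i - n) *
        (((i : ℝ) + 1) ^ κ - (i : ℝ) ^ κ)) =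
        ∑ i ∈ Icc b I, ∑ j ∈ Icc b i, wtA κ W b j * (M (i - n) *
        (((i : ℝ) + 1) ^ κ - (i : ℝ) ^ κ)) := by
      refine sum_comm' ?_
      intro j i
      simp only [mem_Icc]
      omega
    rw [e1, e2, mul_assoc]
    refine mul_le_mul_of_nonneg_left ?_ (by linarith)
    rw [hZ, mul_sum]
    refine sum_le_sum fun i hi => ?_
    have hi1 := (mem_Icc.1 hi).1
    rw [← sum_mul, wtA_sum κ W b i hi1]
    have h3 := rpow_step h0 h1 (i := i) (by omega)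
    have h4 := hWj i hi1
    calc (i : ℝ) ^ (1 - κ) * W i * (M (i - n) * (((i : ℝ) + 1) ^ κ - (i : ℝ) ^ κ))
        = (((i : ℝ) + 1) ^ κ - (i : ℝ) ^ κ) * (i : ℝ) ^ (1 - κ) * (W i * M (i - n)) := by ring
      _ ≤ κ * (W i * M (i - n)) :=
          mul_le_mul_of_nonneg_right h3 (mul_nonneg h4.le (hM _))
  have hright : ∑ j ∈ Icc b I, A j *
      (2 * δ * ((1 + η) * ((I : ℝ) + 1) ^ κ / (j : ℝ) ^ κ) +
      (η * M (j - n) + (1 + η) * ∑ i ∈ Icc j I, M (i - n) * (((i : ℝ) + 1) ^ κ - (i : ℝ) ^ κ) /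
        (j : ℝ) ^ κ)) =
      ∑ j ∈ Icc b I, A j * (2 * δ * ((1 + η) * ((I : ℝ) + 1) ^ κ / (j : ℝ) ^ κ)) +
      (∑ j ∈ Icc b I, A j * (η * M (j - n)) +
      ∑ j ∈ Icc b I, A j * ((1 + η) * ∑ i ∈ Icc j I, M (i - n) *
      (((i : ℝ) + 1) ^ κ - (i : ℝ) ^ κ) / (j : ℝ) ^ κ)) := by
    rw [← sum_add_distrib, ← sum_add_distrib]
    refine sum_congr rfl fun j _ => by ring
  rw [hright] at hsum
  -- shift
  have hZ2 : Z ≤ ∑ k ∈ Icc (b - n) b, W (k + n) * M k +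
      ∑ k ∈ Icc (b + 1) I, W (k + n) * M k := by
    have h2 : Z = ∑ k ∈ Icc (b - n) (I - n), W (k + n) * M k := by
      rw [hZ]
      refine sum_nbij' (fun i => i - n) (fun k => k + n) ?_ ?_ ?_ ?_ ?_
      · intro i hi
        have := mem_Icc.1 hi
        rw [mem_Icc]
        omega
      · intro k hk
        have := mem_Icc.1 hk
        rw [mem_Icc]
        omega
      · intro i hi
        have := mem_Icc.1 hi
        show i - n + n = i
        omega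
      · intro k hk
        show k + n - n = k
        omega
      · intro i hi
        have := mem_Icc.1 hi
        show W i * M (i - n) = W (i - n + n) * M (i - n)
        rw [show i - n + n = i by omega]
    rw [h2, ← sum_union]
    · refine sum_le_sum_of_subset_of_nonneg ?_ ?_
      · intro k hk
        rw [mem_union, mem_Icc, mem_Icc]
        have := mem_Icc.1 hk
        omega
      · intro k hk _
        rw [mem_union, mem_Icc, mem_Icc] at hk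
        exact mul_nonneg (hWj (k + n) (by omega)).le (hM k)
    · rw [disjoint_left]
      intro k hk hk'
      have := mem_Icc.1 hk
      have := mem_Icc.1 hk'
      omega
  set U : ℝ := ∑ k ∈ Icc (b + 1) I, W (k + n) * M k with hU
  set Y : ℝ := ∑ k ∈ Icc (b - n) b, W (k + n) * M k with hY
  have hZ0 : 0 ≤ Z := sum_nonneg fun i hi => mul_nonneg (hWj i (mem_Icc.1 hi).1).le (hM _)
  have h5 : b * W b * M b ≤ 2 * δ * (1 + η) * ((I : ℝ) + 1) * W I +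
      η * (b * W b * M (b - n)) + κ1 * Y := by
    have h6 : ((1 + η) * κ + C * η) * Z ≤ κ1 * Z := mul_le_mul_of_nonneg_right hκ1 hZ0
    have h7 : κ1 * Z ≤ κ1 * (Y + U) := mul_le_mul_of_nonneg_left hZ2 hκ10
    have e : ((1 + η) * κ + C * η) * Z = (1 + η) * κ * Z + C * η * Z := by ring
    have e2 : κ1 * (Y + U) = κ1 * Y + κ1 * U := by ring
    linarith
  -- boundary
  have hYle : Y ≤ Φ * (1 + η) * (Θ * W b) := by
    have h6 : Y ≤ ∑ k ∈ Icc (b - n) b, Φ * (1 + η) * (W (k + n) * ((b : ℝ) ^ κ / (k : ℝ) ^ κ)) := by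
      refine sum_le_sum fun k hk => ?_
      obtain ⟨hk1, hk2⟩ := mem_Icc.1 hk
      have hk3 : 1 ≤ k := by omega
      calc W (k + n) * M k ≤ W (k + n) * (Φ * ((1 + η) * ((b : ℝ) ^ κ / (k : ℝ) ^ κ))) :=
            mul_le_mul_of_nonneg_left (hB k hk3 hk2) (hWj (k + n) (by omega)).le
        _ = _ := by ring
    refine h6.trans ?_
    rw [← mul_sum]
    exact mul_le_mul_of_nonneg_left hΘ (by positivity)
  have hMbn : M (b - n) ≤ Φ * ((1 + η) * (b / ((b : ℝ) - n))) := by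
    have h6 := hB (b - n) (by omega) (by omega)
    refine h6.trans ?_
    refine mul_le_mul_of_nonneg_left ?_ hΦ
    refine mul_le_mul_of_nonneg_left ?_ (by linarith)
    rw [Nat.cast_sub hnb.le, ← Real.div_rpow hb0.le (by linarith)]
    have h7 : 1 ≤ (b : ℝ) / ((b : ℝ) - n) := by
      rw [le_div_iff₀ (by linarith)]
      linarith
    calc ((b : ℝ) / ((b : ℝ) - n)) ^ κ ≤ ((b : ℝ) / ((b : ℝ) - n)) ^ (1 : ℝ) :=
          Real.rpow_le_rpow_of_exponent_le h7 h1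
      _ = _ := Real.rpow_one _
  have hfin : b * W b * M b ≤ b * W b * (2 * δ * (1 + η) * (((I : ℝ) + 1) / b) * G +
      Φ * (η * (1 + η) * (b / ((b : ℝ) - n)) + κ1 * (1 + η) * (Θ / b))) := by
    have hbn0 : 0 < (b : ℝ) - n := by linarith
    have t1 : 2 * δ * (1 + η) * ((I : ℝ) + 1) * W I ≤
        b * W b * (2 * δ * (1 + η) * (((I : ℝ) + 1) / b) * G) := by
      calc 2 * δ * (1 + η) * ((I : ℝ) + 1) * W I ≤
            2 * δ * (1 + η) * ((I : ℝ) + 1) * (G * W b) :=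
            mul_le_mul_of_nonneg_left hG (by positivity)
        _ = _ := by field_simp
    have t2 : η * (b * W b * M (b - n)) ≤
        b * W b * (Φ * (η * (1 + η) * (b / ((b : ℝ) - n)))) := by
      calc η * (b * W b * M (b - n)) ≤
            η * (b * W b * (Φ * ((1 + η) * (b / ((b : ℝ) - n))))) :=
            mul_le_mul_of_nonneg_left (mul_le_mul_of_nonneg_left hMbn (by positivity)) hη
        _ = _ := by ring
    have t3 : κ1 * Y ≤ b * W b * (Φ * (κ1 * (1 + η) * (Θ / b))) := by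
      calc κ1 * Y ≤ κ1 * (Φ * (1 + η) * (Θ * W b)) :=
            mul_le_mul_of_nonneg_left hYle hκ10
        _ = _ := by field_simp
    have e6 : b * W b * (2 * δ * (1 + η) * (((I : ℝ) + 1) / b) * G +
      Φ * (η * (1 + η) * (b / ((b : ℝ) - n)) + κ1 * (1 + η) * (Θ / b))) =
        b * W b * (2 * δ * (1 + η) * (((I : ℝ) + 1) / b) * G) +
        b * W b * (Φ * (η * (1 + η) * (b / ((b : ℝ) - n)))) +
        b * W b * (Φ * (κ1 * (1 + η) * (Θ / b))) := by ring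
    rw [e6]
    linarith
  exact le_of_mul_le_mul_left hfin (by positivity)

/-- the gap between the sieve functions in dimension `κ` at level ratio `s` -/
def GapOK (κ s τ : ℝ) : Prop := ∃ (n b : ℕ) (η : ℝ), 1 ≤ n ∧ n < b ∧ (b : ℝ) ≤ s * (1 + τ) * n ∧
  0 < η ∧ η ≤ τ ∧ ∀ (I : ℕ) (δ Φ : ℝ) (M : ℕ → ℝ), b ≤ I → 0 ≤ δ → 0 ≤ Φ → (∀ k, 0 ≤ M k) →
    (∀ j, b ≤ j → j ≤ I → M j ≤ 2 * δ * ((1 + η) * ((I : ℝ) + 1) ^ κ / (j : ℝ) ^ κ) +
      (η * M (j - n) + (1 + η) * ∑ i ∈ Icc j I, M (i - n) * (((i : ℝ) + 1) ^ κ - (i : ℝ) ^ κ) /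
        (j : ℝ) ^ κ)) →
    (∀ k, 1 ≤ k → k ≤ b → M k ≤ Φ * ((1 + η) * ((b : ℝ) ^ κ / (k : ℝ) ^ κ))) →
    M b ≤ 8 * δ * (((I : ℝ) + 1) / n) ^ 3 + Φ * (κ / (s - κ) + τ)

end HD44
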