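import Pool.Agent.HD44.GapA

/-!
# The gap lemma, dimension zero to one: dimension below one half and dimension one
-/

namespace HD44

open Finset

/-- Bernoulli bounds for the exponent `1 + ν` -/
theorem bern2_up {x y ν : ℝ} (hx : 0 < x) (hy : 0 ≤ y) (h0 : 0 ≤ ν) (h1 : ν ≤ 1) :
    (x + y) ^ (1 + ν) ≤ x ^ (1 + ν) * ((1 + y / x) * (1 + ν * (y / x))) := by
  rw [Real.rpow_add (by linarith), Real.rpow_add hx, Real.rpow_one, Real.rpow_one]
  have h2 := bern_up hx hy h0 h1
  have h3 : x + y = x * (1 + y / x) := by field_simp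
  calc (x + y) * (x + y) ^ ν ≤ (x + y) * (x ^ ν * (1 + ν * (y / x))) :=
        mul_le_mul_of_nonneg_left h2 (by linarith)
    _ = x * (1 + y / x) * (x ^ ν * (1 + ν * (y / x))) := by rw [← h3]
    _ = _ := by ring

theorem bern2_down {x ν : ℝ} (hx : 1 ≤ x) (h0 : 0 ≤ ν) (h1 : ν ≤ 1) :
    (x - 1) ^ (1 + ν) ≤ x ^ (1 + ν) * ((1 - 1 / x) * (1 - ν / x)) := by
  have hx0 : 0 < x := by linarith
  rcases eq_or_lt_of_le hx with h | h
  · rw [← h]
    have h2 : (1 : ℝ) + ν ≠ 0 := by linarith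
    rw [sub_self, Real.zero_rpow h2]
    simp
  · rw [Real.rpow_add (by linarith), Real.rpow_add hx0, Real.rpow_one, Real.rpow_one]
    have h2 := bern_down hx h0 h1
    have h3 : x - 1 = x * (1 - 1 / x) := by field_simp
    calc (x - 1) * (x - 1) ^ ν ≤ (x - 1) * (x ^ ν * (1 - ν / x)) :=
          mul_le_mul_of_nonneg_left h2 (by linarith)
      _ = x * (1 - 1 / x) * (x ^ ν * (1 - ν / x)) := by rw [← h3]
      _ = _ := by ring

theorem bern2_low {x ν : ℝ} (hx : 1 < x) (h0 : 0 ≤ ν) (h1 : ν ≤ 1) :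
    x ^ (1 + ν) * (1 - 2 / x) ≤ (x - 1) ^ (1 + ν) := by
  have hx0 : 0 < x := by linarith
  have hp : 0 < x ^ ν := Real.rpow_pos_of_pos hx0 _
  have hx1 : x ^ (1 + ν) = x * x ^ ν := by rw [Real.rpow_add hx0, Real.rpow_one]
  have hx2 : (x - 1) ^ (1 + ν) = (x - 1) * (x - 1) ^ ν := by
    rw [Real.rpow_add (by linarith), Real.rpow_one]
  rw [hx1, hx2]
  have h2 : x ^ ν * ((x - 1) / x) ≤ (x - 1) ^ ν := by
    have h3 : (x - 1) ^ ν = x ^ ν * ((x - 1) / x) ^ ν := by
      rw [← Real.mul_rpow hx0.le (div_nonneg (by linarith) hx0.le)]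
      congr 1
      field_simp
    rw [h3]
    refine mul_le_mul_of_nonneg_left ?_ hp.le
    have h4 : 0 < (x - 1) / x := div_pos (by linarith) hx0
    have h5 : (x - 1) / x ≤ 1 := by rw [div_le_one hx0]; linarith
    calc (x - 1) / x = ((x - 1) / x) ^ (1 : ℝ) := (Real.rpow_one _).symm
      _ ≤ ((x - 1) / x) ^ ν := Real.rpow_le_rpow_of_exponent_ge h4 h5 h1
  calc x * x ^ ν * (1 - 2 / x) ≤ (x - 1) * (x ^ ν * ((x - 1) / x)) := by
        have h6 : (x - 1) * (x ^ ν * ((x - 1) / x)) - x * x ^ ν * (1 - 2 / x) = x ^ ν * (1 / x) := by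
          field_simp
          ring
        have h7 : 0 ≤ x ^ ν * (1 / x) := by positivity
        linarith
    _ ≤ (x - 1) * (x - 1) ^ ν := mul_le_mul_of_nonneg_left h2 (by linarith)

theorem gapOK_one {s τ : ℝ} (hs : 2 < s) (hτ : 0 < τ) (hτ1 : τ ≤ 1) : GapOK 1 s τ := by
  set ν : ℝ := min ((s - 2) / 6) (τ / 8) with hν
  have hν0 : 0 < ν := lt_min (by linarith) (by linarith)
  have hνs : 6 * ν ≤ s - 2 := by
    have : ν ≤ (s - 2) / 6 := min_le_left _ _
    linarith
  have hντ : 8 * ν ≤ τ := by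
    have : ν ≤ τ / 8 := min_le_right _ _
    linarith
  have hν8 : ν ≤ 1 / 8 := by linarith
  set n : ℕ := ⌈8 / ν⌉₊ with hn
  have hn8 : 8 / ν ≤ (n : ℝ) := Nat.le_ceil _
  have hnν : 8 ≤ n * ν := by
    rw [div_le_iff₀ hν0] at hn8
    exact hn8
  have hn64 : (64 : ℝ) ≤ n := by
    have h1 : (n : ℝ) * ν ≤ n * (1 / 8) := mul_le_mul_of_nonneg_left hν8 (Nat.cast_nonneg n)
    linarith
  have hn0 : (0 : ℝ) < n := by linarith
  have hn1 : 1 ≤ n := by
    have : 0 < n := by exact_mod_cast hn0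
    omega
  set b : ℕ := ⌈s * n⌉₊ with hb
  have hsn : 0 < s * n := by positivity
  have hbl : s * n ≤ (b : ℝ) := Nat.le_ceil _
  have hbu : (b : ℝ) ≤ s * n + 1 := (Nat.ceil_lt_add_one hsn.le).le
  have hb2n : 2 * (n : ℝ) ≤ b := by
    have : 2 * (n : ℝ) ≤ s * n := mul_le_mul_of_nonneg_right hs.le hn0.le
    linarith
  have hnb : n < b := by
    have : (n : ℝ) < b := by linarith
    exact_mod_cast this
  have hb0 : (0 : ℝ) < b := by linarith
  set η : ℝ := ν / 14 with hη
  have hη0 : 0 < η := by positivity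
  refine ⟨n, b, η, hn1, hnb, ?_, hη0, by linarith, ?_⟩
  · have h1 : s * (1 + τ) * n = s * n + s * (τ * n) := by ring
    have h2 : 1 ≤ τ * n := by
      have : 8 * (n * ν) ≤ τ * n := by
        have := mul_le_mul_of_nonneg_right hντ hn0.le
        linarith
      linarith
    have h3 : 1 * 1 ≤ s * (τ * n) := mul_le_mul (by linarith) h2 zero_le_one (by linarith)
    linarith
  intro I δ Φ M hbI hδ hΦ hM hrec hB
  set k : ℝ := 1 + 3 * ν with hk
  set c : ℝ := k * n with hc
  set κ1 : ℝ := 1 + ν / 2 with hκ1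
  set W : ℕ → ℝ := fun j => ((j : ℝ) - c) ^ (1 + ν) with hW
  have hbc : (n : ℝ) * (s - k) ≤ b - c := by
    have : (n : ℝ) * (s - k) = s * n - c := by rw [hc]; ring
    linarith
  have hsk : 1 + 3 * ν ≤ s - k := by rw [hk]; linarith
  have hnbc : (n : ℝ) ≤ b - c := by
    have : (n : ℝ) * 1 ≤ n * (s - k) := mul_le_mul_of_nonneg_left (by linarith) hn0.le
    linarith
  have hcn : (n : ℝ) ≤ c := by
    have : 1 * (n : ℝ) ≤ k * n := mul_le_mul_of_nonneg_right (by rw [hk]; linarith) hn0.le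
    linarith
  have hWpos : ∀ j, b ≤ j → 0 < W j := by
    intro j hj
    have : (b : ℝ) ≤ j := by exact_mod_cast hj
    exact Real.rpow_pos_of_pos (by linarith) _
  have hr0 : (1 : ℝ) ≤ ((I : ℝ) + 1) / n := by
    rw [le_div_iff₀ hn0]
    have : (b : ℝ) ≤ I := by exact_mod_cast hbI
    linarith
  have hmain := gapA (κ := 1) zero_le_one le_rfl hnb hbI (η := η) (δ := δ) (κ1 := κ1) (C := 6)
    (G := (((I : ℝ) + 1) / n) ^ 2) (Θ := b * (n + 1) * (1 + ν) / (b - c)) hη0.le hδ (by norm_num)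
    (by positivity) W hWpos ?_ ?_ (by rw [hκ1, hη]; linarith) ?_ ?_ M hM hΦ hrec hB
  · refine hmain.trans ?_
    have t1 : 2 * δ * (1 + η) * (((I : ℝ) + 1) / b) * (((I : ℝ) + 1) / n) ^ 2 ≤
        8 * δ * (((I : ℝ) + 1) / n) ^ 3 := by
      have h1 : ((I : ℝ) + 1) / b ≤ ((I : ℝ) + 1) / n :=
        div_le_div_of_nonneg_left (by positivity) hn0 (by linarith)
      calc 2 * δ * (1 + η) * (((I : ℝ) + 1) / b) * (((I : ℝ) + 1) / n) ^ 2
          ≤ 2 * δ * 4 * (((I : ℝ) + 1) / n) * (((I : ℝ) + 1) / n) ^ 2 := by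
            refine mul_le_mul_of_nonneg_right ?_ (by positivity)
            refine mul_le_mul (mul_le_mul_of_nonneg_left (by linarith) (by positivity)) h1
              (by positivity) (by positivity)
        _ = _ := by ring
    have t2 : η * (1 + η) * (b / ((b : ℝ) - n)) ≤ ν := by
      have h1 : (b : ℝ) / ((b : ℝ) - n) ≤ 2 := by
        rw [div_le_iff₀ (by linarith)]
        linarith
      have h2 : 0 ≤ (b : ℝ) / ((b : ℝ) - n) := div_nonneg hb0.le (by linarith)
      calc η * (1 + η) * (b / ((b : ℝ) - n)) ≤ η * 2 * 2 :=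
            mul_le_mul (mul_le_mul_of_nonneg_left (by linarith) hη0.le) h1 h2 (by positivity)
        _ ≤ ν := by rw [hη]; linarith
    have t3 : κ1 * (1 + η) * (b * (n + 1) * (1 + ν) / (b - c) / b) ≤ 1 / (s - 1) + 7 * ν := by
      have e : (b : ℝ) * (n + 1) * (1 + ν) / (b - c) / b = (n + 1) * (1 + ν) / (b - c) := by
        field_simp
      rw [e]
      have hbc0 : 0 < (b : ℝ) - c := by linarith
      have hsk0 : 0 < s - k := by linarith
      have h1 : ((n : ℝ) + 1) * (1 + ν) / (b - c) ≤ (1 + ν / 8) * (1 + ν) / (s - k) := by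
        rw [div_le_div_iff₀ hbc0 hsk0]
        calc ((n : ℝ) + 1) * (1 + ν) * (s - k) = ((n : ℝ) + 1) * ((1 + ν) * (s - k)) := by ring
          _ ≤ (1 + ν / 8) * n * ((1 + ν) * (s - k)) := by
              refine mul_le_mul_of_nonneg_right ?_ (by positivity)
              have : (1 + ν / 8) * (n : ℝ) = n + n * ν / 8 := by ring
              linarith
          _ = (1 + ν / 8) * (1 + ν) * (n * (s - k)) := by ring
          _ ≤ (1 + ν / 8) * (1 + ν) * (b - c) := mul_le_mul_of_nonneg_left hbc (by positivity)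
      have h2 : 1 / (s - k) ≤ 1 / (s - 1) + 3 * ν := by
        have h3 : 1 / (s - k) - 1 / (s - 1) = 3 * ν / ((s - k) * (s - 1)) := by
          rw [hk] at hsk0 ⊢
          have : s - 1 ≠ 0 := by linarith
          have : s - (1 + 3 * ν) ≠ 0 := hsk0.ne'
          field_simp
          ring
        have h4 : 3 * ν / ((s - k) * (s - 1)) ≤ 3 * ν := by
          refine div_le_self (by positivity) ?_
          nlinarith
        linarith
      have h5 : κ1 * (1 + η) * ((1 + ν / 8) * (1 + ν)) ≤ 1 + 5 / 2 * ν := by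
        rw [hκ1, hη]
        have a1 : (1 + ν / 2) * (1 + ν / 14) ≤ 1 + 3 / 5 * ν := by nlinarith
        have a2 : (1 + ν / 8) * (1 + ν) ≤ 1 + 13 / 10 * ν := by nlinarith
        calc (1 + ν / 2) * (1 + ν / 14) * ((1 + ν / 8) * (1 + ν)) ≤
              (1 + 3 / 5 * ν) * (1 + 13 / 10 * ν) :=
              mul_le_mul a1 a2 (by positivity) (by positivity)
          _ ≤ 1 + 5 / 2 * ν := by nlinarith
      have h6 : 1 / (s - 1) ≤ 1 := by
        rw [div_le_one (by linarith)]
        linarith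
      calc κ1 * (1 + η) * ((n + 1) * (1 + ν) / (b - c)) ≤
            κ1 * (1 + η) * ((1 + ν / 8) * (1 + ν) / (s - k)) :=
            mul_le_mul_of_nonneg_left h1 (by positivity)
        _ = κ1 * (1 + η) * ((1 + ν / 8) * (1 + ν)) * (1 / (s - k)) := by ring
        _ ≤ (1 + 5 / 2 * ν) * (1 / (s - 1) + 3 * ν) :=
            mul_le_mul h5 h2 (by positivity) (by positivity)
        _ ≤ 1 / (s - 1) + 7 * ν := by nlinarith
    have t4 : Φ * (η * (1 + η) * (b / ((b : ℝ) - n)) +
        κ1 * (1 + η) * (b * (n + 1) * (1 + ν) / (b - c) / b)) ≤ Φ * (1 / (s - 1) + τ) := by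
      refine mul_le_mul_of_nonneg_left ?_ hΦ
      linarith
    linarith
  · -- first coefficient bound
    intro j hj1 hj2
    have hjb : (b : ℝ) + 1 ≤ j := by exact_mod_cast hj1
    set x : ℝ := (j : ℝ) - c with hx
    have hx1 : (n : ℝ) ≤ x := by rw [hx]; linarith
    have hx0 : 0 < x := by linarith
    have hy1 : (n : ℝ) / x ≤ 1 := by rw [div_le_one hx0]; exact hx1
    have hy0 : 0 < (n : ℝ) / x := by positivity
    have h1 := bern2_up (x := x) (y := n) (ν := ν) hx0 hn0.le hν0.le (by linarith)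
    have h2 := bern2_down (x := x) (ν := ν) (by linarith) hν0.le (by linarith)
    have hWj : W j = x ^ (1 + ν) := rfl
    have hWn : W (j + n) = (x + n) ^ (1 + ν) := by
      show (((j + n : ℕ) : ℝ) - c) ^ (1 + ν) = _
      congr 1
      push_cast
      rw [hx]
      ring
    have hW1 : W (j - 1) = (x - 1) ^ (1 + ν) := by
      show (((j - 1 : ℕ) : ℝ) - c) ^ (1 + ν) = _
      congr 1
      rw [Nat.cast_sub (by omega)]
      push_cast
      rw [hx]
      ring
    rw [hWj, hWn, hW1, Real.rpow_one, sub_self, Real.rpow_zero, mul_one]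
    have hp : 0 < x ^ (1 + ν) := Real.rpow_pos_of_pos hx0 _
    set y : ℝ := (n : ℝ) / x with hy
    have hjx : (j : ℝ) = x * (1 + k * y) := by
      have : x * (1 + k * y) = x + k * n := by rw [hy]; field_simp
      rw [this, hx, hc]
      ring
    have hj0 : (0 : ℝ) < j := by linarith
    have hxi : 0 < 1 / x := by positivity
    have hxi6 : 1 / x ≤ 1 / 6 := one_div_le_one_div_of_le (by norm_num) (by linarith)
    have h3 : κ1 * ((1 + y) * (1 + ν * y)) ≤ (1 + k * y) * ((1 + ν) - ν * (1 / x)) := by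
      have e1 : κ1 * ((1 + y) * (1 + ν * y)) = κ1 + κ1 * (1 + ν) * y + κ1 * ν * (y * y) := by ring
      have e2 : (1 + k * y) * ((1 + ν) - ν * (1 / x)) = (1 + ν) + (1 + ν) * k * y -
          ν * (1 / x) * (1 + k * y) := by ring
      have h4 : y * y ≤ y := by nlinarith
      have h5 : κ1 * ν * (y * y) ≤ 2 * ν * y := by
        have : κ1 * ν * (y * y) ≤ 2 * ν * (y * y) := by
          refine mul_le_mul_of_nonneg_right ?_ (by positivity)
          exact mul_le_mul_of_nonneg_right (by rw [hκ1]; linarith) hν0.le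
        have : 2 * ν * (y * y) ≤ 2 * ν * y := mul_le_mul_of_nonneg_left h4 (by positivity)
        linarith
      have h6 : κ1 * (1 + ν) * y + 5 / 2 * ν * y ≤ (1 + ν) * k * y := by
        have e3 : (1 + ν) * k * y = κ1 * (1 + ν) * y + (1 + ν) * (5 / 2 * ν) * y := by
          rw [hk, hκ1]; ring
        rw [e3]
        have : 5 / 2 * ν * y ≤ (1 + ν) * (5 / 2 * ν) * y := by
          refine mul_le_mul_of_nonneg_right ?_ hy0.le
          nlinarith
        linarith
      have h7 : ν * (1 / x) * (1 + k * y) ≤ ν / 2 := by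
        have h8 : k * y ≤ 2 * 1 := mul_le_mul (by rw [hk]; linarith) hy1 hy0.le (by norm_num)
        calc ν * (1 / x) * (1 + k * y) ≤ ν * (1 / 6) * 3 :=
              mul_le_mul (mul_le_mul_of_nonneg_left hxi6 hν0.le) (by linarith) (by positivity)
                (by positivity)
          _ = ν / 2 := by ring
      rw [e1, e2]
      have h9 : 0 ≤ ν * y := by positivity
      rw [hκ1] at *
      linarith
    have h4 : κ1 * (x + n) ^ (1 + ν) ≤ x ^ (1 + ν) * (κ1 * ((1 + y) * (1 + ν * y))) := by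
      have := mul_le_mul_of_nonneg_left h1 (show (0 : ℝ) ≤ κ1 by rw [hκ1]; linarith)
      calc κ1 * (x + n) ^ (1 + ν) ≤ κ1 * (x ^ (1 + ν) * ((1 + y) * (1 + ν * y))) := this
        _ = _ := by ring
    have h5 : x ^ (1 + ν) * ((1 + k * y) * ((1 + ν) - ν * (1 / x))) ≤
        j * x ^ (1 + ν) - j * (x - 1) ^ (1 + ν) := by
      have h6 := mul_le_mul_of_nonneg_left h2 hj0.le
      have e1 : (j : ℝ) * x ^ (1 + ν) - j * (x ^ (1 + ν) * ((1 - 1 / x) * (1 - ν / x))) =
          x ^ (1 + ν) * ((1 + k * y) * ((1 + ν) - ν * (1 / x))) := by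
        rw [hjx]
        field_simp
        ring
      linarith
    have h6 := mul_le_mul_of_nonneg_left h3 hp.le
    linarith
  · -- second coefficient bound
    intro j hj1 hj2
    have hjb : (b : ℝ) + 1 ≤ j := by exact_mod_cast hj1
    set x : ℝ := (j : ℝ) - c with hx
    have hx1 : (n : ℝ) ≤ x := by rw [hx]; linarith
    have hx0 : 0 < x := by linarith
    have h2 := bern2_low (x := x) (ν := ν) (by linarith) hν0.le (by linarith)
    have hWj : W j = x ^ (1 + ν) := rfl
    have hW1 : W (j - 1) = (x - 1) ^ (1 + ν) := by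
      show (((j - 1 : ℕ) : ℝ) - c) ^ (1 + ν) = _
      congr 1
      rw [Nat.cast_sub (by omega)]
      push_cast
      rw [hx]
      ring
    rw [hWj, hW1, Real.rpow_one, sub_self, Real.rpow_zero, mul_one]
    have hp : 0 < x ^ (1 + ν) := Real.rpow_pos_of_pos hx0 _
    have hj0 : (0 : ℝ) < j := by linarith
    have hjx : (j : ℝ) ≤ 3 * x := by
      have h3 : c ≤ 2 * n := by
        rw [hc]
        exact mul_le_mul_of_nonneg_right (by rw [hk]; linarith) hn0.le
      have : (j : ℝ) = x + c := by rw [hx]; ring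
      linarith
    have h4 := mul_le_mul_of_nonneg_left h2 hj0.le
    have h5 : (j : ℝ) * x ^ (1 + ν) - j * (x ^ (1 + ν) * (1 - 2 / x)) = 2 * (j / x) * x ^ (1 + ν) := by
      field_simp
      ring
    have h6 : 2 * ((j : ℝ) / x) * x ^ (1 + ν) ≤ 6 * x ^ (1 + ν) := by
      refine mul_le_mul_of_nonneg_right ?_ hp.le
      have : (j : ℝ) / x ≤ 3 := by rw [div_le_iff₀ hx0]; exact hjx
      linarith
    linarith
  · -- growth
    have hbc0 : 0 < (b : ℝ) - c := by linarith
    have hIb : (b : ℝ) ≤ I := by exact_mod_cast hbI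
    show ((I : ℝ) - c) ^ (1 + ν) ≤ (((I : ℝ) + 1) / n) ^ 2 * ((b : ℝ) - c) ^ (1 + ν)
    have h1 : ((I : ℝ) - c) ^ (1 + ν) = (((I : ℝ) - c) / (b - c)) ^ (1 + ν) *
        ((b : ℝ) - c) ^ (1 + ν) := by
      rw [← Real.mul_rpow (div_nonneg (by linarith) hbc0.le) hbc0.le]
      congr 1
      field_simp
    rw [h1]
    refine mul_le_mul_of_nonneg_right ?_ (by positivity)
    have h2 : ((I : ℝ) - c) / (b - c) ≤ ((I : ℝ) + 1) / n :=
      div_le_div₀ (by positivity) (by linarith) hn0 hnbc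
    calc (((I : ℝ) - c) / (b - c)) ^ (1 + ν) ≤ (((I : ℝ) + 1) / n) ^ (1 + ν) :=
          Real.rpow_le_rpow (div_nonneg (by linarith) hbc0.le) h2 (by linarith)
      _ ≤ (((I : ℝ) + 1) / n) ^ ((2 : ℕ) : ℝ) := by
          refine Real.rpow_le_rpow_of_exponent_le hr0 ?_
          push_cast
          linarith
      _ = _ := Real.rpow_natCast _ 2
  · -- boundary
    have hbc0 : 0 < (b : ℝ) - c := by linarith
    have hterm : ∀ i ∈ Icc (b - n) b, W (i + n) * ((b : ℝ) ^ (1 : ℝ) / (i : ℝ) ^ (1 : ℝ)) ≤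
        b * (((b : ℝ) - c) ^ ν * (1 + ν)) := by
      intro i hi
      obtain ⟨hi1, hi2⟩ := mem_Icc.1 hi
      have hi0 : (0 : ℝ) < i := by exact_mod_cast (by omega : 0 < i)
      have hib : (i : ℝ) ≤ b := by exact_mod_cast hi2
      have hin : (b : ℝ) ≤ i + n := by exact_mod_cast (by omega : b ≤ i + n)
      rw [Real.rpow_one, Real.rpow_one]
      have hv0 : 0 < (i : ℝ) + n - c := by linarith
      have h1 : W (i + n) = ((i : ℝ) + n - c) * ((i : ℝ) + n - c) ^ ν := by
        show (((i + n : ℕ) : ℝ) - c) ^ (1 + ν) = _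
        push_cast
        rw [Real.rpow_add hv0, Real.rpow_one]
      have h2 : ((i : ℝ) + n - c) ^ ν ≤ ((b : ℝ) - c) ^ ν * (1 + ν) := by
        calc ((i : ℝ) + n - c) ^ ν ≤ (((b : ℝ) - c) + n) ^ ν :=
              Real.rpow_le_rpow hv0.le (by linarith) hν0.le
          _ ≤ ((b : ℝ) - c) ^ ν * (1 + ν * (n / ((b : ℝ) - c))) :=
              bern_up hbc0 hn0.le hν0.le (by linarith)
          _ ≤ ((b : ℝ) - c) ^ ν * (1 + ν) := by
              refine mul_le_mul_of_nonneg_left ?_ (by positivity)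
              have : (n : ℝ) / ((b : ℝ) - c) ≤ 1 := by rw [div_le_one hbc0]; exact hnbc
              nlinarith
      rw [h1]
      have h3 : ((i : ℝ) + n - c) / i ≤ 1 := by rw [div_le_one hi0]; linarith
      calc ((i : ℝ) + n - c) * ((i : ℝ) + n - c) ^ ν * (b / i) =
            (((i : ℝ) + n - c) / i) * (b * ((i : ℝ) + n - c) ^ ν) := by ring
        _ ≤ 1 * (b * (((b : ℝ) - c) ^ ν * (1 + ν))) := by
            refine mul_le_mul h3 (mul_le_mul_of_nonneg_left h2 hb0.le) (by positivity) zero_le_one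
        _ = _ := one_mul _
    refine (sum_le_sum hterm).trans ?_
    rw [sum_const, Nat.card_Icc, nsmul_eq_mul, show b + 1 - (b - n) = n + 1 by omega]
    show _ ≤ _ * ((b : ℝ) - c) ^ (1 + ν)
    rw [Real.rpow_add hbc0, Real.rpow_one]
    refine le_of_eq ?_
    push_cast
    field_simp

end HD44
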