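import Pool.Agent.HD44.GapB

/-!
# The gap lemma in all dimensions between zero and one
-/

namespace HD44

open Finset

theorem sum_pow2 {κ : ℝ} (h0 : 0 ≤ κ) (h1 : κ < 1) {m : ℕ} (hm : 1 ≤ m) {b : ℕ} (hb : m ≤ b) :
    ∑ k ∈ Icc m b, ((k : ℝ) ^ κ)⁻¹ ≤
      ((m : ℝ) ^ κ)⁻¹ + ((b : ℝ) ^ (1 - κ) - (m : ℝ) ^ (1 - κ)) / (1 - κ) := by
  induction b, hb using Nat.le_induction with
  | base => rw [Icc_self, sum_singleton]; simp
  | succ b hb ih =>
    rw [Finset.sum_Icc_succ_top (by omega)]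
    have h2 := rpow_low h0 h1.le (j := b + 1) (by omega)
    have h3 : (0 : ℝ) < ((b + 1 : ℕ) : ℝ) ^ κ := by positivity
    have e : ((b + 1 : ℕ) : ℝ) - 1 = b := by push_cast; ring
    rw [e] at h2
    have h4 : (((b + 1 : ℕ) : ℝ) ^ κ)⁻¹ ≤
        (((b + 1 : ℕ) : ℝ) ^ (1 - κ) - (b : ℝ) ^ (1 - κ)) / (1 - κ) := by
      rw [le_div_iff₀ (by linarith), inv_mul_le_iff₀ h3]
      exact h2
    have e2 : (((b + 1 : ℕ) : ℝ) ^ (1 - κ) - (m : ℝ) ^ (1 - κ)) / (1 - κ) =
        (((b + 1 : ℕ) : ℝ) ^ (1 - κ) - (b : ℝ) ^ (1 - κ)) / (1 - κ) +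
        ((b : ℝ) ^ (1 - κ) - (m : ℝ) ^ (1 - κ)) / (1 - κ) := by ring
    linarith

theorem low_bound {κ : ℝ} (h0 : 0 ≤ κ) (h1 : κ < 1) {n b : ℝ} (hn : 0 ≤ n) (hnb : n < b) :
    b ^ κ * ((b ^ (1 - κ) - (b - n) ^ (1 - κ)) / (1 - κ)) ≤ b * (n / (b - κ * n)) := by
  have hb : 0 < b := by linarith
  have hbn : 0 < b - n := by linarith
  have hκn : κ * n ≤ n := mul_le_of_le_one_left hn h1.le
  have hbκ : 0 < b - κ * n := by linarith
  have e1 : b ^ κ * b ^ (1 - κ) = b := by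
    rw [← Real.rpow_add hb]
    simp
  have e2 : (b - n) ^ κ * (b - n) ^ (1 - κ) = b - n := by
    rw [← Real.rpow_add hbn]
    simp
  have h2 : (b - n) ^ κ ≤ b ^ κ * (1 - κ * n / b) := by
    have h3 : b - n = b * (1 + -(n / b)) := by field_simp; ring
    have h4 : n / b ≤ 1 := by rw [div_le_one hb]; exact hnb.le
    rw [h3, Real.mul_rpow hb.le (by linarith)]
    refine mul_le_mul_of_nonneg_left ?_ (by positivity)
    have h5 := rpow_one_add_le_one_add_mul_self (s := -(n / b)) (p := κ) (by linarith) h0 h1.le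
    calc (1 + -(n / b)) ^ κ ≤ 1 + κ * -(n / b) := h5
      _ = 1 - κ * n / b := by ring
  set X : ℝ := b ^ κ * (b - n) ^ (1 - κ) with hX
  have h3 : b * (b - n) ≤ (b - κ * n) * X := by
    have h4 := mul_le_mul_of_nonneg_right h2 (show (0 : ℝ) ≤ (b - n) ^ (1 - κ) by positivity)
    rw [e2] at h4
    have h5 := mul_le_mul_of_nonneg_left h4 hb.le
    have e3 : b * (b ^ κ * (1 - κ * n / b) * (b - n) ^ (1 - κ)) = (b - κ * n) * X := by
      rw [hX]
      field_simp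
    rw [e3] at h5
    exact h5
  have e4 : b ^ κ * ((b ^ (1 - κ) - (b - n) ^ (1 - κ)) / (1 - κ)) = (b - X) / (1 - κ) := by
    rw [hX, ← mul_div_assoc, mul_sub, e1]
  rw [e4, ← mul_div_assoc, div_le_div_iff₀ (by linarith) hbκ]
  have e5 : (b - X) * (b - κ * n) = b * (b - κ * n) - (b - κ * n) * X := by ring
  have e6 : b * n * (1 - κ) = b * (b - κ * n) - b * (b - n) := by ring
  linarith

theorem gapOK_low {κ s τ : ℝ} (h0 : 0 ≤ κ) (h1 : κ < 1 / 2) (hs : 1 ≤ s) (hτ : 0 < τ)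
    (hτ1 : τ ≤ 1) : GapOK κ s τ := by
  set n : ℕ := ⌈16 / τ ^ 2⌉₊ with hn
  have hn8 : 16 / τ ^ 2 ≤ (n : ℝ) := Nat.le_ceil _
  have hτ2 : τ ^ 2 ≤ τ := by nlinarith
  have hnτ2 : 16 ≤ n * τ ^ 2 := by
    rw [div_le_iff₀ (by positivity)] at hn8
    exact hn8
  have hnτ : 16 ≤ n * τ := by
    have := mul_le_mul_of_nonneg_left hτ2 (Nat.cast_nonneg (α := ℝ) n)
    linarith
  have hn16 : (16 : ℝ) ≤ n := by
    have := mul_le_mul_of_nonneg_left hτ1 (Nat.cast_nonneg (α := ℝ) n)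
    linarith
  have hn0 : (0 : ℝ) < n := by linarith
  have hn1 : 1 ≤ n := by
    have : 0 < n := by exact_mod_cast hn0
    omega
  set b : ℕ := ⌈s * n⌉₊ + 1 with hb
  have hsn : 0 < s * n := by positivity
  have hbl : s * n + 1 ≤ (b : ℝ) := by rw [hb]; push_cast; linarith [Nat.le_ceil (s * n)]
  have hbu : (b : ℝ) ≤ s * n + 2 := by
    rw [hb]
    push_cast
    linarith [Nat.ceil_lt_add_one hsn.le]
  have hsn1 : 1 * (n : ℝ) ≤ s * n := mul_le_mul_of_nonneg_right hs hn0.le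
  have hbn : (n : ℝ) + 1 ≤ b := by linarith
  have hnb : n < b := by
    have : (n : ℝ) < b := by linarith
    exact_mod_cast this
  have hb0 : (0 : ℝ) < b := by linarith
  set η : ℝ := min ((1 - 2 * κ) / 2) (τ / (16 * b)) with hη
  have hη0 : 0 < η := lt_min (by linarith) (by positivity)
  have hηκ : 2 * η ≤ 1 - 2 * κ := by
    have : η ≤ (1 - 2 * κ) / 2 := min_le_left _ _
    linarith
  have hηb : 16 * (η * b) ≤ τ := by
    have h2 : η ≤ τ / (16 * b) := min_le_right _ _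
    rw [le_div_iff₀ (by positivity)] at h2
    linarith
  have hη16 : 256 * η ≤ τ := by
    have : η * 16 ≤ η * b := mul_le_mul_of_nonneg_left (by linarith) hη0.le
    linarith
  refine ⟨n, b, η, hn1, hnb, ?_, hη0, by linarith, ?_⟩
  · have e : s * (1 + τ) * n = s * n + s * (τ * n) := by ring
    have h3 : 1 * (τ * n) ≤ s * (τ * n) := mul_le_mul_of_nonneg_right hs (by positivity)
    linarith
  intro I δ Φ M hbI hδ hΦ hM hrec hB
  set m : ℕ := b - n with hm
  have hm1 : 1 ≤ m := by omega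
  have hmr : (m : ℝ) = (b : ℝ) - n := by rw [hm, Nat.cast_sub hnb.le]
  have hm0 : (1 : ℝ) ≤ m := by exact_mod_cast hm1
  set Θ : ℝ := (b : ℝ) ^ κ * (((m : ℝ) ^ κ)⁻¹ +
    ((b : ℝ) ^ (1 - κ) - (m : ℝ) ^ (1 - κ)) / (1 - κ)) with hΘ
  have hΘb : Θ ≤ b * (τ / 4 + n / ((b : ℝ) - κ * n)) := by
    have h2 := low_bound h0 (show κ < 1 by linarith) hn0.le (show (n : ℝ) < b by linarith)
    rw [← hmr] at h2
    have h3 : (b : ℝ) ^ κ * ((m : ℝ) ^ κ)⁻¹ ≤ b * (τ / 4) := by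
      have h4 : ((m : ℝ) ^ κ)⁻¹ ≤ 1 := inv_le_one_of_one_le₀ (Real.one_le_rpow hm0 h0)
      have h5 : (b : ℝ) ^ κ ≤ Real.sqrt b := by
        rw [Real.sqrt_eq_rpow]
        exact Real.rpow_le_rpow_of_exponent_le (by linarith) h1.le
      have h6 : Real.sqrt b * Real.sqrt b = b := Real.mul_self_sqrt hb0.le
      have h7 : 4 ≤ τ * Real.sqrt b := by
        have h8 : (4 : ℝ) ^ 2 ≤ (τ * Real.sqrt b) ^ 2 := by
          have e : (τ * Real.sqrt b) ^ 2 = τ ^ 2 * (Real.sqrt b * Real.sqrt b) := by ring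
          rw [e, h6]
          have : (n : ℝ) * τ ^ 2 ≤ τ ^ 2 * b := by
            rw [mul_comm]
            exact mul_le_mul_of_nonneg_left (by linarith) (by positivity)
          linarith
        exact le_of_sq_le_sq h8 (by positivity)
      calc (b : ℝ) ^ κ * ((m : ℝ) ^ κ)⁻¹ ≤ Real.sqrt b * 1 :=
            mul_le_mul h5 h4 (by positivity) (by positivity)
        _ ≤ b * (τ / 4) := by
            have h9 := mul_le_mul_of_nonneg_right h7 (Real.sqrt_nonneg (b : ℝ))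
            have e : τ * Real.sqrt b * Real.sqrt b = τ * b := by rw [mul_assoc, h6]
            rw [e] at h9
            linarith
    rw [hΘ, mul_add, mul_add]
    linarith
  have hmain := gapA (κ := κ) h0 (by linarith) hnb hbI (η := η) (δ := δ) (κ1 := κ + 2 * η)
    (C := 1) (G := 1) (Θ := Θ) hη0.le hδ zero_le_one zero_le_one (fun _ => 1)
    (fun _ _ => one_pos) ?_ ?_ ?_ ?_ ?_ M hM hΦ hrec hB
  · refine hmain.trans ?_
    have hIb : (b : ℝ) ≤ I := by exact_mod_cast hbI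
    have hr0 : (1 : ℝ) ≤ ((I : ℝ) + 1) / n := by
      rw [le_div_iff₀ hn0]
      linarith
    have t1 : 2 * δ * (1 + η) * (((I : ℝ) + 1) / b) * 1 ≤ 8 * δ * (((I : ℝ) + 1) / n) ^ 3 := by
      have h1 : ((I : ℝ) + 1) / b ≤ ((I : ℝ) + 1) / n :=
        div_le_div_of_nonneg_left (by positivity) hn0 (by linarith)
      have h2 : ((I : ℝ) + 1) / n ≤ (((I : ℝ) + 1) / n) ^ 3 := by
        calc ((I : ℝ) + 1) / n = (((I : ℝ) + 1) / n) ^ 1 := (pow_one _).symm
          _ ≤ _ := pow_le_pow_right₀ hr0 (by norm_num)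
      calc 2 * δ * (1 + η) * (((I : ℝ) + 1) / b) * 1 ≤ 2 * δ * 4 * (((I : ℝ) + 1) / n) := by
            rw [mul_one]
            exact mul_le_mul (mul_le_mul_of_nonneg_left (by linarith) (by positivity)) h1
              (by positivity) (by positivity)
        _ = 8 * δ * (((I : ℝ) + 1) / n) := by ring
        _ ≤ _ := mul_le_mul_of_nonneg_left h2 (by positivity)
    have t2 : η * (1 + η) * (b / ((b : ℝ) - n)) ≤ τ / 8 := by
      have h1 : (b : ℝ) / ((b : ℝ) - n) ≤ b := div_le_self hb0.le (by linarith)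
      have h2 : 0 ≤ (b : ℝ) / ((b : ℝ) - n) := div_nonneg hb0.le (by linarith)
      calc η * (1 + η) * (b / ((b : ℝ) - n)) ≤ η * 2 * b :=
            mul_le_mul (mul_le_mul_of_nonneg_left (by linarith) hη0.le) h1 h2 (by positivity)
        _ ≤ τ / 8 := by linarith
    have t3 : (κ + 2 * η) * (1 + η) * (Θ / b) ≤ κ / (s - κ) + 7 / 8 * τ := by
      have hκn : κ * n ≤ 1 / 2 * n := mul_le_mul_of_nonneg_right h1.le hn0.le
      have hbκ : 0 < (b : ℝ) - κ * n := by linarith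
      have h2 : Θ / b ≤ τ / 4 + n / ((b : ℝ) - κ * n) := by
        rw [div_le_iff₀ hb0, mul_comm]
        exact hΘb
      have h3 : (n : ℝ) / ((b : ℝ) - κ * n) ≤ 1 / (s - κ) := by
        rw [div_le_div_iff₀ hbκ (by linarith)]
        have : (n : ℝ) * (s - κ) = s * n - κ * n := by ring
        linarith
      have h4 : 1 / (s - κ) ≤ 2 := by
        rw [div_le_iff₀ (by linarith)]
        linarith
      have h5 : (κ + 2 * η) * (1 + η) ≤ κ + 5 * η := by nlinarith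
      have h6 : 0 ≤ 1 / (s - κ) := div_nonneg zero_le_one (by linarith)
      calc (κ + 2 * η) * (1 + η) * (Θ / b) ≤ (κ + 2 * η) * (1 + η) * (τ / 4 + 1 / (s - κ)) :=
            mul_le_mul_of_nonneg_left (h2.trans (by linarith)) (by positivity)
        _ ≤ (κ + 5 * η) * (τ / 4 + 1 / (s - κ)) :=
            mul_le_mul_of_nonneg_right h5 (by positivity)
        _ = κ / (s - κ) + κ * (τ / 4) + 5 * η * (τ / 4) + 5 * η * (1 / (s - κ)) := by ring
        _ ≤ κ / (s - κ) + 1 * (τ / 4) + 5 * η * 1 + 5 * η * 2 := by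
            have a1 : κ * (τ / 4) ≤ 1 * (τ / 4) :=
              mul_le_mul_of_nonneg_right (by linarith) (by positivity)
            have a2 : 5 * η * (τ / 4) ≤ 5 * η * 1 :=
              mul_le_mul_of_nonneg_left (by linarith) (by positivity)
            have a3 : 5 * η * (1 / (s - κ)) ≤ 5 * η * 2 :=
              mul_le_mul_of_nonneg_left h4 (by positivity)
            linarith
        _ ≤ _ := by linarith
    have t4 : Φ * (η * (1 + η) * (b / ((b : ℝ) - n)) + (κ + 2 * η) * (1 + η) * (Θ / b)) ≤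
        Φ * (κ / (s - κ) + τ) := by
      refine mul_le_mul_of_nonneg_left ?_ hΦ
      linarith
    linarith
  · intro j hj1 hj2
    have h2 := gm1 h0 (show κ ≤ 1 by linarith) (j := (j : ℝ)) (by
      exact_mod_cast (by omega : 1 ≤ j))
    show (κ + 2 * η) * 1 ≤ (j : ℝ) * 1 - (j : ℝ) ^ κ * ((j : ℝ) - 1) ^ (1 - κ) * 1
    linarith
  · intro j hj1 hj2
    have h2 := gm2 h0 (j := (j : ℝ)) (by exact_mod_cast (by omega : 1 < j))
    show (j : ℝ) * 1 - (j : ℝ) ^ κ * ((j : ℝ) - 1) ^ (1 - κ) * 1 ≤ 1 * 1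
    linarith
  · have : η * κ ≤ η * 1 := mul_le_mul_of_nonneg_left (by linarith) hη0.le
    linarith
  · exact le_of_eq (by norm_num)
  · show ∑ k ∈ Icc (b - n) b, (1 : ℝ) * ((b : ℝ) ^ κ / (k : ℝ) ^ κ) ≤ Θ * 1
    have h2 := sum_pow2 h0 (show κ < 1 by linarith) hm1 (show m ≤ b by omega)
    rw [mul_one, hΘ, ← hm]
    calc ∑ k ∈ Icc m b, (1 : ℝ) * ((b : ℝ) ^ κ / (k : ℝ) ^ κ) =
          (b : ℝ) ^ κ * ∑ k ∈ Icc m b, ((k : ℝ) ^ κ)⁻¹ := by
          rw [mul_sum]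
          exact sum_congr rfl fun k _ => by rw [one_mul, div_eq_mul_inv]
      _ ≤ _ := mul_le_mul_of_nonneg_left h2 (by positivity)

end HD44
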