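import Pool.Agent.HD44.Fin5

/-!
# A lower bound for the number of integers outside arbitrary classes of all small primes
-/

namespace HD44

open Finset YX49 RS44

/-- Mertens: the primes have dimension one -/
theorem dim_all {x : ℕ} {c : ℝ} (hxc : 4 ≤ (x : ℝ) ^ c) (R S : Finset ℕ) :
    Dim x R S 1 (2 * (9 + Pool.Agent.E456.cpp)) c := by
  intro u v hu huv hv
  have hcpp := Pool.Agent.E456.cpp_nonneg
  have hu4 : 4 ≤ u := hxc.trans hu
  have hu0 : 0 < u := by linarith
  have hv0 : 0 < v := by linarith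
  set M : ℕ := ⌊u⌋₊ with hM
  set N : ℕ := ⌊v⌋₊ with hN
  have hM1 : u / 2 ≤ (M : ℝ) := floor_half (by linarith)
  have hM2 : (M : ℝ) ≤ u := Nat.floor_le hu0.le
  have hN2 : (N : ℝ) ≤ v := Nat.floor_le hv0.le
  have hMN : M ≤ N := Nat.floor_mono huv
  have hM4 : (2 : ℝ) ≤ M := by linarith
  have hM2' : 2 ≤ M := by exact_mod_cast hM4
  have hM0 : (0 : ℝ) < M := by linarith
  have hN0 : (0 : ℝ) < N := by
    have : (M : ℝ) ≤ N := by exact_mod_cast hMN
    linarith
  have hlM : 0 < Real.log M := Real.log_pos (by linarith)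
  have hlMN : Real.log M ≤ Real.log N := Real.log_le_log hM0 (by exact_mod_cast hMN)
  have hlu : 0 < Real.log u := Real.log_pos (by linarith)
  have hluv : Real.log u ≤ Real.log v := Real.log_le_log hu0 huv
  have hlog2 : Real.log 2 ≤ 1 := by
    have := Real.log_two_lt_d9
    linarith
  have hlMu : Real.log u - Real.log 2 ≤ Real.log M := by
    rw [← Real.log_div hu0.ne' (by norm_num)]
    exact Real.log_le_log (by positivity) hM1
  have hlu2 : 2 * Real.log 2 ≤ Real.log u := by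
    have : Real.log 4 = 2 * Real.log 2 := by
      rw [show (4 : ℝ) = 2 ^ 2 by norm_num, Real.log_pow]
      norm_num
    rw [← this]
    exact Real.log_le_log (by norm_num) hu4
  have hlMu2 : Real.log u / 2 ≤ Real.log M := by linarith
  have hmer := (abs_le.1 (Pool.Agent.E456.mertens2_interval M N hM2' hMN)).2
  have hsub : ∑ p ∈ (prs x).filter (fun p : ℕ => u < p ∧ (p : ℝ) ≤ v ∧ p ∉ R ∧ p ∉ S), 1 / (p : ℝ) ≤
      ∑ p ∈ (Ioc M N).filter Nat.Prime, (1 : ℝ) / p := by
    refine sum_le_sum_of_subset_of_nonneg ?_ fun p _ _ => by positivity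
    intro p hp
    obtain ⟨h1, h2, h3, _⟩ := mem_filter.1 hp
    refine mem_filter.2 ⟨mem_Ioc.2 ⟨(Nat.floor_lt hu0.le).2 h2, Nat.le_floor h3⟩, (mem_prs.1 h1).1⟩
  have h1 : Real.log (Real.log N) ≤ Real.log (Real.log v) :=
    Real.log_le_log (by linarith) (Real.log_le_log hN0 hN2)
  have h2 : Real.log (Real.log u) - Real.log (Real.log M) ≤ 2 / Real.log u := by
    rw [← Real.log_div hlu.ne' hlM.ne']
    have h3 := Real.log_le_sub_one_of_pos (div_pos hlu hlM)
    have h4 : Real.log u / Real.log M - 1 = (Real.log u - Real.log M) / Real.log M := by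
      field_simp
    have h5 : (Real.log u - Real.log M) / Real.log M ≤ 2 / Real.log u := by
      rw [div_le_div_iff₀ hlM hlu]
      have h6 : (Real.log u - Real.log M) * Real.log u ≤ 1 * Real.log u :=
        mul_le_mul_of_nonneg_right (by linarith) hlu.le
      linarith
    linarith
  have h3 : (8 + Pool.Agent.E456.cpp) / Real.log M ≤ 2 * (8 + Pool.Agent.E456.cpp) / Real.log u := by
    rw [div_le_div_iff₀ hlM hlu]
    have := mul_le_mul_of_nonneg_left hlMu2 (show 0 ≤ 2 * (8 + Pool.Agent.E456.cpp) by positivity)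
    linarith
  have h4 : Real.log (Real.log v / Real.log u) = Real.log (Real.log v) - Real.log (Real.log u) :=
    Real.log_div (by linarith) hlu.ne'
  have h5 : 2 * (9 + Pool.Agent.E456.cpp) / Real.log u = 2 * (8 + Pool.Agent.E456.cpp) / Real.log u +
      2 / Real.log u := by ring
  rw [h4, h5, one_mul]
  linarith

theorem low_all (α β : ℝ) (hα : 0 < α) (h2 : 2 * α < β) : ∃ c0 : ℝ, 0 < c0 ∧ ∃ x0 : ℕ, ∀ x : ℕ,
    x0 ≤ x → ∀ b : ℕ → ℕ, c0 * ((x : ℝ) ^ β / Real.log x) ≤
      ((sift ⌊(x : ℝ) ^ β⌋₊ 1 0 (prs ⌊(x : ℝ) ^ α⌋₊) b).card : ℝ) := by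
  have hβ0 : 0 < β := by linarith
  set γ : ℝ := (2 * α + β) / 2 with hγ
  have hγ1 : 2 * α < γ := by rw [hγ]; linarith
  have hγβ : γ < β := by rw [hγ]; linarith
  have hγ0 : 0 < γ := by linarith
  set T : ℝ := (γ - 2 * α) / (γ - α) with hT
  have hT0 : 0 < T := div_pos (by linarith) (by linarith)
  have hT1 : T ≤ 1 := by
    rw [hT, div_le_one (by linarith)]
    linarith
  set τ : ℝ := min (T / 8) ((β - γ) / (2 * γ)) with hτd
  have hτ0 : 0 < τ := lt_min (by positivity) (div_pos (by linarith) (by positivity))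
  have hτT : 8 * τ ≤ T := by
    have : τ ≤ T / 8 := min_le_left _ _
    linarith
  have hτγ : γ * τ ≤ (β - γ) / 2 := by
    have h1 : τ ≤ (β - γ) / (2 * γ) := min_le_right _ _
    rw [le_div_iff₀ (by positivity)] at h1
    linarith
  have hτ1 : τ ≤ 1 := by linarith
  set σ : ℝ := min ((β - γ) / 2) (min α (1 / 2)) with hσd
  have hσ0 : 0 < σ := lt_min (by linarith) (lt_min hα (by norm_num))
  have hσγ : σ ≤ (β - γ) / 2 := min_le_left _ _
  have hσα : σ ≤ α := (min_le_right _ _).trans (min_le_left _ _)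
  have hσ1 : σ ≤ 1 / 2 := (min_le_right _ _).trans (min_le_right _ _)
  obtain ⟨n, B, η, hn1, hnB, hBs, hηpos, hητ, hgap⟩ := gapOK' (κ := 1) (s := γ / α) (τ := τ)
    zero_le_one le_rfl
    (by rw [le_div_iff₀ hα]; linarith) (by rw [lt_div_iff₀ hα]; linarith) hτ0 hτ1
  have hgT : 1 / (γ / α - 1) = 1 - T := by
    have h1 : γ / α - 1 = (γ - α) / α := by field_simp
    have h3 : γ - α ≠ 0 := by linarith
    rw [h1, hT, eq_sub_iff_add_eq, one_div_div, ← add_div, div_eq_one_iff_eq h3]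
    ring
  set CI : ℝ := 8 * β / σ + 1 with hCI
  have hCI1 : 1 ≤ CI := by
    have : 0 ≤ 8 * β / σ := by positivity
    linarith
  set δ0 : ℝ := T / (384 * CI ^ 3) with hδ0
  have hδ00 : 0 < δ0 := by positivity
  have hδ0e : δ0 * (384 * CI ^ 3) = T := by rw [hδ0]; field_simp
  have hδ01 : δ0 ≤ 1 := by
    rw [hδ0, div_le_one (by positivity)]
    have : (1 : ℝ) ≤ CI ^ 3 := one_le_pow₀ hCI1
    linarith
  obtain ⟨s, hs1, hF0⟩ := fund3 δ0 hδ00 hδ01
  have hs' : (1 : ℝ) ≤ s := by exact_mod_cast hs1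
  set θ : ℝ := δ0 / (s : ℝ) ^ 3 with hθ
  have hθ0 : 0 < θ := by positivity
  have hθs : θ * (s : ℝ) ^ 3 = δ0 := by rw [hθ]; field_simp
  have hθ1 : θ ≤ 1 := by
    rw [hθ, div_le_one (by positivity)]
    have : (1 : ℝ) ≤ (s : ℝ) ^ 3 := one_le_pow₀ hs'
    linarith
  have htwo := sift_two3 hθ0 hθ1 hF0
  set c : ℝ := σ / (8 * s) with hc
  have hc0 : 0 < c := by positivity
  have hcs : c * (8 * s) = σ := by rw [hc]; field_simp
  have hcσ : c * 8 ≤ σ := by
    have : c * 8 ≤ c * (8 * s) := mul_le_mul_of_nonneg_left (by linarith) hc0.le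
    linarith
  have hc1 : c ≤ 1 / 16 := by linarith
  obtain ⟨c3, hc3, hmert⟩ := mert_lower
  have hcpp := Pool.Agent.E456.cpp_nonneg
  set A : ℝ := 2 * (9 + Pool.Agent.E456.cpp) with hA
  have hA0 : 0 < A := by positivity
  have hlη : 0 < Real.log (1 + η) := Real.log_pos (by linarith)
  set U1 : ℝ := 4 / c with hU1
  set U2 : ℝ := 4 / (θ * σ) with hU2
  set U4 : ℝ := (A + 1) / (c * Real.log (1 + η)) with hU4
  have hU10 : 0 < U1 := by positivity
  have hU20 : 0 < U2 := by positivity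
  have hU40 : 0 < U4 := by positivity
  refine ⟨T / 2 * (c3 / α) / 2, by positivity, ⌈Real.exp (U1 + U2 + U4)⌉₊ + 2, fun x hx b => ?_⟩
  have hx2 : 2 ≤ x := by omega
  have hx0 : (0 : ℝ) < x := by exact_mod_cast (by omega : 0 < x)
  set l : ℝ := Real.log x with hl
  have hUl : U1 + U2 + U4 ≤ l := by
    rw [hl, ← Real.log_exp (U1 + U2 + U4)]
    refine Real.log_le_log (Real.exp_pos _) ?_
    have h1 : Real.exp (U1 + U2 + U4) ≤ (⌈Real.exp (U1 + U2 + U4)⌉₊ : ℝ) := Nat.le_ceil _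
    have h2 : ((⌈Real.exp (U1 + U2 + U4)⌉₊ : ℕ) : ℝ) ≤ (x : ℝ) := by
      exact_mod_cast (by omega : ⌈Real.exp (U1 + U2 + U4)⌉₊ ≤ x)
    linarith
  have hl0 : 0 < l := by linarith
  have hcl : 4 ≤ c * l := by
    have h1 : U1 ≤ l := by linarith
    rw [hU1, div_le_iff₀ hc0] at h1
    linarith
  have hθσ : 4 ≤ θ * (σ * l) := by
    have h1 : U2 ≤ l := by linarith
    rw [hU2, div_le_iff₀ (by positivity)] at h1
    linarith
  have hAl : A + 1 ≤ c * Real.log (1 + η) * l := by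
    have h1 : U4 ≤ l := by linarith
    rw [hU4, div_le_iff₀ (by positivity)] at h1
    linarith
  have hpow : ∀ r : ℝ, (x : ℝ) ^ r = Real.exp (r * l) := fun r => by
    rw [Real.rpow_def_of_pos hx0, mul_comm]
  set LD : ℝ := β * l - σ * l with hLD
  have hσl : 0 < σ * l := by positivity
  have hLD0 : 0 ≤ LD := by
    have h1 : σ * l ≤ β * l := mul_le_mul_of_nonneg_right (by linarith) hl0.le
    linarith
  have hLDβ : LD ≤ β * l := by
    rw [hLD]
    linarith
  obtain ⟨hw2, hwx, -, hxw, hlw, hzy, hyD, hD0, hy0⟩ := sizes2 (β := β) (σ := σ) (c := c)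
    (θ := θ) (LD := LD) (l := l) hx2 hs1 hl hcs hcl hc1 hβ0 hLD hLD0 hθ0 hθσ
  have hwz2 : ⌊Real.exp (2 * (c * l))⌋₊ ≤ ⌊Real.exp (4 * (c * l))⌋₊ :=
    Nat.floor_mono (Real.exp_le_exp.mpr (by linarith))
  have hlwα2 : 2 * (c * l) ≤ α / 4 * l := by
    have h2 : c * l ≤ α / 8 * l := mul_le_mul_of_nonneg_right (by linarith) hl0.le
    linarith
  have hlwα : Real.log ⌊Real.exp (2 * (c * l))⌋₊ ≤ α * l := by
    have h1 := log_floor_exp_le (t := 2 * (c * l)) (by positivity)
    have h3 : 0 < α * l := by positivity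
    linarith
  have hwz1 : ⌊Real.exp (2 * (c * l))⌋₊ ≤ ⌊(x : ℝ) ^ α⌋₊ := by
    rw [hpow]
    refine Nat.floor_mono (Real.exp_le_exp.mpr ?_)
    have h3 : 0 < α * l := by positivity
    linarith
  set w : ℕ := ⌊Real.exp (2 * (c * l))⌋₊ with hw
  set z : ℕ := ⌊(x : ℝ) ^ α⌋₊ with hz
  set D : ℕ := ⌊Real.exp LD⌋₊ with hD
  set y : ℕ := ⌊(x : ℝ) ^ β⌋₊ with hy
  have hws : w ^ s * D ≤ y := (Nat.mul_le_mul_right D (Nat.pow_le_pow_left hwz2 s)).trans hzy
  have hy' : (0 : ℝ) < y := by exact_mod_cast hy0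
  have hw1 : (1 : ℝ) < w := by exact_mod_cast (by omega : 1 < w)
  have hlw0 : 0 < Real.log w := Real.log_pos hw1
  have hn0 : (0 : ℝ) < n := by exact_mod_cast hn1
  have hB0 : (0 : ℝ) < B := by exact_mod_cast (by omega : 0 < B)
  have hz2 : 2 ≤ z := hw2.trans hwz1
  have hlz : Real.log z ≤ α * l := by
    rw [hz, hpow]
    exact log_floor_exp_le (by positivity)
  have hlz0 : 0 < Real.log z := Real.log_pos (by exact_mod_cast (by omega : 1 < z))
  set N := sift y 1 0 (prs w) b with hN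
  set Q : Finset ℕ := (prs z).filter fun p => w < p with hQ
  have hQm : ∀ {p : ℕ}, p ∈ Q ↔ p.Prime ∧ p ≤ z ∧ w < p := by
    intro p
    rw [hQ, mem_filter, mem_prs, and_assoc]
  have hlQ : ∀ p ∈ Q, Real.log p ≤ α * l := by
    intro p hp
    obtain ⟨h3, h4, _⟩ := hQm.1 hp
    exact (Real.log_le_log (by exact_mod_cast h3.pos) (by exact_mod_cast h4)).trans hlz
  set V : ℝ := VV (prs w) with hV
  have hV0 : 0 < V := VV_pos fun p hp => (mem_prs.1 hp).1
  have hud : ∀ e ⊆ Q, ∑ p ∈ e, Real.log p ≤ LD →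
      |(cnt N b e ∅ : ℝ) - y * V / ∏ p ∈ e, (p : ℝ)| ≤ 2 * θ * (y * V / ∏ p ∈ e, (p : ℝ)) := by
    intro e he hsum
    have hep : ∀ p ∈ e, p.Prime := fun p hp => (hQm.1 (he hp)).1
    obtain ⟨h, hh, hm⟩ := crt b hep
    set d : ℕ := ∏ p ∈ e, p with hd
    have hd0 : 0 < d := prod_pos fun p hp => (hep p hp).pos
    have hd1 : (d : ℝ) = ∏ p ∈ e, (p : ℝ) := by rw [hd]; push_cast; rfl
    have hdD : d ≤ D := by
      refine Nat.le_floor ?_
      rw [hd1]
      calc ∏ p ∈ e, (p : ℝ) = Real.exp (∑ p ∈ e, Real.log p) := by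
            rw [Real.exp_sum]
            refine prod_congr rfl fun p hp => ?_
            rw [Real.exp_log (by exact_mod_cast (hep p hp).pos)]
        _ ≤ Real.exp LD := Real.exp_le_exp.mpr hsum
    have hnd : ∀ l : ℕ, l.Prime → l ∉ e → ¬ l ∣ d := by
      intro l hl hle hdvd
      rw [hd] at hdvd
      obtain ⟨p, hp, hlp⟩ := (Prime.dvd_finsetProd_iff hl.prime _).1 hdvd
      exact hle (((Nat.prime_dvd_prime_iff_eq hl (hep p hp)).1 hlp) ▸ hp)
    have hdr : (0 : ℝ) < d := by exact_mod_cast hd0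
    have h1 := htwo w y d h (prs w) b hw2 hd0 (fun l hl => ⟨(mem_prs.1 hl).1,
      hnd l (mem_prs.1 hl).1 fun hle => by
        have h2 := (hQm.1 (he hle)).2.2
        have h3 := (mem_prs.1 hl).2
        omega⟩) (fun l hl => (mem_prs.1 hl).2)
      ((Nat.mul_le_mul_left _ hdD).trans hws) (hyD.trans (div_le_div_of_nonneg_left
        (by positivity) hdr (by exact_mod_cast hdD)))
    have h2 : cnt N b e ∅ = (sift y d h (prs w) b).card := by
      unfold cnt
      congr 1
      ext m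
      rw [hN]
      unfold sift
      rw [mem_filter, mem_filter, mem_filter, hm]
      constructor
      · rintro ⟨⟨h3, _, h4⟩, h6, _⟩
        exact ⟨h3, h6, h4⟩
      · rintro ⟨h3, h6, h4⟩
        exact ⟨⟨h3, Nat.modEq_one, h4⟩, h6, fun p hp => absurd hp (notMem_empty p)⟩
    rw [h2, ← hd1, abs_le]
    have e1 : (y : ℝ) * V / d = (y : ℝ) / d * V := by ring
    rw [e1]
    constructor
    · have := h1.1
      linarith
    · have := h1.2
      linarith
  have hxc4 : 4 ≤ (x : ℝ) ^ c := by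
    rw [hpow]
    have := Real.add_one_le_exp (c * l)
    linarith
  set I : ℕ := ⌊(n : ℝ) * LD / Real.log w⌋₊ with hI
  have hInn : 0 ≤ (n : ℝ) * LD / Real.log w := by positivity
  have hI1 : n * LD < (I + 1) * Real.log w := by
    have := Nat.lt_floor_add_one ((n : ℝ) * LD / Real.log w)
    rw [div_lt_iff₀ hlw0] at this
    exact this
  have htop : (B : ℝ) * (α * l) ≤ n * LD := by
    have h1 : (B : ℝ) * (α * l) ≤ γ / α * (1 + τ) * n * (α * l) :=
      mul_le_mul_of_nonneg_right hBs (by positivity)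
    have h2 : γ / α * (1 + τ) * n * (α * l) = n * l * (γ * (1 + τ)) := by field_simp
    have h3 : n * l * (γ * (1 + τ)) ≤ n * l * (β - σ) := by
      refine mul_le_mul_of_nonneg_left ?_ (by positivity)
      have : γ * (1 + τ) = γ + γ * τ := by ring
      linarith
    have h4 : n * l * (β - σ) = n * LD := by rw [hLD]; ring
    linarith
  have hBI : B ≤ I := by
    refine Nat.le_floor ?_
    rw [le_div_iff₀ hlw0]
    refine le_trans ?_ htop
    exact mul_le_mul_of_nonneg_left hlwα hB0.le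
  have hI2 : (I : ℝ) ≤ n * β / c := by
    have h1 : (I : ℝ) ≤ n * LD / Real.log w := Nat.floor_le hInn
    refine h1.trans ?_
    rw [div_le_div_iff₀ hlw0 hc0]
    calc n * LD * c ≤ n * (β * l) * c := by
          refine mul_le_mul_of_nonneg_right ?_ hc0.le
          exact mul_le_mul_of_nonneg_left hLDβ hn0.le
      _ = n * β * (c * l) := by ring
      _ ≤ n * β * Real.log w := mul_le_mul_of_nonneg_left hlw (by positivity)
  have hn1' : (1 : ℝ) ≤ n := by exact_mod_cast hn1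
  have hI3 : ((I : ℝ) + 1) / n ≤ s * CI := by
    rw [div_le_iff₀ hn0]
    have h1 : n * β / c = s * (8 * β / σ) * n := by
      rw [← hcs]
      field_simp
    have h3 : s * CI * (n : ℝ) = s * (8 * β / σ) * n + s * n := by rw [hCI]; ring
    have h4 : 1 ≤ (s : ℝ) * n := one_le_mul_of_one_le_of_one_le hs' hn1'
    linarith
  have hE1b : 8 * (2 * θ) * (((I : ℝ) + 1) / n) ^ 3 ≤ T / 8 := by
    calc 8 * (2 * θ) * (((I : ℝ) + 1) / n) ^ 3 ≤ 8 * (2 * θ) * (s * CI) ^ 3 := by
          refine mul_le_mul_of_nonneg_left ?_ (by positivity)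
          exact pow_le_pow_left₀ (by positivity) hI3 3
      _ = 16 * (θ * (s : ℝ) ^ 3) * CI ^ 3 := by ring
      _ = 16 * δ0 * CI ^ 3 := by rw [hθs]
      _ = δ0 * (384 * CI ^ 3) / 24 := by ring
      _ = T / 24 := by rw [hδ0e]
      _ ≤ T / 8 := by linarith
  have hw4 : (4 : ℝ) ≤ w := hxc4.trans hxw
  set c4 : ℝ := Real.log 4 / Real.log z with hc4
  have hz0 : (0 : ℝ) < z := by exact_mod_cast (by omega : 0 < z)
  have hzc4 : (z : ℝ) ^ c4 = 4 := by
    rw [Real.rpow_def_of_pos hz0, hc4, mul_div_cancel₀ _ hlz0.ne', Real.exp_log (by norm_num)]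
  have hdim := dim_all (x := z) (c := c4) hzc4.ge ∅ ∅
  rw [← hA] at hdim
  let Y : Sys :=
    { N := N, b := b, Q := Q, P := Q, X := y * V, LD := LD, lw := Real.log w,
      δ := 2 * θ, η := η, κ := 1, n := n, I := I, Z := z + 2
      hQ := fun p hp => ⟨(hQm.1 hp).1, Real.log_lt_log (by linarith) (by
        exact_mod_cast (hQm.1 hp).2.2)⟩
      hP := subset_rfl
      hX := mul_pos hy' hV0
      hlw := hlw0
      hδ := by positivity
      hη := hηpos.le
      hκ := zero_le_one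
      hn := hn1
      hI := hI1
      hZ := fun p hp => by
        have := (hQm.1 hp).2.1
        omega
      hZ1 := by omega
      ud := hud
      dm := by
        intro z' Λ ρ hρ hΛ'
        refine dm_of (x := z) (w := w) (R := ∅) (S := ∅) (A := A) (c := c4) hdim hA0.le
          (by rw [hzc4]; exact hw4) hw2 hwz1 zero_le_one hηpos.le ?_ ?_ z' Λ ρ hρ hΛ'
        · have h1 : Real.log w ≤ w := by
            have := Real.log_le_sub_one_of_pos (show (0 : ℝ) < w by linarith)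
            linarith
          have h2 : 1 / (w : ℝ) ≤ 1 / Real.log w := one_div_le_one_div_of_le hlw0 h1
          have h3 : A / Real.log w + 1 / Real.log w = (A + 1) / Real.log w := by ring
          have h4 : (A + 1) / Real.log w ≤ Real.log (1 + η) := by
            rw [div_le_iff₀ hlw0]
            have h5 : Real.log (1 + η) * (c * l) ≤ Real.log (1 + η) * Real.log w :=
              mul_le_mul_of_nonneg_left hlw hlη.le
            have h6 : c * Real.log (1 + η) * l = Real.log (1 + η) * (c * l) := by ring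
            linarith
          linarith
        · intro p hp
          obtain ⟨h3, h4, h5⟩ := hQm.1 hp
          exact ⟨h3, h5, h4, notMem_empty p, notMem_empty p⟩ }
  obtain ⟨Φ, hΦ, hlow, -⟩ := Sys.core3 (Y := Y) (b := B) (g := 1 / (γ / α - 1) + τ) hnB hBI hgap
    hLD0 (by
      intro p hp
      show (B : ℝ) * Real.log p ≤ n * LD
      exact le_trans (mul_le_mul_of_nonneg_left (hlQ p hp) hB0.le) htop)
  change (Φ - (8 * (2 * θ) * (((I : ℝ) + 1) / n) ^ 3 + Φ * (1 / (γ / α - 1) + τ))) *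
    (y * V * VV Q) ≤ cnt N b ∅ Q at hlow
  have hcnt : cnt N b ∅ Q = (sift y 1 0 (prs z) b).card := by
    unfold cnt
    congr 1
    ext m
    rw [hN]
    unfold sift
    rw [mem_filter, mem_filter, mem_filter]
    constructor
    · rintro ⟨⟨h3, h4, h5⟩, _, h6⟩
      refine ⟨h3, h4, fun p hp => ?_⟩
      by_cases h : p ≤ w
      · exact h5 p (mem_prs.2 ⟨(mem_prs.1 hp).1, h⟩)
      · exact h6 p (hQm.2 ⟨(mem_prs.1 hp).1, (mem_prs.1 hp).2, not_le.1 h⟩)
    · rintro ⟨h3, h4, h5⟩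
      refine ⟨⟨h3, h4, fun p hp => h5 p (mem_prs.2 ⟨(mem_prs.1 hp).1, (mem_prs.1 hp).2.trans hwz1⟩)⟩,
        fun p hp => absurd hp (notMem_empty p), fun p hp => h5 p ?_⟩
      exact mem_prs.2 ⟨(hQm.1 hp).1, (hQm.1 hp).2.1⟩
  have hVV : V * VV Q = VV (prs z) := by
    have hd : Disjoint (prs w) Q := by
      rw [disjoint_left]
      intro p hp hp'
      have := (mem_prs.1 hp).2
      have := (hQm.1 hp').2.2
      omega
    rw [hV, ← VV_union hd]
    congr 1
    ext p
    rw [mem_union, hQm, mem_prs, mem_prs]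
    constructor
    · rintro (⟨h3, h4⟩ | ⟨h3, h4, _⟩)
      · exact ⟨h3, h4.trans hwz1⟩
      · exact ⟨h3, h4⟩
    · rintro ⟨h3, h4⟩
      by_cases h : p ≤ w
      · exact Or.inl ⟨h3, h⟩
      · exact Or.inr ⟨h3, h4, not_le.1 h⟩
  rw [hcnt, hgT] at hlow
  have hVz : c3 / (α * l) ≤ VV (prs z) := by
    refine le_trans ?_ (hmert z hz2)
    exact div_le_div_of_nonneg_left hc3.le hlz0 hlz
  set E1 : ℝ := 8 * (2 * θ) * (((I : ℝ) + 1) / n) ^ 3 with hE1
  have h10 : T / 2 ≤ Φ - (E1 + Φ * (1 - T + τ)) := by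
    have e : Φ - (E1 + Φ * (1 - T + τ)) = Φ * (T - τ) - E1 := by ring
    have h11 : T - τ ≤ Φ * (T - τ) := le_mul_of_one_le_left (by linarith) hΦ
    rw [e]
    linarith
  have hy2 : (x : ℝ) ^ β / 2 ≤ y := by
    rw [hy]
    refine floor_half ?_
    rw [hpow]
    exact Real.one_le_exp (by positivity)
  have hVz0 : 0 < VV (prs z) := VV_pos fun p hp => (mem_prs.1 hp).1
  calc T / 2 * (c3 / α) / 2 * ((x : ℝ) ^ β / l) = T / 2 * ((x : ℝ) ^ β / 2 * (c3 / (α * l))) := by
        field_simp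
    _ ≤ T / 2 * (y * VV (prs z)) := by
        refine mul_le_mul_of_nonneg_left ?_ (by positivity)
        exact mul_le_mul hy2 hVz (by positivity) hy'.le
    _ ≤ (Φ - (E1 + Φ * (1 - T + τ))) * (y * VV (prs z)) :=
        mul_le_mul_of_nonneg_right h10 (by positivity)
    _ = (Φ - (E1 + Φ * (1 - T + τ))) * (y * V * VV Q) := by rw [← hVV]; ring
    _ ≤ _ := hlow

end HD44
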