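import Pool.Agent.HD44.Low

/-!
# Random classes for all primes, modified afterwards on any set of small dimension: distribution of the survivors
-/

namespace HD44

open Finset YX49 RS44

/-- restriction of a choice -/
def res {R0 R' : Finset ℕ} (h : R' ⊆ R0) (a : Ch R0) : Ch R' := fun i => a ⟨i, h i.2⟩

open Classical in
theorem lift_card {R0 R' : Finset ℕ} (h : R' ⊆ R0) (E : Ch R' → Prop) :
    (univ.filter fun a : Ch R0 => E (res h a)).card ≤
      (univ.filter fun a' : Ch R' => E a').card * ∏ p ∈ R0 \ R', p := by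
  have h2 : R0 \ R' ⊆ R0 := sdiff_subset
  have hinj : Function.Injective fun a : Ch R0 => (res h a, res h2 a) := by
    intro a a' haa
    funext i
    have h3 := congrArg Prod.fst haa
    have h4 := congrArg Prod.snd haa
    by_cases hi : (i : ℕ) ∈ R'
    · exact congrFun h3 ⟨i, hi⟩
    · exact congrFun h4 ⟨i, mem_sdiff.2 ⟨i.2, hi⟩⟩
  calc _ ≤ ((univ.filter fun a' : Ch R' => E a') ×ˢ (univ : Finset (Ch (R0 \ R')))).card := by
        refine card_le_card_of_injOn (fun a => (res h a, res h2 a)) ?_ hinj.injOn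
        intro a ha
        exact mem_product.2 ⟨mem_filter.2 ⟨mem_univ _, (mem_filter.1 ha).2⟩, mem_univ _⟩
    _ = _ := by
        rw [card_product, card_univ, Fintype.card_pi]
        simp only [Fintype.card_fin]
        rw [Finset.prod_coe_sort (R0 \ R') fun p => p]

/-- the primes in `(w, x]` which do not divide `d` -/
def Rd (w x d : ℕ) : Finset ℕ := (prs x).filter fun p => w < p ∧ ¬ p ∣ d

theorem mem_Rd {w x d p : ℕ} : p ∈ Rd w x d ↔ p.Prime ∧ p ≤ x ∧ w < p ∧ ¬ p ∣ d := by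
  unfold Rd
  rw [mem_filter, mem_prs, and_assoc]

theorem Rd_sub (w x d : ℕ) : Rd w x d ⊆ prs x := filter_subset _ _

/-- for every pattern on the primes up to `w` and every `d ≤ D`, the survivors of the classes of the primes in `(w, x]` which do
not divide `d` are uniformly distributed in the progressions modulo `d` -/
def UDU (y w D x : ℕ) (δ : ℝ) (a : Ch (prs x)) : Prop :=
  ∀ t ∈ range (primorial w), ∀ d ∈ Ioc 0 D, (∀ l ∈ prs w, ¬ l ∣ d) → ∀ h ∈ range d,
      (1 - δ) * ((y : ℝ) / d) * (VV (prs w) * VV (Rd w x d)) ≤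
        ((sv (Rd w x d) (sift y d h (prs w) fun _ => t) (res (Rd_sub w x d) a)).card : ℝ) ∧
      ((sv (Rd w x d) (sift y d h (prs w) fun _ => t) (res (Rd_sub w x d) a)).card : ℝ) ≤
        (1 + δ) * ((y : ℝ) / d) * (VV (prs w) * VV (Rd w x d))

open Classical in
theorem bad_udu {s : ℕ} {θ : ℝ} (hs1 : 1 ≤ s) (hθ0 : 0 < θ) (hθ1 : θ ≤ 1) (hF0 : Fund s θ) :
    ∀ (x y z w D : ℕ) (ε V0 F : ℝ), w ≤ x →
    2 ≤ z → w ≤ z → 0 < D → z ^ s * D ≤ y → 2 / θ ≤ (y : ℝ) / D →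
    0 < ε → ε ≤ 1 / 2 → 4 * ε * ∑ p ∈ (prs x).filter (fun p => ¬ p ≤ z), 1 / (p : ℝ) ≤ θ →
    0 ≤ V0 → V0 ≤ VV (prs x) →
    (4 : ℝ) ^ w * (2 * (D : ℝ) * D) * Real.exp (-(θ * ε * (z / 2) * V0)) ≤ F →
    ((univ.filter fun a : Ch (prs x) => ¬ UDU y w D x (6 * θ) a).card : ℝ) ≤
      (∏ p ∈ prs x, (p : ℝ)) * F := by
  have heng := eng_two3 hs1 hθ0 hθ1 hF0
  intro x y z w D ε V0 F hwx hz hwz hD hzy hy hε hε1 hsum hV0 hV hF
  have hPi : (0 : ℝ) ≤ ∏ p ∈ prs x, (p : ℝ) := by positivity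
  have hpx : ∀ p ∈ prs x, p.Prime := fun p hp => (mem_prs.1 hp).1
  have hpw : ∀ p ∈ prs w, p.Prime := fun p hp => (mem_prs.1 hp).1
  have hdis : ∀ d, Disjoint (Rd w x d) (prs w) := by
    intro d
    rw [disjoint_left]
    intro p hp hp'
    have := (mem_Rd.1 hp).2.2.1
    have := (mem_prs.1 hp').2
    omega
  have hVle : ∀ d, V0 ≤ VV (prs w) * VV (Rd w x d) := fun d =>
    hV.trans (VV_prs_le (hdis d).symm (fun p hp => ⟨(mem_Rd.1 hp).1, (mem_Rd.1 hp).2.1⟩) fun p hp =>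
    ⟨(mem_prs.1 hp).1, (mem_prs.1 hp).2.trans hwx⟩)
  set E : ℝ := (∏ p ∈ prs x, (p : ℝ)) * Real.exp (-(θ * ε * (z / 2) * V0)) with hE
  have hE0 : 0 ≤ E := by positivity
  set Up : ℕ → ℕ → ℕ → Finset (Ch (prs x)) := fun t d h =>
    univ.filter fun a : Ch (prs x) => (1 + 6 * θ) * ((y : ℝ) / d) * (VV (prs w) * VV (Rd w x d)) <
      ((sv (Rd w x d) (sift y d h (prs w) fun _ => t) (res (Rd_sub w x d) a)).card : ℝ) with hUp
  set Dn : ℕ → ℕ → ℕ → Finset (Ch (prs x)) := fun t d h =>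
    univ.filter fun a : Ch (prs x) =>
      ((sv (Rd w x d) (sift y d h (prs w) fun _ => t) (res (Rd_sub w x d) a)).card : ℝ) <
      (1 - 6 * θ) * ((y : ℝ) / d) * (VV (prs w) * VV (Rd w x d)) with hDn
  set B1 : ℕ → ℕ → ℕ → Finset (Ch (prs x)) := fun t d h =>
    if (∀ l ∈ prs w, ¬ l ∣ d) then Up t d h ∪ Dn t d h else ∅ with hB1
  have hb : ∀ t, ∀ d ∈ Ioc 0 D, ∀ h, ((B1 t d h).card : ℝ) ≤ 2 * E := by
    intro t d hd h
    obtain ⟨hd0, hdD⟩ := mem_Ioc.1 hd
    have hd' : (0 : ℝ) < d := by exact_mod_cast hd0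
    by_cases hc : ∀ l ∈ prs w, ¬ l ∣ d
    · have hB : B1 t d h = Up t d h ∪ Dn t d h := if_pos hc
      have h2 := heng z y d h (Rd w x d) (prs w) (fun _ => t) ε hz hd0
        (fun l hl => ⟨(mem_Rd.1 hl).1, (mem_Rd.1 hl).2.2.2⟩) (fun l hl => ⟨hpw l hl, hc l hl⟩)
        (fun l hl => (mem_prs.1 hl).2.trans hwz) (hdis d)
        ((Nat.mul_le_mul_left _ hdD).trans hzy) (hy.trans (div_le_div_of_nonneg_left
          (by positivity) hd' (by exact_mod_cast hdD))) hε hε1 (by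
          refine le_trans ?_ hsum
          refine mul_le_mul_of_nonneg_left ?_ (by linarith)
          exact sum_le_sum_of_subset_of_nonneg (filter_subset_filter _ (Rd_sub w x d))
            fun p _ _ => by positivity)
      have hprod : (∏ p ∈ Rd w x d, (p : ℝ)) * ∏ p ∈ prs x \ Rd w x d, (p : ℝ) =
          ∏ p ∈ prs x, (p : ℝ) := by
        rw [mul_comm]
        exact prod_sdiff (Rd_sub w x d)
      have h3 : (∏ p ∈ Rd w x d, (p : ℝ)) *
          Real.exp (-(θ * ε * (z / 2) * (VV (prs w) * VV (Rd w x d)))) *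
          ∏ p ∈ prs x \ Rd w x d, (p : ℝ) ≤ E := by
        calc (∏ p ∈ Rd w x d, (p : ℝ)) *
            Real.exp (-(θ * ε * (z / 2) * (VV (prs w) * VV (Rd w x d)))) *
            ∏ p ∈ prs x \ Rd w x d, (p : ℝ) = ((∏ p ∈ Rd w x d, (p : ℝ)) *
            ∏ p ∈ prs x \ Rd w x d, (p : ℝ)) *
            Real.exp (-(θ * ε * (z / 2) * (VV (prs w) * VV (Rd w x d)))) := by ring
          _ ≤ E := by
              rw [hprod]
              refine mul_le_mul_of_nonneg_left (Real.exp_le_exp.mpr (neg_le_neg ?_)) hPi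
              exact mul_le_mul_of_nonneg_left (hVle d) (by positivity)
      have hP0 : (0 : ℝ) ≤ ∏ p ∈ prs x \ Rd w x d, (p : ℝ) := by positivity
      have hu : ((Up t d h).card : ℝ) ≤ E := by
        have h4 := lift_card (Rd_sub w x d) fun a' : Ch (Rd w x d) =>
          (1 + 6 * θ) * ((y : ℝ) / d) * (VV (prs w) * VV (Rd w x d)) <
          ((sv (Rd w x d) (sift y d h (prs w) fun _ => t) a').card : ℝ)
        have h5 := (Nat.cast_le (α := ℝ)).2 h4
        push_cast at h5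
        exact h5.trans ((mul_le_mul_of_nonneg_right h2.1 hP0).trans h3)
      have hl : ((Dn t d h).card : ℝ) ≤ E := by
        have h4 := lift_card (Rd_sub w x d) fun a' : Ch (Rd w x d) =>
          ((sv (Rd w x d) (sift y d h (prs w) fun _ => t) a').card : ℝ) <
          (1 - 6 * θ) * ((y : ℝ) / d) * (VV (prs w) * VV (Rd w x d))
        have h5 := (Nat.cast_le (α := ℝ)).2 h4
        push_cast at h5
        exact h5.trans ((mul_le_mul_of_nonneg_right h2.2 hP0).trans h3)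
      rw [hB]
      calc (((Up t d h ∪ Dn t d h).card : ℕ) : ℝ) ≤ (((Up t d h).card + (Dn t d h).card : ℕ) : ℝ) :=
            Nat.cast_le.2 (card_union_le _ _)
        _ ≤ 2 * E := by
            push_cast
            linarith
    · have hB : B1 t d h = ∅ := if_neg hc
      rw [hB, card_empty, Nat.cast_zero]
      positivity
  have hsub : (univ.filter fun a : Ch (prs x) => ¬ UDU y w D x (6 * θ) a) ⊆
      (range (primorial w)).biUnion fun t => (Ioc 0 D).biUnion fun d =>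
        (range d).biUnion fun h => B1 t d h := by
    intro a ha
    have h1 := (mem_filter.1 ha).2
    unfold UDU at h1
    push Not at h1
    obtain ⟨t, ht, d, hd, hdA, h, hh, h2⟩ := h1
    refine mem_biUnion.2 ⟨t, ht, mem_biUnion.2 ⟨d, hd, mem_biUnion.2 ⟨h, hh, ?_⟩⟩⟩
    have hB : B1 t d h = Up t d h ∪ Dn t d h := if_pos hdA
    rw [hB]
    by_cases h3 : (1 - 6 * θ) * ((y : ℝ) / d) * (VV (prs w) * VV (Rd w x d)) ≤
        ((sv (Rd w x d) (sift y d h (prs w) fun _ => t) (res (Rd_sub w x d) a)).card : ℝ)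
    · exact mem_union_left _ (mem_filter.2 ⟨mem_univ _, h2 h3⟩)
    · exact mem_union_right _ (mem_filter.2 ⟨mem_univ _, not_le.1 h3⟩)
  have hprim : ((primorial w : ℕ) : ℝ) ≤ (4 : ℝ) ^ w := by
    exact_mod_cast primorial_le_four_pow w
  have hcard := (Nat.cast_le (α := ℝ)).2 (card_le_card hsub)
  refine hcard.trans ?_
  calc (((((range (primorial w)).biUnion fun t => (Ioc 0 D).biUnion fun d =>
        (range d).biUnion fun h => B1 t d h)).card : ℕ) : ℝ)
      ≤ ∑ t ∈ range (primorial w), ∑ d ∈ Ioc 0 D, ∑ h ∈ range d, ((B1 t d h).card : ℝ) := by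
        have h1 : ((range (primorial w)).biUnion fun t => (Ioc 0 D).biUnion fun d =>
          (range d).biUnion fun h => B1 t d h).card ≤
          ∑ t ∈ range (primorial w), ∑ d ∈ Ioc 0 D, ∑ h ∈ range d, (B1 t d h).card :=
          card_biUnion_le.trans (sum_le_sum fun t _ => card_biUnion_le.trans
            (sum_le_sum fun d _ => card_biUnion_le))
        exact_mod_cast h1
    _ ≤ ∑ _t ∈ range (primorial w), ∑ _d ∈ Ioc 0 D, (D : ℝ) * (2 * E) := by
        refine sum_le_sum fun t _ => sum_le_sum fun d hd => ?_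
        calc ∑ h ∈ range d, ((B1 t d h).card : ℝ) ≤ ∑ _h ∈ range d, 2 * E :=
              sum_le_sum fun h _ => hb t d hd h
          _ = (d : ℝ) * (2 * E) := by rw [sum_const, card_range, nsmul_eq_mul]
          _ ≤ (D : ℝ) * (2 * E) := by
              refine mul_le_mul_of_nonneg_right ?_ (by positivity)
              exact_mod_cast (mem_Ioc.1 hd).2
    _ = (primorial w : ℝ) * ((D : ℝ) * ((D : ℝ) * (2 * E))) := by
        rw [sum_const, sum_const, card_range, Nat.card_Ioc, nsmul_eq_mul, nsmul_eq_mul]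
        simp
    _ ≤ (4 : ℝ) ^ w * ((D : ℝ) * ((D : ℝ) * (2 * E))) :=
        mul_le_mul_of_nonneg_right hprim (by positivity)
    _ = (∏ p ∈ prs x, (p : ℝ)) * ((4 : ℝ) ^ w * (2 * (D : ℝ) * D) *
        Real.exp (-(θ * ε * (z / 2) * V0))) := by rw [hE]; ring
    _ ≤ _ := mul_le_mul_of_nonneg_left hF hPi

/-- the primes in `(w, x]` whose class is changed by `b` -/
def Qc (w x : ℕ) (a : Ch (prs x)) (b : ℕ → ℕ) : Finset ℕ :=
  (prs x).filter fun p => w < p ∧ ∀ h : p ∈ prs x, ¬ b p ≡ (a ⟨p, h⟩ : ℕ) [MOD p]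

theorem mem_Qc {w x : ℕ} {a : Ch (prs x)} {b : ℕ → ℕ} {p : ℕ} : p ∈ Qc w x a b ↔
    p ∈ prs x ∧ w < p ∧ ∀ h : p ∈ prs x, ¬ b p ≡ (a ⟨p, h⟩ : ℕ) [MOD p] := by
  unfold Qc
  rw [mem_filter]

/-- the survivors of the pattern `t` and of the classes of the primes in `(w, x]` -/
def Nt (y w x t : ℕ) (a : Ch (prs x)) : Finset ℕ :=
  sv (Rd w x 1) (sift y 1 0 (prs w) fun _ => t) (res (Rd_sub w x 1) a)

theorem ud_of {y w D x t : ℕ} {δ LD : ℝ} {a : Ch (prs x)} {b : ℕ → ℕ} (hUD : UDU y w D x δ a)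
    (ht : t ∈ range (primorial w)) (hD : ∀ d : ℕ, (d : ℝ) ≤ Real.exp LD → d ≤ D)
    (hδ : 0 ≤ δ) (hδ1 : δ ≤ 1) (hw : 2 ≤ w) (hμ : LD ≤ δ / 4 * (w * Real.log w)) :
    ∀ e ⊆ Qc w x a b, ∑ p ∈ e, Real.log p ≤ LD →
      |(cnt (Nt y w x t a) b e ∅ : ℝ) - y * (VV (prs w) * VV (Rd w x 1)) / ∏ p ∈ e, (p : ℝ)| ≤
        2 * δ * (y * (VV (prs w) * VV (Rd w x 1)) / ∏ p ∈ e, (p : ℝ)) := by
  intro e he hsum
  have hep : ∀ p ∈ e, p.Prime := fun p hp => (mem_prs.1 (mem_Qc.1 (he hp)).1).1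
  have hew : ∀ p ∈ e, w < p := fun p hp => (mem_Qc.1 (he hp)).2.1
  have hw1 : (1 : ℝ) < w := by exact_mod_cast (by omega : 1 < w)
  have hw0 : (0 : ℝ) < w := by linarith
  have hlw : 0 < Real.log w := Real.log_pos hw1
  obtain ⟨h, hh, hm⟩ := crt b hep
  set d : ℕ := ∏ p ∈ e, p with hd
  have hd0 : 0 < d := prod_pos fun p hp => (hep p hp).pos
  have hdr : (0 : ℝ) < d := by exact_mod_cast hd0
  have hd1 : (d : ℝ) = ∏ p ∈ e, (p : ℝ) := by rw [hd]; push_cast; rfl
  have hdD : d ≤ D := by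
    refine hD d ?_
    rw [hd1]
    calc ∏ p ∈ e, (p : ℝ) = Real.exp (∑ p ∈ e, Real.log p) := by
          rw [Real.exp_sum]
          refine prod_congr rfl fun p hp => ?_
          rw [Real.exp_log (by exact_mod_cast (hep p hp).pos)]
      _ ≤ Real.exp LD := Real.exp_le_exp.mpr hsum
  have hdvd : ∀ l : ℕ, l.Prime → (l ∣ d ↔ l ∈ e) := by
    intro l hl
    constructor
    · intro h1
      rw [hd] at h1
      obtain ⟨p, hp, hlp⟩ := (Prime.dvd_finsetProd_iff hl.prime _).1 h1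
      exact ((Nat.prime_dvd_prime_iff_eq hl (hep p hp)).1 hlp) ▸ hp
    · intro h1
      exact dvd_prod_of_mem _ h1
  have h1 := hUD t ht d (mem_Ioc.2 ⟨hd0, hdD⟩) (fun l hl hld => by
    have h2 := hew l ((hdvd l (mem_prs.1 hl).1).1 hld)
    have h3 := (mem_prs.1 hl).2
    omega) h hh
  have h2 : cnt (Nt y w x t a) b e ∅ =
      (sv (Rd w x d) (sift y d h (prs w) fun _ => t) (res (Rd_sub w x d) a)).card := by
    unfold cnt
    congr 1
    ext m
    rw [mem_filter]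
    unfold Nt
    rw [mem_sv, mem_sv]
    unfold sift
    rw [mem_filter, mem_filter, hm]
    constructor
    · rintro ⟨⟨⟨h3, _, h4⟩, h5⟩, h6, _⟩
      refine ⟨⟨h3, h6, h4⟩, fun i => ?_⟩
      have hi := mem_Rd.1 i.2
      exact h5 ⟨i, mem_Rd.2 ⟨hi.1, hi.2.1, hi.2.2.1, by rw [Nat.dvd_one]; exact hi.1.ne_one⟩⟩
    · rintro ⟨⟨h3, h6, h4⟩, h5⟩
      refine ⟨⟨⟨h3, Nat.modEq_one, h4⟩, fun i => ?_⟩, h6, fun p hp => absurd hp (notMem_empty p)⟩
      have hi := mem_Rd.1 i.2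
      by_cases hid : (i : ℕ) ∣ d
      · have hie := (hdvd i hi.1).1 hid
        intro hcon
        have h7 := (hm m).2 h6 i hie
        have h8 := (mem_Qc.1 (he hie)).2.2 (mem_prs.2 ⟨hi.1, hi.2.1⟩)
        exact h8 (h7.symm.trans hcon)
      · exact h5 ⟨i, mem_Rd.2 ⟨hi.1, hi.2.1, hi.2.2.1, hid⟩⟩
  have hVe : VV (Rd w x 1) = VV (Rd w x d) * VV e := by
    have hdd : Disjoint (Rd w x d) e := by
      rw [disjoint_left]
      intro p hp hpe
      exact (mem_Rd.1 hp).2.2.2 ((hdvd p (hep p hpe)).2 hpe)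
    rw [← VV_union hdd]
    congr 1
    ext p
    rw [mem_union, mem_Rd, mem_Rd]
    constructor
    · rintro ⟨h3, h4, h5, _⟩
      by_cases hpe : p ∈ e
      · exact Or.inr hpe
      · exact Or.inl ⟨h3, h4, h5, fun hpd => hpe ((hdvd p h3).1 hpd)⟩
    · rintro (⟨h3, h4, h5, _⟩ | hpe)
      · exact ⟨h3, h4, h5, by rw [Nat.dvd_one]; exact h3.ne_one⟩
      · exact ⟨hep p hpe, (mem_prs.1 (mem_Qc.1 (he hpe)).1).2, hew p hpe,
          by rw [Nat.dvd_one]; exact (hep p hpe).ne_one⟩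
  have hVe1 : VV e ≤ 1 := by
    unfold VV
    refine prod_le_one (fun p hp => ?_) (fun p hp => ?_)
    · have h2 : (2 : ℝ) ≤ p := by exact_mod_cast (hep p hp).two_le
      have : 1 / (p : ℝ) ≤ 1 := by rw [div_le_one (by linarith)]; linarith
      linarith
    · have : 0 ≤ 1 / (p : ℝ) := by positivity
      linarith
  have hVe2 : 1 - δ / 4 ≤ VV e := by
    have h3 : 1 - ∑ p ∈ e, 1 / (p : ℝ) ≤ VV e := prod_one_sub_ge (f := fun p : ℕ => 1 / (p : ℝ))
      (fun p _ => by positivity) (fun p hp => by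
        have h2 : (2 : ℝ) ≤ p := by exact_mod_cast (hep p hp).two_le
        show 1 / (p : ℝ) ≤ 1
        rw [div_le_one (by linarith)]
        linarith)
    have h4 : ∑ p ∈ e, 1 / (p : ℝ) ≤ ∑ _p ∈ e, 1 / (w : ℝ) := by
      refine sum_le_sum fun p hp => one_div_le_one_div_of_le hw0 ?_
      exact_mod_cast (hew p hp).le
    have h5 : (e.card : ℝ) * Real.log w ≤ LD := by
      refine le_trans ?_ hsum
      rw [← nsmul_eq_mul, ← sum_const]
      refine sum_le_sum fun p hp => Real.log_le_log hw0 ?_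
      exact_mod_cast (hew p hp).le
    have h6 : (e.card : ℝ) ≤ δ / 4 * w := by
      have h7 : (e.card : ℝ) * Real.log w ≤ δ / 4 * w * Real.log w := by
        calc (e.card : ℝ) * Real.log w ≤ LD := h5
          _ ≤ δ / 4 * (w * Real.log w) := hμ
          _ = _ := by ring
      exact le_of_mul_le_mul_right h7 hlw
    have h7 : ∑ _p ∈ e, 1 / (w : ℝ) ≤ δ / 4 := by
      rw [sum_const, nsmul_eq_mul, mul_one_div, div_le_iff₀ hw0]
      exact h6
    linarith
  have hVA : 0 ≤ VV (prs w) := VV_nonneg fun p hp => (mem_prs.1 hp).1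
  have hVR : 0 ≤ VV (Rd w x d) := VV_nonneg fun p hp => (mem_Rd.1 hp).1
  rw [h2, ← hd1, hVe, abs_le]
  set G : ℝ := (y : ℝ) / d * (VV (prs w) * VV (Rd w x d)) with hG
  have hG0 : 0 ≤ G := by positivity
  have e1 : (y : ℝ) * (VV (prs w) * (VV (Rd w x d) * VV e)) / d = G * VV e := by rw [hG]; ring
  have e2 : (1 - δ) * ((y : ℝ) / d) * (VV (prs w) * VV (Rd w x d)) = (1 - δ) * G := by rw [hG]; ring
  have e3 : (1 + δ) * ((y : ℝ) / d) * (VV (prs w) * VV (Rd w x d)) = (1 + δ) * G := by rw [hG]; ring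
  rw [e2, e3] at h1
  rw [e1]
  have h3 : G * VV e ≤ G := mul_le_of_le_one_right hG0 hVe1
  have h4 : (1 - δ / 4) * G ≤ G * VV e := by
    rw [mul_comm]
    exact mul_le_mul_of_nonneg_left hVe2 hG0
  have h5 : 0 ≤ δ * G := mul_nonneg hδ hG0
  have h6 : 0 ≤ G * VV e := le_trans (mul_nonneg (by linarith) hG0) h4
  have h7 : δ * ((1 - δ / 4) * G) ≤ δ * (G * VV e) := mul_le_mul_of_nonneg_left h4 hδ
  have h8 : δ * (δ * G) ≤ 1 * (δ * G) := mul_le_mul_of_nonneg_right hδ1 h5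
  constructor
  · have h9 : δ * (1 - δ / 4) * G = δ * G - δ * (δ * G) / 4 := by ring
    have h10 : (1 - δ) * G = G - δ * G := by ring
    have h11 := h1.1
    rw [h10] at h11
    nlinarith
  · have h10 : (1 + δ) * G = G + δ * G := by ring
    have h11 := h1.2
    rw [h10] at h11
    nlinarith

end HD44
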