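import Pool.Agent.HD44.Uni
import Pool.Agent.HD44.Contra3

/-!
# Random classes for all primes, modified afterwards on a set of small dimension: the contradiction
-/

namespace HD44

open Finset YX49 RS44

theorem contraN {x w n B I : ℕ} {N Q S : Finset ℕ} {b : ℕ → ℕ} {κ δ η LD g Λ X : ℝ} {ρ : ℕ → ℝ}
    (hX : 0 < X) (hw : 2 ≤ w) (hQm : ∀ p ∈ Q, p.Prime ∧ w < p ∧ p ≤ x)
    (hud : ∀ e ⊆ Q, ∑ p ∈ e, Real.log p ≤ LD →
      |(cnt N b e ∅ : ℝ) - X / ∏ p ∈ e, (p : ℝ)| ≤ δ * (X / ∏ p ∈ e, (p : ℝ)))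
    (hcov : ∀ m ∈ N, ∃ q ∈ Q, m ≡ b q [MOD q])
    (hδ : 0 ≤ δ) (hη : 0 ≤ η) (hκ : 0 ≤ κ) (hn : 1 ≤ n) (hnB : n < B) (hBI : B ≤ I)
    (hI : n * LD < (I + 1) * Real.log w) (hgap : GapAt κ n B η g) (hLD0 : 0 ≤ LD)
    (hSLD : ∀ q ∈ Q, q ∈ S → Real.log q ≤ LD)
    (hΛ : ∀ p ∈ Q, p ∉ S → Real.log p ≤ Λ)
    (htop : (B : ℝ) * Λ ≤ n * LD)
    (hdm : ∀ z : ℕ, ∀ Λ ρ : ℝ, 1 ≤ ρ →
      (∀ p ∈ Q.filter (fun p => p ∉ S), p < z → Real.log p ≤ Λ) →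
      VV ((Q.filter fun p => p ∉ S).filter fun p => p < z ∧ ρ * Real.log p ≤ Λ) ≤
        (1 + η) * ρ ^ κ * VV ((Q.filter fun p => p ∉ S).filter fun p => p < z))
    (hρ1 : ∀ q ∈ Q, q ∈ S → 1 ≤ ρ q)
    (hρ : ∀ q ∈ Q, q ∈ S → (B : ℝ) * Λ ≤ ρ q * (n * (LD - Real.log q)))
    (hfin : 8 * δ * (((I : ℝ) + 1) / n) ^ 3 + g +
      ∑ q ∈ Q.filter (fun p => p ∈ S), (1 + η) * ρ q ^ κ * (1 / (q : ℝ)) < 1) :
    False := by
  classical
  have hw1 : (1 : ℝ) < w := by exact_mod_cast (by omega : 1 < w)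
  have hlw : 0 < Real.log w := Real.log_pos hw1
  let Y : Sys :=
    { N := N, b := b, Q := Q, P := Q.filter fun p => p ∉ S, X := X, LD := LD, lw := Real.log w,
      δ := δ, η := η, κ := κ, n := n, I := I, Z := x + 2
      hQ := fun p hp => ⟨(hQm p hp).1, Real.log_lt_log (by linarith) (by
        exact_mod_cast (hQm p hp).2.1)⟩
      hP := filter_subset _ _
      hX := hX
      hlw := hlw
      hδ := hδ
      hη := hη
      hκ := hκ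
      hn := hn
      hI := hI
      hZ := fun p hp => by
        have := (hQm p (mem_filter.1 hp).1).2.2
        omega
      hZ1 := by omega
      ud := hud
      dm := hdm }
  obtain ⟨Φ, hΦ, hlow, hupp⟩ := Sys.core3 (Y := Y) (b := B) (g := g) hnB hBI hgap (by
      exact hLD0) (by
      intro p hp
      show (B : ℝ) * Real.log p ≤ n * LD
      obtain ⟨h1, h2⟩ := mem_filter.1 hp
      refine le_trans (mul_le_mul_of_nonneg_left (hΛ p h1 h2) (by positivity)) htop)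
  change (Φ - (8 * δ * (((I : ℝ) + 1) / n) ^ 3 + Φ * g)) * (X * VV (Q.filter fun p => p ∉ S)) ≤
        cnt N b ∅ (Q.filter fun p => p ∉ S) at hlow
  change ∀ q ∈ Q, q ∉ Q.filter (fun p => p ∉ S) → ∀ Λ ρ : ℝ,
        (∀ p ∈ Q.filter (fun p => p ∉ S), Real.log p ≤ Λ) → 1 ≤ ρ →
        (B : ℝ) * Λ ≤ ρ * (n * (LD - Real.log q)) → Real.log q ≤ LD →
        (cnt N b {q} (Q.filter fun p => p ∉ S) : ℝ) ≤
          Φ * ((1 + η) * ρ ^ κ) * (1 / (q : ℝ)) * (X * VV (Q.filter fun p => p ∉ S)) at hupp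
  set P := Q.filter (fun p => p ∉ S) with hP
  set S' := Q.filter (fun p => p ∈ S) with hS'
  have hVP : 0 < VV P := VV_pos fun p hp => (hQm p (mem_filter.1 hp).1).1
  set T : ℝ := X * VV P with hT
  have hT0 : 0 < T := by positivity
  -- the covering
  have hc1 : cnt N b ∅ P ≤ ∑ q ∈ S', cnt N b {q} P := by
    unfold cnt
    refine le_trans (card_le_card ?_) card_biUnion_le
    intro m hm
    obtain ⟨hm1, _, hm2⟩ := mem_filter.1 hm
    obtain ⟨p, hpQ, hmp⟩ := hcov m hm1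
    have hpS : p ∈ S := by
      by_contra h
      exact hm2 p (mem_filter.2 ⟨hpQ, h⟩) hmp
    refine mem_biUnion.2 ⟨p, mem_filter.2 ⟨hpQ, hpS⟩, mem_filter.2 ⟨hm1, ?_, hm2⟩⟩
    intro l hl
    rw [mem_singleton.1 hl]
    exact hmp
  have hc2 : (cnt N b ∅ P : ℝ) ≤ ∑ q ∈ S', Φ * ((1 + η) * ρ q ^ κ) * (1 / (q : ℝ)) * T := by
    calc (cnt N b ∅ P : ℝ) ≤ ∑ q ∈ S', (cnt N b {q} P : ℝ) := by exact_mod_cast hc1
      _ ≤ _ := by
          refine sum_le_sum fun q hq => ?_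
          obtain ⟨hqQ, hqS⟩ := mem_filter.1 hq
          refine hupp q hqQ (fun h => (mem_filter.1 h).2 hqS) Λ (ρ q) ?_ (hρ1 q hqQ hqS)
            (hρ q hqQ hqS) (hSLD q hqQ hqS)
          intro p hp
          obtain ⟨h2, h3⟩ := mem_filter.1 hp
          exact hΛ p h2 h3
  have e1 : ∑ q ∈ S', Φ * ((1 + η) * ρ q ^ κ) * (1 / (q : ℝ)) * T =
      Φ * (∑ q ∈ S', (1 + η) * ρ q ^ κ * (1 / (q : ℝ))) * T := by
    rw [mul_sum, sum_mul]
    refine sum_congr rfl fun q _ => by ring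
  rw [e1] at hc2
  set W : ℝ := ∑ q ∈ S', (1 + η) * ρ q ^ κ * (1 / (q : ℝ)) with hW
  set E1 : ℝ := 8 * δ * (((I : ℝ) + 1) / n) ^ 3 with hE1
  set E2 : ℝ := g with hE2
  have hE10 : 0 ≤ E1 := by positivity
  have h1 : (Φ - (E1 + Φ * E2)) * T ≤ Φ * W * T := hlow.trans hc2
  have h2 : Φ - (E1 + Φ * E2) ≤ Φ * W := le_of_mul_le_mul_right h1 hT0
  have h3 : 0 < 1 - E2 - W := by linarith
  have h4 : 1 - E2 - W ≤ Φ * (1 - E2 - W) := le_mul_of_one_le_left h3.le hΦ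
  have h5 : Φ * (1 - E2 - W) = Φ - Φ * E2 - Φ * W := by ring
  linarith

end HD44
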