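import Pool.Agent.HD44.Uni2
import Pool.Agent.HD44.Fin5

/-!
# Random classes for all primes, modified afterwards on a set of small dimension: no covering
-/

namespace HD44

open Finset YX49 RS44

/-- the primes up to `x` whose class is not changed by `b` -/
def Un (x : ℕ) (a : Ch (prs x)) (b : ℕ → ℕ) : Finset ℕ :=
  (prs x).filter fun p => ∀ h : p ∈ prs x, b p ≡ (a ⟨p, h⟩ : ℕ) [MOD p]

theorem mem_Un {x : ℕ} {a : Ch (prs x)} {b : ℕ → ℕ} {p : ℕ} (hp : p ∈ prs x) :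
    p ∈ Un x a b ↔ b p ≡ (a ⟨p, hp⟩ : ℕ) [MOD p] := by
  unfold Un
  rw [mem_filter]
  exact ⟨fun h => h.2 hp, fun h => ⟨hp, fun _ => h⟩⟩

theorem mem_Qc' {w x : ℕ} {a : Ch (prs x)} {b : ℕ → ℕ} {p : ℕ} :
    p ∈ Qc w x a b ↔ p.Prime ∧ p ≤ x ∧ p ∉ Un x a b ∧ w < p := by
  rw [mem_Qc]
  constructor
  · rintro ⟨h1, h2, h3⟩
    refine ⟨(mem_prs.1 h1).1, (mem_prs.1 h1).2, ?_, h2⟩
    rw [mem_Un h1]
    exact h3 h1
  · rintro ⟨h1, h2, h3, h4⟩
    have h5 := mem_prs.2 ⟨h1, h2⟩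
    rw [mem_Un h5] at h3
    exact ⟨h5, h4, fun _ => h3⟩

theorem cov_N {x w y t1 : ℕ} {a : Ch (prs x)} {b : ℕ → ℕ}
    (hcov : ∀ m : ℕ, 1 ≤ m → m ≤ y → ∃ p : ℕ, p.Prime ∧ p ≤ x ∧ m ≡ b p [MOD p])
    (_ht1 : t1 ∈ range (primorial w)) (hp1 : ∀ p : ℕ, p.Prime → p ≤ w → t1 ≡ b p [MOD p]) :
    ∀ m ∈ Nt y w x t1 a, ∃ q ∈ Qc w x a b, m ≡ b q [MOD q] := by
  intro m hm
  obtain ⟨h1, h2⟩ := mem_sv.1 hm
  obtain ⟨h3, _, h4⟩ := mem_filter.1 h1
  obtain ⟨h0, hmy⟩ := mem_Ioc.1 h3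
  obtain ⟨p, hp, hpx, hmp⟩ := hcov m h0 hmy
  have hpp := mem_prs.2 ⟨hp, hpx⟩
  have hwp : w < p := by
    by_contra hcon
    have h5 : p ≤ w := not_lt.1 hcon
    exact h4 p (mem_prs.2 ⟨hp, h5⟩) (hmp.trans (hp1 p hp h5).symm)
  refine ⟨p, mem_Qc.2 ⟨hpp, hwp, fun _ hcon => ?_⟩, hmp⟩
  have h6 : p ∈ Rd w x 1 := mem_Rd.2 ⟨hp, hpx, hwp, by rw [Nat.dvd_one]; exact hp.ne_one⟩
  exact h2 ⟨p, h6⟩ (hmp.trans hcon)

theorem no_covU {x w y D n B s : ℕ} {S : Finset ℕ} {a : Ch (prs x)} {b : ℕ → ℕ}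
    {κ α β β1 γ η τ σ c l LD θ A CI δ0 η0 lam : ℝ}
    (hy : 0 < y) (hw2 : 2 ≤ w) (hwx : w ≤ x)
    (hUD : UDU y w D x (6 * θ) a) (hD : D = ⌊Real.exp LD⌋₊)
    (hcov : ∀ m : ℕ, 1 ≤ m → m ≤ y → ∃ p : ℕ, p.Prime ∧ p ≤ x ∧ m ≡ b p [MOD p])
    (hθ6 : 6 * θ ≤ 1) (hμ : LD ≤ 6 * θ / 4 * (w * Real.log w))
    (hκ : 0 ≤ κ) (hκ1 : κ ≤ 1) (hα : 0 < α) (hαγ : α ≤ γ) (hβ1 : β1 < β)
    (hSx : ∀ p ∈ S, (p : ℝ) ≤ (x : ℝ) ^ β1)
    (h2κ : 2 * κ * α < γ) (hη : 0 < η) (hητ : η ≤ τ) (hτ0 : 0 < τ)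
    (hn : 1 ≤ n) (hnB : n < B) (hB : (B : ℝ) ≤ γ / α * (1 + τ) * n)
    (hgap : GapAt κ n B η (κ / (γ / α - κ) + τ)) (hl : l = Real.log x)
    (hσ0 : 0 < σ) (hσβ : σ < β - β1) (hσγ : γ * (1 + τ) + σ ≤ β)
    (hLD : LD = β * l - σ * l) (hlw : c * l ≤ Real.log w) (hlwα : Real.log w ≤ α * l) (hc0 : 0 < c)
    (hcs : c * (8 * s) = σ) (hs : 1 ≤ s) (hxw : (x : ℝ) ^ c ≤ w) (hA : 0 ≤ A)
    (hdim : Dim x (Un x a b) S κ A c) (hAl : A + 1 ≤ c * Real.log (1 + η) * l)
    (hθ : θ * (s : ℝ) ^ 3 = δ0) (hCI : CI = 8 * β / σ + 1) (hδ0 : δ0 * (768 * CI ^ 3) = η0)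
    (hθ0 : 0 < θ) (hη0 : 0 < η0) (hτη : 8 * τ ≤ η0)
    (hlam1 : 1 ≤ lam) (hlam : lam * (1 - σ / (β - β1)) = 1 + τ) (hlam2 : (1 + τ) * lam ≤ 1 + η0 / 2)
    (hαS : ∀ p : ℕ, p.Prime → (x : ℝ) ^ α < p → p ≤ x → p ∈ Un x a b ∨ p ∈ S)
    (hS : ∑ p ∈ S, (max 1 (γ * l / (β * l - Real.log p))) ^ κ * (1 / (p : ℝ)) ≤
      (γ - 2 * κ * α) / (γ - κ * α) - η0) : False := by
  have hn0 : (0 : ℝ) < n := by exact_mod_cast hn
  have hn1 : (1 : ℝ) ≤ n := by exact_mod_cast hn
  have hs' : (1 : ℝ) ≤ s := by exact_mod_cast hs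
  have hw1 : (1 : ℝ) < w := by exact_mod_cast (by omega : 1 < w)
  have hlw0 : 0 < Real.log w := Real.log_pos hw1
  have hwx' : (w : ℝ) ≤ x := by exact_mod_cast hwx
  have hx0 : (0 : ℝ) < x := by linarith
  have hlwl : Real.log w ≤ l := by rw [hl]; exact Real.log_le_log (by linarith) hwx'
  have hl0 : 0 < l := by linarith
  have hγ0 : 0 < γ := by linarith
  have hγτ : 0 < γ * (1 + τ) := by positivity
  have hβ0 : 0 < β := by linarith
  have hB0 : (0 : ℝ) < B := by exact_mod_cast (by omega : 0 < B)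
  have hσl : 0 < σ * l := by positivity
  have htop : (B : ℝ) * (α * l) ≤ n * LD := by
    have h1 : (B : ℝ) * (α * l) ≤ γ / α * (1 + τ) * n * (α * l) :=
      mul_le_mul_of_nonneg_right hB (by positivity)
    have h2 : γ / α * (1 + τ) * n * (α * l) = n * l * (γ * (1 + τ)) := by field_simp
    have h3 : n * l * (γ * (1 + τ)) ≤ n * l * (β - σ) :=
      mul_le_mul_of_nonneg_left (by linarith) (by positivity)
    have h4 : n * l * (β - σ) = n * LD := by rw [hLD]; ring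
    linarith
  have hLDβ : LD ≤ β * l := by
    rw [hLD]
    linarith
  have hLD0 : 0 ≤ LD := by
    have h1 : 0 ≤ (β - σ) * l := mul_nonneg (by linarith) hl0.le
    have h2 : LD = (β - σ) * l := by rw [hLD]; ring
    linarith
  set I : ℕ := ⌊(n : ℝ) * LD / Real.log w⌋₊ with hI
  have hInn : 0 ≤ (n : ℝ) * LD / Real.log w := by positivity
  have hI1 : n * LD < (I + 1) * Real.log w := by
    have := Nat.lt_floor_add_one ((n : ℝ) * LD / Real.log w)
    rw [div_lt_iff₀ hlw0] at this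
    exact this
  have hBI : B ≤ I := by
    refine Nat.le_floor ?_
    rw [le_div_iff₀ hlw0]
    refine le_trans ?_ htop
    exact mul_le_mul_of_nonneg_left hlwα hB0.le
  have hlS : ∀ q ∈ Qc w x a b, q ∈ S → Real.log q ≤ β1 * l := by
    intro q hq hqS
    have h3 := (mem_Qc'.1 hq).1
    have h4 := Real.log_le_log (by exact_mod_cast h3.pos) (hSx q hqS)
    rwa [Real.log_rpow hx0, ← hl] at h4
  have hI2 : (I : ℝ) ≤ n * β / c := by
    have h1 : (I : ℝ) ≤ n * LD / Real.log w := Nat.floor_le hInn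
    refine h1.trans ?_
    rw [div_le_div_iff₀ hlw0 hc0]
    calc n * LD * c ≤ n * (β * l) * c := by
          refine mul_le_mul_of_nonneg_right ?_ hc0.le
          exact mul_le_mul_of_nonneg_left hLDβ hn0.le
      _ = n * β * (c * l) := by ring
      _ ≤ n * β * Real.log w := mul_le_mul_of_nonneg_left hlw (by positivity)
  have hI3 : ((I : ℝ) + 1) / n ≤ s * CI := by
    rw [div_le_iff₀ hn0]
    have h1 : n * β / c = s * (8 * β / σ) * n := by
      rw [← hcs]
      field_simp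
    have h3 : s * CI * (n : ℝ) = s * (8 * β / σ) * n + s * n := by rw [hCI]; ring
    have h4 : 1 ≤ (s : ℝ) * n := one_le_mul_of_one_le_of_one_le hs' hn1
    linarith
  have hCI0 : 0 < CI := by rw [hCI]; positivity
  have hE1b : 8 * (2 * (6 * θ)) * (((I : ℝ) + 1) / n) ^ 3 ≤ η0 / 8 := by
    calc 8 * (2 * (6 * θ)) * (((I : ℝ) + 1) / n) ^ 3 ≤ 8 * (2 * (6 * θ)) * (s * CI) ^ 3 := by
          refine mul_le_mul_of_nonneg_left ?_ (by positivity)
          exact pow_le_pow_left₀ (by positivity) hI3 3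
      _ = 96 * (θ * (s : ℝ) ^ 3) * CI ^ 3 := by ring
      _ = 96 * δ0 * CI ^ 3 := by rw [hθ]
      _ = δ0 * (768 * CI ^ 3) / 8 := by ring
      _ = η0 / 8 := by rw [hδ0]
  have hκα : 0 < γ - κ * α := by
    have : 0 ≤ κ * α := by positivity
    linarith
  set T : ℝ := (γ - 2 * κ * α) / (γ - κ * α) with hT
  have hT1 : T ≤ 1 := by
    rw [hT, div_le_one hκα]
    have : 0 ≤ κ * α := by positivity
    linarith
  have hgT : κ / (γ / α - κ) = 1 - T := by
    have h1 : γ / α - κ = (γ - κ * α) / α := by field_simp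
    rw [h1, hT, eq_sub_iff_add_eq, div_div_eq_mul_div, ← add_div]
    rw [div_eq_one_iff_eq hκα.ne']
    ring
  -- the primes of the adversary are below `x ^ α`
  have hΛ : ∀ p ∈ Qc w x a b, p ∉ S → Real.log p ≤ α * l := by
    intro p hp hpS
    obtain ⟨h3, h4, h5, _⟩ := mem_Qc'.1 hp
    have hp0 : (0 : ℝ) < p := by exact_mod_cast h3.pos
    by_contra hcon
    have h7 : (x : ℝ) ^ α < p := by
      rw [Real.rpow_def_of_pos hx0, ← Real.exp_log hp0, ← hl]
      refine Real.exp_lt_exp.mpr ?_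
      have := not_le.1 hcon
      linarith
    rcases hαS p h3 h7 h4 with h6 | h6
    · exact h5 h6
    · exact hpS h6
  have hmax0 : ∀ p : ℕ, 0 ≤ (max 1 (γ * l / (β * l - Real.log p))) ^ κ * (1 / (p : ℝ)) := fun p => by
    have : (0 : ℝ) ≤ max 1 (γ * l / (β * l - Real.log p)) := zero_le_one.trans (le_max_left _ _)
    positivity
  have hSnn : 0 ≤ T - η0 := le_trans (sum_nonneg fun p _ => hmax0 p) hS
  obtain ⟨t1, ht1, hp1⟩ := pattern b w
  have hVX : 0 < (y : ℝ) * (VV (prs w) * VV (Rd w x 1)) := by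
    have h1 : 0 < VV (prs w) := VV_pos fun p hp => (mem_prs.1 hp).1
    have h2 : 0 < VV (Rd w x 1) := VV_pos fun p hp => (mem_Rd.1 hp).1
    have h3 : (0 : ℝ) < y := by exact_mod_cast hy
    positivity
  have hud := ud_of (b := b) hUD ht1 (fun d hd => by rw [hD]; exact Nat.le_floor hd)
    (by positivity) hθ6 hw2 hμ
  refine contraN (x := x) (w := w) (n := n) (B := B) (I := I) (N := Nt y w x t1 a)
    (Q := Qc w x a b) (S := S) (b := b) (κ := κ) (δ := 2 * (6 * θ)) (η := η) (LD := LD)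
    (g := κ / (γ / α - κ) + τ) (Λ := α * l) (X := y * (VV (prs w) * VV (Rd w x 1)))
    (ρ := fun q => lam * max 1 (γ * l / (β * l - Real.log q)))
    hVX hw2 (fun p hp => ⟨(mem_Qc'.1 hp).1, (mem_Qc'.1 hp).2.2.2, (mem_Qc'.1 hp).2.1⟩) hud
    (cov_N hcov ht1 hp1)
    (by positivity) hη.le hκ hn hnB hBI hI1 hgap hLD0 (fun q hq hqS => (hlS q hq hqS).trans (by
      have h1 : β1 * l ≤ (β - σ) * l := mul_le_mul_of_nonneg_right (by linarith) hl0.le
      have h2 : LD = (β - σ) * l := by rw [hLD]; ring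
      linarith)) hΛ htop
    ?_ ?_ ?_ ?_
  · intro z Λ ρ hρ hΛ'
    refine dm_of (R := Un x a b) (S := S) (A := A) (c := c) hdim hA hxw hw2 hwx hκ hη.le ?_ ?_
      z Λ ρ hρ hΛ'
    · have h1 : Real.log w ≤ w := by
        have := Real.log_le_sub_one_of_pos (show (0 : ℝ) < w by linarith)
        linarith
      have h2 : 1 / (w : ℝ) ≤ 1 / Real.log w := one_div_le_one_div_of_le hlw0 h1
      have h3 : A / Real.log w + 1 / Real.log w = (A + 1) / Real.log w := by ring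
      have hlη : 0 ≤ Real.log (1 + η) := Real.log_nonneg (by linarith)
      have h4 : (A + 1) / Real.log w ≤ Real.log (1 + η) := by
        rw [div_le_iff₀ hlw0]
        have h5 : Real.log (1 + η) * (c * l) ≤ Real.log (1 + η) * Real.log w :=
          mul_le_mul_of_nonneg_left hlw hlη
        have h6 : c * Real.log (1 + η) * l = Real.log (1 + η) * (c * l) := by ring
        linarith
      linarith
    · intro p hp
      obtain ⟨h1, h2⟩ := mem_filter.1 hp
      obtain ⟨h3, h4, h5, h6⟩ := mem_Qc'.1 h1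
      exact ⟨h3, h6, h4, h5, h2⟩
  · intro q _ _
    exact one_le_mul_of_one_le_of_one_le hlam1 (le_max_left _ _)
  · intro q hq hqS
    show (B : ℝ) * (α * l) ≤ lam * max 1 (γ * l / (β * l - Real.log q)) * (n * (LD - Real.log q))
    have hlq := hlS q hq hqS
    set t : ℝ := β * l - Real.log q with ht
    have ht1 : (β - β1) * l ≤ t := by
      have : (β - β1) * l = β * l - β1 * l := by ring
      linarith
    have hβl : 0 < (β - β1) * l := by
      have : 0 < β - β1 := by linarith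
      positivity
    have ht0 : 0 < t := by linarith
    have hσt : σ * l ≤ σ / (β - β1) * t := by
      have h5 : σ * l = σ / (β - β1) * ((β - β1) * l) := by
        have : β - β1 ≠ 0 := by linarith
        field_simp
      rw [h5]
      refine mul_le_mul_of_nonneg_left ht1 ?_
      exact div_nonneg hσ0.le (by linarith)
    have hLDt : (1 - σ / (β - β1)) * t ≤ LD - Real.log q := by
      have h5 : LD - Real.log q = t - σ * l := by rw [hLD, ht]; ring
      have h6 : (1 - σ / (β - β1)) * t = t - σ / (β - β1) * t := by ring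
      linarith
    have hu0 : 0 ≤ 1 - σ / (β - β1) := by
      rw [sub_nonneg, div_le_one (by linarith)]
      exact hσβ.le
    calc (B : ℝ) * (α * l) ≤ γ / α * (1 + τ) * n * (α * l) :=
          mul_le_mul_of_nonneg_right hB (by positivity)
      _ = n * (γ * l * (1 + τ)) := by field_simp
      _ = lam * (γ * l / t) * (n * ((1 - σ / (β - β1)) * t)) := by
          rw [← hlam]
          field_simp
      _ ≤ lam * (γ * l / t) * (n * (LD - Real.log q)) := by
          refine mul_le_mul_of_nonneg_left ?_ (by positivity)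
          exact mul_le_mul_of_nonneg_left hLDt hn0.le
      _ ≤ _ := by
          refine mul_le_mul_of_nonneg_right ?_ ?_
          · exact mul_le_mul_of_nonneg_left (le_max_right _ _) (by linarith)
          · refine mul_nonneg hn0.le (le_trans ?_ hLDt)
            exact mul_nonneg hu0 ht0.le
  · have hW : ∑ q ∈ (Qc w x a b).filter (fun p => p ∈ S),
        (1 + η) * (lam * max 1 (γ * l / (β * l - Real.log q))) ^ κ * (1 / (q : ℝ)) ≤ T - η0 / 2 := by
      have hpt : ∀ q : ℕ, (1 + η) * (lam * max 1 (γ * l / (β * l - Real.log q))) ^ κ * (1 / (q : ℝ)) ≤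
          (1 + τ) * lam * ((max 1 (γ * l / (β * l - Real.log q))) ^ κ * (1 / (q : ℝ))) := by
        intro q
        have hm : (0 : ℝ) ≤ max 1 (γ * l / (β * l - Real.log q)) :=
          zero_le_one.trans (le_max_left _ _)
        have h1 : lam ^ κ ≤ lam := by
          calc lam ^ κ ≤ lam ^ (1 : ℝ) := Real.rpow_le_rpow_of_exponent_le hlam1 hκ1
            _ = lam := Real.rpow_one _
        rw [Real.mul_rpow (by linarith) hm]
        have h2 : (1 + η) * lam ^ κ ≤ (1 + τ) * lam :=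
          mul_le_mul (by linarith) h1 (by positivity) (by linarith)
        calc (1 + η) * (lam ^ κ * (max 1 (γ * l / (β * l - Real.log q))) ^ κ) * (1 / (q : ℝ)) =
              (1 + η) * lam ^ κ * ((max 1 (γ * l / (β * l - Real.log q))) ^ κ * (1 / (q : ℝ))) := by
              ring
          _ ≤ _ := mul_le_mul_of_nonneg_right h2 (hmax0 q)
      calc ∑ q ∈ (Qc w x a b).filter (fun p => p ∈ S),
          (1 + η) * (lam * max 1 (γ * l / (β * l - Real.log q))) ^ κ * (1 / (q : ℝ))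
          ≤ ∑ q ∈ (Qc w x a b).filter (fun p => p ∈ S),
            (1 + τ) * lam * ((max 1 (γ * l / (β * l - Real.log q))) ^ κ * (1 / (q : ℝ))) :=
            sum_le_sum fun q _ => hpt q
        _ ≤ ∑ q ∈ S, (1 + τ) * lam * ((max 1 (γ * l / (β * l - Real.log q))) ^ κ * (1 / (q : ℝ))) := by
            refine sum_le_sum_of_subset_of_nonneg (fun q hq => (mem_filter.1 hq).2) fun q _ _ => ?_
            exact mul_nonneg (by positivity) (hmax0 q)
        _ = (1 + τ) * lam * ∑ q ∈ S, ((max 1 (γ * l / (β * l - Real.log q))) ^ κ * (1 / (q : ℝ))) := by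
            rw [mul_sum]
        _ ≤ (1 + η0 / 2) * (T - η0) := by
            refine mul_le_mul hlam2 hS (sum_nonneg fun p _ => hmax0 p) (by linarith)
        _ ≤ T - η0 / 2 := by nlinarith
    show _ + _ + ∑ q ∈ (Qc w x a b).filter (fun p => p ∈ S),
        (1 + η) * (lam * max 1 (γ * l / (β * l - Real.log q))) ^ κ * (1 / (q : ℝ)) < 1
    rw [hgT]
    linarith

end HD44
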