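import Pool.Agent.HD44.Uni3

/-!
# Random classes for all primes, modified afterwards on a set of small dimension: the theorem
-/

namespace HD44

open Finset YX49 RS44

open Classical in
theorem tuni (κ α β γ ζ A : ℝ) (hκ : 0 ≤ κ) (hκ1 : κ ≤ 1) (hα : 0 < α) (hαγ : α ≤ γ)
    (hγβ : γ < β) (h2κ : 2 * κ * α < γ) (hζ : 0 < ζ) (hA : 0 ≤ A) :
    ∃ c : ℝ, 0 < c ∧ ∃ x0 : ℕ, ∀ x : ℕ, x0 ≤ x →
      ((univ.filter fun a : Ch (prs x) => ∃ (b : ℕ → ℕ) (S : Finset ℕ),
        (∀ p ∈ S, (p : ℝ) ≤ (x : ℝ) ^ (β - ζ)) ∧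
        (∀ p : ℕ, p.Prime → (x : ℝ) ^ α < p → p ≤ x → p ∈ Un x a b ∨ p ∈ S) ∧
        (∑ p ∈ S, (max 1 (γ * Real.log x / (β * Real.log x - Real.log p))) ^ κ * (1 / (p : ℝ)) ≤
          (γ - 2 * κ * α) / (γ - κ * α) - ζ) ∧
        Dim x (Un x a b) S κ A c ∧
        ∀ m : ℕ, 1 ≤ m → m ≤ ⌊(x : ℝ) ^ β⌋₊ → ∃ p : ℕ, p.Prime ∧ p ≤ x ∧ m ≡ b p [MOD p]).card : ℝ) ≤
        Real.exp (-(x : ℝ) ^ c) * ∏ p ∈ prs x, (p : ℝ) := by
  have hγ0 : 0 < γ := by linarith
  have hβ0 : 0 < β := by linarith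
  set η0 : ℝ := min ζ 1 with hη0d
  have hη0 : 0 < η0 := lt_min hζ one_pos
  have hη01 : η0 ≤ 1 := min_le_right _ _
  have hη0ζ : η0 ≤ ζ := min_le_left _ _
  set τ : ℝ := min (η0 / 16) ((β - γ) / (2 * γ)) with hτd
  have hτ0 : 0 < τ := lt_min (by positivity) (div_pos (by linarith) (by positivity))
  have hτη : 16 * τ ≤ η0 := by
    have : τ ≤ η0 / 16 := min_le_left _ _
    linarith
  have hτγ : γ * τ ≤ (β - γ) / 2 := by
    have h1 : τ ≤ (β - γ) / (2 * γ) := min_le_right _ _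
    rw [le_div_iff₀ (by positivity)] at h1
    linarith
  have hτ1 : τ ≤ 1 := by linarith
  set σ : ℝ := min (min (ζ * η0 / 16) ((β - γ) / 2)) (min α (1 / 2)) with hσd
  have hσ0 : 0 < σ := lt_min (lt_min (by positivity) (by linarith)) (lt_min hα (by norm_num))
  have hσβ : σ ≤ ζ * η0 / 16 := (min_le_left _ _).trans (min_le_left _ _)
  have hσγ : σ ≤ (β - γ) / 2 := (min_le_left _ _).trans (min_le_right _ _)
  have hσα : σ ≤ α := (min_le_right _ _).trans (min_le_left _ _)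
  have hσ1 : σ ≤ 1 / 2 := (min_le_right _ _).trans (min_le_right _ _)
  set u : ℝ := σ / ζ with hu
  have hu0 : 0 < u := by positivity
  have hu1 : u ≤ η0 / 16 := by
    rw [hu, div_le_iff₀ hζ]
    linarith
  set lam : ℝ := (1 + τ) / (1 - u) with hlamd
  have h1u : 0 < 1 - u := by linarith
  have hlamu : lam * (1 - u) = 1 + τ := by rw [hlamd]; field_simp
  have hlam1 : 1 ≤ lam := by
    rw [hlamd, le_div_iff₀ h1u]
    linarith
  have hlam2 : (1 + τ) * lam ≤ 1 + η0 / 2 := by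
    rw [hlamd, ← mul_div_assoc, div_le_iff₀ h1u]
    have h1 : (1 + τ) * (1 + τ) ≤ (1 + η0 / 16) * (1 + η0 / 16) :=
      mul_le_mul (by linarith) (by linarith) (by linarith) (by linarith)
    have h2 : (1 + η0 / 2) * (1 - η0 / 16) ≤ (1 + η0 / 2) * (1 - u) :=
      mul_le_mul_of_nonneg_left (by linarith) (by linarith)
    have h3 : (1 + η0 / 16) * (1 + η0 / 16) ≤ (1 + η0 / 2) * (1 - η0 / 16) := by nlinarith
    linarith
  obtain ⟨n, B, η, hn1, hnB, hBs, hηpos, hητ, hgap⟩ := gapOK' (κ := κ) (s := γ / α) (τ := τ) hκ hκ1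
    (by rw [le_div_iff₀ hα]; linarith) (by rw [lt_div_iff₀ hα]; linarith) hτ0 hτ1
  set CI : ℝ := 8 * β / σ + 1 with hCI
  have hCI1 : 1 ≤ CI := by
    have : 0 ≤ 8 * β / σ := by positivity
    linarith
  set δ0 : ℝ := η0 / (768 * CI ^ 3) with hδ0
  have hδ00 : 0 < δ0 := by positivity
  have hδ0e : δ0 * (768 * CI ^ 3) = η0 := by rw [hδ0]; field_simp
  have hδ06 : 6 * δ0 ≤ 1 := by
    have h1 : δ0 ≤ 1 / 768 := by
      rw [hδ0]
      refine div_le_div₀ zero_le_one hη01 (by norm_num) ?_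
      have : (1 : ℝ) ≤ CI ^ 3 := one_le_pow₀ hCI1
      linarith
    linarith
  have hδ01 : δ0 ≤ 1 := by linarith
  obtain ⟨s, hs1, hF0⟩ := fund3 δ0 hδ00 hδ01
  have hs' : (1 : ℝ) ≤ s := by exact_mod_cast hs1
  set θ : ℝ := δ0 / (s : ℝ) ^ 3 with hθ
  have hθ0 : 0 < θ := by positivity
  have hθs : θ * (s : ℝ) ^ 3 = δ0 := by rw [hθ]; field_simp
  have hθδ : θ ≤ δ0 := by
    rw [hθ]
    exact div_le_self hδ00.le (one_le_pow₀ hs')
  have hθ1 : θ ≤ 1 := hθδ.trans hδ01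
  have hθ6 : 6 * θ ≤ 1 := by linarith
  have hbad := bad_udu hs1 hθ0 hθ1 hF0
  set c : ℝ := σ / (8 * s) with hc
  have hc0 : 0 < c := by positivity
  have hcs : c * (8 * s) = σ := by rw [hc]; field_simp
  have hcσ : c * 8 ≤ σ := by
    have : c * 8 ≤ c * (8 * s) := mul_le_mul_of_nonneg_left (by linarith) hc0.le
    linarith
  have hc1 : c ≤ 1 / 16 := by linarith
  obtain ⟨c3, hc3, hmert⟩ := mert_lower
  have hcpp := Pool.Agent.E456.cpp_nonneg
  have hlog20 : 0 < Real.log 2 := Real.log_pos (by norm_num)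
  set Lr : ℝ := |Real.log (2 / c)| + (8 + Pool.Agent.E456.cpp) / Real.log 2 with hLr
  have hLr0 : 0 < Lr := by positivity
  set ε2 : ℝ := min (1 / 2) (θ / (4 * Lr)) with hε2
  have hε20 : 0 < ε2 := lt_min (by norm_num) (by positivity)
  have hε21 : ε2 ≤ 1 / 2 := min_le_left _ _
  have hε22 : ε2 ≤ θ / (4 * Lr) := min_le_right _ _
  set K : ℝ := 5 / (θ * ε2 * c3 / 4) + 2 * β with hK
  have hK0 : 0 < K := by positivity
  have hlη : 0 < Real.log (1 + η) := Real.log_pos (by linarith)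
  set U1 : ℝ := 4 / c with hU1
  set U2 : ℝ := 4 / (θ * σ) with hU2
  set U3 : ℝ := K / (2 * c ^ 2) with hU3
  set U4 : ℝ := (A + 1) / (c * Real.log (1 + η)) with hU4
  have hU10 : 0 < U1 := by positivity
  have hU20 : 0 < U2 := by positivity
  have hU30 : 0 < U3 := by positivity
  set U5 : ℝ := β / (θ * c ^ 2) with hU5
  have hU40 : 0 < U4 := by positivity
  have hU50 : 0 < U5 := by positivity
  refine ⟨c, hc0, ⌈Real.exp (U1 + U2 + U3 + U4 + U5)⌉₊ + 2, fun x hx => ?_⟩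
  have hx2 : 2 ≤ x := by omega
  have hx0 : (0 : ℝ) < x := by exact_mod_cast (by omega : 0 < x)
  set l : ℝ := Real.log x with hl
  have hUl : U1 + U2 + U3 + U4 + U5 ≤ l := by
    rw [hl, ← Real.log_exp (U1 + U2 + U3 + U4 + U5)]
    refine Real.log_le_log (Real.exp_pos _) ?_
    have h1 : Real.exp (U1 + U2 + U3 + U4 + U5) ≤ (⌈Real.exp (U1 + U2 + U3 + U4 + U5)⌉₊ : ℝ) := Nat.le_ceil _
    have h2 : ((⌈Real.exp (U1 + U2 + U3 + U4 + U5)⌉₊ : ℕ) : ℝ) ≤ (x : ℝ) := by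
      exact_mod_cast (by omega : ⌈Real.exp (U1 + U2 + U3 + U4 + U5)⌉₊ ≤ x)
    linarith
  have hl0 : 0 < l := by linarith
  have hcl : 4 ≤ c * l := by
    have h1 : U1 ≤ l := by linarith
    rw [hU1, div_le_iff₀ hc0] at h1
    linarith
  have hθσ : 4 ≤ θ * (σ * l) := by
    have h1 : U2 ≤ l := by linarith
    rw [hU2, div_le_iff₀ (by positivity)] at h1
    linarith
  have hKl : K ≤ 2 * c ^ 2 * l := by
    have h1 : U3 ≤ l := by linarith
    rw [hU3, div_le_iff₀ (by positivity)] at h1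
    linarith
  have hAl : A + 1 ≤ c * Real.log (1 + η) * l := by
    have h1 : U4 ≤ l := by linarith
    rw [hU4, div_le_iff₀ (by positivity)] at h1
    linarith
  have hβl : β ≤ θ * c ^ 2 * l := by
    have h1 : U5 ≤ l := by linarith
    rw [hU5, div_le_iff₀ (by positivity)] at h1
    linarith
  have hpow : ∀ r : ℝ, (x : ℝ) ^ r = Real.exp (r * l) := fun r => by
    rw [Real.rpow_def_of_pos hx0, mul_comm]
  set LD : ℝ := β * l - σ * l with hLD
  have hLD0 : 0 ≤ LD := by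
    have h1 : σ * l ≤ β * l := mul_le_mul_of_nonneg_right (by linarith) hl0.le
    linarith
  obtain ⟨hw2, hwx, hwz, hxw, hlw, hzy, hyD, hD0, hy0⟩ := sizes2 (β := β) (σ := σ) (c := c)
    (θ := θ) (LD := LD) (l := l) hx2 hs1 hl hcs hcl hc1 hβ0 hLD hLD0 hθ0 hθσ
  have hlwα : Real.log ⌊Real.exp (2 * (c * l))⌋₊ ≤ α * l := by
    have h1 := log_floor_exp_le (t := 2 * (c * l)) (by positivity)
    have h2 : c * l ≤ α / 8 * l := mul_le_mul_of_nonneg_right (by linarith) hl0.le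
    have h3 : 0 < α * l := by positivity
    linarith
  set w : ℕ := ⌊Real.exp (2 * (c * l))⌋₊ with hw
  set z : ℕ := ⌊Real.exp (4 * (c * l))⌋₊ with hz
  set D : ℕ := ⌊Real.exp LD⌋₊ with hD
  set y : ℕ := ⌊(x : ℝ) ^ β⌋₊ with hy
  set E : ℝ := Real.exp (2 * (c * l)) with hE
  have hEE : E * E = Real.exp (4 * (c * l)) := by
    rw [hE, ← Real.exp_add]
    congr 1
    ring
  have hE1 : 1 ≤ E := Real.one_le_exp (by positivity)
  have hRl : ∀ p ∈ (prs x).filter (fun p => ¬ p ≤ z), p.Prime ∧ Real.exp (c * Real.log x) < p ∧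
      p ≤ x := by
    intro p hp
    obtain ⟨h1, h2⟩ := mem_filter.1 hp
    refine ⟨(mem_prs.1 h1).1, ?_, (mem_prs.1 h1).2⟩
    rw [hpow] at hxw
    have h3 : (w : ℝ) < p := by exact_mod_cast lt_of_le_of_lt hwz (not_le.1 h2)
    exact lt_of_le_of_lt hxw h3
  have hμ : LD ≤ 6 * θ / 4 * (w * Real.log w) := by
    have h1 : Real.exp (c * l) ≤ w := by rw [← hpow]; exact hxw
    have h2 : c * l ≤ Real.exp (c * l) := by
      have := Real.add_one_le_exp (c * l)
      linarith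
    have h3 : c * l * (c * l) ≤ w * Real.log w :=
      mul_le_mul (h2.trans h1) hlw (by positivity) (by positivity)
    have h4 : LD ≤ β * l := by
      have : 0 < σ * l := by positivity
      rw [hLD]
      linarith
    have h5 : β * l ≤ θ * c ^ 2 * l * l := mul_le_mul_of_nonneg_right hβl hl0.le
    have h6 : θ * (c * l * (c * l)) ≤ θ * (w * Real.log w) := mul_le_mul_of_nonneg_left h3 hθ0.le
    have h7 : 0 ≤ θ * (w * Real.log w) := le_trans (by positivity) h6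
    have h8 : θ * c ^ 2 * l * l = θ * (c * l * (c * l)) := by ring
    linarith
  have hsumR := sum_R hc0 (by linarith) (by rw [← hl]; linarith) hRl
  rw [← hLr] at hsumR
  have hEK : K * l ≤ E := by
    have h1 := Real.quadratic_le_exp_of_nonneg (x := 2 * (c * l)) (by positivity)
    rw [← hE] at h1
    have h2 : K * l ≤ 2 * c ^ 2 * l * l := mul_le_mul_of_nonneg_right hKl hl0.le
    have h3 : (2 * (c * l)) ^ 2 / 2 = 2 * c ^ 2 * l * l := by ring
    have h4 : 0 ≤ 2 * (c * l) := by positivity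
    linarith
  have hKsplit : K * l = 5 / (θ * ε2 * c3 / 4) * l + 2 * β * l := by rw [hK]; ring
  have hKa : 0 ≤ 5 / (θ * ε2 * c3 / 4) * l := by positivity
  have hKb : 0 ≤ 2 * β * l := by positivity
  have hF := expo2 (E := E) (l := l) (θ := θ) (e := ε2) (c3 := c3) (LD := LD) (ε := β - 1)
    (k := (x : ℝ) ^ c) (w := w) (z := z) (D := D) hl0 hE1 (Nat.floor_le (by linarith))
    (by rw [hEE, hz]; exact floor_half (Real.one_le_exp (by positivity)))
    (Nat.floor_le (Real.exp_pos _).le) (by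
      have : 0 < σ * l := by positivity
      rw [hLD]
      linarith) hθ0 hε20 hc3
    (by linarith) (by
      have : 2 * (1 + (β - 1)) * l = 2 * β * l := by ring
      rw [this]
      linarith) (by
      rw [hpow, hE]
      refine Real.exp_le_exp.mpr ?_
      have : 0 ≤ c * l := by positivity
      linarith)
  have hmain := hbad x y z w D ε2 (c3 / l) (Real.exp (-(x : ℝ) ^ c))
    hwx (hw2.trans hwz) hwz hD0 hzy hyD hε20 hε21 (by
      have h1 : 4 * ε2 * ∑ p ∈ (prs x).filter (fun p => ¬ p ≤ z), 1 / (p : ℝ) ≤ 4 * ε2 * Lr :=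
        mul_le_mul_of_nonneg_left hsumR (by positivity)
      have h2 : 4 * ε2 * Lr ≤ 4 * (θ / (4 * Lr)) * Lr := by
        refine mul_le_mul_of_nonneg_right ?_ hLr0.le
        linarith
      have h3 : 4 * (θ / (4 * Lr)) * Lr = θ := by field_simp
      linarith) (by positivity) (hmert x hx2) hF
  refine le_trans (b := ((univ.filter fun a : Ch (prs x) => ¬ UDU y w D x (6 * θ) a).card : ℝ)) ?_
    (hmain.trans (le_of_eq (mul_comm _ _)))
  refine Nat.cast_le.2 (card_le_card fun a ha => ?_)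
  refine mem_filter.2 ⟨mem_univ _, fun hUD => ?_⟩
  obtain ⟨b, S, hSx, hRS, hS, hdim, hcov⟩ := (mem_filter.1 ha).2
  exact no_covU (x := x) (w := w) (y := y) (D := D) (n := n) (B := B) (s := s) (S := S)
    (a := a) (b := b) (κ := κ) (α := α) (β := β) (β1 := β - ζ) (γ := γ) (η := η) (τ := τ) (σ := σ)
    (c := c) (l := l) (LD := LD) (θ := θ) (A := A) (CI := CI) (δ0 := δ0) (η0 := η0) (lam := lam)
    hy0 hw2 hwx hUD hD hcov hθ6 hμ hκ hκ1 hα
    hαγ (by linarith) hSx h2κ hηpos hητ hτ0 hn1 hnB hBs hgap hl hσ0 (by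
      have : ζ * η0 ≤ ζ * 1 := mul_le_mul_of_nonneg_left hη01 hζ.le
      linarith) (by
      have : γ * (1 + τ) = γ + γ * τ := by ring
      linarith) hLD hlw hlwα hc0 hcs hs1 hxw hA hdim hAl hθs hCI hδ0e hθ0 hη0 (by linarith)
    hlam1 (by rw [sub_sub_cancel]; exact hlamu) hlam2 hRS (hS.trans (by linarith))

end HD44
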